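import Pool.Agent.H1.RO.Glue

/-!
The random graph order and its dimension; transfer to `Pr`.
-/

set_option autoImplicit false
set_option linter.unusedSectionVars false

namespace Pool.Agent.H1.RO

open Finset Pool.Agent.H1.CC Filter

open Classical in
/-- The probability that the binomial random graph on `n` vertices, in which each pair is joined
independently with probability `p`, has the property `P`. -/
noncomputable def gnpProb (n : ℕ) (p : ℝ) (P : SimpleGraph (Fin n) → Prop) : ℝ :=
  ∑ G : SimpleGraph (Fin n),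
    if P G then p ^ G.edgeSet.ncard * (1 - p) ^ (n.choose 2 - G.edgeSet.ncard) else 0

/-- The graph order of `G`: `i` is below `j` when `G` contains a path from `i` to `j` whose
vertices increase (the transitive closure of the increasing edges, made reflexive). -/
def graphOrder {n : ℕ} (G : SimpleGraph (Fin n)) : Fin n → Fin n → Prop :=
  Relation.ReflTransGen fun i j => i < j ∧ G.Adj i j

/-- The dimension of an order: the least number of linear orders whose intersection it is. -/
noncomputable def dimension {V : Type*} (le : V → V → Prop) : ℕ :=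
  sInf {k : ℕ | ∃ L : Fin k → V → V → Prop, IsRealiser le L}

section transfer

/-- the graph with edge set `T` -/
def gr {n : ℕ} (T : Finset (Sym2 (Fin n))) : SimpleGraph (Fin n) :=
  SimpleGraph.fromEdgeSet (T : Set (Sym2 (Fin n)))

variable {n : ℕ}

lemma gr_adj {T : Finset (Sym2 (Fin n))} {u v : Fin n} :
    (gr T).Adj u v ↔ s(u, v) ∈ T ∧ u ≠ v := by
  unfold gr
  rw [SimpleGraph.fromEdgeSet_adj, Finset.mem_coe]

lemma gr_edgeSet {T : Finset (Sym2 (Fin n))} (hT : T ⊆ allE (Fin n)) :
    (gr T).edgeSet = (T : Set (Sym2 (Fin n))) := by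
  ext e
  induction e using Sym2.ind with
  | _ u v =>
    rw [SimpleGraph.mem_edgeSet, gr_adj, Finset.mem_coe]
    constructor
    · exact fun h => h.1
    · exact fun h => ⟨h, mem_allE.1 (hT h)⟩

lemma graphOrder_gr (T : Finset (Sym2 (Fin n))) : graphOrder (gr T) = gle T := by
  unfold graphOrder
  have : (fun i j : Fin n => i < j ∧ (gr T).Adj i j) = fun x y => x < y ∧ s(x, y) ∈ T := by
    funext i j
    rw [gr_adj]
    apply propext
    constructor
    · exact fun h => ⟨h.1, h.2.1⟩
    · exact fun h => ⟨h.1, h.2, h.1.ne⟩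
  rw [this]
  rfl

lemma gnpProb_eq (n : ℕ) (p : ℝ) (P : SimpleGraph (Fin n) → Prop) :
    gnpProb n p P = Pr p (allE (Fin n)) (fun T => P (gr T)) := by
  classical
  unfold gnpProb Pr Ex
  symm
  apply Finset.sum_nbij' (fun T => gr T) (fun G => (allE (Fin n)).filter fun e => e ∈ G.edgeSet)
  · intro T _; exact Finset.mem_univ _
  · intro G _
    exact Finset.mem_powerset.2 (Finset.filter_subset _ _)
  · intro T hT
    have hT' := Finset.mem_powerset.1 hT
    ext e
    rw [Finset.mem_filter, gr_edgeSet hT', Finset.mem_coe]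
    exact ⟨fun h => h.2, fun h => ⟨hT' h, h⟩⟩
  · intro G _
    ext u v
    rw [gr_adj, Finset.mem_filter, mem_allE, SimpleGraph.mem_edgeSet]
    exact ⟨fun h => h.1.2, fun h => ⟨⟨h.ne, h⟩, h.ne⟩⟩
  · intro T hT
    have hT' := Finset.mem_powerset.1 hT
    rw [gr_edgeSet hT', Set.ncard_coe_finset, Finset.prod_ite, Finset.prod_const,
      Finset.prod_const]
    have h1 : (allE (Fin n)).filter (fun e => e ∈ T) = T := by
      ext e
      rw [Finset.mem_filter]
      exact ⟨fun h => h.2, fun h => ⟨hT' h, h⟩⟩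
    have h2 : (allE (Fin n)).filter (fun e => ¬ e ∈ T) = allE (Fin n) \ T := by
      ext e
      rw [Finset.mem_filter, Finset.mem_sdiff]
    have h3 : (allE (Fin n) \ T).card = n.choose 2 - T.card := by
      rw [Finset.card_sdiff_of_subset hT']
      congr 1
      unfold allE
      rw [card_ins, Finset.card_univ, Fintype.card_fin]
    rw [h1, h2, h3]
    beta_reduce
    by_cases h : P (gr T)
    · rw [ind_of h, if_pos h, mul_one]
    · rw [ind_not_of h, if_neg h, mul_zero]

end transfer

lemma le_dimension {n : ℕ} {T : Finset (Sym2 (Fin n))} {x : ℝ} (h : ¬ Small T x) :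
    x ≤ (dimension (graphOrder (gr T)) : ℝ) := by
  rw [graphOrder_gr]
  by_contra hcon
  push Not at hcon
  exact h ⟨dimension (gle T), hcon, Nat.sInf_mem (exists_real T)⟩

lemma dimension_le {n : ℕ} {T : Finset (Sym2 (Fin n))} {y : ℝ} (h : Has T y) :
    (dimension (graphOrder (gr T)) : ℝ) ≤ y := by
  rw [graphOrder_gr]
  obtain ⟨k, hk, hL⟩ := h
  refine le_trans ?_ hk
  exact_mod_cast Nat.sInf_le hL

lemma tendsto_one_of {f : ℕ → ℝ} (h1 : ∀ᶠ n : ℕ in atTop, f n ≤ 1)
    (h : ∀ δ : ℝ, 0 < δ → ∀ᶠ n : ℕ in atTop, 1 - δ ≤ f n) : Tendsto f atTop (nhds 1) := by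
  rw [Metric.tendsto_atTop]
  intro ε hε
  obtain ⟨N, hN⟩ := eventually_atTop.1 (h1.and (h (ε / 2) (by linarith)))
  refine ⟨N, fun n hn => ?_⟩
  obtain ⟨a1, a2⟩ := hN n hn
  rw [Real.dist_eq, abs_lt]
  constructor <;> linarith

lemma p_range {c : ℕ → ℝ} (hc : ∀ᶠ n : ℕ in atTop, 1 ≤ c n ∧ c n ≤ Real.log n) :
    ∀ᶠ n : ℕ in atTop, 0 ≤ c n / n ∧ c n / n ≤ 1 := by
  filter_upwards [hc, eventually_ge_atTop 1] with n h1 h2
  have hn : (0:ℝ) < n := by exact_mod_cast h2
  have hlog : Real.log n ≤ n := by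
    have := Real.log_le_sub_one_of_pos hn
    linarith
  refine ⟨div_nonneg (by linarith [h1.1]) hn.le, ?_⟩
  rw [div_le_one hn]
  linarith [h1.2]

end Pool.Agent.H1.RO
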