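import Pool.Agent.H1.RO.Good
import Pool.Agent.H1.RO.Fin

/-!
Asymptotics for the upper bound, small `c`.
-/

set_option autoImplicit false
set_option linter.unusedSectionVars false

namespace Pool.Agent.H1.RO

open Finset Pool.Agent.H1.CC Filter

/-- parameters -/
noncomputable def pd (L c : ℝ) : ℕ := ⌈L / (8 * Real.log (4 * c))⌉₊
noncomputable def ph (L c : ℝ) : ℕ := ⌊L / (200 * Real.log (4 * c))⌋₊
noncomputable def ps (L c : ℝ) : ℕ := 4 * (pd L c + 5 * ph L c + 1)

lemma log_four_c {c : ℝ} (hc : 1 ≤ c) : 1 ≤ Real.log (4 * c) := by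
  rw [Real.le_log_iff_exp_le (by linarith)]
  have := Real.exp_one_lt_d9
  linarith

/-- bound for the error term -/
lemma errG_le {n : ℕ} (hn : 3 ≤ n) {c : ℝ} (hc : 1 ≤ c)
    (hcl : 402 * Real.log (4 * c) + 7 ≤ Real.log (Real.log n)) :
    errG n c ((4 * c) ^ 24) (pd (Real.log n) c) (ph (Real.log n) c) (ps (Real.log n) c) ≤
      3 / n + (Real.log n + 9) ^ 2 * Real.log n * Real.exp (-(2 / 5 * Real.log n)) := by
  set L := Real.log n with hL
  set ℓ := Real.log (4 * c) with hℓ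
  have hn0 : (0:ℝ) < n := by
    have : 0 < n := by omega
    exact_mod_cast this
  have hn1 : (1:ℝ) ≤ n := by
    have : 1 ≤ n := by omega
    exact_mod_cast this
  have hℓ1 : 1 ≤ ℓ := log_four_c hc
  have hℓ0 : 0 < ℓ := by linarith
  have hL1 : 1 < L := by
    rw [hL, Real.lt_log_iff_exp_lt hn0]
    have h1 := Real.exp_one_lt_d9
    have h2 : (3:ℝ) ≤ n := by exact_mod_cast hn
    linarith
  have hL0 : 0 < L := by linarith
  have hnL : (n:ℝ) = Real.exp L := by rw [hL, Real.exp_log hn0]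
  have hc0 : 0 < c := by linarith
  have h4c : (4 * c) = Real.exp ℓ := by rw [hℓ, Real.exp_log (by linarith)]
  set LL := Real.log L with hLL
  have hLexp : L = Real.exp LL := by rw [hLL, Real.exp_log hL0]
  set d := pd L c with hd
  set h := ph L c with hh
  set s := ps L c with hs
  have hd1 : L / (8 * ℓ) ≤ d := Nat.le_ceil _
  have hd2 : (d:ℝ) ≤ L / (8 * ℓ) + 1 := (Nat.ceil_lt_add_one (by positivity)).le
  have hh1 : L / (200 * ℓ) ≤ (h:ℝ) + 1 := (Nat.lt_floor_add_one _).le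
  have hh2 : (h:ℝ) ≤ L / (200 * ℓ) := Nat.floor_le (by positivity)
  unfold errG
  -- first term
  have t1 : (n:ℝ) * (c ^ (h + 1) / (h + 1).factorial) ≤ 1 / n := by
    have hm0 : (0:ℝ) < (h:ℝ) + 1 := by positivity
    have e1 : c ^ (h + 1) / ((h + 1).factorial : ℝ) ≤
        Real.exp ((h + 1 : ℕ) * (1 + Real.log c - Real.log ((h:ℝ) + 1))) := by
      have h1 := inv_fact_le (m := h + 1) (by omega)
      have h2 : Real.exp ((h + 1 : ℕ) * (1 + Real.log c - Real.log ((h:ℝ) + 1))) =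
          c ^ (h + 1) * (Real.exp 1 ^ (h + 1) / ((h + 1 : ℕ) : ℝ) ^ (h + 1)) := by
        rw [Real.exp_nat_mul, Real.exp_sub, Real.exp_add, Real.exp_log hc0, Real.exp_log hm0,
          div_pow, mul_pow]
        push_cast
        ring
      rw [h2, div_eq_mul_one_div]
      exact mul_le_mul_of_nonneg_left h1 (by positivity)
    have e2 : 1 + Real.log c - Real.log ((h:ℝ) + 1) ≤ -(400 * ℓ) := by
      have h1 : Real.log (L / (200 * ℓ)) ≤ Real.log ((h:ℝ) + 1) :=
        Real.log_le_log (by positivity) hh1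
      rw [Real.log_div hL0.ne' (by positivity), Real.log_mul (by norm_num) hℓ0.ne'] at h1
      have h2 : Real.log 200 ≤ 6 := by
        rw [Real.log_le_iff_le_exp (by norm_num)]
        have h3 : Real.exp 6 = Real.exp 1 ^ 6 := by rw [← Real.exp_nat_mul]; norm_num
        have h4 := Real.exp_one_gt_d9
        have h5 : (2.7:ℝ) ^ 6 ≤ Real.exp 1 ^ 6 := pow_le_pow_left₀ (by norm_num) (by linarith) 6
        rw [h3]
        refine le_trans ?_ h5
        norm_num
      have h3 : Real.log ℓ ≤ ℓ := by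
        have := Real.log_le_sub_one_of_pos hℓ0
        linarith
      have h4 : Real.log c ≤ ℓ := Real.log_le_log hc0 (by linarith)
      linarith
    have e3 : ((h + 1 : ℕ) : ℝ) * (1 + Real.log c - Real.log ((h:ℝ) + 1)) ≤ -(2 * L) := by
      have h1 : ((h + 1 : ℕ) : ℝ) * (1 + Real.log c - Real.log ((h:ℝ) + 1)) ≤
          ((h + 1 : ℕ) : ℝ) * (-(400 * ℓ)) := mul_le_mul_of_nonneg_left e2 (Nat.cast_nonneg _)
      have h2 : L / (200 * ℓ) * (400 * ℓ) ≤ ((h:ℝ) + 1) * (400 * ℓ) :=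
        mul_le_mul_of_nonneg_right hh1 (by positivity)
      have h3 : L / (200 * ℓ) * (400 * ℓ) = 2 * L := by field_simp; ring
      push_cast at h1 ⊢
      linarith
    calc (n:ℝ) * (c ^ (h + 1) / (h + 1).factorial) ≤ n * Real.exp (-(2 * L)) :=
          mul_le_mul_of_nonneg_left (e1.trans (Real.exp_le_exp.2 e3)) hn0.le
      _ = 1 / n := by
          rw [hnL, ← Real.exp_add, one_div, ← Real.exp_neg]
          congr 1; ring
  -- second term
  have t2 : ((n:ℝ) + 1) * (n * ((4 * c) ^ 24)⁻¹ ^ d) ≤ 2 / n := by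
    have e1 : ((4 * c) ^ 24)⁻¹ ^ d ≤ Real.exp (-(3 * L)) := by
      have h1 : ((4 * c) ^ 24)⁻¹ ^ d = Real.exp (-(24 * ℓ * d)) := by
        rw [h4c, inv_pow, ← Real.exp_nat_mul, ← Real.exp_nat_mul, ← Real.exp_neg]
        congr 1
        push_cast
        ring
      rw [h1]
      apply Real.exp_le_exp.2
      have h2 : L / (8 * ℓ) * (24 * ℓ) ≤ d * (24 * ℓ) :=
        mul_le_mul_of_nonneg_right hd1 (by positivity)
      have h3 : L / (8 * ℓ) * (24 * ℓ) = 3 * L := by field_simp; ring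
      linarith
    have e2 : Real.exp (-(3 * L)) = 1 / (n:ℝ) ^ 3 := by
      rw [hnL, ← Real.exp_nat_mul, one_div, ← Real.exp_neg]
      norm_num
    calc ((n:ℝ) + 1) * (n * ((4 * c) ^ 24)⁻¹ ^ d) ≤ (2 * n) * (n * (1 / (n:ℝ) ^ 3)) := by
          apply mul_le_mul (by linarith) _ (by positivity) (by positivity)
          exact mul_le_mul_of_nonneg_left (e1.trans e2.le) hn0.le
      _ = 2 / n := by field_simp
  -- third term
  have t3 : ((s:ℝ) + 1) * (s * (4 * c) ^ (s + 1) / n) ≤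
      (L + 9) ^ 2 * L * Real.exp (-(2 / 5 * L)) := by
    have e1 : (s:ℝ) + 1 ≤ 3 / 5 * (L / ℓ) + 9 := by
      have h1 : (s:ℝ) = 4 * (d + 5 * h + 1) := by
        rw [hs]; unfold ps; push_cast; rfl
      have h2 : L / (8 * ℓ) = 1 / 8 * (L / ℓ) := by field_simp
      have h3 : L / (200 * ℓ) = 1 / 200 * (L / ℓ) := by field_simp
      rw [h2] at hd2
      rw [h3] at hh2
      rw [h1]
      linarith
    have e2 : L / ℓ ≤ L := div_le_self hL0.le hℓ1
    have e3 : (s:ℝ) + 1 ≤ L + 9 := by linarith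
    have e4 : (4 * c) ^ (s + 1) ≤ Real.exp (3 / 5 * L) * L := by
      have h1 : (4 * c) ^ (s + 1) = Real.exp (((s:ℝ) + 1) * ℓ) := by
        rw [h4c, ← Real.exp_nat_mul]; push_cast; rfl
      rw [h1]
      have h2 : ((s:ℝ) + 1) * ℓ ≤ (3 / 5 * (L / ℓ) + 9) * ℓ := mul_le_mul_of_nonneg_right e1 hℓ0.le
      have h3 : (3 / 5 * (L / ℓ) + 9) * ℓ = 3 / 5 * L + 9 * ℓ := by field_simp
      have h4 : 9 * ℓ ≤ LL := by linarith
      calc Real.exp (((s:ℝ) + 1) * ℓ) ≤ Real.exp (3 / 5 * L + LL) :=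
            Real.exp_le_exp.2 (by linarith)
        _ = Real.exp (3 / 5 * L) * L := by rw [Real.exp_add, ← hLexp]
    have hs0 : (0:ℝ) ≤ s := Nat.cast_nonneg _
    calc ((s:ℝ) + 1) * (s * (4 * c) ^ (s + 1) / n) ≤
        (L + 9) * ((L + 9) * (Real.exp (3 / 5 * L) * L) / n) := by
          apply mul_le_mul e3 _ (by positivity) (by linarith)
          apply div_le_div_of_nonneg_right _ hn0.le
          exact mul_le_mul (by linarith) e4 (by positivity) (by linarith)
      _ = (L + 9) ^ 2 * L * (Real.exp (3 / 5 * L) * (1 / n)) := by ring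
      _ = _ := by
          rw [hnL, one_div, ← Real.exp_neg, ← Real.exp_add]
          congr 2
          ring
  have : 3 / (n:ℝ) = 1 / n + 2 / n := by ring
  rw [this]
  exact add_le_add (add_le_add t1 t2) t3

lemma errG_tendsto {δ : ℝ} (hδ : 0 < δ) : ∀ᶠ n : ℕ in atTop, ∀ c : ℝ, 1 ≤ c →
    402 * Real.log (4 * c) + 7 ≤ Real.log (Real.log n) →
    2 * errG n c ((4 * c) ^ 24) (pd (Real.log n) c) (ph (Real.log n) c) (ps (Real.log n) c) ≤ δ := by
  have h1 : Tendsto (fun n : ℕ => 3 / (n:ℝ)) atTop (nhds 0) :=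
    tendsto_const_div_atTop_nhds_zero_nat 3
  have h2 : ∀ᶠ L : ℝ in atTop, (L + 9) ^ 2 * L * Real.exp (-(2 / 5 * L)) < δ / 4 := by
    have a1 := ev_pow_le_exp 3 (b := 1 / 5) (C := 100) (by norm_num) (by norm_num)
    have a2 : Tendsto (fun L : ℝ => Real.exp (-(1 / 5 * L))) atTop (nhds 0) := by
      apply Real.tendsto_exp_atBot.comp
      apply tendsto_neg_atTop_atBot.comp
      exact tendsto_id.const_mul_atTop (by norm_num)
    filter_upwards [a1, a2.eventually (gt_mem_nhds (show 0 < δ / 4 by linarith)),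
      eventually_ge_atTop 1] with L b1 b2 b3
    have b4 : (L + 9) ^ 2 * L ≤ 100 * L ^ 3 := by nlinarith [sq_nonneg (L - 1)]
    calc (L + 9) ^ 2 * L * Real.exp (-(2 / 5 * L)) ≤
        Real.exp (1 / 5 * L) * Real.exp (-(2 / 5 * L)) :=
          mul_le_mul_of_nonneg_right (b4.trans b1) (Real.exp_pos _).le
      _ = Real.exp (-(1 / 5 * L)) := by rw [← Real.exp_add]; congr 1; ring
      _ < δ / 4 := b2
  filter_upwards [h1.eventually (gt_mem_nhds (show 0 < δ / 4 by linarith)),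
    tendsto_log_nat.eventually h2, eventually_ge_atTop 3] with n a1 a2 a3
  intro c hc hcl
  have := errG_le a3 hc hcl
  linarith

/-- the estimate for given parameters -/
lemma has_ev {δ : ℝ} (hδ : 0 < δ) : ∀ᶠ n : ℕ in atTop, ∀ c : ℝ, 1 ≤ c →
    402 * Real.log (4 * c) + 7 ≤ Real.log (Real.log n) →
    ∀ (M j b r t : ℕ) (y : ℝ), 1 ≤ M →
      RR c M j * Real.exp (5 * (c * (4 * c) ^ 24 * Real.exp 1)) * Real.exp 1 ≤ 1 → 1 ≤ r →
      4 * M ^ (r + 3) ≤ 2 ^ (b * r) →
      (1 - 1 / (3 * ((r:ℝ) + 1))) ^ t * (((M * M + 1) * (M * M + 2) ^ r : ℕ) : ℝ) < 1 →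
      ((20 + 2 ^ b * (t * 2) : ℕ) : ℝ) ≤ y →
      Pr (c / n) (allE (Fin n)) (fun T => ¬ Has T y) ≤ δ := by
  have a2 : ∀ᶠ L : ℝ in atTop, L ^ 1 * 2 ≤ Real.exp (1 * L) := by
    filter_upwards [ev_pow_le_exp 1 (b := 1) (C := 2) (by norm_num) (by norm_num)] with L h
    linarith
  filter_upwards [errG_tendsto hδ, tendsto_log_nat.eventually a2, eventually_ge_atTop 3]
    with n h1 h2 h3
  intro c hc hcl M j b r t y hM hθ hr hb ht hy
  have hn0 : 0 < n := by omega
  have hn : (0:ℝ) < n := by exact_mod_cast hn0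
  have hc0 : 0 < c := by linarith
  -- c is at most log n
  have hℓ1 := log_four_c hc
  have hlog : 0 < Real.log n := Real.log_pos (by
    have : (3:ℝ) ≤ n := by exact_mod_cast h3
    linarith)
  have hcL : c ≤ Real.log n := by
    have h4 : Real.log (4 * c) ≤ Real.log (Real.log n) := by linarith
    have h5 := (Real.log_le_log_iff (by linarith) hlog).1 h4
    linarith
  have hp : c / n ≤ 1 / 2 := by
    rw [div_le_div_iff₀ hn (by norm_num)]
    rw [one_mul, Real.exp_log hn, pow_one] at h2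
    linarith
  refine (prob_has (p := c / n) (z := (4 * c) ^ 24) (by positivity) hp (by field_simp) hn0 hc
    (one_le_pow₀ (by linarith)) hM hθ (s := ps (Real.log n) c) (d := pd (Real.log n) c)
    (h := ph (Real.log n) c) le_rfl hr hb ht hy).trans (h1 c hc hcl)

end Pool.Agent.H1.RO
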