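import Pool.Agent.H1.RO.Asy

/-!
Choice of the parameters, and the upper bound for all sequences.
-/

set_option autoImplicit false
set_option linter.unusedSectionVars false

namespace Pool.Agent.H1.RO

open Finset Pool.Agent.H1.CC Filter

/-- bounded `c` -/
lemma base_range (C : ℝ) : ∃ b : ℝ → ℝ, (∀ y, 1 ≤ y → 0 < b y) ∧ ∀ δ : ℝ, 0 < δ →
    ∀ᶠ n : ℕ in atTop, ∀ c : ℝ, 1 ≤ c → c ≤ C → c ≤ Real.log n →
      Pr (c / n) (allE (Fin n)) (fun T => ¬ Has T (Real.exp (b c * c))) ≤ δ := by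
  set K : ℝ := 2 * Real.exp C * Real.exp (5 * (C * (4 * C) ^ 24 * Real.exp 1)) * Real.exp 1 with hK
  set M : ℕ := ⌈K⌉₊ + 1 with hM
  have hMK : K ≤ M := by
    rw [hM]; push_cast
    have := Nat.le_ceil K
    linarith
  have hM1 : 1 ≤ M := by omega
  have hM0 : (0:ℝ) < M := by exact_mod_cast hM1
  set b : ℕ := 4 * M ^ 4 with hb
  obtain ⟨t, ht⟩ : ∃ t : ℕ, (1 - 1 / (3 * (((1:ℕ):ℝ) + 1))) ^ t *
      (((M * M + 1) * (M * M + 2) ^ 1 : ℕ) : ℝ) < 1 := by
    have h0 : (0:ℝ) ≤ 1 - 1 / (3 * (((1:ℕ):ℝ) + 1)) := by norm_num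
    have h1 : (1:ℝ) - 1 / (3 * (((1:ℕ):ℝ) + 1)) < 1 := by norm_num
    have h2 := (tendsto_pow_atTop_nhds_zero_of_lt_one h0 h1).mul_const
      ((((M * M + 1) * (M * M + 2) ^ 1 : ℕ) : ℝ))
    rw [zero_mul] at h2
    exact (h2.eventually (gt_mem_nhds one_pos)).exists
  set Y : ℝ := ((20 + 2 ^ b * (t * 2) : ℕ) : ℝ) with hY
  have hY20 : 20 ≤ Y := by
    rw [hY]
    exact_mod_cast Nat.le_add_right 20 _
  have hlogY : 0 < Real.log Y := Real.log_pos (by linarith)
  refine ⟨fun c => Real.log Y / c, fun y hy => by positivity, ?_⟩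
  intro δ hδ
  have hll : Tendsto (fun n : ℕ => Real.log (Real.log n)) atTop atTop :=
    Real.tendsto_log_atTop.comp tendsto_log_nat
  filter_upwards [has_ev hδ, hll.eventually (eventually_ge_atTop
    (402 * Real.log (4 * max C 1) + 7))] with n h1 h2
  intro c hc1 hcC _
  have hc0 : 0 < c := by linarith
  have e1 : Real.exp (Real.log Y / c * c) = Y := by
    rw [div_mul_cancel₀ _ hc0.ne', Real.exp_log (by linarith)]
  rw [e1]
  apply h1 c hc1 _ M 1 b 1 t Y hM1 _ le_rfl _ ht le_rfl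
  · have h3 : Real.log (4 * c) ≤ Real.log (4 * max C 1) :=
      Real.log_le_log (by linarith) (by
        have := le_max_left C 1
        linarith)
    linarith
  · unfold RR
    rw [pow_one, Nat.cast_one, mul_one]
    have h4 : ((Nat.factorial 1 : ℕ) : ℝ) * ((Nat.factorial (1 + 1) : ℕ) : ℝ) = 2 := by
      norm_num [Nat.factorial]
    rw [h4]
    have h5 : (4 * c) ^ 24 ≤ (4 * C) ^ 24 := pow_le_pow_left₀ (by linarith) (by linarith) _
    have h6 : Real.exp (5 * (c * (4 * c) ^ 24 * Real.exp 1)) ≤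
        Real.exp (5 * (C * (4 * C) ^ 24 * Real.exp 1)) := by
      apply Real.exp_le_exp.2
      have : c * (4 * c) ^ 24 ≤ C * (4 * C) ^ 24 :=
        mul_le_mul hcC h5 (by positivity) (by linarith)
      have := mul_le_mul_of_nonneg_right this (Real.exp_pos 1).le
      linarith
    have h7 : Real.exp c ≤ Real.exp C := Real.exp_le_exp.2 hcC
    have h8 : 2 * Real.exp c * Real.exp (5 * (c * (4 * c) ^ 24 * Real.exp 1)) * Real.exp 1 ≤ K := by
      rw [hK]
      apply mul_le_mul_of_nonneg_right _ (Real.exp_pos 1).le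
      apply mul_le_mul _ h6 (Real.exp_pos _).le (by positivity)
      linarith
    calc 2 * Real.exp c / M * Real.exp (5 * (c * (4 * c) ^ 24 * Real.exp 1)) * Real.exp 1 =
        (2 * Real.exp c * Real.exp (5 * (c * (4 * c) ^ 24 * Real.exp 1)) * Real.exp 1) / M := by ring
      _ ≤ 1 := by
          rw [div_le_one hM0]
          exact h8.trans hMK
  · rw [mul_one, hb]
    exact Nat.lt_two_pow_self.le

lemma fact_fact_le (j : ℕ) : ((j.factorial : ℕ) : ℝ) * (((j + 1).factorial : ℕ) : ℝ) ≤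
    Real.exp ((2 * j + 1) * Real.log (j + 1)) := by
  have h1 : ((j.factorial : ℕ) : ℝ) ≤ ((j:ℝ) + 1) ^ j := by
    have : j.factorial ≤ (j + 1) ^ j :=
      (Nat.factorial_le_pow j).trans (Nat.pow_le_pow_left (by omega) j)
    exact_mod_cast this
  have h2 : (((j + 1).factorial : ℕ) : ℝ) ≤ ((j:ℝ) + 1) ^ (j + 1) := by
    exact_mod_cast Nat.factorial_le_pow (j + 1)
  have h3 : (0:ℝ) < (j:ℝ) + 1 := by positivity
  calc ((j.factorial : ℕ) : ℝ) * (((j + 1).factorial : ℕ) : ℝ) ≤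
      ((j:ℝ) + 1) ^ j * ((j:ℝ) + 1) ^ (j + 1) := mul_le_mul h1 h2 (Nat.cast_nonneg _) (by positivity)
    _ = ((j:ℝ) + 1) ^ (2 * j + 1) := by rw [← pow_add]; congr 1; ring
    _ = Real.exp ((2 * j + 1) * Real.log (j + 1)) := by
        rw [show (2 * (j:ℝ) + 1) = ((2 * j + 1 : ℕ) : ℝ) by push_cast; ring, Real.exp_nat_mul,
          Real.exp_log h3]

/-- the condition for the chains -/
lemma theta_le {ε c : ℝ} (hε : 0 < ε) (hc : 1 ≤ c) (h81 : 81 * Real.log (4 * c) + 3 ≤ ε * c)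
    {M : ℕ} (hM : Real.exp ((1 + ε) * c) ≤ M) :
    RR c M ⌈(4 * c) ^ 26⌉₊ * Real.exp (5 * (c * (4 * c) ^ 24 * Real.exp 1)) * Real.exp 1 ≤ 1 := by
  set j : ℕ := ⌈(4 * c) ^ 26⌉₊ with hj
  set ℓ := Real.log (4 * c) with hℓ
  have hc0 : 0 < c := by linarith
  have h4 : 4 ≤ 4 * c := by linarith
  have hℓ1 : 1 ≤ ℓ := log_four_c hc
  have hj1 : (4 * c) ^ 26 ≤ j := Nat.le_ceil _
  have hj2 : (j:ℝ) ≤ (4 * c) ^ 26 + 1 := (Nat.ceil_lt_add_one (by positivity)).le
  have hp1 : 1 ≤ (4 * c) ^ 26 := one_le_pow₀ (by linarith)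
  have hj0 : 1 ≤ (j:ℝ) := hp1.trans hj1
  have hM0 : (0:ℝ) < M := lt_of_lt_of_le (Real.exp_pos _) hM
  have hlogj : Real.log ((j:ℝ) + 1) ≤ 27 * ℓ := by
    have h1 : (j:ℝ) + 1 ≤ (4 * c) ^ 27 := by
      have : (4 * c) ^ 27 = (4 * c) * (4 * c) ^ 26 := by ring
      rw [this]
      nlinarith
    have h2 := Real.log_le_log (by positivity) h1
    rw [Real.log_pow] at h2
    push_cast at h2
    exact h2
  have e1 : RR c M j ≤ Real.exp (81 * ℓ * j - ε * c * j) := by
    unfold RR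
    have h1 : Real.exp (j * ((1 + ε) * c)) ≤ (M:ℝ) ^ j := by
      rw [Real.exp_nat_mul]
      exact pow_le_pow_left₀ (Real.exp_pos _).le hM j
    have h2 : (2 * (j:ℝ) + 1) * Real.log (j + 1) ≤ 81 * ℓ * j := by
      have : (2 * (j:ℝ) + 1) * Real.log (j + 1) ≤ (3 * j) * (27 * ℓ) := by
        apply mul_le_mul (by linarith) hlogj (Real.log_nonneg (by linarith)) (by positivity)
      linarith
    calc (j.factorial : ℝ) * ((j + 1).factorial : ℝ) * Real.exp (c * j) / (M:ℝ) ^ j ≤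
        Real.exp ((2 * j + 1) * Real.log (j + 1)) * Real.exp (c * j) /
          Real.exp (j * ((1 + ε) * c)) := by
          apply div_le_div₀ (by positivity) _ (Real.exp_pos _) h1
          exact mul_le_mul_of_nonneg_right (fact_fact_le j) (Real.exp_pos _).le
      _ = Real.exp ((2 * j + 1) * Real.log (j + 1) + c * j - j * ((1 + ε) * c)) := by
          rw [← Real.exp_add, ← Real.exp_sub]
      _ ≤ Real.exp (81 * ℓ * j - ε * c * j) := by
          apply Real.exp_le_exp.2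
          linarith
  have e2 : 5 * (c * (4 * c) ^ 24 * Real.exp 1) ≤ 2 * (j:ℝ) := by
    have h1 := Real.exp_one_lt_d9
    have h2 : 5 * (c * (4 * c) ^ 24 * Real.exp 1) ≤ 5 * (c * (4 * c) ^ 24 * 2.8) := by
      apply mul_le_mul_of_nonneg_left _ (by norm_num)
      apply mul_le_mul_of_nonneg_left (by linarith) (by positivity)
    have h3 : 2 * (4 * c) ^ 26 = 2 * (16 * c ^ 2) * (4 * c) ^ 24 := by ring
    have h5 : 0 < (4 * c) ^ 24 := by positivity
    have h6 : 5 * (c * (4 * c) ^ 24 * 2.8) = 14 * c * (4 * c) ^ 24 := by ring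
    have h7 : 14 * c * (4 * c) ^ 24 ≤ 2 * (16 * c ^ 2) * (4 * c) ^ 24 := by
      apply mul_le_mul_of_nonneg_right _ h5.le
      nlinarith
    linarith
  have e3 : (81 * ℓ * j - ε * c * j) + 2 * j + 1 ≤ 0 := by
    have : (81 * ℓ + 3) * j ≤ ε * c * j := mul_le_mul_of_nonneg_right h81 (by linarith)
    nlinarith
  calc RR c M j * Real.exp (5 * (c * (4 * c) ^ 24 * Real.exp 1)) * Real.exp 1 ≤
      Real.exp (81 * ℓ * j - ε * c * j) * Real.exp (2 * j) * Real.exp 1 := by
        apply mul_le_mul_of_nonneg_right _ (Real.exp_pos _).le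
        exact mul_le_mul e1 (Real.exp_le_exp.2 e2) (Real.exp_pos _).le (Real.exp_pos _).le
    _ = Real.exp ((81 * ℓ * j - ε * c * j) + 2 * j + 1) := by rw [Real.exp_add, Real.exp_add]
    _ ≤ 1 := by
        have := Real.exp_le_exp.2 e3
        rwa [Real.exp_zero] at this

/-- the choice of the parameters for large `c` -/
lemma params {E : ℝ} (hE0 : 0 < E) (hE1 : E ≤ 1 / 2) : ∃ c0 : ℝ, ∀ c : ℝ, c0 ≤ c → 1 ≤ c →
    ∃ M j b r t : ℕ, 1 ≤ M ∧
      RR c M j * Real.exp (5 * (c * (4 * c) ^ 24 * Real.exp 1)) * Real.exp 1 ≤ 1 ∧ 1 ≤ r ∧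
      4 * M ^ (r + 3) ≤ 2 ^ (b * r) ∧
      (1 - 1 / (3 * ((r:ℝ) + 1))) ^ t * (((M * M + 1) * (M * M + 2) ^ r : ℕ) : ℝ) < 1 ∧
      ((20 + 2 ^ b * (t * 2) : ℕ) : ℝ) ≤ Real.exp ((1 + 2 * E) * c) := by
  set r : ℕ := ⌈12 / E⌉₊ with hr
  have hr1 : 12 / E ≤ r := Nat.le_ceil _
  have h12 : 24 ≤ 12 / E := by
    rw [le_div_iff₀ hE0]; linarith
  have hr24 : (24:ℝ) ≤ r := h12.trans hr1
  have hr0 : (0:ℝ) < r := by linarith
  have hrn : 1 ≤ r := by
    have : (1:ℝ) ≤ r := by linarith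
    exact_mod_cast this
  have h3r : 3 / (r:ℝ) ≤ E / 4 := by
    rw [div_le_div_iff₀ hr0 (by norm_num)]
    rw [div_le_iff₀ hE0] at hr1
    linarith
  set R : ℝ := 3 * ((r:ℝ) + 1) ^ 2 with hR
  have hR0 : 0 < R := by positivity
  -- the size inequality
  have a1 := ev_pow_le_exp 1 (b := E) (C := 20 + 16 * Real.exp 3 * (R * 8 + 1)) hE0 (by positivity)
  have a2 : ∀ᶠ c : ℝ in atTop, 81 * Real.log (4 * c) + 3 ≤ E / 4 * c := by
    have h1 := log_small (c := E / 8) (C := 81) (by positivity)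
    filter_upwards [h1, eventually_ge_atTop (8 / E * (81 * Real.log 4 + 3)),
      eventually_ge_atTop 1] with c h2 h3 h4
    have h5 : Real.log (4 * c) ≤ Real.log 4 + Real.log (c + 1) := by
      rw [← Real.log_mul (by norm_num) (by linarith)]
      exact Real.log_le_log (by linarith) (by linarith)
    have h6 : 81 * Real.log 4 + 3 ≤ E / 8 * c := by
      have h7 := mul_le_mul_of_nonneg_left h3 (show 0 ≤ E / 8 by positivity)
      have h8 : E / 8 * (8 / E * (81 * Real.log 4 + 3)) = 81 * Real.log 4 + 3 := by field_simp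
      linarith
    linarith
  obtain ⟨c0, hc0⟩ := eventually_atTop.1 (a1.and a2)
  refine ⟨c0, ?_⟩
  intro c hcc0 hc1
  obtain ⟨b1, b2⟩ := hc0 c hcc0
  have hcp : 0 < c := by linarith
  set M : ℕ := ⌈Real.exp ((1 + E / 4) * c)⌉₊ with hM
  have hM1 : Real.exp ((1 + E / 4) * c) ≤ M := Nat.le_ceil _
  have hM2 : (M:ℝ) ≤ Real.exp ((1 + E / 4) * c) + 1 := (Nat.ceil_lt_add_one (Real.exp_pos _).le).le
  have hX1 : 1 ≤ Real.exp ((1 + E / 4) * c) := Real.one_le_exp (by positivity)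
  have hMn : 1 ≤ M := by
    have : (1:ℝ) ≤ M := hX1.trans hM1
    exact_mod_cast this
  have hM0 : (0:ℝ) < M := by exact_mod_cast hMn
  have hlogM0 : 0 ≤ Real.log M := Real.log_nonneg (by exact_mod_cast hMn)
  have hlog2 : Real.log 2 ≤ 0.7 := by
    have := Real.log_two_lt_d9
    linarith
  have hlogM : Real.log M ≤ 0.7 + (1 + E / 4) * c := by
    have h1 : (M:ℝ) ≤ 2 * Real.exp ((1 + E / 4) * c) := by linarith
    have h2 := Real.log_le_log hM0 h1
    rw [Real.log_mul (by norm_num) (Real.exp_pos _).ne', Real.log_exp] at h2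
    linarith
  -- the number of bits
  set B0 : ℝ := (Real.log 4 + (1 + 3 / r) * Real.log M) / Real.log 2 with hB0
  have hl2 : 0 < Real.log 2 := Real.log_pos (by norm_num)
  have hl4 : 0 ≤ Real.log 4 := Real.log_nonneg (by norm_num)
  have hB00 : 0 ≤ B0 := by positivity
  set b : ℕ := ⌈B0⌉₊ with hb
  have hb1 : B0 ≤ b := Nat.le_ceil _
  have hb2 : (b:ℝ) ≤ B0 + 1 := (Nat.ceil_lt_add_one hB00).le
  have h2b : (2:ℝ) ^ b = Real.exp (b * Real.log 2) := by
    rw [Real.exp_nat_mul, Real.exp_log (by norm_num)]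
  have hB0' : B0 * Real.log 2 = Real.log 4 + (1 + 3 / r) * Real.log M := by
    rw [hB0]; field_simp
  have hbits : 4 * M ^ (r + 3) ≤ 2 ^ (b * r) := by
    have h1 : (4:ℝ) * (M:ℝ) ^ (r + 3) ≤ (2:ℝ) ^ (b * r) := by
      rw [pow_mul, h2b, ← Real.exp_nat_mul]
      have h2 : (4:ℝ) * (M:ℝ) ^ (r + 3) = Real.exp (Real.log 4 + ((r + 3 : ℕ) : ℝ) * Real.log M) := by
        rw [Real.exp_add, Real.exp_log (by norm_num), Real.exp_nat_mul, Real.exp_log hM0]
      rw [h2]
      apply Real.exp_le_exp.2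
      have h3 : (r:ℝ) * (B0 * Real.log 2) ≤ r * (b * Real.log 2) :=
        mul_le_mul_of_nonneg_left (mul_le_mul_of_nonneg_right hb1 hl2.le) hr0.le
      rw [hB0'] at h3
      have h4 : (r:ℝ) * (Real.log 4 + (1 + 3 / r) * Real.log M) =
          r * Real.log 4 + (r + 3) * Real.log M := by field_simp
      rw [h4] at h3
      have h5 : Real.log 4 ≤ r * Real.log 4 := by nlinarith
      push_cast
      linarith
    exact_mod_cast h1
  have h2bU : (2:ℝ) ^ b ≤ 8 * Real.exp 3 * Real.exp ((1 + E) * c) := by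
    have h1 : (b:ℝ) * Real.log 2 ≤ B0 * Real.log 2 + Real.log 2 := by
      have := mul_le_mul_of_nonneg_right hb2 hl2.le
      linarith
    rw [hB0'] at h1
    have h2 : (1 + 3 / (r:ℝ)) * Real.log M ≤ 3 + (1 + E) * c := by
      have h3 : (1 + 3 / (r:ℝ)) * Real.log M ≤ (1 + E / 4) * (0.7 + (1 + E / 4) * c) :=
        mul_le_mul (by linarith) hlogM hlogM0 (by linarith)
      have h4 : (1 + E / 4) * (0.7 + (1 + E / 4) * c) ≤ 3 + (1 + E) * c := by
        have h5 : (1 + E / 4) * (1 + E / 4) ≤ 1 + E := by nlinarith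
        have h6 := mul_le_mul_of_nonneg_right h5 hcp.le
        nlinarith
      linarith
    have h3 : (b:ℝ) * Real.log 2 ≤ (Real.log 4 + Real.log 2) + (3 + (1 + E) * c) := by linarith
    rw [h2b]
    calc Real.exp (b * Real.log 2) ≤ Real.exp ((Real.log 4 + Real.log 2) + (3 + (1 + E) * c)) :=
          Real.exp_le_exp.2 h3
      _ = 8 * Real.exp 3 * Real.exp ((1 + E) * c) := by
          rw [Real.exp_add, Real.exp_add, Real.exp_add, Real.exp_log (by norm_num),
            Real.exp_log (by norm_num)]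
          ring
  -- the number of rounds
  set t0 : ℝ := R * (2 + 2 * Real.log M) with ht0
  have ht00 : 0 ≤ t0 := by positivity
  set t : ℕ := ⌊t0⌋₊ + 1 with ht
  have ht1 : t0 < t := by
    rw [ht]; push_cast
    exact Nat.lt_floor_add_one t0
  have ht2 : (t:ℝ) ≤ t0 + 1 := by
    rw [ht]; push_cast
    have := Nat.floor_le ht00
    linarith
  have hround : (1 - 1 / (3 * ((r:ℝ) + 1))) ^ t * (((M * M + 1) * (M * M + 2) ^ r : ℕ) : ℝ) < 1 := by
    have h1 : 0 ≤ 1 - 1 / (3 * ((r:ℝ) + 1)) := by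
      have : 1 / (3 * ((r:ℝ) + 1)) ≤ 1 := by
        rw [div_le_one (by positivity)]; linarith
      linarith
    have h2 : (1 - 1 / (3 * ((r:ℝ) + 1))) ^ t ≤ Real.exp (-(t / (3 * ((r:ℝ) + 1)))) := by
      calc (1 - 1 / (3 * ((r:ℝ) + 1))) ^ t ≤ (Real.exp (-(1 / (3 * ((r:ℝ) + 1))))) ^ t := by
            apply pow_le_pow_left₀ h1
            have := Real.add_one_le_exp (-(1 / (3 * ((r:ℝ) + 1)))); linarith
        _ = _ := by rw [← Real.exp_nat_mul]; congr 1; ring
    have h3 : (((M * M + 1) * (M * M + 2) ^ r : ℕ) : ℝ) ≤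
        Real.exp (((r:ℝ) + 1) * (2 + 2 * Real.log M)) := by
      have hMM : (1:ℝ) ≤ (M:ℝ) * M := by
        have : (1:ℝ) ≤ M := by exact_mod_cast hMn
        nlinarith
      have h4 : (M:ℝ) * M + 2 ≤ Real.exp (2 + 2 * Real.log M) := by
        have h5 : Real.exp (2 + 2 * Real.log M) = Real.exp 2 * ((M:ℝ) * M) := by
          rw [Real.exp_add, two_mul (Real.log (M:ℝ)), Real.exp_add, Real.exp_log hM0]
        rw [h5]
        have h6 : (3:ℝ) ≤ Real.exp 2 := by
          have := Real.add_one_le_exp (2:ℝ)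
          linarith
        nlinarith
      have h7 : (((M * M + 1) * (M * M + 2) ^ r : ℕ) : ℝ) ≤ ((M:ℝ) * M + 2) ^ (r + 1) := by
        push_cast
        rw [pow_succ, mul_comm]
        apply mul_le_mul_of_nonneg_left (by linarith) (by positivity)
      refine h7.trans ?_
      have h8 : Real.exp (((r:ℝ) + 1) * (2 + 2 * Real.log M)) =
          Real.exp (2 + 2 * Real.log M) ^ (r + 1) := by
        rw [← Real.exp_nat_mul]; push_cast; rfl
      rw [h8]
      exact pow_le_pow_left₀ (by positivity) h4 _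
    have h4 : ((r:ℝ) + 1) * (2 + 2 * Real.log M) < t / (3 * ((r:ℝ) + 1)) := by
      rw [lt_div_iff₀ (by positivity)]
      have : ((r:ℝ) + 1) * (2 + 2 * Real.log M) * (3 * ((r:ℝ) + 1)) = t0 := by
        rw [ht0, hR]; ring
      rw [this]; exact ht1
    calc (1 - 1 / (3 * ((r:ℝ) + 1))) ^ t * (((M * M + 1) * (M * M + 2) ^ r : ℕ) : ℝ) ≤
        Real.exp (-(t / (3 * ((r:ℝ) + 1)))) * Real.exp (((r:ℝ) + 1) * (2 + 2 * Real.log M)) :=
          mul_le_mul h2 h3 (Nat.cast_nonneg _) (Real.exp_pos _).le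
      _ = Real.exp (-(t / (3 * ((r:ℝ) + 1))) + ((r:ℝ) + 1) * (2 + 2 * Real.log M)) := by
          rw [← Real.exp_add]
      _ < 1 := by rw [Real.exp_lt_one_iff]; linarith
  refine ⟨M, ⌈(4 * c) ^ 26⌉₊, b, r, t, hMn, theta_le (by positivity) hc1 b2 hM1, hrn, hbits,
    hround, ?_⟩
  -- size
  have ht3 : (t:ℝ) ≤ (R * 8 + 1) * c := by
    have h1 : t0 ≤ R * (8 * c) := by
      rw [ht0]
      apply mul_le_mul_of_nonneg_left _ hR0.le
      nlinarith
    nlinarith
  push_cast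
  have hEc : 1 ≤ Real.exp ((1 + E) * c) := Real.one_le_exp (by positivity)
  have h5 : (2:ℝ) ^ b * (t * 2) ≤ (8 * Real.exp 3 * Real.exp ((1 + E) * c)) *
      (((R * 8 + 1) * c) * 2) :=
    mul_le_mul h2bU (by linarith) (by positivity) (by positivity)
  have h6 : (20:ℝ) ≤ 20 * c * Real.exp ((1 + E) * c) := by nlinarith
  calc (20:ℝ) + 2 ^ b * (t * 2) ≤ 20 * c * Real.exp ((1 + E) * c) +
      (8 * Real.exp 3 * Real.exp ((1 + E) * c)) * (((R * 8 + 1) * c) * 2) := add_le_add h6 h5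
    _ = ((20 + 16 * Real.exp 3 * (R * 8 + 1)) * c ^ 1) * Real.exp ((1 + E) * c) := by ring
    _ ≤ Real.exp (E * c) * Real.exp ((1 + E) * c) :=
        mul_le_mul_of_nonneg_right b1 (Real.exp_pos _).le
    _ = Real.exp ((1 + 2 * E) * c) := by rw [← Real.exp_add]; congr 1; ring

/-- upper bound, all sequences -/
theorem upper_all : ∃ γ : ℝ → ℝ, (∀ y, 1 ≤ y → 0 < γ y) ∧ Tendsto γ atTop (nhds 1) ∧
    ∀ δ : ℝ, 0 < δ → ∀ᶠ n : ℕ in atTop, ∀ c : ℝ, 1 ≤ c → c ≤ Real.log n →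
      Pr (c / n) (allE (Fin n)) (fun T => ¬ Has T (Real.exp (γ c * c))) ≤ δ := by
  apply glue (fun n c y => Pr (c / n) (allE (Fin n)) (fun T => ¬ Has T (Real.exp (y * c))))
    (fun k => 1 + 2 * (1 / ((k:ℝ) + 3)))
  · intro k
    positivity
  · have h1 : Tendsto (fun k : ℕ => 1 / ((k:ℝ) + 3)) atTop (nhds 0) := by
      have := tendsto_one_div_add_atTop_nhds_zero_nat (𝕜 := ℝ)
      have h2 := (tendsto_add_atTop_iff_nat 2).2 this
      refine h2.congr ?_
      intro k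
      push_cast
      congr 1
      ring
    have := (h1.const_mul 2).const_add 1
    simpa using this
  · intro k
    have hE0 : 0 < 1 / ((k:ℝ) + 3) := by positivity
    have hE1 : 1 / ((k:ℝ) + 3) ≤ 1 / 2 :=
      one_div_le_one_div_of_le (by norm_num) (by linarith [Nat.cast_nonneg (α := ℝ) k])
    set E := 1 / ((k:ℝ) + 3) with hE
    obtain ⟨c0, hc0⟩ := params hE0 hE1
    refine ⟨c0, ?_⟩
    intro δ hδ
    have hn : Tendsto (fun n : ℕ => 1 / (n:ℝ)) atTop (nhds 0) := tendsto_one_div_atTop_nhds_zero_nat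
    have hll : Tendsto (fun n : ℕ => Real.log (Real.log n)) atTop atTop :=
      Real.tendsto_log_atTop.comp tendsto_log_nat
    have hl : ∀ᶠ y : ℝ in atTop, 402 * Real.log (4 * (12 / E * y)) + 7 ≤ y := by
      have h1 := log_small (c := 1 / 2) (C := 402) (by norm_num)
      filter_upwards [h1, eventually_ge_atTop (2 * (402 * Real.log (48 / E) + 7)),
        eventually_ge_atTop 1] with y h2 h3 h4
      have h5 : Real.log (4 * (12 / E * y)) ≤ Real.log (48 / E) + Real.log (y + 1) := by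
        rw [← Real.log_mul (by positivity) (by linarith)]
        apply Real.log_le_log (by positivity)
        have : 4 * (12 / E * y) = 48 / E * y := by ring
        rw [this]
        exact mul_le_mul_of_nonneg_left (by linarith) (by positivity)
      linarith
    filter_upwards [upper_large hE0 hE1, hn.eventually (gt_mem_nhds hδ), has_ev hδ,
      hll.eventually hl] with n h1 h2 h3 h4
    intro c hcc0 hc1 hcl
    by_cases hc : 12 / E * Real.log (Real.log n) ≤ c
    · exact (h1 c hc hc1 hcl).trans h2.le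
    · push Not at hc
      obtain ⟨M, j, b, r, t, k1, k2, k3, k4, k5, k6⟩ := hc0 c hcc0 hc1
      refine h3 c hc1 ?_ M j b r t _ k1 k2 k3 k4 k5 k6
      have : Real.log (4 * c) ≤ Real.log (4 * (12 / E * Real.log (Real.log n))) :=
        Real.log_le_log (by linarith) (by linarith)
      linarith
  · exact base_range

end Pool.Agent.H1.RO
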