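import Pool.Agent.H1.RO.UpperB

/-!
The van den Berg–Kesten inequality for increasing events (`p ≤ 1/2`) and the symmetric local
lemma, for random subsets of a finite set.
-/

set_option autoImplicit false
set_option linter.unusedSectionVars false

namespace Pool.Agent.H1.RO

open Finset Pool.Agent.H1.CC

section

variable {E : Type*} [DecidableEq E]

/-- increasing event -/
def Inc (A : Finset E → Prop) : Prop := ∀ ⦃T T' : Finset E⦄, T ⊆ T' → A T → A T'

/-- disjoint occurrence -/
def Box (A B : Finset E → Prop) (T : Finset E) : Prop :=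
  ∃ T1 T2 : Finset E, T1 ⊆ T ∧ T2 ⊆ T ∧ Disjoint T1 T2 ∧ A T1 ∧ B T2

lemma Box_inc {A B : Finset E → Prop} : Inc (Box A B) := by
  rintro T T' h ⟨T1, T2, h1, h2, h3, h4, h5⟩
  exact ⟨T1, T2, h1.trans h, h2.trans h, h3, h4, h5⟩

lemma Box_mono {A A' B B' : Finset E → Prop} (hA : ∀ T, A T → A' T) (hB : ∀ T, B T → B' T)
    {T : Finset E} (h : Box A B T) : Box A' B' T := by
  obtain ⟨T1, T2, h1, h2, h3, h4, h5⟩ := h
  exact ⟨T1, T2, h1, h2, h3, hA _ h4, hB _ h5⟩

lemma Pr_insert {p : ℝ} {e : E} {S : Finset E} (he : e ∉ S) (A : Finset E → Prop) :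
    Pr p (insert e S) A = (1 - p) * Pr p S A + p * Pr p S (fun T => A (insert e T)) := by
  unfold Pr
  rw [Ex_insert he]

theorem bk {p : ℝ} (h0 : 0 ≤ p) (h1 : p ≤ 1 / 2) {S : Finset E} {A B : Finset E → Prop}
    (hA : Inc A) (hB : Inc B) : Pr p S (Box A B) ≤ Pr p S A * Pr p S B := by
  induction S using Finset.induction_on generalizing A B with
  | empty =>
    unfold Pr
    rw [Ex_empty, Ex_empty, Ex_empty, ← ind_and]
    apply ind_mono
    rintro ⟨T1, T2, h2, h3, h4, h5, h6⟩
    exact ⟨hA h2 h5, hB h3 h6⟩
  | insert e S he ih =>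
    have hp1 : p ≤ 1 := by linarith
    rw [Pr_insert he, Pr_insert he, Pr_insert he]
    set A1 : Finset E → Prop := fun T => A (insert e T) with hA1
    set B1 : Finset E → Prop := fun T => B (insert e T) with hB1
    have iA1 : Inc A1 := fun T T' h h' => hA (Finset.insert_subset_insert e h) h'
    have iB1 : Inc B1 := fun T T' h h' => hB (Finset.insert_subset_insert e h) h'
    have hAA1 : ∀ T, A T → A1 T := fun T h => hA (Finset.subset_insert e T) h
    have hBB1 : ∀ T, B T → B1 T := fun T h => hB (Finset.subset_insert e T) h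
    have i00 := ih hA hB
    have i10 := ih iA1 hB
    have i01 := ih hA iB1
    have key : Pr p S (fun T => Box A B (insert e T)) ≤
        Pr p S (Box A1 B) + Pr p S (Box A B1) - Pr p S (Box A B) := by
      unfold Pr
      rw [← Ex_add, ← Ex_sub]
      apply Ex_mono h0 hp1
      intro T hT
      have heT : e ∉ T := fun h => he (hT h)
      have c1 : Box A B (insert e T) → Box A1 B T ∨ Box A B1 T := by
        rintro ⟨T1, T2, h2, h3, h4, h5, h6⟩
        by_cases he1 : e ∈ T1
        · left
          have he2 : e ∉ T2 := fun h => Finset.disjoint_left.1 h4 he1 h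
          refine ⟨T1.erase e, T2, ?_, ?_, ?_, ?_, h6⟩
          · intro x hx
            rw [Finset.mem_erase] at hx
            rcases Finset.mem_insert.1 (h2 hx.2) with h | h
            · exact absurd h hx.1
            · exact h
          · intro x hx
            rcases Finset.mem_insert.1 (h3 hx) with h | h
            · exact absurd (h ▸ hx) he2
            · exact h
          · exact Finset.disjoint_of_subset_left (Finset.erase_subset _ _) h4
          · show A (insert e (T1.erase e))
            rw [Finset.insert_erase he1]; exact h5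
        · right
          refine ⟨T1, T2.erase e, ?_, ?_, ?_, h5, ?_⟩
          · intro x hx
            rcases Finset.mem_insert.1 (h2 hx) with h | h
            · exact absurd (h ▸ hx) he1
            · exact h
          · intro x hx
            rw [Finset.mem_erase] at hx
            rcases Finset.mem_insert.1 (h3 hx.2) with h | h
            · exact absurd h hx.1
            · exact h
          · exact Finset.disjoint_of_subset_right (Finset.erase_subset _ _) h4
          · show B (insert e (T2.erase e))
            by_cases he2 : e ∈ T2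
            · rw [Finset.insert_erase he2]; exact h6
            · rw [Finset.erase_eq_of_notMem he2]
              exact hB (Finset.subset_insert _ _) h6
      have c2 : Box A B T → Box A1 B T ∧ Box A B1 T := fun h =>
        ⟨Box_mono hAA1 (fun _ h => h) h, Box_mono (fun _ h => h) hBB1 h⟩
      have k1 := ind_nonneg (Box A1 B T)
      have k2 := ind_nonneg (Box A B1 T)
      by_cases hb : Box A B T
      · rw [ind_of hb, ind_of (c2 hb).1, ind_of (c2 hb).2]
        linarith [ind_le_one (Box A B (insert e T))]
      · rw [ind_not_of hb]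
        by_cases hc : Box A B (insert e T)
        · rcases c1 hc with h | h
          · rw [ind_of h]; linarith [ind_le_one (Box A B (insert e T))]
          · rw [ind_of h]; linarith [ind_le_one (Box A B (insert e T))]
        · rw [ind_not_of hc]; linarith
    have m1 : Pr p S A ≤ Pr p S A1 := Pr_mono h0 hp1 fun T _ h => hAA1 T h
    have m2 : Pr p S B ≤ Pr p S B1 := Pr_mono h0 hp1 fun T _ h => hBB1 T h
    set a0 := Pr p S A
    set a1 := Pr p S A1
    set b0 := Pr p S B
    set b1 := Pr p S B1
    set β := Pr p S (Box A B)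
    have k1 : p * Pr p S (fun T => Box A B (insert e T)) ≤
        p * (a1 * b0 + a0 * b1 - β) := by
      apply mul_le_mul_of_nonneg_left _ h0
      linarith
    have k2 : (1 - 2 * p) * β ≤ (1 - 2 * p) * (a0 * b0) :=
      mul_le_mul_of_nonneg_left i00 (by linarith)
    have k3 : 0 ≤ p ^ 2 * ((a1 - a0) * (b1 - b0)) :=
      mul_nonneg (sq_nonneg _) (mul_nonneg (by linarith) (by linarith))
    nlinarith only [k1, k2, k3]

lemma Pr_box_le {p : ℝ} (h0 : 0 ≤ p) (h1 : p ≤ 1 / 2) {S : Finset E} {A B : Finset E → Prop}
    (hA : Inc A) (hB : Inc B) {a b : ℝ} (ha : Pr p S A ≤ a) (hb : Pr p S B ≤ b) :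
    Pr p S (Box A B) ≤ a * b := by
  have hp1 : p ≤ 1 := by linarith
  exact (bk h0 h1 hA hB).trans (mul_le_mul ha hb (Pr_nonneg h0 hp1 _)
    ((Pr_nonneg h0 hp1 _).trans ha))

/-! ### the local lemma -/

lemma Pr_and_indep {p : ℝ} {S : Finset E} {P Q : Finset E → Prop} {A B : Finset E}
    (hP : Dep (fun T => ind (P T)) A) (hQ : Dep (fun T => ind (Q T)) B) (hAB : Disjoint A B)
    (hA : A ⊆ S) (hB : B ⊆ S) :
    Pr p S (fun T => P T ∧ Q T) = Pr p S P * Pr p S Q := by
  unfold Pr
  simp only [ind_and]
  exact Ex_mul_indep hP hQ hAB hA hB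

open Classical in
/-- symmetric local lemma -/
theorem lll {ι : Type*} {p : ℝ} (h0 : 0 ≤ p) (h1 : p ≤ 1) {S : Finset E} (I : Finset ι)
    (A : ι → Finset E → Prop) (B : ι → Finset E)
    (hdep : ∀ i ∈ I, Dep (fun T => ind (A i T)) (B i)) (hB : ∀ i ∈ I, B i ⊆ S) {q : ℝ} {d : ℕ}
    (hq : ∀ i ∈ I, Pr p S (A i) ≤ q)
    (hd : ∀ i ∈ I, (I.filter fun j => ¬ Disjoint (B i) (B j)).card ≤ d) (hq0 : 0 ≤ q)
    (hd1 : 1 ≤ d) (h4 : 4 * q * d ≤ 1) :
    ∃ T ⊆ S, ∀ i ∈ I, ¬ A i T := by
  have hd1' : (1:ℝ) ≤ d := by exact_mod_cast hd1
  have hq4 : q ≤ 1 / 4 := by nlinarith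
  set g : Finset ι → ℝ := fun J => Pr p S (fun T => ∀ j ∈ J, ¬ A j T) with hg
  have hg0 : ∀ J, 0 ≤ g J := fun J => Pr_nonneg h0 h1 _
  -- splitting
  have hsplit : ∀ (J : Finset ι) (i : ι),
      g (insert i J) = g J - Pr p S (fun T => A i T ∧ ∀ j ∈ J, ¬ A j T) := by
    intro J i
    rw [hg]
    simp only
    unfold Pr
    rw [← Ex_sub]
    apply Ex_congr
    intro T _
    by_cases hJ : ∀ j ∈ J, ¬ A j T
    · by_cases hi : A i T
      · have h5 : ¬ ∀ j ∈ insert i J, ¬ A j T := fun h => h i (Finset.mem_insert_self _ _) hi
        rw [ind_of hJ, ind_of (show A i T ∧ ∀ j ∈ J, ¬ A j T from ⟨hi, hJ⟩), ind_not_of h5]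
        ring
      · rw [ind_of hJ, ind_not_of (fun h : A i T ∧ _ => hi h.1), ind_of]
        · ring
        · intro j hj
          rcases Finset.mem_insert.1 hj with h | h
          · rw [h]; exact hi
          · exact hJ j h
    · rw [ind_not_of hJ, ind_not_of (fun h : A i T ∧ _ => hJ h.2), ind_not_of]
      · ring
      · intro h; exact hJ fun j hj => h j (Finset.mem_insert_of_mem hj)
  have main : ∀ N : ℕ, ∀ J ⊆ I, J.card ≤ N → 0 < g J ∧ ∀ i ∈ I, i ∉ J →
      Pr p S (fun T => A i T ∧ ∀ j ∈ J, ¬ A j T) ≤ 2 * q * g J := by
    intro N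
    induction N with
    | zero =>
      intro J hJ hc
      have : J = ∅ := Finset.card_eq_zero.1 (by omega)
      subst this
      have e1 : g ∅ = 1 := by
        rw [hg]
        simp only [Finset.notMem_empty, false_imp_iff, implies_true]
        unfold Pr
        simp only [ind_of trivial]
        exact Ex_const 1
      refine ⟨by rw [e1]; norm_num, ?_⟩
      intro i hi _
      rw [e1, mul_one]
      refine le_trans (Pr_mono h0 h1 (Q := A i) fun T _ h => h.1) ?_
      linarith [hq i hi]
    | succ N ih =>
      intro J hJ hc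
      -- positivity
      have hpos : 0 < g J := by
        rcases J.eq_empty_or_nonempty with h | ⟨i, hi⟩
        · exact (ih J hJ (by rw [h, Finset.card_empty]; omega)).1
        · have hi' : i ∉ J.erase i := Finset.notMem_erase i J
          have hs : J.erase i ⊆ I := (Finset.erase_subset _ _).trans hJ
          have hcard : (J.erase i).card ≤ N := by
            rw [Finset.card_erase_of_mem hi]; omega
          obtain ⟨k1, k2⟩ := ih (J.erase i) hs hcard
          have k3 := k2 i (hJ hi) hi'
          have k4 := hsplit (J.erase i) i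
          rw [Finset.insert_erase hi] at k4
          rw [k4]
          nlinarith
      refine ⟨hpos, ?_⟩
      intro i hi hiJ
      set J1 := J.filter fun j => ¬ Disjoint (B i) (B j) with hJ1
      set J2 := J.filter fun j => Disjoint (B i) (B j) with hJ2
      have hJ12 : J2 ∪ J1 = J := Finset.filter_union_filter_not_eq _ _
      -- independence
      have hstep1 : Pr p S (fun T => A i T ∧ ∀ j ∈ J, ¬ A j T) ≤ q * g J2 := by
        have e1 : Pr p S (fun T => A i T ∧ ∀ j ∈ J, ¬ A j T) ≤
            Pr p S (fun T => A i T ∧ ∀ j ∈ J2, ¬ A j T) :=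
          Pr_mono h0 h1 fun T _ h => ⟨h.1, fun j hj => h.2 j (Finset.mem_filter.1 hj).1⟩
        refine e1.trans ?_
        have hdep2 : Dep (fun T => ind (∀ j ∈ J2, ¬ A j T)) (J2.biUnion B) := by
          intro T
          apply ind_congr
          constructor
          · intro h j hj hA
            have := hdep j (hJ (Finset.mem_filter.1 hj).1)
            have h2 := (this.mono (Finset.subset_biUnion_of_mem B hj)) T
            beta_reduce at h2
            rw [ind_of hA] at h2
            by_contra _
            rw [ind_not_of (h j hj)] at h2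
            norm_num at h2
          · intro h j hj hA
            have := hdep j (hJ (Finset.mem_filter.1 hj).1)
            have h2 := (this.mono (Finset.subset_biUnion_of_mem B hj)) T
            beta_reduce at h2
            rw [ind_of hA] at h2
            by_contra _
            rw [ind_not_of (h j hj)] at h2
            norm_num at h2
        rw [Pr_and_indep (hdep i hi) hdep2 (by
          rw [Finset.disjoint_biUnion_right]
          intro j hj
          exact (Finset.mem_filter.1 hj).2) (hB i hi)
          (Finset.biUnion_subset.2 fun j hj => hB j (hJ (Finset.mem_filter.1 hj).1))]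
        exact mul_le_mul_of_nonneg_right (hq i hi) (hg0 J2)
      -- g J ≥ g J2 / 2
      have hstep2 : ∀ K : Finset ι, K ⊆ J1 →
          g J2 - (K.card : ℝ) * (2 * q * g J2) ≤ g (J2 ∪ K) := by
        intro K
        induction K using Finset.induction_on with
        | empty =>
          intro _
          simp
        | insert j K hjK ihK =>
          intro hK
          have hK' : K ⊆ J1 := (Finset.subset_insert _ _).trans hK
          have hj1 : j ∈ J1 := hK (Finset.mem_insert_self _ _)
          have hjJ : j ∈ J := (Finset.mem_filter.1 hj1).1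
          have hjJ2 : j ∉ J2 := fun h =>
            (Finset.mem_filter.1 hj1).2 (Finset.mem_filter.1 h).2
          have e1 : J2 ∪ insert j K = insert j (J2 ∪ K) := by
            ext x; simp only [Finset.mem_union, Finset.mem_insert]; tauto
          rw [e1, hsplit]
          have hJ2c : J2.card ≤ N := by
            have h5 : J2 ⊆ J.erase j := by
              intro x hx
              rw [Finset.mem_erase]
              exact ⟨fun h => hjJ2 (h ▸ hx), (Finset.mem_filter.1 hx).1⟩
            have h6 := Finset.card_le_card h5
            rw [Finset.card_erase_of_mem hjJ] at h6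
            omega
          have k2 := (ih J2 ((Finset.filter_subset _ _).trans hJ) hJ2c).2 j (hJ hjJ) hjJ2
          have k3 : Pr p S (fun T => A j T ∧ ∀ i ∈ J2 ∪ K, ¬ A i T) ≤
              Pr p S (fun T => A j T ∧ ∀ i ∈ J2, ¬ A i T) :=
            Pr_mono h0 h1 fun T _ h => ⟨h.1, fun i hi => h.2 i (Finset.mem_union_left _ hi)⟩
          have k4 := ihK hK'
          rw [Finset.card_insert_of_notMem hjK]
          push_cast
          linarith
      have hstep3 : g J2 / 2 ≤ g J := by
        have h5 := hstep2 J1 (Finset.Subset.refl _)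
        rw [hJ12] at h5
        have h6 : (J1.card : ℝ) ≤ d := by
          have h7 : J1.card ≤ (I.filter fun j => ¬ Disjoint (B i) (B j)).card :=
            Finset.card_le_card (Finset.filter_subset_filter _ hJ)
          exact_mod_cast h7.trans (hd i hi)
        have h8 : (J1.card : ℝ) * (2 * q * g J2) ≤ 1 / 2 * g J2 := by
          have h9 : (J1.card : ℝ) * (2 * q) ≤ 1 / 2 := by
            have : (J1.card : ℝ) * (2 * q) ≤ d * (2 * q) :=
              mul_le_mul_of_nonneg_right h6 (by linarith)
            linarith
          have := mul_le_mul_of_nonneg_right h9 (hg0 J2)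
          linarith
        linarith
      have := mul_le_mul_of_nonneg_left hstep3 hq0
      linarith
  have hfin := (main I.card I (Finset.Subset.refl _) le_rfl).1
  by_contra hcon
  push Not at hcon
  have : g I = 0 := by
    rw [hg]
    simp only
    unfold Pr
    rw [Ex_congr (g := fun _ => 0)]
    · exact Ex_const 0
    · intro T hT
      obtain ⟨i, hi, hA⟩ := hcon T hT
      exact ind_not_of fun h => h i hi hA
  rw [this] at hfin
  exact lt_irrefl _ hfin

end

end Pool.Agent.H1.RO
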