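import Pool.Agent.H1.RO.Extract

/-!
Breadth first search: in a good graph the up-set generated by the elements with large up-sets
spans a forest plus at most one edge in each component.
-/

set_option autoImplicit false
set_option linter.unusedSectionVars false

namespace Pool.Agent.H1.RO

open Finset Pool.Agent.H1.CC

variable {n : ℕ}

/-- good graphs -/
structure GoodT (T : Finset (Sym2 (Fin n))) (M d h s : ℕ) : Prop where
  path : ∀ u v A, ¬ PS rkU T (h + 1) u v A
  chain : ∀ q ∈ Finset.range (n + 1), ∀ a, ¬ CH M n q d a T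
  sparse : ∀ A : Finset (Fin n), A.card ≤ s → (T ∩ ins A).card ≤ A.card

variable {T : Finset (Sym2 (Fin n))} {M d h s : ℕ}

lemma SS_up {x y : Fin n} (hx : x ∈ SS T M) (hxy : gle T x y) : y ∈ SS T M := by
  rw [mem_SS] at hx ⊢
  obtain ⟨z, h1, h2⟩ := hx
  exact ⟨z, h1, gle_trans h2 hxy⟩

lemma Hv_SS {x : Fin n} (hx : Hv T M x) : x ∈ SS T M := mem_SS.2 ⟨x, hx, gle_refl _ _⟩

lemma GoodT.near (g : GoodT T M d h s) {a b : Fin n} (ha : a ∈ SS T M) (hab : gle T a b) :
    ∃ k ≤ h, Wk (RH T M) k a b := by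
  obtain ⟨k, A, h1, h2⟩ := exists_PS_up hab
  refine ⟨k, ?_, PS_walk h1 fun v hv => SS_up ha (h2 v hv).1⟩
  by_contra hcon
  push Not at hcon
  obtain ⟨i, rfl⟩ : ∃ i, k = (h + 1) + i := ⟨k - (h + 1), by omega⟩
  obtain ⟨v, A', h3⟩ := h1.trunc
  exact g.path a v A' h3

lemma GoodT.heavy_near (g : GoodT T M d h s) {x z : Fin n} (hx : Hv T M x)
    (hr : Rch (RG T M) z x) : ∃ k ≤ d + 3 * h, Wk (RH T M) k x z := by
  have even : ∀ q x, Hv T M x → Rch (RG T M) z x → lev (RG T M) z x = 2 * q →
      ∃ k ≤ d + h, Wk (RH T M) k x z := by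
    intro q x hx hr hl
    obtain ⟨a, ha, L, k, hkL, hwk, hch⟩ := extract q x hx hr hl
    have hq : q ∈ Finset.range (n + 1) := by
      have := lev_lt_card hr
      rw [Fintype.card_fin] at this
      rw [Finset.mem_range]; omega
    have hLd : L < d := by
      by_contra hcon
      push Not at hcon
      refine g.chain q hq a (CH_inc M n q d a ?_ (hch d hcon))
      intro e he
      exact (mem_Rgn.1 he).1
    obtain ⟨k', hk', hw'⟩ := g.near (Hv_SS hx) ha
    exact ⟨k' + k, by omega, hw'.trans hwk⟩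
  rcases Nat.even_or_odd' (lev (RG T M) z x) with ⟨q, hq | hq⟩
  · obtain ⟨k, h1, h2⟩ := even q x hx hr hq
    exact ⟨k, by omega, h2⟩
  · obtain ⟨x', h1, h2, h3⟩ := lev_step hr hq
    obtain ⟨k, h4, h5⟩ := even q x' h1.1 h2 h3
    obtain ⟨v, h6, h7⟩ := h1.2.2
    obtain ⟨k1, h8, h9⟩ := g.near (Hv_SS h1.1) h6
    obtain ⟨k2, h10, h11⟩ := g.near (Hv_SS hx) h7
    exact ⟨k2 + k1 + k, by omega, (h11.trans (h9.symm RH_symm)).trans h5⟩

lemma rch_heavy {z u : Fin n} (hz : Hv T M z) (hzu : gle T z u) {k : ℕ} {v : Fin n}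
    (hw : Wk (RH T M) k u v) : ∃ x, Hv T M x ∧ gle T x v ∧ Rch (RG T M) z x := by
  induction k generalizing v with
  | zero =>
    have : u = v := hw
    subst this
    exact ⟨z, hz, hzu, Rch.refl z⟩
  | succ k ih =>
    obtain ⟨w, h1, h2⟩ := hw
    obtain ⟨x, h3, h4, h5⟩ := ih h1
    rcases lt_trichotomy w v with h6 | h6 | h6
    · exact ⟨x, h3, gle_trans h4 (gle_edge h6 h2.2.2), h5⟩
    · rw [← h6]; exact ⟨x, h3, h4, h5⟩
    · obtain ⟨y, h7, h8⟩ := mem_SS.1 h2.2.1
      refine ⟨y, h7, h8, h5.trans (Rch.one ⟨h3, h7, w, h4, ?_⟩)⟩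
      exact gle_trans h8 (gle_edge h6 (by rw [Sym2.eq_swap]; exact h2.2.2))

lemma GoodT.radius (g : GoodT T M d h s) {u v : Fin n} (hu : u ∈ SS T M)
    (hr : Rch (RH T M) u v) : lev (RH T M) u v ≤ d + 5 * h := by
  obtain ⟨z, hz, hzu⟩ := mem_SS.1 hu
  obtain ⟨k, hk⟩ := hr
  obtain ⟨x, hx, hxv, hzx⟩ := rch_heavy hz hzu hk
  obtain ⟨k1, h1, h2⟩ := g.heavy_near hx hzx
  obtain ⟨k2, h3, h4⟩ := g.near (Hv_SS hx) hxv
  obtain ⟨k3, h5, h6⟩ := g.near (Hv_SS hz) hzu
  have h7 : Wk (RH T M) (k3 + k1 + k2) u v :=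
    ((h6.symm RH_symm).trans (h2.symm RH_symm)).trans h4
  have := lev_le h7
  omega

/-! ### roots -/

/-- the component -/
noncomputable def rset (T : Finset (Sym2 (Fin n))) (M : ℕ) (v : Fin n) : Finset (Fin n) := by
  classical exact Finset.univ.filter fun u => Rch (RH T M) u v

lemma mem_rset {u v : Fin n} : u ∈ rset T M v ↔ Rch (RH T M) u v := by
  unfold rset; simp

lemma rset_ne (v : Fin n) : (rset T M v).Nonempty := ⟨v, mem_rset.2 (Rch.refl v)⟩

/-- the root of the component -/
noncomputable def root (T : Finset (Sym2 (Fin n))) (M : ℕ) (v : Fin n) : Fin n :=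
  (rset T M v).min' (rset_ne v)

lemma root_rch (v : Fin n) : Rch (RH T M) (root T M v) v :=
  mem_rset.1 (Finset.min'_mem _ (rset_ne v))

lemma root_eq {u v : Fin n} (h : Rch (RH T M) u v) : root T M u = root T M v := by
  have e : rset T M u = rset T M v := by
    ext w
    rw [mem_rset, mem_rset]
    exact ⟨fun h' => h'.trans h, fun h' => h'.trans (h.symm RH_symm)⟩
  unfold root
  simp only [e]

/-- depth -/
noncomputable def dpt (T : Finset (Sym2 (Fin n))) (M : ℕ) (v : Fin n) : ℕ :=
  lev (RH T M) (root T M v) v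

open Classical in
/-- parent -/
noncomputable def prt (T : Finset (Sym2 (Fin n))) (M : ℕ) (v : Fin n) : Fin n :=
  if h : ∃ u, RH T M u v ∧ dpt T M u + 1 = dpt T M v then h.choose else v

lemma prt_spec {v : Fin n} (hv : 0 < dpt T M v) :
    RH T M (prt T M v) v ∧ dpt T M (prt T M v) + 1 = dpt T M v := by
  have h : ∃ u, RH T M u v ∧ dpt T M u + 1 = dpt T M v := by
    obtain ⟨k, hk⟩ : ∃ k, dpt T M v = k + 1 := ⟨dpt T M v - 1, by omega⟩
    obtain ⟨u, h1, h2, h3⟩ := lev_step (root_rch v) hk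
    refine ⟨u, h1, ?_⟩
    have h4 : root T M u = root T M v := root_eq (Rch.one h1)
    rw [hk]
    unfold dpt
    rw [h4, h3]
  unfold prt
  rw [dif_pos h]
  exact h.choose_spec

lemma prt_zero {v : Fin n} (hv : dpt T M v = 0) : prt T M v = v := by
  unfold prt
  rw [dif_neg]
  rintro ⟨u, _, h⟩
  omega

lemma dpt_zero {v : Fin n} (hv : dpt T M v = 0) : root T M v = v := by
  have h1 := lev_spec (root_rch (T := T) (M := M) v)
  unfold dpt at hv
  rw [hv] at h1
  exact h1

lemma root_prt (v : Fin n) : root T M (prt T M v) = root T M v := by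
  rcases Nat.eq_zero_or_pos (dpt T M v) with h | h
  · rw [prt_zero h]
  · exact root_eq (Rch.one (prt_spec h).1)

lemma dpt_prt (v : Fin n) : dpt T M (prt T M v) = dpt T M v - 1 := by
  rcases Nat.eq_zero_or_pos (dpt T M v) with h | h
  · rw [prt_zero h, h]
  · have := (prt_spec h).2
    omega

lemma iter_prt (v : Fin n) (i : ℕ) : root T M ((prt T M)^[i] v) = root T M v ∧
    dpt T M ((prt T M)^[i] v) = dpt T M v - i := by
  induction i with
  | zero => exact ⟨rfl, rfl⟩
  | succ i ih =>
    rw [Function.iterate_succ_apply', root_prt, dpt_prt]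
    exact ⟨ih.1, by omega⟩

open Classical in
theorem GoodT.extra (g : GoodT T M d h s) (hs : 4 * (d + 5 * h + 1) ≤ s) {a b a' b' : Fin n}
    (ha : a ∈ SS T M) (hb : b ∈ SS T M) (ha' : a' ∈ SS T M) (hb' : b' ∈ SS T M) (hab : a < b)
    (hab' : a' < b') (he : s(a, b) ∈ T) (he' : s(a', b') ∈ T)
    (h1 : ¬ (0 < dpt T M a ∧ prt T M a = b)) (h2 : ¬ (0 < dpt T M b ∧ prt T M b = a))
    (h3 : ¬ (0 < dpt T M a' ∧ prt T M a' = b')) (h4 : ¬ (0 < dpt T M b' ∧ prt T M b' = a'))
    (hr : root T M a = root T M a') : a = a' ∧ b = b' := by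
  by_contra hcon
  set r := d + 5 * h with hrr
  have hrb : root T M b = root T M a :=
    (root_eq (Rch.one ⟨ha, hb, he⟩)).symm
  have hrb' : root T M b' = root T M a := by
    rw [hr]; exact (root_eq (Rch.one ⟨ha', hb', he'⟩)).symm
  -- depths
  have rootS : ∀ v ∈ SS T M, root T M v ∈ SS T M := by
    intro v hv
    rcases Nat.eq_zero_or_pos (dpt T M v) with h5 | h5
    · rw [dpt_zero h5]; exact hv
    · obtain ⟨k, hk⟩ := (root_rch (T := T) (M := M) v).symm RH_symm
      cases k with
      | zero =>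
        have : v = root T M v := hk
        rw [← this]; exact hv
      | succ k =>
        obtain ⟨u, _, h6⟩ := hk
        exact h6.2.1
  have hdep : ∀ v ∈ SS T M, dpt T M v ≤ r := fun v hv => g.radius (rootS v hv) (root_rch v)
  set P : Fin n → Finset (Fin n) := fun v => (Finset.range (r + 1)).image
    fun i => (prt T M)^[i] v with hP
  have hPself : ∀ v, v ∈ P v := by
    intro v
    rw [hP]
    exact Finset.mem_image.2 ⟨0, Finset.mem_range.2 (by omega), rfl⟩
  have hPcard : ∀ v, (P v).card ≤ r + 1 := by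
    intro v
    have := Finset.card_image_le (s := Finset.range (r + 1)) (f := fun i => (prt T M)^[i] v)
    rwa [Finset.card_range] at this
  have hPpar : ∀ v ∈ SS T M, ∀ x ∈ P v, 0 < dpt T M x → prt T M x ∈ P v := by
    intro v hv x hx hx0
    obtain ⟨i, hi, rfl⟩ := Finset.mem_image.1 hx
    rw [(iter_prt v i).2] at hx0
    have := hdep v hv
    refine Finset.mem_image.2 ⟨i + 1, Finset.mem_range.2 (by omega), ?_⟩
    exact Function.iterate_succ_apply' _ _ _
  have hProot : ∀ v, ∀ x ∈ P v, root T M x = root T M v := by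
    intro v x hx
    obtain ⟨i, hi, rfl⟩ := Finset.mem_image.1 hx
    exact (iter_prt v i).1
  set A := P a ∪ P b ∪ (P a' ∪ P b') with hA
  have hAcard : A.card ≤ s := by
    have k1 := Finset.card_union_le (P a ∪ P b) (P a' ∪ P b')
    have k2 := Finset.card_union_le (P a) (P b)
    have k3 := Finset.card_union_le (P a') (P b')
    have k4 := hPcard a
    have k5 := hPcard b
    have k6 := hPcard a'
    have k7 := hPcard b'
    rw [hA]
    omega
  have hApar : ∀ x ∈ A, 0 < dpt T M x → prt T M x ∈ A := by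
    intro x hx hx0
    rw [hA] at hx ⊢
    rcases Finset.mem_union.1 hx with hx | hx
    · rcases Finset.mem_union.1 hx with hx | hx
      · exact Finset.mem_union_left _ (Finset.mem_union_left _ (hPpar a ha x hx hx0))
      · exact Finset.mem_union_left _ (Finset.mem_union_right _ (hPpar b hb x hx hx0))
    · rcases Finset.mem_union.1 hx with hx | hx
      · exact Finset.mem_union_right _ (Finset.mem_union_left _ (hPpar a' ha' x hx hx0))
      · exact Finset.mem_union_right _ (Finset.mem_union_right _ (hPpar b' hb' x hx hx0))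
  have hAroot : ∀ x ∈ A, root T M x = root T M a := by
    intro x hx
    rw [hA] at hx
    rcases Finset.mem_union.1 hx with hx | hx
    · rcases Finset.mem_union.1 hx with hx | hx
      · exact hProot a x hx
      · exact (hProot b x hx).trans hrb
    · rcases Finset.mem_union.1 hx with hx | hx
      · exact (hProot a' x hx).trans hr.symm
      · exact (hProot b' x hx).trans hrb'
  have haA : a ∈ A := Finset.mem_union_left _ (Finset.mem_union_left _ (hPself a))
  have hbA : b ∈ A := Finset.mem_union_left _ (Finset.mem_union_right _ (hPself b))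
  have haA' : a' ∈ A := Finset.mem_union_right _ (Finset.mem_union_left _ (hPself a'))
  have hbA' : b' ∈ A := Finset.mem_union_right _ (Finset.mem_union_right _ (hPself b'))
  -- tree edges
  set A1 := A.filter fun x => 0 < dpt T M x with hA1
  set Q := A1.image fun v => s(v, prt T M v) with hQ
  have hQcard : Q.card = A1.card := by
    apply Finset.card_image_of_injOn
    intro v hv w hw hvw
    have hv' := (Finset.mem_filter.1 (Finset.mem_coe.1 hv)).2
    have hw' := (Finset.mem_filter.1 (Finset.mem_coe.1 hw)).2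
    have hvw' : s(v, prt T M v) = s(w, prt T M w) := hvw
    rw [Sym2.eq_iff] at hvw'
    rcases hvw' with h5 | h5
    · exact h5.1
    · exfalso
      have h6 := (prt_spec hv').2
      have h7 := (prt_spec hw').2
      rw [h5.2] at h6
      rw [← h5.1] at h7
      omega
  have hAA1 : A.card ≤ A1.card + 1 := by
    have k1 : A ⊆ insert (root T M a) A1 := by
      intro x hx
      rw [Finset.mem_insert]
      rcases Nat.eq_zero_or_pos (dpt T M x) with h5 | h5
      · left
        rw [← hAroot x hx, dpt_zero h5]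
      · right
        exact Finset.mem_filter.2 ⟨hx, h5⟩
    exact (Finset.card_le_card k1).trans (Finset.card_insert_le _ _)
  have hQsub : Q ⊆ T ∩ ins A := by
    intro e hee
    obtain ⟨v, hv, rfl⟩ := Finset.mem_image.1 hee
    obtain ⟨hvA, hv0⟩ := Finset.mem_filter.1 hv
    obtain ⟨h5, h6⟩ := prt_spec hv0
    rw [Finset.mem_inter, mem_ins]
    refine ⟨by rw [Sym2.eq_swap]; exact h5.2.2, hvA, hApar v hvA hv0, ?_⟩
    intro h7
    rw [← h7] at h6
    omega
  have hnot : ∀ x y : Fin n, ¬ (0 < dpt T M x ∧ prt T M x = y) →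
      ¬ (0 < dpt T M y ∧ prt T M y = x) → s(x, y) ∉ Q := by
    intro x y k1 k2 k3
    obtain ⟨v, hv, h5⟩ := Finset.mem_image.1 k3
    have hv0 := (Finset.mem_filter.1 hv).2
    rw [Sym2.eq_iff] at h5
    rcases h5 with h5 | h5
    · exact k1 ⟨h5.1 ▸ hv0, by rw [← h5.1]; exact h5.2⟩
    · exact k2 ⟨h5.1 ▸ hv0, by rw [← h5.1]; exact h5.2⟩
  have hne : s(a, b) ≠ s(a', b') := by
    intro h5
    rw [Sym2.eq_iff] at h5
    rcases h5 with h5 | h5
    · exact hcon h5
    · rw [h5.1, h5.2] at hab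
      exact lt_asymm hab hab'
  have hfin : insert (s(a, b)) (insert (s(a', b')) Q) ⊆ T ∩ ins A := by
    apply Finset.insert_subset
    · rw [Finset.mem_inter, mem_ins]
      exact ⟨he, haA, hbA, hab.ne⟩
    apply Finset.insert_subset
    · rw [Finset.mem_inter, mem_ins]
      exact ⟨he', haA', hbA', hab'.ne⟩
    exact hQsub
  have hc := Finset.card_le_card hfin
  rw [Finset.card_insert_of_notMem, Finset.card_insert_of_notMem (hnot a' b' h3 h4), hQcard] at hc
  · have := g.sparse A hAcard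
    omega
  · rw [Finset.mem_insert]
    rintro (h5 | h5)
    · exact hne h5
    · exact hnot a b h1 h2 h5

/-- the forest of a good graph -/
noncomputable def GoodT.forest (g : GoodT T M d h s) (hs : 4 * (d + 5 * h + 1) ≤ s) :
    Forest T (SS T M) where
  par := prt T M
  dep := dpt T M
  rt := root T M
  up := fun _ hx _ hxy => SS_up hx hxy
  par_mem := fun _ _ h0 => (prt_spec h0).1.1
  dep_par := fun _ _ h0 => (prt_spec h0).2
  par_edge := fun v _ h0 => by
    rw [Sym2.eq_swap]
    exact (prt_spec h0).1.2.2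
  rt_edge := fun _ hu _ hv he => root_eq (Rch.one ⟨hu, hv, he⟩)
  extra := fun _ _ _ _ ha hb ha' hb' hab hab' he he' h1 h2 h3 h4 hr =>
    g.extra hs ha hb ha' hb' hab hab' he he' h1 h2 h3 h4 hr

theorem GoodT.keys (g : GoodT T M d h s) (hs : 4 * (d + 5 * h + 1) ≤ s) :
    ∃ F : Finset (Fin n → ℕ), F.card ≤ 10 ∧ KeyRev T F (fun x _ => x ∈ SS T M) :=
  (g.forest hs).ten_keys

end Pool.Agent.H1.RO
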