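import Pool.Agent.H1.RO.Forest

/-!
Chains of overlapping large up-sets: probability.
-/

set_option autoImplicit false
set_option linter.unusedSectionVars false

namespace Pool.Agent.H1.RO

open Finset Pool.Agent.H1.CC

variable {n : ℕ}

/-- `k` steps along edges, each decreasing the rank `ρ`, followed by `X`; the vertices are
collected in `V` -/
def PP (ρ : Fin n → ℕ) : ℕ → (Fin n → Finset (Fin n) → Finset (Sym2 (Fin n)) → Prop) → Fin n →
    Finset (Fin n) → Finset (Sym2 (Fin n)) → Prop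
  | 0, X, u, V => X u V
  | k + 1, X, u, V => fun T => ∃ v, ρ v < ρ u ∧
      Box (fun T' => s(u, v) ∈ T') (PP ρ k X v (insert v V)) T

lemma PP_inc {ρ : Fin n → ℕ} {k : ℕ} {X : Fin n → Finset (Fin n) → Finset (Sym2 (Fin n)) → Prop}
    (hX : ∀ u V, Inc (X u V)) (u : Fin n) (V : Finset (Fin n)) : Inc (PP ρ k X u V) := by
  cases k with
  | zero => exact hX u V
  | succ k =>
    rintro T T' h ⟨v, h1, h2⟩
    exact ⟨v, h1, Box_inc h h2⟩

lemma sum_choose_range (m k : ℕ) : ∑ i ∈ Finset.range m, i.choose k = m.choose (k + 1) := by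
  induction m with
  | zero => simp
  | succ m ih => rw [Finset.sum_range_succ, ih, Nat.choose_succ_succ]; ring

lemma sum_choose_rank {ρ : Fin n → ℕ} (hρ : Function.Injective ρ) (u : Fin n) (k : ℕ) :
    ∑ v ∈ Finset.univ.filter (fun v => ρ v < ρ u), (ρ v).choose k ≤ (ρ u).choose (k + 1) := by
  rw [← sum_choose_range]
  rw [← Finset.sum_image (f := fun i => i.choose k) (g := ρ) (fun a _ b _ h => hρ h)]
  apply Finset.sum_le_sum_of_subset
  intro i hi
  obtain ⟨v, hv, rfl⟩ := Finset.mem_image.1 hi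
  exact Finset.mem_range.2 (Finset.mem_filter.1 hv).2

lemma Pr_edge {p : ℝ} {u v : Fin n} (h : u ≠ v) :
    Pr p (allE (Fin n)) (fun T => s(u, v) ∈ T) = p := by
  have := Ex_subset (p := p) (S := allE (Fin n)) (F := {s(u, v)})
    (Finset.singleton_subset_iff.2 (mem_allE.2 h))
  simp only [Finset.singleton_subset_iff, Finset.card_singleton, pow_one] at this
  exact this

lemma PP_bound {p : ℝ} (h0 : 0 ≤ p) (h1 : p ≤ 1 / 2) {ρ : Fin n → ℕ} (hρ : Function.Injective ρ)
    {X : Fin n → Finset (Fin n) → Finset (Sym2 (Fin n)) → Prop} (hX : ∀ u V, Inc (X u V))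
    {ξ B : ℝ} (hξ : 0 ≤ ξ) (hB : 1 ≤ B) (hPr : ∀ u V, Pr p (allE (Fin n)) (X u V) ≤ ξ * B ^ V.card)
    (k : ℕ) : ∀ u V, Pr p (allE (Fin n)) (PP ρ k X u V) ≤
      ((ρ u).choose k : ℝ) * p ^ k * (ξ * B ^ (V.card + k)) := by
  have hp1 : p ≤ 1 := by linarith
  induction k with
  | zero =>
    intro u V
    simp only [Nat.choose_zero_right, Nat.cast_one, pow_zero, mul_one, one_mul, add_zero]
    exact hPr u V
  | succ k ih =>
    intro u V
    have e1 : Pr p (allE (Fin n)) (PP ρ (k + 1) X u V) ≤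
        ∑ v ∈ Finset.univ.filter (fun v => ρ v < ρ u),
          Pr p (allE (Fin n)) (Box (fun T' => s(u, v) ∈ T') (PP ρ k X v (insert v V))) := by
      refine le_trans ?_ (Pr_exists_le h0 hp1 _ _)
      apply Pr_mono h0 hp1
      rintro T _ ⟨v, h2, h3⟩
      exact ⟨v, Finset.mem_filter.2 ⟨Finset.mem_univ _, h2⟩, h3⟩
    refine e1.trans ?_
    have e2 : ∀ v ∈ Finset.univ.filter (fun v => ρ v < ρ u),
        Pr p (allE (Fin n)) (Box (fun T' => s(u, v) ∈ T') (PP ρ k X v (insert v V))) ≤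
          (((ρ v).choose k : ℕ) : ℝ) * (p ^ (k + 1) * (ξ * B ^ (V.card + (k + 1)))) := by
      intro v hv
      have hne : u ≠ v := by
        rintro rfl
        exact lt_irrefl _ (Finset.mem_filter.1 hv).2
      have h2 : Inc (fun T' : Finset (Sym2 (Fin n)) => s(u, v) ∈ T') := fun _ _ h h' => h h'
      refine (Pr_box_le h0 h1 h2 (PP_inc hX _ _) (Pr_edge hne).le (ih v (insert v V))).trans ?_
      have h3 : B ^ ((insert v V).card + k) ≤ B ^ (V.card + (k + 1)) := by
        apply pow_le_pow_right₀ hB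
        have := Finset.card_insert_le v V
        omega
      calc p * ((((ρ v).choose k : ℕ) : ℝ) * p ^ k * (ξ * B ^ ((insert v V).card + k))) ≤
          p * ((((ρ v).choose k : ℕ) : ℝ) * p ^ k * (ξ * B ^ (V.card + (k + 1)))) := by
            apply mul_le_mul_of_nonneg_left _ h0
            apply mul_le_mul_of_nonneg_left _ (by positivity)
            exact mul_le_mul_of_nonneg_left h3 hξ
        _ = _ := by ring
    refine (Finset.sum_le_sum e2).trans ?_
    rw [← Finset.sum_mul, mul_assoc]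
    apply mul_le_mul_of_nonneg_right _ (by positivity)
    have := sum_choose_rank hρ u k
    exact_mod_cast this

/-- paths of arbitrary length at most `N`; the length is subtracted from `D` -/
def PX (ρ : Fin n → ℕ) (N : ℕ) (X : ℕ → Fin n → Finset (Fin n) → Finset (Sym2 (Fin n)) → Prop)
    (D : ℕ) (u : Fin n) (V : Finset (Fin n)) (T : Finset (Sym2 (Fin n))) : Prop :=
  ∃ t ∈ Finset.range (N + 1), PP ρ t (X (D - t)) u V T

lemma PX_inc {ρ : Fin n → ℕ} {N : ℕ}
    {X : ℕ → Fin n → Finset (Fin n) → Finset (Sym2 (Fin n)) → Prop}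
    (hX : ∀ D u V, Inc (X D u V)) (D : ℕ) (u : Fin n) (V : Finset (Fin n)) :
    Inc (PX ρ N X D u V) := by
  rintro T T' h ⟨t, h1, h2⟩
  exact ⟨t, h1, PP_inc (hX _) _ _ h h2⟩

lemma PX_bound {p c z : ℝ} (h0 : 0 ≤ p) (h1 : p ≤ 1 / 2) (hpc : p * n = c) (hz : 1 ≤ z)
    {ρ : Fin n → ℕ} (hρ : Function.Injective ρ) (hρn : ∀ u, ρ u ≤ n) {N : ℕ}
    {X : ℕ → Fin n → Finset (Fin n) → Finset (Sym2 (Fin n)) → Prop} (hX : ∀ D u V, Inc (X D u V))
    {ξ B : ℝ} (hξ : 0 ≤ ξ) (hB : 1 ≤ B)
    (hPr : ∀ D u V, Pr p (allE (Fin n)) (X D u V) ≤ ξ * z⁻¹ ^ D * B ^ V.card)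
    (D : ℕ) (u : Fin n) (V : Finset (Fin n)) :
    Pr p (allE (Fin n)) (PX ρ N X D u V) ≤
      (ξ * Real.exp (c * z * B)) * z⁻¹ ^ D * B ^ V.card := by
  have hp1 : p ≤ 1 := by linarith
  have hz0 : 0 < z := by linarith
  have hzi : 0 < z⁻¹ := inv_pos.2 hz0
  have hc0 : 0 ≤ c := by rw [← hpc]; positivity
  unfold PX
  refine (Pr_exists_le h0 hp1 _ _).trans ?_
  have e1 : ∀ t ∈ Finset.range (N + 1), Pr p (allE (Fin n)) (PP ρ t (X (D - t)) u V) ≤
      (c * z * B) ^ t / t.factorial * (ξ * z⁻¹ ^ D * B ^ V.card) := by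
    intro t _
    refine (PP_bound h0 h1 hρ (hX _) (ξ := ξ * z⁻¹ ^ (D - t)) (by positivity) hB
      (hPr (D - t)) t u V).trans ?_
    have k1 : (((ρ u).choose t : ℕ) : ℝ) * p ^ t ≤ c ^ t / t.factorial := by
      have h2 : (((ρ u).choose t : ℕ) : ℝ) ≤ (ρ u : ℝ) ^ t / t.factorial :=
        Nat.choose_le_pow_div t (ρ u)
      have h3 : (ρ u : ℝ) ^ t ≤ (n:ℝ) ^ t :=
        pow_le_pow_left₀ (Nat.cast_nonneg _) (by exact_mod_cast hρn u) t
      calc (((ρ u).choose t : ℕ) : ℝ) * p ^ t ≤ ((n:ℝ) ^ t / t.factorial) * p ^ t := by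
            apply mul_le_mul_of_nonneg_right _ (by positivity)
            exact h2.trans (div_le_div_of_nonneg_right h3 (Nat.cast_nonneg _))
        _ = c ^ t / t.factorial := by rw [← hpc, mul_pow]; ring
    have k2 : z⁻¹ ^ (D - t) ≤ z ^ t * z⁻¹ ^ D := by
      by_cases h : t ≤ D
      · have h2 : z⁻¹ ^ D = z⁻¹ ^ (D - t) * z⁻¹ ^ t := by rw [← pow_add]; congr 1; omega
        rw [h2]
        have h3 : z ^ t * z⁻¹ ^ t = 1 := by rw [← mul_pow, mul_inv_cancel₀ hz0.ne', one_pow]
        apply le_of_eq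
        calc z⁻¹ ^ (D - t) = z⁻¹ ^ (D - t) * (z ^ t * z⁻¹ ^ t) := by rw [h3, mul_one]
          _ = _ := by ring
      · have h2 : D - t = 0 := by omega
        rw [h2, pow_zero]
        have h3 : z ^ t = z ^ (t - D) * z ^ D := by rw [← pow_add]; congr 1; omega
        rw [h3, mul_assoc, ← mul_pow, mul_inv_cancel₀ hz0.ne', one_pow, mul_one]
        exact one_le_pow₀ hz
    calc (((ρ u).choose t : ℕ) : ℝ) * p ^ t * (ξ * z⁻¹ ^ (D - t) * B ^ (V.card + t)) ≤
        (c ^ t / t.factorial) * (ξ * (z ^ t * z⁻¹ ^ D) * B ^ (V.card + t)) := by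
          apply mul_le_mul k1 _ (by positivity) (by positivity)
          apply mul_le_mul_of_nonneg_right _ (by positivity)
          exact mul_le_mul_of_nonneg_left k2 hξ
      _ = _ := by rw [pow_add, mul_pow, mul_pow]; ring
  refine (Finset.sum_le_sum e1).trans ?_
  rw [← Finset.sum_mul]
  have e2 : ∑ t ∈ Finset.range (N + 1), (c * z * B) ^ t / t.factorial ≤ Real.exp (c * z * B) :=
    Real.sum_le_exp_of_nonneg (by positivity) _
  calc (∑ t ∈ Finset.range (N + 1), (c * z * B) ^ t / t.factorial) * (ξ * z⁻¹ ^ D * B ^ V.card) ≤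
      Real.exp (c * z * B) * (ξ * z⁻¹ ^ D * B ^ V.card) :=
        mul_le_mul_of_nonneg_right e2 (by positivity)
    _ = _ := by ring

/-- the rank for increasing paths -/
def rkU (v : Fin n) : ℕ := (Fin.rev v).val

/-- the rank for decreasing paths -/
def rkD (v : Fin n) : ℕ := v.val

lemma rkU_inj : Function.Injective (rkU : Fin n → ℕ) := by
  intro a b h
  unfold rkU at h
  exact Fin.rev_injective (Fin.ext h)

lemma rkD_inj : Function.Injective (rkD : Fin n → ℕ) := fun _ _ h => Fin.ext h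

lemma rkU_lt {u v : Fin n} : rkU v < rkU u ↔ u < v := by
  unfold rkU
  rw [← Fin.lt_def, Fin.rev_lt_rev]

lemma rkD_lt {u v : Fin n} : rkD v < rkD u ↔ v < u := Iff.rfl

lemma rkU_le (u : Fin n) : rkU u ≤ n := (Fin.rev u).isLt.le

lemma rkD_le (u : Fin n) : rkD u ≤ n := u.isLt.le

lemma gle_mono {T T' : Finset (Sym2 (Fin n))} (h : T ⊆ T') {a b : Fin n} (hab : gle T a b) :
    gle T' a b := by
  induction hab with
  | refl => exact gle_refl _ _
  | tail _ h2 ih => exact gle_trans ih (gle_edge h2.1 (h h2.2))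

open Classical in
/-- the vertices in `V` have more than `M` elements above them -/
def BigV (M : ℕ) (V : Finset (Fin n)) (T : Finset (Sym2 (Fin n))) : Prop :=
  M < (V.biUnion (ups T)).card

lemma BigV_inc (M : ℕ) (V : Finset (Fin n)) : Inc (BigV M V) := by
  intro T T' h h'
  unfold BigV at h' ⊢
  refine lt_of_lt_of_le h' (Finset.card_le_card ?_)
  intro v hv
  obtain ⟨u, hu, h2⟩ := Finset.mem_biUnion.1 hv
  exact Finset.mem_biUnion.2 ⟨u, hu, mem_ups.2 (gle_mono h (mem_ups.1 h2))⟩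

/-- the factor for a large up-set -/
noncomputable def RR (c : ℝ) (M j : ℕ) : ℝ :=
  j.factorial * (j + 1).factorial * Real.exp (c * j) / (M:ℝ) ^ j

lemma BigV_bound {p c : ℝ} (h0 : 0 ≤ p) (h1 : p ≤ 1) (hpc : p * n = c) {M : ℕ} (hM : 1 ≤ M)
    (j : ℕ) (V : Finset (Fin n)) :
    Pr p (allE (Fin n)) (BigV M V) ≤ RR c M j * Real.exp 1 ^ V.card := by
  classical
  have hM0 : (0:ℝ) < M := by exact_mod_cast hM
  rcases V.eq_empty_or_nonempty with hV | hV
  · subst hV
    have e : Pr p (allE (Fin n)) (BigV M ∅) = 0 := by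
      unfold Pr
      rw [Ex_congr (g := fun _ => 0)]
      · exact Ex_const 0
      · intro T _
        apply ind_not_of
        unfold BigV
        simp
    rw [e]
    unfold RR
    positivity
  have hV0 : (0:ℝ) < V.card := by exact_mod_cast Finset.card_pos.2 hV
  have e1 : Pr p (allE (Fin n)) (BigV M V) ≤ Pr p (allE (Fin n)) (fun T => ∃ v ∈ V,
      (M:ℝ) / V.card ≤ ((ups T v).card : ℝ)) := by
    apply Pr_mono h0 h1
    intro T _ h
    by_contra hcon
    push Not at hcon
    unfold BigV at h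
    have h2 : ((V.biUnion (ups T)).card : ℝ) ≤ M := by
      calc ((V.biUnion (ups T)).card : ℝ) ≤ ∑ v ∈ V, ((ups T v).card : ℝ) := by
            exact_mod_cast Finset.card_biUnion_le
        _ ≤ ∑ _v ∈ V, (M:ℝ) / V.card := Finset.sum_le_sum fun v hv => (hcon v hv).le
        _ = M := by rw [Finset.sum_const, nsmul_eq_mul]; field_simp
    have h3 : (M:ℝ) < ((V.biUnion (ups T)).card : ℝ) := by exact_mod_cast h
    linarith
  refine e1.trans ((Pr_exists_le h0 h1 _ _).trans ?_)
  have e2 : ∀ v ∈ V, Pr p (allE (Fin n)) (fun T => (M:ℝ) / V.card ≤ ((ups T v).card : ℝ)) ≤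
      j.factorial * Real.exp (c * j) / ((M:ℝ) / V.card) ^ j := fun v _ =>
    prob_ups h0 h1 hpc v j (by positivity)
  refine (Finset.sum_le_sum e2).trans ?_
  rw [Finset.sum_const, nsmul_eq_mul]
  have e3 : (V.card : ℝ) ^ (j + 1) ≤ (j + 1).factorial * Real.exp 1 ^ V.card := by
    have h2 := Real.pow_div_factorial_le_exp (V.card : ℝ) (Nat.cast_nonneg _) (j + 1)
    rw [div_le_iff₀ (by positivity)] at h2
    have h3 : Real.exp (V.card : ℝ) = Real.exp 1 ^ V.card := by rw [← Real.exp_nat_mul]; simp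
    rw [h3] at h2
    linarith
  calc (V.card : ℝ) * (j.factorial * Real.exp (c * j) / ((M:ℝ) / V.card) ^ j) =
      j.factorial * Real.exp (c * j) / (M:ℝ) ^ j * (V.card : ℝ) ^ (j + 1) := by
        rw [div_pow, pow_succ]; field_simp
    _ ≤ j.factorial * Real.exp (c * j) / (M:ℝ) ^ j *
        ((j + 1).factorial * Real.exp 1 ^ V.card) :=
        mul_le_mul_of_nonneg_left e3 (by positivity)
    _ = _ := by unfold RR; ring

/-- chains with `q` links and total length at least `D` -/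
def CH (M N : ℕ) : ℕ → ℕ → Fin n → Finset (Sym2 (Fin n)) → Prop
  | 0, D, _ => fun _ => D = 0
  | q + 1, D, a =>
    PX rkD N (fun D1 m V1 =>
      PX rkU N (fun D2 b V2 =>
        PX rkD N (fun D3 μ V3 =>
          PX rkD N (fun D4 _ V4 =>
            PX rkU N (fun D5 a' V5 => Box (BigV M V5) (CH M N q D5 a'))
              D4 μ V4)
            D3 μ V3)
          D2 b V2)
        D1 m V1)
      D a {a}

lemma CH_inc (M N : ℕ) (q D : ℕ) (a : Fin n) : Inc (CH M N q D a) := by
  cases q with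
  | zero => exact fun _ _ _ h => h
  | succ q =>
    apply PX_inc; intro _ _ _
    apply PX_inc; intro _ _ _
    apply PX_inc; intro _ _ _
    apply PX_inc; intro _ _ _
    apply PX_inc; intro _ _ _
    exact Box_inc

theorem CH_bound {p c z : ℝ} (h0 : 0 ≤ p) (h1 : p ≤ 1 / 2) (hpc : p * n = c) (hz : 1 ≤ z)
    {M N j : ℕ} (hM : 1 ≤ M) {θ : ℝ}
    (hθ : RR c M j * Real.exp (5 * (c * z * Real.exp 1)) * Real.exp 1 ≤ θ) (q : ℕ) :
    ∀ D (a : Fin n), Pr p (allE (Fin n)) (CH M N q D a) ≤ θ ^ q * z⁻¹ ^ D := by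
  have hp1 : p ≤ 1 := by linarith
  have hz0 : 0 < z := by linarith
  have hR0 : 0 ≤ RR c M j := by unfold RR; positivity
  have hθ0 : 0 ≤ θ := le_trans (by positivity) hθ
  have hB : 1 ≤ Real.exp 1 := Real.one_le_exp (by norm_num)
  induction q with
  | zero =>
    intro D a
    rcases Nat.eq_zero_or_pos D with h | h
    · subst h
      rw [pow_zero, pow_zero, mul_one]
      exact Pr_le_one h0 hp1 _
    · have e : Pr p (allE (Fin n)) (CH M N 0 D a) = 0 := by
        unfold Pr
        rw [Ex_congr (g := fun _ => 0)]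
        · exact Ex_const 0
        · intro T _
          apply ind_not_of
          show ¬ (D = 0)
          omega
      rw [e]
      positivity
  | succ q ih =>
    intro D a
    have s0 : ∀ (D : ℕ) (u : Fin n) (V : Finset (Fin n)),
        Pr p (allE (Fin n)) (Box (BigV M V) (CH M N q D u)) ≤
          (RR c M j * θ ^ q) * z⁻¹ ^ D * Real.exp 1 ^ V.card := by
      intro D u V
      refine (Pr_box_le h0 h1 (BigV_inc M V) (CH_inc M N q D u) (BigV_bound h0 hp1 hpc hM j V)
        (ih D u)).trans (le_of_eq ?_)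
      ring
    have i0 : ∀ (D : ℕ) (u : Fin n) (V : Finset (Fin n)), Inc (Box (BigV M V) (CH M N q D u)) :=
      fun _ _ _ => Box_inc
    set K := Real.exp (c * z * Real.exp 1) with hK
    have hK0 : 0 < K := Real.exp_pos _
    have b1 := fun (D : ℕ) (u : Fin n) (V : Finset (Fin n)) =>
      PX_bound (N := N) h0 h1 hpc hz rkU_inj rkU_le i0 (by positivity) hB s0 D u V
    have i1 := fun (D : ℕ) (u : Fin n) (V : Finset (Fin n)) =>
      PX_inc (ρ := rkU) (N := N) i0 D u V
    -- side branch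
    have b2 : ∀ (D : ℕ) (μ : Fin n) (V : Finset (Fin n)),
        Pr p (allE (Fin n)) (PX rkD N (fun D4 _ V4 =>
            PX rkU N (fun D5 a' V5 => Box (BigV M V5) (CH M N q D5 a')) D4 μ V4) D μ V) ≤
          (RR c M j * θ ^ q * K * K) * z⁻¹ ^ D * Real.exp 1 ^ V.card := by
      intro D μ V
      exact PX_bound (N := N) h0 h1 hpc hz rkD_inj rkD_le (fun _ _ _ => i1 _ _ _)
        (by positivity) hB (fun D _ V => b1 D μ V) D μ V
    have i2 : ∀ (D : ℕ) (μ : Fin n) (V : Finset (Fin n)), Inc (PX rkD N (fun D4 _ V4 =>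
            PX rkU N (fun D5 a' V5 => Box (BigV M V5) (CH M N q D5 a')) D4 μ V4) D μ V) :=
      fun D μ V => PX_inc (fun _ _ _ => i1 _ _ _) _ _ _
    have b3 := fun (D : ℕ) (u : Fin n) (V : Finset (Fin n)) =>
      PX_bound (N := N) h0 h1 hpc hz rkD_inj rkD_le i2 (by positivity) hB b2 D u V
    have i3 := fun (D : ℕ) (u : Fin n) (V : Finset (Fin n)) =>
      PX_inc (ρ := rkD) (N := N) i2 D u V
    have b4 := fun (D : ℕ) (u : Fin n) (V : Finset (Fin n)) =>
      PX_bound (N := N) h0 h1 hpc hz rkU_inj rkU_le i3 (by positivity) hB b3 D u V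
    have i4 := fun (D : ℕ) (u : Fin n) (V : Finset (Fin n)) =>
      PX_inc (ρ := rkU) (N := N) i3 D u V
    have b5 := PX_bound (N := N) h0 h1 hpc hz rkD_inj rkD_le i4 (by positivity) hB b4 D a {a}
    refine le_trans b5 ?_
    rw [Finset.card_singleton, pow_one]
    have e5 : K ^ 5 = Real.exp (5 * (c * z * Real.exp 1)) := by
      rw [hK, ← Real.exp_nat_mul]; norm_num
    calc RR c M j * θ ^ q * K * K * K * K * K * z⁻¹ ^ D * Real.exp 1 =
        (RR c M j * K ^ 5 * Real.exp 1) * (θ ^ q * z⁻¹ ^ D) := by ring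
      _ ≤ θ * (θ ^ q * z⁻¹ ^ D) := by
          rw [e5]
          exact mul_le_mul_of_nonneg_right hθ (by positivity)
      _ = θ ^ (q + 1) * z⁻¹ ^ D := by ring

/-! ### deterministic paths -/

/-- a path with vertex set `A` decreasing the rank -/
inductive PS (ρ : Fin n → ℕ) (T : Finset (Sym2 (Fin n))) : ℕ → Fin n → Fin n →
    Finset (Fin n) → Prop
  | nil (u : Fin n) : PS ρ T 0 u u {u}
  | cons {k : ℕ} {u v w : Fin n} {A : Finset (Fin n)} (h : ρ v < ρ u) (he : s(u, v) ∈ T)
      (hp : PS ρ T k v w A) : PS ρ T (k + 1) u w (insert u A)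

variable {ρ : Fin n → ℕ} {T : Finset (Sym2 (Fin n))}

lemma PS.left {k : ℕ} {u w : Fin n} {A : Finset (Fin n)} (h : PS ρ T k u w A) : u ∈ A := by
  cases h with
  | nil => exact Finset.mem_singleton_self _
  | cons => exact Finset.mem_insert_self _ _

lemma PS.right {k : ℕ} {u w : Fin n} {A : Finset (Fin n)} (h : PS ρ T k u w A) : w ∈ A := by
  induction h with
  | nil => exact Finset.mem_singleton_self _
  | cons _ _ _ ih => exact Finset.mem_insert_of_mem ih

lemma PS.rank_le {k : ℕ} {u w : Fin n} {A : Finset (Fin n)} (h : PS ρ T k u w A) :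
    ∀ v ∈ A, ρ v ≤ ρ u := by
  induction h with
  | nil => intro v hv; rw [Finset.mem_singleton.1 hv]
  | cons h1 _ _ ih =>
    intro x hx
    rcases Finset.mem_insert.1 hx with h2 | h2
    · rw [h2]
    · exact (ih x h2).trans h1.le

lemma PS.notMem {k : ℕ} {u v w : Fin n} {A : Finset (Fin n)} (h : PS ρ T k v w A)
    (hu : ρ v < ρ u) : u ∉ A := fun h2 => absurd (h.rank_le u h2) (not_le.2 hu)

lemma PS.card {k : ℕ} {u w : Fin n} {A : Finset (Fin n)} (h : PS ρ T k u w A) :
    A.card = k + 1 := by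
  induction h with
  | nil => exact Finset.card_singleton _
  | cons h1 _ h3 ih => rw [Finset.card_insert_of_notMem (h3.notMem h1), ih]

lemma PS.length_le {k : ℕ} {u w : Fin n} {A : Finset (Fin n)} (h : PS ρ T k u w A) : k ≤ n := by
  have h1 := h.card
  have h2 := Finset.card_le_univ A
  rw [Fintype.card_fin] at h2
  omega

lemma PS.trunc {j i : ℕ} {u w : Fin n} {A : Finset (Fin n)} (h : PS ρ T (j + i) u w A) :
    ∃ v A', PS ρ T j u v A' := by
  induction j generalizing u w A with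
  | zero => exact ⟨u, {u}, PS.nil u⟩
  | succ j ih =>
    rw [show j + 1 + i = (j + i) + 1 by ring] at h
    cases h with
    | cons h1 h2 h3 =>
      obtain ⟨v, A', h4⟩ := ih h3
      exact ⟨v, _, PS.cons h1 h2 h4⟩

lemma PP_of_PS {X : Fin n → Finset (Fin n) → Finset (Sym2 (Fin n)) → Prop}
    (hX : ∀ u V, Inc (X u V)) {k : ℕ} {u w : Fin n} {A : Finset (Fin n)} (h : PS ρ T k u w A) :
    ∀ {V : Finset (Fin n)} {T' : Finset (Sym2 (Fin n))}, u ∈ V → X w (V ∪ A) T' →
      Disjoint (T ∩ ins A) T' → PP ρ k X u V ((T ∩ ins A) ∪ T') := by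
  induction h with
  | nil u =>
    intro V T' hu hXw _
    have e : V ∪ {u} = V := by
      rw [Finset.union_eq_left]
      exact Finset.singleton_subset_iff.2 hu
    rw [e] at hXw
    exact hX _ _ Finset.subset_union_right hXw
  | @cons k u v w A h1 h2 h3 ih =>
    intro V T' hu hXw hd
    have hvA : v ∈ A := h3.left
    have huA : u ∉ A := h3.notMem h1
    have hne : u ≠ v := fun h => huA (h ▸ hvA)
    have hsub : T ∩ ins A ⊆ T ∩ ins (insert u A) :=
      Finset.inter_subset_inter_left (ins_mono (Finset.subset_insert _ _))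
    have hmem : s(u, v) ∈ T ∩ ins (insert u A) := by
      rw [Finset.mem_inter, mem_ins]
      exact ⟨h2, Finset.mem_insert_self _ _, Finset.mem_insert_of_mem hvA, hne⟩
    refine ⟨v, h1, {s(u, v)}, (T ∩ ins A) ∪ T', ?_, ?_, ?_, ?_, ?_⟩
    · rw [Finset.singleton_subset_iff]
      exact Finset.mem_union_left _ hmem
    · exact Finset.union_subset_union_left hsub
    · rw [Finset.disjoint_singleton_left, Finset.mem_union]
      rintro (h4 | h4)
      · rw [Finset.mem_inter, mem_ins] at h4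
        exact huA h4.2.1
      · exact Finset.disjoint_left.1 hd hmem h4
    · exact Finset.mem_singleton_self _
    · apply ih (Finset.mem_insert_self _ _)
      · have e : insert v V ∪ A = V ∪ insert u A := by
          ext x
          simp only [Finset.mem_union, Finset.mem_insert]
          constructor
          · rintro ((h4 | h4) | h4)
            · exact Or.inr (Or.inr (h4 ▸ hvA))
            · exact Or.inl h4
            · exact Or.inr (Or.inr h4)
          · rintro (h4 | h4 | h4)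
            · exact Or.inl (Or.inr h4)
            · exact Or.inl (Or.inr (h4 ▸ hu))
            · exact Or.inr h4
        rw [e]; exact hXw
      · exact Finset.disjoint_of_subset_left hsub hd

lemma PX_of_PS {X : ℕ → Fin n → Finset (Fin n) → Finset (Sym2 (Fin n)) → Prop}
    (hX : ∀ D u V, Inc (X D u V)) {k : ℕ} {u w : Fin n} {A : Finset (Fin n)} (h : PS ρ T k u w A)
    {D : ℕ} {V : Finset (Fin n)} {T' : Finset (Sym2 (Fin n))} (hu : u ∈ V)
    (hXw : X (D - k) w (V ∪ A) T') (hd : Disjoint (T ∩ ins A) T') :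
    PX ρ n X D u V ((T ∩ ins A) ∪ T') :=
  ⟨k, Finset.mem_range.2 (by have := h.length_le; omega), PP_of_PS (hX _) h hu hXw hd⟩

lemma exists_PS_up {a b : Fin n} (h : gle T a b) :
    ∃ k A, PS rkU T k a b A ∧ ∀ v ∈ A, gle T a v ∧ gle T v b := by
  induction h using Relation.ReflTransGen.head_induction_on with
  | refl =>
    refine ⟨0, {b}, PS.nil b, ?_⟩
    intro v hv
    rw [Finset.mem_singleton.1 hv]
    exact ⟨gle_refl _ _, gle_refl _ _⟩
  | @head a c h1 h2 ih =>
    obtain ⟨k, A, h3, h4⟩ := ih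
    have h5 : gle T a c := gle_edge h1.1 h1.2
    refine ⟨k + 1, insert a A, PS.cons (rkU_lt.2 h1.1) h1.2 h3, ?_⟩
    intro v hv
    rcases Finset.mem_insert.1 hv with h6 | h6
    · rw [h6]; exact ⟨gle_refl _ _, gle_trans h5 h2⟩
    · exact ⟨gle_trans h5 (h4 v h6).1, (h4 v h6).2⟩

lemma exists_PS_dn {a b : Fin n} (h : gle T a b) :
    ∃ k A, PS rkD T k b a A ∧ ∀ v ∈ A, gle T a v ∧ gle T v b := by
  induction h with
  | refl =>
    refine ⟨0, {a}, PS.nil a, ?_⟩
    intro v hv
    rw [Finset.mem_singleton.1 hv]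
    exact ⟨gle_refl _ _, gle_refl _ _⟩
  | @tail c b h1 h2 ih =>
    obtain ⟨k, A, h3, h4⟩ := ih
    have h5 : gle T c b := gle_edge h2.1 h2.2
    refine ⟨k + 1, insert b A, PS.cons (rkD_lt.2 h2.1) (by rw [Sym2.eq_swap]; exact h2.2) h3, ?_⟩
    intro v hv
    rcases Finset.mem_insert.1 hv with h6 | h6
    · rw [h6]; exact ⟨gle_trans h1 h5, gle_refl _ _⟩
    · exact ⟨(h4 v h6).1, gle_trans (h4 v h6).2 h5⟩

end Pool.Agent.H1.RO
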