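import Pool.Agent.H1.RO.Grow
import Pool.Agent.H1.CC.Det

/-!
Deterministic parts: two-step expansion, the staircase bound for linear extensions.
-/

set_option autoImplicit false
set_option linter.unusedSectionVars false

namespace Pool.Agent.H1.RO

open Finset Pool.Agent.H1.CC

variable {V : Type*} [DecidableEq V] [Fintype V]

open Classical in
/-- vertices of `W` with at least `D` neighbours in `X` -/
noncomputable def hdg (T : Finset (Sym2 V)) (W X : Finset V) (D : ℝ) : Finset V :=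
  W.filter fun v => D ≤ ((nb T v X).card : ℝ)

lemma mem_hdg {T : Finset (Sym2 V)} {W X : Finset V} {D : ℝ} {v : V} :
    v ∈ hdg T W X D ↔ v ∈ W ∧ D ≤ ((nb T v X).card : ℝ) := by
  unfold hdg; rw [Finset.mem_filter]

lemma hdg_subset (T : Finset (Sym2 V)) (W X : Finset V) (D : ℝ) : hdg T W X D ⊆ W := by
  intro v hv; exact (mem_hdg.1 hv).1

lemma hdg_large {T : Finset (Sym2 V)} {p m : ℝ} (hPR : PRp T p m) (hm : 0 < m)
    {W X : Finset V} (hWX : Disjoint W X) (hX : m ≤ X.card) {D : ℝ} (hD : D ≤ p * X.card / 2) :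
    (W.card : ℝ) - m ≤ ((hdg T W X D).card : ℝ) := by
  classical
  set B := W \ hdg T W X D with hB
  have hlt : (B.card : ℝ) < m := by
    by_contra hcon
    push Not at hcon
    have hBX : Disjoint B X := Finset.disjoint_of_subset_left Finset.sdiff_subset hWX
    have h1 := hPR B X hBX hcon hX
    rw [eb_eq hBX, Nat.cast_sum] at h1
    have hB0 : (0:ℝ) < B.card := lt_of_lt_of_le hm hcon
    have hBne : B.Nonempty := Finset.card_pos.1 (by exact_mod_cast hB0)
    have h2 : ∑ v ∈ B, ((nb T v X).card : ℝ) < ∑ _v ∈ B, D := by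
      apply Finset.sum_lt_sum_of_nonempty hBne
      intro v hv
      rw [hB, Finset.mem_sdiff, mem_hdg] at hv
      by_contra h3
      push Not at h3
      exact hv.2 ⟨hv.1, h3⟩
    rw [Finset.sum_const, nsmul_eq_mul] at h2
    have h3 : (B.card : ℝ) * D ≤ B.card * (p * X.card / 2) :=
      mul_le_mul_of_nonneg_left hD hB0.le
    nlinarith
  have h4 : B.card + (hdg T W X D).card = W.card :=
    Finset.card_sdiff_add_card_eq_card (hdg_subset _ _ _ _)
  have h5 : (B.card : ℝ) + ((hdg T W X D).card : ℝ) = W.card := by exact_mod_cast h4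
  linarith

lemma expand_one {T : Finset (Sym2 V)} {ρ σ s1 : ℝ} (hEX : EXp T ρ σ s1) {A X : Finset V}
    (hAX : Disjoint A X) (h1 : σ ≤ A.card) (h2 : (A.card : ℝ) ≤ s1)
    (hdeg : ∀ v ∈ A, 2 * ρ ≤ ((nb T v X).card : ℝ)) :
    ρ * A.card < ((nnb T A X).card : ℝ) := by
  by_contra hcon
  push Not at hcon
  have hd : Disjoint A (nnb T A X) := Finset.disjoint_of_subset_right (nnb_subset _ _ _) hAX
  have h3 := hEX A (nnb T A X) hd h1 h2 hcon
  rw [eb_eq hd, Nat.cast_sum] at h3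
  have h4 : ∑ _v ∈ A, (2 * ρ) ≤ ∑ v ∈ A, ((nb T v (nnb T A X)).card : ℝ) := by
    apply Finset.sum_le_sum
    intro v hv
    have e1 : nb T v (nnb T A X) = nb T v X := by
      ext y
      rw [mem_nb, mem_nb, mem_nnb]
      constructor
      · rintro ⟨⟨h5, _⟩, h6⟩; exact ⟨h5, h6⟩
      · rintro ⟨h5, h6⟩
        exact ⟨⟨h5, v, hv, by rw [Sym2.eq_swap]; exact h6⟩, h6⟩
    rw [e1]
    exact hdeg v hv
  rw [Finset.sum_const, nsmul_eq_mul] at h4
  linarith

lemma expand_two {T : Finset (Sym2 V)} {ρ σ s1 : ℝ} (hρ : 1 ≤ ρ) (hEX : EXp T ρ σ s1)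
    {W0 W1 W2 : Finset V} (h01 : Disjoint W0 W1) (h12 : Disjoint W1 W2) {A : Finset V}
    (hA : A ⊆ hdg T W0 (hdg T W1 W2 (2 * ρ)) (2 * ρ)) (h1 : σ ≤ A.card)
    (h2 : ρ * (A.card : ℝ) + 1 ≤ s1) :
    ρ ^ 2 * A.card ≤ ((ts T A W1 W2).card : ℝ) := by
  set G1 := hdg T W1 W2 (2 * ρ) with hG1
  have hA0 : (0:ℝ) ≤ A.card := Nat.cast_nonneg _
  have hAs : (A.card : ℝ) ≤ s1 := by nlinarith
  have hAG : Disjoint A G1 := by
    apply Finset.disjoint_of_subset_left (hA.trans (hdg_subset _ _ _ _))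
    exact Finset.disjoint_of_subset_right (hdg_subset _ _ _ _) h01
  have h3 := expand_one hEX hAG h1 hAs (fun v hv => (mem_hdg.1 (hA hv)).2)
  have h4 : ⌈ρ * (A.card : ℝ)⌉₊ ≤ (nnb T A G1).card := Nat.ceil_le.2 h3.le
  obtain ⟨N, hN1, hN2⟩ := Finset.exists_subset_card_eq h4
  have hN3 : ρ * A.card ≤ (N.card : ℝ) := by rw [hN2]; exact Nat.le_ceil _
  have hN4 : (N.card : ℝ) ≤ ρ * A.card + 1 := by
    rw [hN2]; exact (Nat.ceil_lt_add_one (by positivity)).le
  have hNG : N ⊆ G1 := hN1.trans (nnb_subset _ _ _)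
  have hN12 : Disjoint N W2 :=
    Finset.disjoint_of_subset_left (hNG.trans (hdg_subset _ _ _ _)) h12
  have h5 := expand_one hEX hN12 (by nlinarith) (by linarith)
    (fun v hv => (mem_hdg.1 (hNG hv)).2)
  have h6 : (nnb T N W2).card ≤ (ts T A W1 W2).card := by
    apply Finset.card_le_card
    unfold ts
    apply nnb_mono _ (Finset.Subset.refl _)
    exact hN1.trans (nnb_mono (Finset.Subset.refl _) (hdg_subset _ _ _ _))
  have h7 : ((nnb T N W2).card : ℝ) ≤ ((ts T A W1 W2).card : ℝ) := by exact_mod_cast h6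
  nlinarith

/-! ### the staircase -/

open Classical in
/-- reversed pairs -/
lemma staircase {A B : Finset V} {L : V → V → Prop} (htr : ∀ a b c, L a b → L b c → L a c)
    (htot : ∀ a b, L a b ∨ L b a) {Z : ℝ}
    (hfree : ∀ A' ⊆ A, ∀ B' ⊆ B, (∀ a ∈ A', ∀ b ∈ B', ¬ L a b) →
      (A'.card : ℝ) * B'.card ≤ Z) :
    (((A ×ˢ B).filter fun x => ¬ L x.1 x.2).card : ℝ) ≤
      ∑ i ∈ Finset.range B.card, min (A.card : ℝ) (Z / ((i:ℝ) + 1)) := by
  set Bs : V → Finset V := fun a => B.filter fun b => ¬ L a b with hBs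
  have e1 : ((A ×ˢ B).filter fun x => ¬ L x.1 x.2).card = ∑ a ∈ A, (Bs a).card := by
    rw [Finset.card_filter, Finset.sum_product]
    apply Finset.sum_congr rfl
    intro a _
    rw [hBs]
    simp only
    rw [Finset.card_filter]
  have e2 : ∀ a ∈ A, (Bs a).card = ∑ i ∈ Finset.range B.card, if i + 1 ≤ (Bs a).card then 1 else 0 := by
    intro a _
    rw [← Finset.card_filter]
    have h1 : (Finset.range B.card).filter (fun i => i + 1 ≤ (Bs a).card) =
        Finset.range (Bs a).card := by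
      ext i
      rw [Finset.mem_filter, Finset.mem_range, Finset.mem_range]
      have : (Bs a).card ≤ B.card := Finset.card_filter_le _ _
      omega
    rw [h1, Finset.card_range]
  rw [e1, Finset.sum_congr rfl e2, Finset.sum_comm, Nat.cast_sum]
  apply Finset.sum_le_sum
  intro i hi
  rw [← Finset.card_filter]
  set At := A.filter fun a => i + 1 ≤ (Bs a).card with hAt
  apply le_min
  · exact_mod_cast Finset.card_filter_le _ _
  rcases At.eq_empty_or_nonempty with h0 | hne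
  · rw [h0]
    have hZ : 0 ≤ Z := by
      have := hfree ∅ (Finset.empty_subset _) ∅ (Finset.empty_subset _) (by simp)
      simpa using this
    simp only [Finset.card_empty, Nat.cast_zero]
    positivity
  obtain ⟨a0, ha0, hmin⟩ := Finset.exists_min_image At (fun a => (Bs a).card) hne
  have hnest : ∀ a ∈ At, Bs a0 ⊆ Bs a := by
    intro a ha
    have hsub : ∀ x y, L x y → Bs x ⊆ Bs y := by
      intro x y hxy b hb
      rw [hBs, Finset.mem_filter] at hb ⊢
      exact ⟨hb.1, fun h => hb.2 (htr _ _ _ hxy h)⟩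
    rcases htot a0 a with h | h
    · exact hsub _ _ h
    · have h2 := Finset.eq_of_subset_of_card_le (hsub _ _ h) (hmin a ha)
      rw [h2]
  have h3 := hfree At (Finset.filter_subset _ _) (Bs a0) (Finset.filter_subset _ _) (by
    intro a ha b hb
    have := hnest a ha hb
    rw [hBs, Finset.mem_filter] at this
    exact this.2)
  have h4 : i + 1 ≤ (Bs a0).card := (Finset.mem_filter.1 ha0).2
  have h5 : (i:ℝ) + 1 ≤ ((Bs a0).card : ℝ) := by exact_mod_cast h4
  rw [le_div_iff₀ (by positivity)]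
  refine le_trans ?_ h3
  exact mul_le_mul_of_nonneg_left h5 (Nat.cast_nonneg _)

lemma harm_sub {τ n : ℕ} (h : τ ≤ n) :
    ∑ i ∈ Finset.Ico τ n, 1 / ((i:ℝ) + 1) ≤ 1 + Real.log n - Real.log (τ + 1) := by
  have h1 : ∑ i ∈ Finset.range n, 1 / ((i:ℝ) + 1) ≤ 1 + Real.log n := by
    have := harmonic_le_one_add_log n
    rw [harmonic] at this
    push_cast at this
    simpa [one_div] using this
  have h2 : Real.log (τ + 1) ≤ ∑ i ∈ Finset.range τ, 1 / ((i:ℝ) + 1) := by
    have := log_add_one_le_harmonic τ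
    rw [harmonic] at this
    push_cast at this
    simpa [one_div] using this
  have h3 := Finset.sum_range_add_sum_Ico (fun i : ℕ => 1 / ((i:ℝ) + 1)) h
  linarith

lemma stair_sum {n a b : ℕ} (hn : 1 ≤ n) (ha : a ≤ n) (hb : b ≤ n) {Z : ℝ} (hZ : 0 < Z)
    (hZn : Z ≤ (n:ℝ) ^ 2) :
    ∑ i ∈ Finset.range b, min (a : ℝ) (Z / ((i:ℝ) + 1)) ≤ Z * (2 + Real.log ((n:ℝ) ^ 2 / Z)) := by
  have hn' : (0:ℝ) < n := by exact_mod_cast hn
  set τ := ⌊Z / n⌋₊ with hτ
  have hτ1 : (τ:ℝ) ≤ Z / n := Nat.floor_le (by positivity)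
  have hτ2 : Z / n < τ + 1 := Nat.lt_floor_add_one _
  have hτn : τ ≤ n := by
    have h1 : (τ:ℝ) ≤ n := by
      refine hτ1.trans ?_
      rw [div_le_iff₀ hn']
      nlinarith
    exact_mod_cast h1
  have hle : ∑ i ∈ Finset.range b, min (a : ℝ) (Z / ((i:ℝ) + 1)) ≤
      ∑ i ∈ Finset.range n, min (n : ℝ) (Z / ((i:ℝ) + 1)) := by
    calc ∑ i ∈ Finset.range b, min (a : ℝ) (Z / ((i:ℝ) + 1)) ≤
        ∑ i ∈ Finset.range b, min (n : ℝ) (Z / ((i:ℝ) + 1)) := by
          apply Finset.sum_le_sum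
          intro i _
          exact min_le_min_right _ (by exact_mod_cast ha)
      _ ≤ _ := by
          apply Finset.sum_le_sum_of_subset_of_nonneg
          · exact Finset.range_mono hb
          · intro i _ _
            exact le_min hn'.le (by positivity)
  refine hle.trans ?_
  rw [← Finset.sum_range_add_sum_Ico _ hτn]
  have h1 : ∑ i ∈ Finset.range τ, min (n : ℝ) (Z / ((i:ℝ) + 1)) ≤ Z := by
    calc ∑ i ∈ Finset.range τ, min (n : ℝ) (Z / ((i:ℝ) + 1)) ≤ ∑ _i ∈ Finset.range τ, (n:ℝ) :=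
          Finset.sum_le_sum fun i _ => min_le_left _ _
      _ = τ * n := by rw [Finset.sum_const, Finset.card_range, nsmul_eq_mul]
      _ ≤ Z := by
          have := mul_le_mul_of_nonneg_right hτ1 hn'.le
          have h2 : Z / n * n = Z := by field_simp
          linarith
  have h2 : ∑ i ∈ Finset.Ico τ n, min (n : ℝ) (Z / ((i:ℝ) + 1)) ≤
      Z * (1 + Real.log ((n:ℝ) ^ 2 / Z)) := by
    calc ∑ i ∈ Finset.Ico τ n, min (n : ℝ) (Z / ((i:ℝ) + 1)) ≤
        ∑ i ∈ Finset.Ico τ n, Z * (1 / ((i:ℝ) + 1)) := by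
          apply Finset.sum_le_sum
          intro i _
          rw [mul_one_div]
          exact min_le_right _ _
      _ = Z * ∑ i ∈ Finset.Ico τ n, 1 / ((i:ℝ) + 1) := by rw [Finset.mul_sum]
      _ ≤ Z * (1 + Real.log n - Real.log (τ + 1)) :=
          mul_le_mul_of_nonneg_left (harm_sub hτn) hZ.le
      _ ≤ Z * (1 + Real.log ((n:ℝ) ^ 2 / Z)) := by
          apply mul_le_mul_of_nonneg_left _ hZ.le
          have h3 : Real.log (Z / n) ≤ Real.log (τ + 1) := Real.log_le_log (by positivity) hτ2.le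
          have h4 : Real.log (Z / n) = Real.log Z - Real.log n :=
            Real.log_div hZ.ne' hn'.ne'
          have h5 : Real.log ((n:ℝ) ^ 2 / Z) = 2 * Real.log n - Real.log Z := by
            rw [Real.log_div (by positivity) hZ.ne', Real.log_pow]; norm_num
          linarith
  linarith

open Classical in
/-- lower bound for the number of linear extensions in a realiser -/
lemma dim_lower {le : V → V → Prop} {k : ℕ} (L : Fin k → V → V → Prop)
    (htr : ∀ i a b c, L i a b → L i b c → L i a c) (htot : ∀ i a b, L i a b ∨ L i b a)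
    (hL : ∀ x y, le x y ↔ ∀ i, L i x y) {A B : Finset V} {Z : ℝ} (hZ : 0 < Z)
    (hn : 1 ≤ Fintype.card V) (hZn : Z ≤ (Fintype.card V : ℝ) ^ 2)
    (hfree : ∀ A' ⊆ A, ∀ B' ⊆ B, (∀ a ∈ A', ∀ b ∈ B', ¬ le a b) →
      (A'.card : ℝ) * B'.card ≤ Z) :
    (((A ×ˢ B).filter fun x => ¬ le x.1 x.2).card : ℝ) ≤
      k * (Z * (2 + Real.log ((Fintype.card V : ℝ) ^ 2 / Z))) := by
  have h1 : ((A ×ˢ B).filter fun x => ¬ le x.1 x.2) ⊆
      (Finset.univ : Finset (Fin k)).biUnion fun i => (A ×ˢ B).filter fun x => ¬ L i x.1 x.2 := by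
    intro x hx
    rw [Finset.mem_filter] at hx
    have h2 : ¬ ∀ i, L i x.1 x.2 := fun h => hx.2 ((hL _ _).2 h)
    push Not at h2
    obtain ⟨i, hi⟩ := h2
    rw [Finset.mem_biUnion]
    exact ⟨i, Finset.mem_univ i, Finset.mem_filter.2 ⟨hx.1, hi⟩⟩
  calc (((A ×ˢ B).filter fun x => ¬ le x.1 x.2).card : ℝ) ≤
      (((Finset.univ : Finset (Fin k)).biUnion fun i =>
        (A ×ˢ B).filter fun x => ¬ L i x.1 x.2).card : ℝ) := by
        exact_mod_cast Finset.card_le_card h1
    _ ≤ ((∑ i : Fin k, ((A ×ˢ B).filter fun x => ¬ L i x.1 x.2).card : ℕ) : ℝ) := by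
        exact_mod_cast Finset.card_biUnion_le
    _ = ∑ i : Fin k, (((A ×ˢ B).filter fun x => ¬ L i x.1 x.2).card : ℝ) := by push_cast; rfl
    _ ≤ ∑ _i : Fin k, (Z * (2 + Real.log ((Fintype.card V : ℝ) ^ 2 / Z))) := by
        apply Finset.sum_le_sum
        intro i _
        refine (staircase (htr i) (htot i) (Z := Z) ?_).trans
          (stair_sum hn (Finset.card_le_univ A) (Finset.card_le_univ B) hZ hZn)
        intro A' hA' B' hB' h
        exact hfree A' hA' B' hB' fun a ha b hb hle => h a ha b hb ((hL _ _).1 hle i)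
    _ = _ := by rw [Finset.sum_const, Finset.card_univ, Fintype.card_fin, nsmul_eq_mul]

end Pool.Agent.H1.RO
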