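import Pool.Agent.H1.RO.Tail

/-!
Pseudorandomness: many edges between large sets; few edges between small sets.
-/

set_option autoImplicit false
set_option linter.unusedSectionVars false

namespace Pool.Agent.H1.RO

open Finset Pool.Agent.H1.CC

variable {V : Type*} [DecidableEq V] [Fintype V]

/-- between any two large disjoint sets there are at least half of the expected edges -/
def PRp (T : Finset (Sym2 V)) (p m : ℝ) : Prop :=
  ∀ A B : Finset V, Disjoint A B → m ≤ A.card → m ≤ B.card →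
    p * A.card * B.card / 2 ≤ ((eb T A B : ℕ) : ℝ)

lemma prob_PR {p : ℝ} (h0 : 0 ≤ p) (h1 : p ≤ 1) {m : ℝ} (hm : 0 ≤ m) :
    Pr p (allE V) (fun T => ¬ PRp T p m) ≤
      4 ^ Fintype.card V * Real.exp (-(3 / 20 * (p * m ^ 2))) := by
  classical
  have step1 : Pr p (allE V) (fun T => ¬ PRp T p m) ≤
      Pr p (allE V) (fun T => ∃ x ∈ (Finset.univ : Finset (Finset V × Finset V)),
        (Disjoint x.1 x.2 ∧ m ≤ x.1.card ∧ m ≤ x.2.card) ∧
          ((eb T x.1 x.2 : ℕ) : ℝ) < p * x.1.card * x.2.card / 2) := by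
    apply Pr_mono h0 h1
    intro T _ h
    unfold PRp at h
    push Not at h
    obtain ⟨A, B, hd, hA, hB, h⟩ := h
    exact ⟨(A, B), Finset.mem_univ _, ⟨hd, hA, hB⟩, h⟩
  refine step1.trans ((Pr_exists_le h0 h1 _ _).trans ?_)
  have step2 : ∀ x ∈ (Finset.univ : Finset (Finset V × Finset V)),
      Pr p (allE V) (fun T => (Disjoint x.1 x.2 ∧ m ≤ x.1.card ∧ m ≤ x.2.card) ∧
          ((eb T x.1 x.2 : ℕ) : ℝ) < p * x.1.card * x.2.card / 2) ≤
        Real.exp (-(3 / 20 * (p * m ^ 2))) := by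
    intro x _
    by_cases hx : Disjoint x.1 x.2 ∧ m ≤ x.1.card ∧ m ≤ x.2.card
    · refine (Pr_mono h0 h1 (fun T _ h => h.2)).trans ((prob_eb_low h0 h1 hx.1).trans ?_)
      apply Real.exp_le_exp.2
      have h2 : m ^ 2 ≤ x.1.card * x.2.card := by
        rw [pow_two]; exact mul_le_mul hx.2.1 hx.2.2 hm (Nat.cast_nonneg _)
      have h3 := mul_le_mul_of_nonneg_left h2 h0
      nlinarith
    · refine (Pr_mono h0 h1 (Q := fun _ => False) (fun T _ h => hx h.1)).trans ?_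
      unfold Pr
      simp only [ind_not_of (fun h : False => h)]
      rw [Ex_const]
      exact (Real.exp_pos _).le
  refine (Finset.sum_le_sum step2).trans ?_
  rw [Finset.sum_const, nsmul_eq_mul, Finset.card_univ, Fintype.card_prod, Fintype.card_finset]
  apply le_of_eq
  congr 1
  push_cast
  rw [← mul_pow]
  norm_num

lemma choose_le_exp {n k : ℕ} (hk : 1 ≤ k) (hkn : k ≤ n) :
    ((n.choose k : ℕ) : ℝ) ≤ Real.exp (k * (1 + Real.log (n / k))) := by
  have hk' : (0:ℝ) < k := by exact_mod_cast hk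
  have hn' : (0:ℝ) < n := by exact_mod_cast (lt_of_lt_of_le hk hkn)
  have h1 : ((n.choose k : ℕ) : ℝ) ≤ (n:ℝ) ^ k / k.factorial := Nat.choose_le_pow_div k n
  have h2 : (k:ℝ) ^ k / k.factorial ≤ Real.exp k := Real.pow_div_factorial_le_exp _ hk'.le k
  have h3 : (n:ℝ) ^ k / k.factorial = (n / k : ℝ) ^ k * ((k:ℝ) ^ k / k.factorial) := by
    rw [div_pow]; field_simp
  have h4 : (n / k : ℝ) ^ k = Real.exp (k * Real.log (n / k)) := by
    rw [Real.exp_nat_mul, Real.exp_log (by positivity)]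
  calc ((n.choose k : ℕ) : ℝ) ≤ (n / k : ℝ) ^ k * ((k:ℝ) ^ k / k.factorial) := by
        rw [← h3]; exact h1
    _ ≤ (n / k : ℝ) ^ k * Real.exp k := by gcongr
    _ = _ := by rw [h4, ← Real.exp_add]; congr 1; ring

lemma edge_term {a p : ℝ} {t : ℕ} (ht : 1 ≤ t) (ha : 0 < a) (hp : 0 < p) {y : ℝ} (hy : a * p / t ≤ y)
    (hy0 : 0 < y) :
    a ^ t / t.factorial * p ^ t ≤ Real.exp (t * (1 + Real.log y)) := by
  have ht' : (0:ℝ) < t := by exact_mod_cast ht
  have h2 : (t:ℝ) ^ t / t.factorial ≤ Real.exp t := Real.pow_div_factorial_le_exp _ ht'.le t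
  have h3 : a ^ t / t.factorial * p ^ t = (a * p / t) ^ t * ((t:ℝ) ^ t / t.factorial) := by
    rw [div_pow, mul_pow]; field_simp
  have h4 : y ^ t = Real.exp (t * Real.log y) := by
    rw [Real.exp_nat_mul, Real.exp_log hy0]
  calc a ^ t / t.factorial * p ^ t = (a * p / t) ^ t * ((t:ℝ) ^ t / t.factorial) := h3
    _ ≤ y ^ t * Real.exp t := by gcongr
    _ = _ := by rw [h4, ← Real.exp_add]; congr 1; ring

/-- few edges between small sets -/
def EXp (T : Finset (Sym2 V)) (ρ σ s1 : ℝ) : Prop :=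
  ∀ A B : Finset V, Disjoint A B → σ ≤ A.card → (A.card : ℝ) ≤ s1 → (B.card : ℝ) ≤ ρ * A.card →
    ((eb T A B : ℕ) : ℝ) < 2 * ρ * A.card

lemma eb_mono {T : Finset (Sym2 V)} {A B B' : Finset V} (h : B ⊆ B') : eb T A B ≤ eb T A B' := by
  unfold eb
  apply Finset.card_le_card
  apply Finset.inter_subset_inter_right
  intro e he
  obtain ⟨u, hu, v, hv, rfl⟩ := mem_btw.1 he
  exact mem_btw.2 ⟨u, hu, v, h hv, rfl⟩

lemma exp_term {n s r t : ℕ} {p ρ ℓ c : ℝ} (hs : 1 ≤ s) (hn : 1 ≤ n) (hρ : 8 ≤ ρ)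
    (hr : r = ⌊ρ * s⌋₊) (ht : t = ⌈2 * ρ * s⌉₊) (hrn : r ≤ n) (hp : 0 < p) (_hc : 1 ≤ c)
    (hpc : p * n = c) (hℓ : ℓ = Real.log (n / s)) (hℓ10 : 10 ≤ ℓ) (hℓc : 5 * Real.log c ≤ ℓ) :
    ((n.choose s : ℕ) : ℝ) * (n.choose r : ℕ) * (((s * r : ℕ) : ℝ) ^ t / t.factorial * p ^ t) ≤
      Real.exp (-(2 * s)) := by
  have hs' : (1:ℝ) ≤ s := by exact_mod_cast hs
  have hs0 : (0:ℝ) < s := by linarith
  have hn' : (0:ℝ) < n := by exact_mod_cast hn
  have hρs : 8 ≤ ρ * s := by nlinarith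
  have hr1 : (r:ℝ) ≤ ρ * s := by rw [hr]; exact Nat.floor_le (by positivity)
  have hr2 : ρ * s / 2 ≤ r := by
    have : ρ * s < r + 1 := by rw [hr]; exact Nat.lt_floor_add_one _
    linarith
  have hr0 : (0:ℝ) < r := by linarith
  have hr1' : 1 ≤ r := by
    have : (0:ℝ) < r := hr0
    exact_mod_cast this
  have ht1 : 2 * ρ * s ≤ t := by rw [ht]; exact Nat.le_ceil _
  have ht0 : (0:ℝ) < t := by nlinarith
  have ht1' : 1 ≤ t := by exact_mod_cast ht0
  have hsn : s ≤ n := by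
    by_contra hcon
    push Not at hcon
    have h1 : (n:ℝ) / s ≤ 1 := by
      rw [div_le_one hs0]; exact_mod_cast hcon.le
    have h2 := Real.log_nonpos (by positivity) h1
    rw [← hℓ] at h2
    linarith
  have c1 := choose_le_exp hs hsn
  rw [← hℓ] at c1
  have c2 := choose_le_exp hr1' hrn
  have hy : 0 < s * p / 2 := by positivity
  have c3 : ((s * r : ℕ) : ℝ) ^ t / t.factorial * p ^ t ≤
      Real.exp (t * (1 + Real.log (s * p / 2))) := by
    apply edge_term ht1' (by push_cast; positivity) hp _ hy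
    push_cast
    rw [div_le_div_iff₀ ht0 (by norm_num)]
    have h3 : (s:ℝ) * p * (r * 2) ≤ s * p * t := by
      apply mul_le_mul_of_nonneg_left _ (by positivity)
      linarith
    nlinarith
  have hlogs : Real.log (s * p / 2) = Real.log c - ℓ - Real.log 2 := by
    rw [hℓ, Real.log_div (by positivity) (by norm_num), Real.log_mul (by positivity) (by positivity),
      Real.log_div (by positivity) (by positivity), ← hpc,
      Real.log_mul (by positivity) (by positivity)]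
    ring
  have hlogr : Real.log (n / r) ≤ ℓ - 1 := by
    have h3 : (n:ℝ) / r ≤ n / s * (1 / 4) := by
      rw [div_mul_div_comm, mul_one, div_le_div_iff₀ hr0 (by positivity)]
      apply mul_le_mul_of_nonneg_left _ hn'.le
      nlinarith
    have h4 := Real.log_le_log (by positivity) h3
    rw [Real.log_mul (by positivity) (by norm_num), ← hℓ, one_div, Real.log_inv] at h4
    have h5 : Real.log 4 = 2 * Real.log 2 := by
      rw [show (4:ℝ) = 2 ^ 2 by norm_num, Real.log_pow]; norm_num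
    have := Real.log_two_gt_d9
    linarith
  have d2 : (r:ℝ) * (1 + Real.log (n / r)) ≤ ρ * s * ℓ := by
    calc (r:ℝ) * (1 + Real.log (n / r)) ≤ r * ℓ := by
          apply mul_le_mul_of_nonneg_left _ hr0.le; linarith
      _ ≤ ρ * s * ℓ := by
          apply mul_le_mul_of_nonneg_right hr1; linarith
  have d3 : (t:ℝ) * (1 + Real.log (s * p / 2)) ≤ 2 * ρ * s * (1 - 4 / 5 * ℓ) := by
    have h6 : 1 + Real.log (s * p / 2) ≤ 1 - 4 / 5 * ℓ := by
      rw [hlogs]
      have := Real.log_two_gt_d9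
      linarith
    have h7 : 1 - 4 / 5 * ℓ ≤ 0 := by linarith
    calc (t:ℝ) * (1 + Real.log (s * p / 2)) ≤ t * (1 - 4 / 5 * ℓ) :=
          mul_le_mul_of_nonneg_left h6 ht0.le
      _ ≤ 2 * ρ * s * (1 - 4 / 5 * ℓ) := mul_le_mul_of_nonpos_right ht1 h7
  calc ((n.choose s : ℕ) : ℝ) * (n.choose r : ℕ) * (((s * r : ℕ) : ℝ) ^ t / t.factorial * p ^ t) ≤
      Real.exp (s * (1 + ℓ)) * Real.exp (r * (1 + Real.log (n / r))) *
        Real.exp (t * (1 + Real.log (s * p / 2))) := by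
        apply mul_le_mul (mul_le_mul c1 c2 (Nat.cast_nonneg _) (Real.exp_pos _).le) c3
          (by positivity) (by positivity)
    _ = Real.exp (s * (1 + ℓ) + r * (1 + Real.log (n / r)) + t * (1 + Real.log (s * p / 2))) := by
        rw [← Real.exp_add, ← Real.exp_add]
    _ ≤ Real.exp (-(2 * s)) := by
        apply Real.exp_le_exp.2
        have h8 : ρ * s * ℓ + 2 * ρ * s * (1 - 4 / 5 * ℓ) = -(ρ * s * (3 / 5 * ℓ - 2)) := by ring
        have h9 : 8 * s * (3 / 5 * ℓ - 2) ≤ ρ * s * (3 / 5 * ℓ - 2) := by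
          apply mul_le_mul_of_nonneg_right _ (by linarith)
          exact mul_le_mul_of_nonneg_right hρ hs0.le
        have h10 : s * (1 + ℓ) - 8 * s * (3 / 5 * ℓ - 2) ≤ -(2 * s) := by
          have : s * (1 + ℓ) - 8 * s * (3 / 5 * ℓ - 2) = s * (17 - 19 / 5 * ℓ) := by ring
          rw [this]
          have h11 : (17:ℝ) - 19 / 5 * ℓ ≤ -2 := by linarith
          have := mul_le_mul_of_nonneg_left h11 hs0.le
          linarith
        linarith

lemma prob_EX {p : ℝ} (h0 : 0 < p) (h1 : p ≤ 1) {ρ σ s1 c : ℝ} (hρ : 8 ≤ ρ) (hσ : 1 ≤ σ)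
    (hn : 1 ≤ Fintype.card V) (hc : 1 ≤ c) (hpc : p * Fintype.card V = c)
    (hs1 : 0 < s1) (hs1n : (1 + ρ) * s1 ≤ Fintype.card V)
    (hℓ10 : 10 ≤ Real.log (Fintype.card V / s1))
    (hℓc : 5 * Real.log c ≤ Real.log (Fintype.card V / s1)) :
    Pr p (allE V) (fun T => ¬ EXp T ρ σ s1) ≤ (Fintype.card V + 1) * Real.exp (-(2 * σ)) := by
  classical
  set n := Fintype.card V with hnV
  set I : Finset ℕ := (Finset.range (n + 1)).filter fun s => σ ≤ s ∧ (s:ℝ) ≤ s1 with hI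
  have hn' : (0:ℝ) < n := by exact_mod_cast hn
  have step1 : Pr p (allE V) (fun T => ¬ EXp T ρ σ s1) ≤
      Pr p (allE V) (fun T => ∃ s ∈ I, ∃ x ∈ (Finset.univ.powersetCard s ×ˢ
        Finset.univ.powersetCard ⌊ρ * s⌋₊ : Finset (Finset V × Finset V)),
        Disjoint x.1 x.2 ∧ ⌈2 * ρ * s⌉₊ ≤ eb T x.1 x.2) := by
    apply Pr_mono h0.le h1
    intro T _ h
    unfold EXp at h
    push Not at h
    obtain ⟨A, B, hd, hA1, hA2, hB, h⟩ := h
    have hAn : A.card ≤ n := Finset.card_le_univ A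
    refine ⟨A.card, Finset.mem_filter.2 ⟨Finset.mem_range.2 (by omega), hA1, hA2⟩, ?_⟩
    -- enlarge B
    have hBr : B.card ≤ ⌊ρ * A.card⌋₊ := Nat.le_floor hB
    have hrn : ⌊ρ * (A.card:ℝ)⌋₊ ≤ (Finset.univ \ A).card := by
      rw [Finset.card_sdiff_of_subset (Finset.subset_univ A), Finset.card_univ, ← hnV]
      have h2 : ((⌊ρ * (A.card:ℝ)⌋₊ : ℕ) : ℝ) ≤ ρ * A.card := Nat.floor_le (by positivity)
      have h3 : (((⌊ρ * (A.card:ℝ)⌋₊ + A.card : ℕ) : ℕ) : ℝ) ≤ (n:ℝ) := by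
        push_cast
        calc ((⌊ρ * (A.card:ℝ)⌋₊ : ℕ) : ℝ) + A.card ≤ (1 + ρ) * A.card := by linarith
          _ ≤ (1 + ρ) * s1 := mul_le_mul_of_nonneg_left hA2 (by linarith)
          _ ≤ n := hs1n
      have h4 : ⌊ρ * (A.card:ℝ)⌋₊ + A.card ≤ n := by exact_mod_cast h3
      omega
    have hBsub : B ⊆ Finset.univ \ A := by
      intro x hx
      rw [Finset.mem_sdiff]
      exact ⟨Finset.mem_univ x, fun h' => Finset.disjoint_left.1 hd h' hx⟩
    obtain ⟨B', hB1, hB2, hB3⟩ := Finset.exists_subsuperset_card_eq hBsub hBr hrn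
    refine ⟨(A, B'), ?_, ?_, ?_⟩
    · rw [Finset.mem_product, Finset.mem_powersetCard, Finset.mem_powersetCard]
      exact ⟨⟨Finset.subset_univ _, rfl⟩, ⟨Finset.subset_univ _, hB3⟩⟩
    · rw [Finset.disjoint_right]
      intro x hx
      exact (Finset.mem_sdiff.1 (hB2 hx)).2
    · apply Nat.ceil_le.2
      refine h.trans ?_
      exact_mod_cast eb_mono hB1
  refine step1.trans ((Pr_exists_le h0.le h1 _ _).trans ?_)
  have step2 : ∀ s ∈ I, Pr p (allE V) (fun T => ∃ x ∈ (Finset.univ.powersetCard s ×ˢ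
        Finset.univ.powersetCard ⌊ρ * s⌋₊ : Finset (Finset V × Finset V)),
        Disjoint x.1 x.2 ∧ ⌈2 * ρ * s⌉₊ ≤ eb T x.1 x.2) ≤ Real.exp (-(2 * σ)) := by
    intro s hs
    rw [hI, Finset.mem_filter, Finset.mem_range] at hs
    obtain ⟨hs1', hs2, hs3⟩ := hs
    have hsR : (1:ℝ) ≤ s := hσ.trans hs2
    have hsN : 1 ≤ s := by exact_mod_cast hsR
    refine (Pr_exists_le h0.le h1 _ _).trans ?_
    have step3 : ∀ x ∈ (Finset.univ.powersetCard s ×ˢ
        Finset.univ.powersetCard ⌊ρ * s⌋₊ : Finset (Finset V × Finset V)),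
        Pr p (allE V) (fun T => Disjoint x.1 x.2 ∧ ⌈2 * ρ * s⌉₊ ≤ eb T x.1 x.2) ≤
          ((s * ⌊ρ * s⌋₊ : ℕ) : ℝ) ^ ⌈2 * ρ * s⌉₊ / (⌈2 * ρ * s⌉₊).factorial *
            p ^ ⌈2 * ρ * s⌉₊ := by
      intro x hx
      rw [Finset.mem_product, Finset.mem_powersetCard, Finset.mem_powersetCard] at hx
      by_cases hd : Disjoint x.1 x.2
      · refine (Pr_mono h0.le h1 (fun T _ h => h.2)).trans ?_
        have := prob_edges h0.le h1 hd ⌈2 * ρ * s⌉₊
        rw [hx.1.2, hx.2.2] at this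
        exact this
      · refine (Pr_mono h0.le h1 (Q := fun _ => False) (fun T _ h => hd h.1)).trans ?_
        unfold Pr
        simp only [ind_not_of (fun h : False => h)]
        rw [Ex_const]
        positivity
    refine (Finset.sum_le_sum step3).trans ?_
    rw [Finset.sum_const, nsmul_eq_mul, Finset.card_product, Finset.card_powersetCard,
      Finset.card_powersetCard, Finset.card_univ, ← hnV, Nat.cast_mul]
    have hrn : ⌊ρ * (s:ℝ)⌋₊ ≤ n := by
      have h2 : ((⌊ρ * (s:ℝ)⌋₊ : ℕ) : ℝ) ≤ ρ * s := Nat.floor_le (by positivity)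
      have h3 : ((⌊ρ * (s:ℝ)⌋₊ : ℕ) : ℝ) ≤ (n:ℝ) := by
        calc ((⌊ρ * (s:ℝ)⌋₊ : ℕ) : ℝ) ≤ (1 + ρ) * s := by nlinarith
          _ ≤ (1 + ρ) * s1 := mul_le_mul_of_nonneg_left hs3 (by linarith)
          _ ≤ n := hs1n
      exact_mod_cast h3
    have hls : Real.log (n / s1) ≤ Real.log (n / s) := by
      apply Real.log_le_log (by positivity)
      exact div_le_div_of_nonneg_left hn'.le (by linarith) hs3
    refine (exp_term (ℓ := Real.log (n / s)) (c := c) hsN hn hρ rfl rfl hrn h0 hc hpc rfl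
      (hℓ10.trans hls) (hℓc.trans hls)).trans ?_
    apply Real.exp_le_exp.2
    linarith
  refine (Finset.sum_le_sum step2).trans ?_
  rw [Finset.sum_const, nsmul_eq_mul]
  apply mul_le_mul_of_nonneg_right _ (Real.exp_pos _).le
  have : I.card ≤ n + 1 := by
    refine (Finset.card_filter_le _ _).trans ?_
    rw [Finset.card_range]
  exact_mod_cast this

end Pool.Agent.H1.RO
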