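import Pool.Agent.H1.RO.Chain

/-!
Walks, and the extraction of chains from geodesics of large up-sets.
-/

set_option autoImplicit false
set_option linter.unusedSectionVars false

namespace Pool.Agent.H1.RO

open Finset Pool.Agent.H1.CC

section walks

variable {V : Type*} {R : V → V → Prop}

/-- walks of length `k` -/
def Wk (R : V → V → Prop) : ℕ → V → V → Prop
  | 0, x, y => x = y
  | k + 1, x, y => ∃ u, Wk R k x u ∧ R u y

lemma Wk.trans {k l : ℕ} {x y z : V} (h : Wk R k x y) (h' : Wk R l y z) : Wk R (k + l) x z := by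
  induction l generalizing z with
  | zero =>
    have : y = z := h'
    subst this
    exact h
  | succ l ih =>
    obtain ⟨u, h1, h2⟩ := h'
    exact ⟨u, ih h1, h2⟩

lemma Wk.one {x y : V} (h : R x y) : Wk R 1 x y := ⟨x, rfl, h⟩

lemma Wk.symm (hR : ∀ x y, R x y → R y x) {k : ℕ} {x y : V} (h : Wk R k x y) : Wk R k y x := by
  induction k generalizing y with
  | zero => exact Eq.symm h
  | succ k ih =>
    obtain ⟨u, h1, h2⟩ := h
    have := (Wk.one (hR _ _ h2)).trans (ih h1)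
    rwa [Nat.add_comm] at this

/-- reachability -/
def Rch (R : V → V → Prop) (x y : V) : Prop := ∃ k, Wk R k x y

lemma Rch.refl (x : V) : Rch R x x := ⟨0, rfl⟩

lemma Rch.trans {x y z : V} (h : Rch R x y) (h' : Rch R y z) : Rch R x z := by
  obtain ⟨k, h1⟩ := h
  obtain ⟨l, h2⟩ := h'
  exact ⟨k + l, h1.trans h2⟩

lemma Rch.symm (hR : ∀ x y, R x y → R y x) {x y : V} (h : Rch R x y) : Rch R y x := by
  obtain ⟨k, h1⟩ := h
  exact ⟨k, h1.symm hR⟩

lemma Rch.one {x y : V} (h : R x y) : Rch R x y := ⟨1, Wk.one h⟩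

/-- distance -/
noncomputable def lev (R : V → V → Prop) (x y : V) : ℕ := sInf {k | Wk R k x y}

lemma lev_le {k : ℕ} {x y : V} (h : Wk R k x y) : lev R x y ≤ k := Nat.sInf_le h

lemma lev_spec {x y : V} (h : Rch R x y) : Wk R (lev R x y) x y := Nat.sInf_mem h

lemma lev_adj {x y z : V} (h : Rch R x y) (hyz : R y z) : lev R x z ≤ lev R x y + 1 :=
  lev_le ((lev_spec h).trans (Wk.one hyz))

lemma lev_step {x y : V} (h : Rch R x y) {k : ℕ} (hk : lev R x y = k + 1) :
    ∃ u, R u y ∧ Rch R x u ∧ lev R x u = k := by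
  have h1 := lev_spec h
  rw [hk] at h1
  obtain ⟨u, h2, h3⟩ := h1
  refine ⟨u, h3, ⟨k, h2⟩, ?_⟩
  have h4 := lev_le h2
  have h5 := lev_adj ⟨k, h2⟩ h3
  omega

lemma lev_lt_card [Fintype V] {x y : V} (h : Rch R x y) : lev R x y < Fintype.card V := by
  classical
  have key : ∀ i : ℕ, i ≤ lev R x y → ∃ u, Rch R x u ∧ lev R x u = lev R x y - i := by
    intro i
    induction i with
    | zero => intro _; exact ⟨y, h, rfl⟩
    | succ i ih =>
      intro hi
      obtain ⟨u, h1, h2⟩ := ih (by omega)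
      obtain ⟨v, _, h3, h4⟩ := lev_step h1 (k := lev R x y - (i + 1)) (by omega)
      exact ⟨v, h3, h4⟩
  have key2 : ∀ i : Fin (lev R x y + 1), ∃ u, lev R x u = i.val := by
    intro i
    obtain ⟨u, _, h2⟩ := key (lev R x y - i.val) (by omega)
    exact ⟨u, by omega⟩
  choose f hf using key2
  have hinj : Function.Injective f := by
    intro i j hij
    apply Fin.ext
    rw [← hf i, ← hf j, hij]
  have := Fintype.card_le_of_injective f hinj
  rw [Fintype.card_fin] at this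
  omega

end walks

variable {n : ℕ}

/-- large up-sets -/
def Hv (T : Finset (Sym2 (Fin n))) (M : ℕ) (x : Fin n) : Prop := M < (ups T x).card

/-- the up-set generated by the elements with large up-sets -/
noncomputable def SS (T : Finset (Sym2 (Fin n))) (M : ℕ) : Finset (Fin n) := by
  classical exact Finset.univ.filter fun v => ∃ x, Hv T M x ∧ gle T x v

lemma mem_SS {T : Finset (Sym2 (Fin n))} {M : ℕ} {v : Fin n} :
    v ∈ SS T M ↔ ∃ x, Hv T M x ∧ gle T x v := by
  unfold SS; simp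

/-- overlapping large up-sets -/
def RG (T : Finset (Sym2 (Fin n))) (M : ℕ) (x y : Fin n) : Prop :=
  Hv T M x ∧ Hv T M y ∧ ∃ v, gle T x v ∧ gle T y v

lemma RG_symm {T : Finset (Sym2 (Fin n))} {M : ℕ} (x y : Fin n) (h : RG T M x y) : RG T M y x :=
  ⟨h.2.1, h.1, h.2.2.imp fun _ h => ⟨h.2, h.1⟩⟩

/-- edges inside the up-set -/
def RH (T : Finset (Sym2 (Fin n))) (M : ℕ) (u v : Fin n) : Prop :=
  u ∈ SS T M ∧ v ∈ SS T M ∧ s(u, v) ∈ T

lemma RH_symm {T : Finset (Sym2 (Fin n))} {M : ℕ} (u v : Fin n) (h : RH T M u v) : RH T M v u :=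
  ⟨h.2.1, h.1, by rw [Sym2.eq_swap]; exact h.2.2⟩

lemma PS_walk {T : Finset (Sym2 (Fin n))} {M : ℕ} {ρ : Fin n → ℕ} {k : ℕ} {u w : Fin n}
    {A : Finset (Fin n)} (h : PS ρ T k u w A) (hA : ∀ v ∈ A, v ∈ SS T M) :
    Wk (RH T M) k u w := by
  induction h with
  | nil => exact rfl
  | @cons k u v w A h1 h2 h3 ih =>
    have h4 := ih fun x hx => hA x (Finset.mem_insert_of_mem hx)
    have h5 : RH T M u v := ⟨hA u (Finset.mem_insert_self _ _),
      hA v (Finset.mem_insert_of_mem h3.left), h2⟩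
    have := (Wk.one h5).trans h4
    rwa [Nat.add_comm] at this

/-- greatest common lower bound above `x` -/
lemma exists_meet {T : Finset (Sym2 (Fin n))} {x a b : Fin n} (ha : gle T x a) (hb : gle T x b) :
    ∃ m, gle T x m ∧ gle T m a ∧ gle T m b ∧
      ∀ v, gle T m v → gle T v a → gle T v b → v = m := by
  classical
  set C := Finset.univ.filter fun v => gle T x v ∧ gle T v a ∧ gle T v b with hC
  have hne : C.Nonempty := ⟨x, by rw [hC, Finset.mem_filter]; exact ⟨Finset.mem_univ _,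
    gle_refl _ _, ha, hb⟩⟩
  have h1 : C.max' hne ∈ C := Finset.max'_mem _ _
  have h1' := (Finset.mem_filter.1 h1).2
  refine ⟨C.max' hne, h1'.1, h1'.2.1, h1'.2.2, ?_⟩
  intro v h2 h3 h4
  have h5 : v ∈ C := by
    rw [hC, Finset.mem_filter]
    exact ⟨Finset.mem_univ _, gle_trans h1'.1 h2, h3, h4⟩
  exact le_antisymm (Finset.le_max' _ _ h5) (gle_le h2)

/-- least common upper bound in the numbering -/
lemma exists_join {T : Finset (Sym2 (Fin n))} {x y v : Fin n} (hx : gle T x v) (hy : gle T y v) :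
    ∃ a, gle T x a ∧ gle T y a ∧ ∀ v, gle T x v → gle T y v → a ≤ v := by
  classical
  set C := Finset.univ.filter fun v => gle T x v ∧ gle T y v with hC
  have hne : C.Nonempty := ⟨v, by rw [hC, Finset.mem_filter]; exact ⟨Finset.mem_univ _, hx, hy⟩⟩
  have h1 : C.min' hne ∈ C := Finset.min'_mem _ _
  have h1' := (Finset.mem_filter.1 h1).2
  refine ⟨C.min' hne, h1'.1, h1'.2, ?_⟩
  intro v h2 h3
  apply Finset.min'_le
  rw [hC, Finset.mem_filter]
  exact ⟨Finset.mem_univ _, h2, h3⟩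

/-- the region of edges used by the chains from `x` -/
noncomputable def Rgn (T : Finset (Sym2 (Fin n))) (M : ℕ) (z : Fin n) (K : ℕ) (x : Fin n) :
    Finset (Sym2 (Fin n)) := by
  classical exact T.filter fun e => (∃ y, Hv T M y ∧ Rch (RG T M) z y ∧
    lev (RG T M) z y < K ∧ e ∈ ins (ups T y)) ∧ e ∉ ins (ups T x)

lemma mem_Rgn {T : Finset (Sym2 (Fin n))} {M : ℕ} {z : Fin n} {K : ℕ} {x : Fin n}
    {e : Sym2 (Fin n)} : e ∈ Rgn T M z K x ↔ e ∈ T ∧
      (∃ y, Hv T M y ∧ Rch (RG T M) z y ∧ lev (RG T M) z y < K ∧ e ∈ ins (ups T y)) ∧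
      e ∉ ins (ups T x) := by
  unfold Rgn
  simp only [Finset.mem_filter]

lemma disj_ins {T T' : Finset (Sym2 (Fin n))} {A B : Finset (Fin n)}
    (h : ∀ u v, u ∈ A → v ∈ A → u ∈ B → v ∈ B → u = v) : Disjoint (T ∩ ins A) (T' ∩ ins B) := by
  rw [Finset.disjoint_left]
  intro e h1 h2
  rw [Finset.mem_inter] at h1 h2
  obtain ⟨u, hu, v, hv, hne, rfl⟩ := mem_ins'.1 h1.2
  have h3 := mem_ins.1 h2.2
  exact hne (h u v hu hv h3.1 h3.2.1)

/-- the vertices of the tripod see a large up-set outside the tripod -/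
lemma BigV_rest {T : Finset (Sym2 (Fin n))} {M : ℕ} {x : Fin n} (hx : Hv T M x)
    {V : Finset (Fin n)} (hxV : x ∈ V) : BigV M V ((T ∩ ins (ups T x)) \ ins V) := by
  classical
  unfold BigV
  refine lt_of_lt_of_le hx (Finset.card_le_card ?_)
  intro u hu
  rw [mem_ups] at hu
  rw [Finset.mem_biUnion]
  induction hu with
  | refl => exact ⟨x, hxV, mem_ups.2 (gle_refl _ _)⟩
  | @tail u w h1 h2 ih =>
    by_cases hw : w ∈ V
    · exact ⟨w, hw, mem_ups.2 (gle_refl _ _)⟩
    · obtain ⟨v, hv, h3⟩ := ih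
      refine ⟨v, hv, mem_ups.2 (gle_trans (mem_ups.1 h3) (gle_edge h2.1 ?_))⟩
      rw [Finset.mem_sdiff, Finset.mem_inter, mem_ins, mem_ins]
      refine ⟨⟨h2.2, mem_ups.2 h1, mem_ups.2 (gle_trans h1 (gle_edge h2.1 h2.2)), h2.1.ne⟩, ?_⟩
      intro h4
      exact hw h4.2.1

/-- the extraction of a chain -/
theorem extract {T : Finset (Sym2 (Fin n))} {M : ℕ} {z : Fin n} (q : ℕ) :
    ∀ x, Hv T M x → Rch (RG T M) z x → lev (RG T M) z x = 2 * q →
      ∃ a, gle T x a ∧ ∃ L k, k ≤ L ∧ Wk (RH T M) k a z ∧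
        ∀ D ≤ L, CH M n q D a (Rgn T M z (2 * q) x) := by
  classical
  induction q with
  | zero =>
    intro x _ hr hl
    have h1 := lev_spec hr
    rw [hl] at h1
    have h2 : z = x := h1
    subst h2
    refine ⟨z, gle_refl _ _, 0, 0, le_rfl, rfl, ?_⟩
    intro D hD
    show D = 0
    omega
  | succ q ih =>
    intro x hx hr hl
    obtain ⟨x1, hx1x, hr1, hl1⟩ := lev_step hr (k := 2 * q + 1) (by omega)
    obtain ⟨x2, hx2x1, hr2, hl2⟩ := lev_step hr1 (k := 2 * q) (by omega)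
    have hx1 : Hv T M x1 := hx1x.1
    have hx2 : Hv T M x2 := hx2x1.1
    obtain ⟨a', ha', L', k', hkL', hwk', hch⟩ := ih x2 hx2 hr2 hl2
    -- disjointness of distant up-sets
    have hfar : ∀ y, Hv T M y → Rch (RG T M) z y → lev (RG T M) z y < 2 * q + 1 →
        ∀ v, gle T y v → ¬ gle T x v := by
      intro y hy hry hly v h1 h2
      have := lev_adj hry (show RG T M y x from ⟨hy, hx, v, h1, h2⟩)
      omega
    have hfar1 : ∀ y, Hv T M y → Rch (RG T M) z y → lev (RG T M) z y < 2 * q →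
        ∀ v, gle T y v → ¬ gle T x1 v := by
      intro y hy hry hly v h1 h2
      have := lev_adj hry (show RG T M y x1 from ⟨hy, hx1, v, h1, h2⟩)
      omega
    have hfar2 : ∀ v, gle T x2 v → ¬ gle T x v := hfar x2 hx2 hr2 (by omega)
    obtain ⟨v0, hv0, hv0'⟩ := hx1x.2.2
    obtain ⟨a, ha1, hax, hamin⟩ := exists_join hv0 hv0'
    obtain ⟨v1, hv1, hv1'⟩ := hx2x1.2.2
    obtain ⟨b, hb2, hb1, hbmin⟩ := exists_join hv1 hv1'
    obtain ⟨m, hm1, hma, hmb, hmmax⟩ := exists_meet ha1 hb1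
    obtain ⟨μ, hμ2, hμb, hμa, hμmax⟩ := exists_meet hb2 ha'
    obtain ⟨t1, A1, hP1, hA1⟩ := exists_PS_dn hma
    obtain ⟨t2, A2, hP2, hA2⟩ := exists_PS_up hmb
    obtain ⟨t3, A3, hP3, hA3⟩ := exists_PS_dn hμb
    obtain ⟨t4, A4, hP4, hA4⟩ := exists_PS_dn hμ2
    obtain ⟨t5, A5, hP5, hA5⟩ := exists_PS_up hμa
    set V1 := {a} ∪ A1 with hV1
    set V2 := V1 ∪ A2 with hV2
    set V3 := V2 ∪ A3 with hV3
    set V4 := V3 ∪ A4 with hV4
    set V5 := V4 ∪ A5 with hV5
    set E9 := (T ∩ ins (ups T x2)) \ ins V5 with hE9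
    set E10 := Rgn T M z (2 * q) x2 with hE10
    have hx2V : x2 ∈ V5 := by
      rw [hV5, hV4]
      exact Finset.mem_union_left _ (Finset.mem_union_right _ hP4.right)
    have hbig : BigV M V5 E9 := BigV_rest hx2 hx2V
    -- up-set membership of the vertices
    have uA1 : ∀ v ∈ A1, v ∈ ups T x1 := fun v hv => mem_ups.2 (gle_trans hm1 (hA1 v hv).1)
    have uA2 : ∀ v ∈ A2, v ∈ ups T x1 := fun v hv => mem_ups.2 (gle_trans hm1 (hA2 v hv).1)
    have uA3 : ∀ v ∈ A3, v ∈ ups T x2 := fun v hv => mem_ups.2 (gle_trans hμ2 (hA3 v hv).1)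
    have uA4 : ∀ v ∈ A4, v ∈ ups T x2 := fun v hv => mem_ups.2 (hA4 v hv).1
    have uA5 : ∀ v ∈ A5, v ∈ ups T x2 := fun v hv => mem_ups.2 (gle_trans hμ2 (hA5 v hv).1)
    have sA3 : T ∩ ins A3 ⊆ T ∩ ins (ups T x2) := Finset.inter_subset_inter_left (ins_mono uA3)
    have sA4 : T ∩ ins A4 ⊆ T ∩ ins (ups T x2) := Finset.inter_subset_inter_left (ins_mono uA4)
    have sA5 : T ∩ ins A5 ⊆ T ∩ ins (ups T x2) := Finset.inter_subset_inter_left (ins_mono uA5)
    have sE9 : E9 ⊆ T ∩ ins (ups T x2) := Finset.sdiff_subset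
    -- disjointness with the region of `x2`
    have d1U : Disjoint (T ∩ ins A1) (T ∩ ins (ups T x2)) := by
      apply disj_ins
      intro u _ hu _ hu2 _
      exact absurd hax (hfar2 a (gle_trans (mem_ups.1 hu2) (hA1 u hu).2))
    have d2U : Disjoint (T ∩ ins A2) (T ∩ ins (ups T x2)) := by
      apply disj_ins
      intro u v hu hv hu2 hv2
      have h1 := hbmin u (mem_ups.1 hu2) (mem_ups.1 (uA2 u hu))
      have h2 := hbmin v (mem_ups.1 hv2) (mem_ups.1 (uA2 v hv))
      have h3 := gle_le (hA2 u hu).2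
      have h4 := gle_le (hA2 v hv).2
      rw [le_antisymm h3 h1, le_antisymm h4 h2]
    have dx1E : ∀ A : Finset (Fin n), (∀ v ∈ A, v ∈ ups T x1) → Disjoint (T ∩ ins A) E10 := by
      intro A hA
      rw [Finset.disjoint_left]
      intro e h1 h2
      rw [Finset.mem_inter] at h1
      rw [hE10, mem_Rgn] at h2
      obtain ⟨u, hu, v, hv, hne, rfl⟩ := mem_ins'.1 h1.2
      obtain ⟨_, ⟨y, hy, hry, hly, hyE⟩, _⟩ := h2
      exact hfar1 y hy hry hly u (mem_ups.1 (mem_ins.1 hyE).1) (mem_ups.1 (hA u hu))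
    have dUE : Disjoint (T ∩ ins (ups T x2)) E10 := by
      rw [Finset.disjoint_left]
      intro e h1 h2
      rw [Finset.mem_inter] at h1
      rw [hE10, mem_Rgn] at h2
      exact h2.2.2 h1.2
    have dV9 : ∀ A : Finset (Fin n), A ⊆ V5 → Disjoint (T ∩ ins A) E9 := by
      intro A hA
      rw [Finset.disjoint_left]
      intro e h1 h2
      exact (Finset.mem_sdiff.1 h2).2 (ins_mono hA (Finset.mem_inter.1 h1).2)
    have c3 : A3 ⊆ V5 := by
      rw [hV5, hV4, hV3]
      exact (Finset.subset_union_right.trans Finset.subset_union_left).trans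
        Finset.subset_union_left
    have c4 : A4 ⊆ V5 := by
      rw [hV5, hV4]
      exact Finset.subset_union_right.trans Finset.subset_union_left
    have c5 : A5 ⊆ V5 := by
      rw [hV5]
      exact Finset.subset_union_right
    have d12 : Disjoint (T ∩ ins A1) (T ∩ ins A2) := by
      apply disj_ins
      intro u v hu hv hu2 hv2
      rw [hmmax u (hA1 u hu).1 (hA1 u hu).2 (hA2 u hu2).2,
        hmmax v (hA1 v hv).1 (hA1 v hv).2 (hA2 v hv2).2]
    have d34 : Disjoint (T ∩ ins A3) (T ∩ ins A4) := by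
      apply disj_ins
      intro u v hu hv hu2 hv2
      rw [gle_antisymm (hA4 u hu2).2 (hA3 u hu).1, gle_antisymm (hA4 v hv2).2 (hA3 v hv).1]
    have d35 : Disjoint (T ∩ ins A3) (T ∩ ins A5) := by
      apply disj_ins
      intro u v hu hv hu2 hv2
      rw [hμmax u (hA3 u hu).1 (hA3 u hu).2 (hA5 u hu2).2,
        hμmax v (hA3 v hv).1 (hA3 v hv).2 (hA5 v hv2).2]
    have d45 : Disjoint (T ∩ ins A4) (T ∩ ins A5) := by
      apply disj_ins
      intro u v hu hv hu2 hv2
      rw [gle_antisymm (hA4 u hu).2 (hA5 u hu2).1, gle_antisymm (hA4 v hv).2 (hA5 v hv2).1]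
    have d9E : Disjoint E9 E10 := Finset.disjoint_of_subset_left sE9 dUE
    -- the set of edges
    set Et := (T ∩ ins A1) ∪ ((T ∩ ins A2) ∪ ((T ∩ ins A3) ∪ ((T ∩ ins A4) ∪ ((T ∩ ins A5) ∪
      (E9 ∪ E10))))) with hEt
    have hsub : Et ⊆ Rgn T M z (2 * (q + 1)) x := by
      have hU2 : T ∩ ins (ups T x2) ⊆ Rgn T M z (2 * (q + 1)) x := by
        intro e h1
        rw [Finset.mem_inter] at h1
        rw [mem_Rgn]
        refine ⟨h1.1, ⟨x2, hx2, hr2, by omega, h1.2⟩, ?_⟩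
        intro h2
        obtain ⟨u, hu, v, hv, hne, rfl⟩ := mem_ins'.1 h1.2
        exact hfar2 u (mem_ups.1 hu) (mem_ups.1 (mem_ins.1 h2).1)
      rw [hEt]
      apply Finset.union_subset
      · intro e h1
        rw [Finset.mem_inter] at h1
        rw [mem_Rgn]
        refine ⟨h1.1, ⟨x1, hx1, hr1, by omega, ins_mono uA1 h1.2⟩, ?_⟩
        intro h2
        obtain ⟨u, hu, v, hv, hne, rfl⟩ := mem_ins'.1 h1.2
        have h3 := mem_ins.1 h2
        have h4 := hamin u (mem_ups.1 (uA1 u hu)) (mem_ups.1 h3.1)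
        have h5 := hamin v (mem_ups.1 (uA1 v hv)) (mem_ups.1 h3.2.1)
        have h6 := gle_le (hA1 u hu).2
        have h7 := gle_le (hA1 v hv).2
        exact hne (by rw [le_antisymm h6 h4, le_antisymm h7 h5])
      apply Finset.union_subset
      · intro e h1
        rw [Finset.mem_inter] at h1
        rw [mem_Rgn]
        refine ⟨h1.1, ⟨x1, hx1, hr1, by omega, ins_mono uA2 h1.2⟩, ?_⟩
        intro h2
        obtain ⟨u, hu, v, hv, hne, rfl⟩ := mem_ins'.1 h1.2
        have h3 := mem_ins.1 h2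
        exact hfar2 b hb2 (gle_trans (mem_ups.1 h3.1) (hA2 u hu).2)
      apply Finset.union_subset (sA3.trans hU2)
      apply Finset.union_subset (sA4.trans hU2)
      apply Finset.union_subset (sA5.trans hU2)
      apply Finset.union_subset (sE9.trans hU2)
      intro e h1
      rw [hE10, mem_Rgn] at h1
      obtain ⟨h1, ⟨y, hy, hry, hly, hyE⟩, _⟩ := h1
      rw [mem_Rgn]
      refine ⟨h1, ⟨y, hy, hry, by omega, hyE⟩, ?_⟩
      intro h2
      obtain ⟨u, hu, v, hv, hne, rfl⟩ := mem_ins'.1 hyE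
      exact hfar y hy hry (by omega) u (mem_ups.1 hu) (mem_ups.1 (mem_ins.1 h2).1)
    -- the walk
    have inS1 : ∀ v, v ∈ ups T x1 → v ∈ SS T M := fun v hv => mem_SS.2 ⟨x1, hx1, mem_ups.1 hv⟩
    have inS2 : ∀ v, v ∈ ups T x2 → v ∈ SS T M := fun v hv => mem_SS.2 ⟨x2, hx2, mem_ups.1 hv⟩
    have w1 := PS_walk hP1 fun v hv => inS1 v (uA1 v hv)
    have w2 := PS_walk hP2 fun v hv => inS1 v (uA2 v hv)
    have w3 := PS_walk hP3 fun v hv => inS2 v (uA3 v hv)
    have w5 := PS_walk hP5 fun v hv => inS2 v (uA5 v hv)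
    refine ⟨a, hax, t1 + t2 + t3 + t4 + t5 + L', t1 + t2 + t3 + t5 + k', by omega,
      (((w1.trans w2).trans w3).trans w5).trans hwk', ?_⟩
    intro D hD
    refine CH_inc M n (q + 1) D a hsub ?_
    have i0 : ∀ (D : ℕ) (u : Fin n) (V : Finset (Fin n)), Inc (Box (BigV M V) (CH M n q D u)) :=
      fun _ _ _ => Box_inc
    have i1 := fun (D : ℕ) (u : Fin n) (V : Finset (Fin n)) =>
      PX_inc (ρ := rkU) (N := n) i0 D u V
    have i2 : ∀ (D : ℕ) (μ : Fin n) (V : Finset (Fin n)), Inc (PX rkD n (fun D4 _ V4 =>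
            PX rkU n (fun D5 a' V5 => Box (BigV M V5) (CH M n q D5 a')) D4 μ V4) D μ V) :=
      fun D μ V => PX_inc (fun _ _ _ => i1 _ _ _) _ _ _
    have i3 := fun (D : ℕ) (u : Fin n) (V : Finset (Fin n)) =>
      PX_inc (ρ := rkD) (N := n) i2 D u V
    have i4 := fun (D : ℕ) (u : Fin n) (V : Finset (Fin n)) =>
      PX_inc (ρ := rkU) (N := n) i3 D u V
    show PX rkD n _ D a {a} Et
    rw [hEt]
    apply PX_of_PS i4 hP1 (Finset.mem_singleton_self _)
    swap
    · refine Finset.disjoint_union_right.2 ⟨d12, Finset.disjoint_union_right.2 ⟨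
        Finset.disjoint_of_subset_right sA3 d1U, Finset.disjoint_union_right.2 ⟨
        Finset.disjoint_of_subset_right sA4 d1U, Finset.disjoint_union_right.2 ⟨
        Finset.disjoint_of_subset_right sA5 d1U, Finset.disjoint_union_right.2 ⟨
        Finset.disjoint_of_subset_right sE9 d1U, dx1E A1 uA1⟩⟩⟩⟩⟩
    rw [← hV1]
    apply PX_of_PS i3 hP2
    · rw [hV1]; exact Finset.mem_union_right _ hP1.right
    swap
    · refine Finset.disjoint_union_right.2 ⟨
        Finset.disjoint_of_subset_right sA3 d2U, Finset.disjoint_union_right.2 ⟨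
        Finset.disjoint_of_subset_right sA4 d2U, Finset.disjoint_union_right.2 ⟨
        Finset.disjoint_of_subset_right sA5 d2U, Finset.disjoint_union_right.2 ⟨
        Finset.disjoint_of_subset_right sE9 d2U, dx1E A2 uA2⟩⟩⟩⟩
    rw [← hV2]
    apply PX_of_PS i2 hP3
    · rw [hV2]; exact Finset.mem_union_right _ hP2.right
    swap
    · refine Finset.disjoint_union_right.2 ⟨d34, Finset.disjoint_union_right.2 ⟨d35,
        Finset.disjoint_union_right.2 ⟨dV9 A3 c3, Finset.disjoint_of_subset_left sA3 dUE⟩⟩⟩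
    rw [← hV3]
    have hμV3 : μ ∈ V3 := by rw [hV3]; exact Finset.mem_union_right _ hP3.right
    apply PX_of_PS (fun _ _ _ => i1 _ _ _) hP4 hμV3
    swap
    · refine Finset.disjoint_union_right.2 ⟨d45,
        Finset.disjoint_union_right.2 ⟨dV9 A4 c4, Finset.disjoint_of_subset_left sA4 dUE⟩⟩
    rw [← hV4]
    apply PX_of_PS i0 hP5
    · rw [hV4]; exact Finset.mem_union_left _ hμV3
    swap
    · exact Finset.disjoint_union_right.2 ⟨dV9 A5 c5, Finset.disjoint_of_subset_left sA5 dUE⟩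
    rw [← hV5]
    exact ⟨E9, E10, Finset.subset_union_left, Finset.subset_union_right, d9E, hbig,
      hch _ (by omega)⟩

end Pool.Agent.H1.RO
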