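import Pool.Agent.H1.RO.Normal

/-!
Ten linear extensions for the part of a graph order on which the graph is a forest plus at most
one edge in each component.
-/

set_option autoImplicit false
set_option linter.unusedSectionVars false

namespace Pool.Agent.H1.RO

open Finset Pool.Agent.H1.CC

variable {n : ℕ}

/-- a spanning forest of the graph `T` on the up-set `S`, with at most one further edge in each
component -/
structure Forest (T : Finset (Sym2 (Fin n))) (S : Finset (Fin n)) where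
  par : Fin n → Fin n
  dep : Fin n → ℕ
  rt : Fin n → Fin n
  up : ∀ x ∈ S, ∀ y, gle T x y → y ∈ S
  par_mem : ∀ v ∈ S, 0 < dep v → par v ∈ S
  dep_par : ∀ v ∈ S, 0 < dep v → dep (par v) + 1 = dep v
  par_edge : ∀ v ∈ S, 0 < dep v → s(v, par v) ∈ T
  rt_edge : ∀ u ∈ S, ∀ v ∈ S, s(u, v) ∈ T → rt u = rt v
  extra : ∀ a b a' b' : Fin n, a ∈ S → b ∈ S → a' ∈ S → b' ∈ S → a < b → a' < b' →
    s(a, b) ∈ T → s(a', b') ∈ T → ¬ (0 < dep a ∧ par a = b) → ¬ (0 < dep b ∧ par b = a) →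
    ¬ (0 < dep a' ∧ par a' = b') → ¬ (0 < dep b' ∧ par b' = a') → rt a = rt a' → a = a' ∧ b = b'

namespace Forest

variable {T : Finset (Sym2 (Fin n))} {S : Finset (Fin n)} (φ : Forest T S)

/-- tree edges, directed upwards -/
def te (u v : Fin n) : Prop :=
  u < v ∧ u ∈ S ∧ v ∈ S ∧ ((0 < φ.dep u ∧ φ.par u = v) ∨ (0 < φ.dep v ∧ φ.par v = u))

/-- the order generated by the tree edges -/
def le0 (x y : Fin n) : Prop := Relation.ReflTransGen φ.te x y

/-- ancestor relation -/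
def Anc (a x : Fin n) : Prop :=
  Relation.ReflTransGen (fun u v => v ∈ S ∧ 0 < φ.dep v ∧ φ.par v = u) a x

/-- extra edges -/
def ex (a b : Fin n) : Prop :=
  a ∈ S ∧ b ∈ S ∧ a < b ∧ s(a, b) ∈ T ∧ ¬ (0 < φ.dep a ∧ φ.par a = b) ∧
    ¬ (0 < φ.dep b ∧ φ.par b = a)

lemma te_T {u v : Fin n} (h : φ.te u v) : s(u, v) ∈ T := by
  obtain ⟨_, h2, h3, h4 | h4⟩ := h
  · have := φ.par_edge u h2 h4.1
    rwa [h4.2] at this
  · have := φ.par_edge v h3 h4.1
    rw [h4.2, Sym2.eq_swap] at this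
    exact this

lemma le0_gle {x y : Fin n} (h : φ.le0 x y) : gle T x y := by
  induction h with
  | refl => exact gle_refl _ _
  | tail _ h2 ih => exact gle_trans ih (gle_edge h2.1 (φ.te_T h2))

lemma le0_le {x y : Fin n} (h : φ.le0 x y) : x ≤ y := gle_le (φ.le0_gle h)

lemma le0_trans {x y z : Fin n} (h : φ.le0 x y) (h' : φ.le0 y z) : φ.le0 x z :=
  Relation.ReflTransGen.trans h h'

lemma le0_rt {x y : Fin n} (h : φ.le0 x y) : φ.rt x = φ.rt y := by
  induction h with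
  | refl => rfl
  | tail _ h2 ih =>
    rw [ih]
    exact φ.rt_edge _ h2.2.1 _ h2.2.2.1 (φ.te_T h2)

lemma ex_unique {a b a' b' : Fin n} (h : φ.ex a b) (h' : φ.ex a' b') (hr : φ.rt a = φ.rt a') :
    a = a' ∧ b = b' :=
  φ.extra a b a' b' h.1 h.2.1 h'.1 h'.2.1 h.2.2.1 h'.2.2.1 h.2.2.2.1 h'.2.2.2.1 h.2.2.2.2.1
    h.2.2.2.2.2 h'.2.2.2.2.1 h'.2.2.2.2.2 hr

lemma gle_cases {x y : Fin n} (hx : x ∈ S) (h : gle T x y) :
    φ.le0 x y ∨ ∃ a b, φ.ex a b ∧ φ.le0 x a ∧ φ.le0 b y := by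
  induction h with
  | refl => exact Or.inl Relation.ReflTransGen.refl
  | @tail u v h1 h2 ih =>
    have hu : u ∈ S := φ.up x hx u h1
    have hv : v ∈ S := φ.up u hu v (gle_edge h2.1 h2.2)
    by_cases hte : φ.te u v
    · rcases ih with h | ⟨a, b, h3, h4, h5⟩
      · exact Or.inl (Relation.ReflTransGen.tail h hte)
      · exact Or.inr ⟨a, b, h3, h4, Relation.ReflTransGen.tail h5 hte⟩
    · have hex : φ.ex u v := by
        refine ⟨hu, hv, h2.1, h2.2, ?_, ?_⟩
        · intro h; exact hte ⟨h2.1, hu, hv, Or.inl h⟩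
        · intro h; exact hte ⟨h2.1, hu, hv, Or.inr h⟩
      rcases ih with h | ⟨a, b, h3, h4, h5⟩
      · exact Or.inr ⟨u, v, hex, h, Relation.ReflTransGen.refl⟩
      · exfalso
        have hr : φ.rt a = φ.rt u := by
          rw [φ.rt_edge a h3.1 b h3.2.1 h3.2.2.2.1]
          exact φ.le0_rt h5
        obtain ⟨e1, e2⟩ := φ.ex_unique h3 hex hr
        have h6 : b ≤ u := φ.le0_le h5
        rw [← e1] at h6
        exact absurd h3.2.2.1 (not_lt.2 h6)

/-! ### numbers -/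

/-- depth bound -/
noncomputable def D : ℕ := Finset.univ.sup φ.dep

lemma dep_le (v : Fin n) : φ.dep v ≤ φ.D := Finset.le_sup (Finset.mem_univ v)

/-- value of the root path, with digits `w` -/
noncomputable def tauF (w : Fin n → ℕ) : ℕ → Fin n → ℕ
  | 0, v => w v * (n + 2) ^ φ.D
  | k + 1, v => tauF w k (φ.par v) + w v * (n + 2) ^ (φ.D - (k + 1))

noncomputable def tau (w : Fin n → ℕ) (v : Fin n) : ℕ := φ.tauF w (φ.dep v) v

lemma tau_par (w : Fin n → ℕ) {v : Fin n} (hv : v ∈ S) (h : 0 < φ.dep v) :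
    φ.tau w v = φ.tau w (φ.par v) + w v * (n + 2) ^ (φ.D - φ.dep v) := by
  unfold tau
  have h1 := φ.dep_par v hv h
  obtain ⟨k, hk⟩ : ∃ k, φ.dep v = k + 1 := ⟨φ.dep v - 1, by omega⟩
  have h2 : φ.dep (φ.par v) = k := by omega
  rw [h2, hk]
  rfl

lemma tau_root (w : Fin n → ℕ) {v : Fin n} (h : φ.dep v = 0) :
    φ.tau w v = w v * (n + 2) ^ φ.D := by
  unfold tau
  rw [h]; rfl

lemma tau_lt {w : Fin n → ℕ} (hw : ∀ v, 1 ≤ w v) {v : Fin n} (hv : v ∈ S) (h : 0 < φ.dep v) :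
    φ.tau w (φ.par v) < φ.tau w v := by
  rw [φ.tau_par w hv h]
  have : 0 < w v * (n + 2) ^ (φ.D - φ.dep v) :=
    Nat.mul_pos (hw v) (Nat.pow_pos (by omega))
  omega

lemma anc_dep {a x : Fin n} (h : φ.Anc a x) : φ.dep a ≤ φ.dep x := by
  induction h with
  | refl => exact le_rfl
  | tail _ h2 ih =>
    have := φ.dep_par _ h2.1 h2.2.1
    rw [h2.2.2] at this
    omega

lemma anc_tau {w : Fin n → ℕ} (hw : ∀ v, 1 ≤ w v) {a x : Fin n} (h : φ.Anc a x) :
    φ.tau w a ≤ φ.tau w x := by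
  induction h with
  | refl => exact le_rfl
  | tail _ h2 ih =>
    have := φ.tau_lt hw h2.1 h2.2.1
    rw [h2.2.2] at this
    omega

lemma anc_tau_lt {w : Fin n → ℕ} (hw : ∀ v, 1 ≤ w v) {a x : Fin n} (h : φ.Anc a x) (hne : a ≠ x) :
    φ.tau w a < φ.tau w x := by
  rcases Relation.ReflTransGen.cases_tail h with h1 | ⟨c, h1, h2⟩
  · exact absurd h1.symm hne
  · have h3 := φ.anc_tau hw h1
    have h4 := φ.tau_lt hw h2.1 h2.2.1
    rw [h2.2.2] at h4
    omega

lemma anc_tau_up {w : Fin n → ℕ} (hw : ∀ v, w v ≤ n) {a x : Fin n} (h : φ.Anc a x) :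
    φ.tau w x + (n + 2) ^ (φ.D - φ.dep x) ≤ φ.tau w a + (n + 2) ^ (φ.D - φ.dep a) := by
  induction h with
  | refl => exact le_rfl
  | @tail u v _ h2 ih =>
    have h3 := φ.dep_par v h2.1 h2.2.1
    rw [h2.2.2] at h3
    refine le_trans ?_ ih
    rw [φ.tau_par w h2.1 h2.2.1, h2.2.2]
    have h4 : φ.D - φ.dep u = (φ.D - φ.dep v) + 1 := by
      have := φ.dep_le v
      omega
    rw [h4, pow_succ]
    have h5 := hw v
    have h6 : w v * (n + 2) ^ (φ.D - φ.dep v) ≤ n * (n + 2) ^ (φ.D - φ.dep v) :=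
      Nat.mul_le_mul_right _ h5
    have h7 : 0 < (n + 2) ^ (φ.D - φ.dep v) := Nat.pow_pos (by omega)
    nlinarith

/-- distinct siblings or distinct roots -/
def Sib (a b : Fin n) : Prop :=
  a ≠ b ∧ a ∈ S ∧ b ∈ S ∧ ((φ.dep a = 0 ∧ φ.dep b = 0) ∨
    (0 < φ.dep a ∧ 0 < φ.dep b ∧ φ.par a = φ.par b))

lemma Sib.symm {a b : Fin n} (h : φ.Sib a b) : φ.Sib b a := by
  obtain ⟨h1, h2, h3, h4 | h4⟩ := h
  · exact ⟨h1.symm, h3, h2, Or.inl ⟨h4.2, h4.1⟩⟩
  · exact ⟨h1.symm, h3, h2, Or.inr ⟨h4.2.1, h4.1, h4.2.2.symm⟩⟩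

lemma sib_tau {w : Fin n → ℕ} (hw0 : ∀ v, 1 ≤ w v) (hw : ∀ v, w v ≤ n) {a b x y : Fin n}
    (h : φ.Sib a b) (hab : w a < w b) (hax : φ.Anc a x) (hby : φ.Anc b y) :
    φ.tau w x < φ.tau w y := by
  obtain ⟨_, haS, hbS, h4⟩ := h
  have h1 := φ.anc_tau_up hw hax
  have h2 := φ.anc_tau hw0 hby
  have h3 : φ.tau w a + (n + 2) ^ (φ.D - φ.dep a) ≤ φ.tau w b := by
    rcases h4 with h5 | ⟨h5, h6, h7⟩
    · rw [φ.tau_root w h5.1, φ.tau_root w h5.2, h5.1, Nat.sub_zero]
      have : (w a + 1) * (n + 2) ^ φ.D ≤ w b * (n + 2) ^ φ.D := Nat.mul_le_mul_right _ hab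
      nlinarith
    · have h8 := φ.dep_par a haS h5
      have h9 := φ.dep_par b hbS h6
      rw [← h7] at h9
      have h10 : φ.dep b = φ.dep a := by omega
      rw [φ.tau_par w haS h5, φ.tau_par w hbS h6, ← h7, h10]
      have : (w a + 1) * (n + 2) ^ (φ.D - φ.dep a) ≤ w b * (n + 2) ^ (φ.D - φ.dep a) :=
        Nat.mul_le_mul_right _ hab
      nlinarith
  have h5 : 0 < (n + 2) ^ (φ.D - φ.dep x) := Nat.pow_pos (by omega)
  omega

lemma anc_trans {a b c : Fin n} (h : φ.Anc a b) (h' : φ.Anc b c) : φ.Anc a c :=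
  Relation.ReflTransGen.trans h h'

lemma anc_par {v : Fin n} (hv : v ∈ S) (h : 0 < φ.dep v) : φ.Anc (φ.par v) v :=
  Relation.ReflTransGen.single ⟨hv, h, rfl⟩

lemma anc_root {a x : Fin n} (h : φ.Anc a x) (hx : φ.dep x = 0) : a = x := by
  rcases Relation.ReflTransGen.cases_tail h with h1 | ⟨c, _, h2⟩
  · exact h1.symm
  · have := h2.2.1
    omega

lemma anc_split (N : ℕ) : ∀ x ∈ S, ∀ y ∈ S, φ.dep x + φ.dep y ≤ N →
    φ.Anc x y ∨ φ.Anc y x ∨ ∃ a b, φ.Sib a b ∧ φ.Anc a x ∧ φ.Anc b y := by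
  induction N with
  | zero =>
    intro x hx y hy h
    by_cases hxy : x = y
    · left; rw [hxy]; exact Relation.ReflTransGen.refl
    · right; right
      exact ⟨x, y, ⟨hxy, hx, hy, Or.inl ⟨by omega, by omega⟩⟩, Relation.ReflTransGen.refl,
        Relation.ReflTransGen.refl⟩
  | succ N ih =>
    intro x hx y hy h
    by_cases hdx : 0 < φ.dep x
    · have h1 := φ.dep_par x hx hdx
      rcases ih (φ.par x) (φ.par_mem x hx hdx) y hy (by omega) with h2 | h2 | ⟨a, b, h2, h3, h4⟩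
      · rcases Relation.ReflTransGen.cases_head h2 with h3 | ⟨c, h3, h4⟩
        · right; left
          rw [← h3]; exact φ.anc_par hx hdx
        · by_cases hcx : c = x
          · left; rw [← hcx]; exact h4
          · right; right
            exact ⟨x, c, ⟨fun h => hcx h.symm, hx, h3.1, Or.inr ⟨hdx, h3.2.1, h3.2.2.symm⟩⟩,
              Relation.ReflTransGen.refl, h4⟩
      · right; left; exact φ.anc_trans h2 (φ.anc_par hx hdx)
      · right; right
        exact ⟨a, b, h2, φ.anc_trans h3 (φ.anc_par hx hdx), h4⟩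
    · have hdx0 : φ.dep x = 0 := by omega
      by_cases hdy : 0 < φ.dep y
      · have h1 := φ.dep_par y hy hdy
        rcases ih x hx (φ.par y) (φ.par_mem y hy hdy) (by omega) with h2 | h2 | ⟨a, b, h2, h3, h4⟩
        · left; exact φ.anc_trans h2 (φ.anc_par hy hdy)
        · left
          have := φ.anc_root h2 hdx0
          rw [← this]; exact φ.anc_par hy hdy
        · right; right
          exact ⟨a, b, h2, h3, φ.anc_trans h4 (φ.anc_par hy hdy)⟩
      · by_cases hxy : x = y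
        · left; rw [hxy]; exact Relation.ReflTransGen.refl
        · right; right
          exact ⟨x, y, ⟨hxy, hx, hy, Or.inl ⟨by omega, by omega⟩⟩, Relation.ReflTransGen.refl,
            Relation.ReflTransGen.refl⟩

/-- the two weights -/
def wt (n : ℕ) (σ : Bool) (v : Fin n) : ℕ := if σ then v.val + 1 else n - v.val

lemma wt_pos (σ : Bool) (v : Fin n) : 1 ≤ wt n σ v := by
  have := v.isLt
  unfold wt; split_ifs <;> omega

lemma wt_le (σ : Bool) (v : Fin n) : wt n σ v ≤ n := by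
  have := v.isLt
  unfold wt; split_ifs <;> omega

lemma wt_sep {a b : Fin n} (h : a ≠ b) : ∃ σ, wt n σ a < wt n σ b := by
  rcases lt_or_gt_of_ne h with h1 | h1
  · refine ⟨true, ?_⟩
    unfold wt
    have : a.val < b.val := h1
    simp only [if_true]; omega
  · refine ⟨false, ?_⟩
    unfold wt
    have h2 : b.val < a.val := h1
    have := a.isLt
    simp only [Bool.false_eq_true, if_false]; omega

/-- unrelated elements are separated in both directions -/
lemma unrel {x y : Fin n} (hx : x ∈ S) (hy : y ∈ S) (h1 : ¬ φ.Anc x y) (h2 : ¬ φ.Anc y x) :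
    ∃ σ, φ.tau (wt n σ) x < φ.tau (wt n σ) y := by
  rcases φ.anc_split _ x hx y hy le_rfl with h | h | ⟨a, b, h3, h4, h5⟩
  · exact absurd h h1
  · exact absurd h h2
  · obtain ⟨σ, hσ⟩ := wt_sep h3.1
    exact ⟨σ, φ.sib_tau (wt_pos σ) (wt_le σ) h3 hσ h4 h5⟩

/-! ### last up vertex and last down vertex on the root path -/

noncomputable def uuF : ℕ → Fin n → Fin n
  | 0, v => v
  | k + 1, v => if φ.par v < v then v else uuF k (φ.par v)

noncomputable def uu (v : Fin n) : Fin n := φ.uuF (φ.dep v) v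

noncomputable def ddF : ℕ → Fin n → Fin n
  | 0, v => v
  | k + 1, v => if v < φ.par v then v else ddF k (φ.par v)

noncomputable def dd (v : Fin n) : Fin n := φ.ddF (φ.dep v) v

lemma uu_eq {v : Fin n} (hv : v ∈ S) (h : 0 < φ.dep v) :
    φ.uu v = if φ.par v < v then v else φ.uu (φ.par v) := by
  unfold uu
  have h1 := φ.dep_par v hv h
  obtain ⟨k, hk⟩ : ∃ k, φ.dep v = k + 1 := ⟨φ.dep v - 1, by omega⟩
  have h2 : φ.dep (φ.par v) = k := by omega
  rw [h2, hk]
  rfl

lemma uu_root {v : Fin n} (h : φ.dep v = 0) : φ.uu v = v := by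
  unfold uu; rw [h]; rfl

lemma dd_eq {v : Fin n} (hv : v ∈ S) (h : 0 < φ.dep v) :
    φ.dd v = if v < φ.par v then v else φ.dd (φ.par v) := by
  unfold dd
  have h1 := φ.dep_par v hv h
  obtain ⟨k, hk⟩ : ∃ k, φ.dep v = k + 1 := ⟨φ.dep v - 1, by omega⟩
  have h2 : φ.dep (φ.par v) = k := by omega
  rw [h2, hk]
  rfl

lemma dd_root {v : Fin n} (h : φ.dep v = 0) : φ.dd v = v := by
  unfold dd; rw [h]; rfl

lemma par_ne {v : Fin n} (hv : v ∈ S) (h : 0 < φ.dep v) : φ.par v ≠ v := by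
  intro h1
  have := φ.dep_par v hv h
  rw [h1] at this
  omega

lemma uu_facts (N : ℕ) : ∀ v ∈ S, φ.dep v ≤ N → φ.uu v ∈ S ∧ φ.Anc (φ.uu v) v ∧
    ∀ w, φ.Anc (φ.uu v) w → φ.Anc w v → φ.le0 v w := by
  induction N with
  | zero =>
    intro v hv h
    have h0 : φ.dep v = 0 := by omega
    rw [φ.uu_root h0]
    refine ⟨hv, Relation.ReflTransGen.refl, ?_⟩
    intro w _ h2
    rw [φ.anc_root h2 h0]
    exact Relation.ReflTransGen.refl
  | succ N ih =>
    intro v hv h
    rcases Nat.eq_zero_or_pos (φ.dep v) with h0 | h0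
    · rw [φ.uu_root h0]
      refine ⟨hv, Relation.ReflTransGen.refl, ?_⟩
      intro w _ h2
      rw [φ.anc_root h2 h0]
      exact Relation.ReflTransGen.refl
    · have h1 := φ.dep_par v hv h0
      rw [φ.uu_eq hv h0]
      by_cases hlt : φ.par v < v
      · rw [if_pos hlt]
        refine ⟨hv, Relation.ReflTransGen.refl, ?_⟩
        intro w h2 h3
        have h4 := φ.anc_dep h2
        rcases Relation.ReflTransGen.cases_tail h3 with h5 | ⟨c, h5, h6⟩
        · rw [h5]; exact Relation.ReflTransGen.refl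
        · have h7 := φ.anc_dep h5
          have h8 := φ.dep_par v h6.1 h6.2.1
          rw [h6.2.2] at h8
          omega
      · rw [if_neg hlt]
        obtain ⟨g1, g2, g3⟩ := ih (φ.par v) (φ.par_mem v hv h0) (by omega)
        refine ⟨g1, φ.anc_trans g2 (φ.anc_par hv h0), ?_⟩
        intro w h2 h3
        rcases Relation.ReflTransGen.cases_tail h3 with h5 | ⟨c, h5, h6⟩
        · rw [h5]; exact Relation.ReflTransGen.refl
        · rw [← h6.2.2] at h5
          have h7 := g3 w h2 h5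
          have hlt' : v < φ.par v := lt_of_le_of_ne (not_lt.1 hlt) (φ.par_ne hv h0).symm
          exact Relation.ReflTransGen.head ⟨hlt', hv, φ.par_mem v hv h0, Or.inl ⟨h0, rfl⟩⟩ h7

lemma dd_facts (N : ℕ) : ∀ v ∈ S, φ.dep v ≤ N → φ.dd v ∈ S ∧ φ.Anc (φ.dd v) v ∧
    ∀ w, φ.Anc (φ.dd v) w → φ.Anc w v → φ.le0 w v := by
  induction N with
  | zero =>
    intro v hv h
    have h0 : φ.dep v = 0 := by omega
    rw [φ.dd_root h0]
    refine ⟨hv, Relation.ReflTransGen.refl, ?_⟩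
    intro w _ h2
    rw [φ.anc_root h2 h0]
    exact Relation.ReflTransGen.refl
  | succ N ih =>
    intro v hv h
    rcases Nat.eq_zero_or_pos (φ.dep v) with h0 | h0
    · rw [φ.dd_root h0]
      refine ⟨hv, Relation.ReflTransGen.refl, ?_⟩
      intro w _ h2
      rw [φ.anc_root h2 h0]
      exact Relation.ReflTransGen.refl
    · have h1 := φ.dep_par v hv h0
      rw [φ.dd_eq hv h0]
      by_cases hlt : v < φ.par v
      · rw [if_pos hlt]
        refine ⟨hv, Relation.ReflTransGen.refl, ?_⟩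
        intro w h2 h3
        have h4 := φ.anc_dep h2
        rcases Relation.ReflTransGen.cases_tail h3 with h5 | ⟨c, h5, h6⟩
        · rw [h5]; exact Relation.ReflTransGen.refl
        · have h7 := φ.anc_dep h5
          have h8 := φ.dep_par v h6.1 h6.2.1
          rw [h6.2.2] at h8
          omega
      · rw [if_neg hlt]
        obtain ⟨g1, g2, g3⟩ := ih (φ.par v) (φ.par_mem v hv h0) (by omega)
        refine ⟨g1, φ.anc_trans g2 (φ.anc_par hv h0), ?_⟩
        intro w h2 h3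
        rcases Relation.ReflTransGen.cases_tail h3 with h5 | ⟨c, h5, h6⟩
        · rw [h5]; exact Relation.ReflTransGen.refl
        · rw [← h6.2.2] at h5
          have h7 := g3 w h2 h5
          have hlt' : φ.par v < v := lt_of_le_of_ne (not_lt.1 hlt) (φ.par_ne hv h0)
          exact Relation.ReflTransGen.tail h7 ⟨hlt', φ.par_mem v hv h0, hv, Or.inr ⟨h0, rfl⟩⟩

/-- a strict bound for the numbers -/
noncomputable def Bd (σ : Bool) : ℕ := Finset.univ.sup (φ.tau (wt n σ)) + 1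

lemma tau_lt_Bd (σ : Bool) (v : Fin n) : φ.tau (wt n σ) v < φ.Bd σ := by
  unfold Bd
  exact Nat.lt_succ_of_le (Finset.le_sup (f := φ.tau (wt n σ)) (Finset.mem_univ v))

/-- the four keys of the forest -/
noncomputable def key (ε σ : Bool) (v : Fin n) : ℕ :=
  if ε then φ.tau (wt n σ) (φ.uu v) * φ.Bd σ + (φ.Bd σ - 1 - φ.tau (wt n σ) v)
  else (φ.Bd σ - 1 - φ.tau (wt n σ) (φ.dd v)) * φ.Bd σ + φ.tau (wt n σ) v

lemma lex_lt {B a b c d : ℕ} (hb : b < B) (h : a < c ∨ (a = c ∧ b < d)) :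
    a * B + b < c * B + d := by
  rcases h with h | ⟨h1, h2⟩
  · have : (a + 1) * B ≤ c * B := Nat.mul_le_mul_right _ h
    have h3 : (a + 1) * B = a * B + B := by ring
    omega
  · rw [h1]; omega

/-- the keys are strictly monotone along tree edges -/
lemma key_te (ε σ : Bool) {u v : Fin n} (h : φ.te u v) : φ.key ε σ u < φ.key ε σ v := by
  obtain ⟨huv, hu, hv, h4 | h4⟩ := h
  · -- `v` is the parent of `u`: `u` is a down vertex
    obtain ⟨h5, h6⟩ := h4
    have h7 := φ.tau_lt (wt_pos σ) hu h5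
    rw [h6] at h7
    have b1 := φ.tau_lt_Bd σ u
    have b2 := φ.tau_lt_Bd σ v
    unfold key
    split_ifs
    · rw [φ.uu_eq hu h5, h6, if_neg (not_lt.2 huv.le)]
      apply lex_lt (by omega)
      right
      exact ⟨rfl, by omega⟩
    · rw [φ.dd_eq hu h5, h6, if_pos huv]
      obtain ⟨_, g2, _⟩ := φ.dd_facts _ v hv le_rfl
      have h8 := φ.anc_tau (wt_pos σ) g2
      apply lex_lt b1
      left
      omega
  · obtain ⟨h5, h6⟩ := h4
    have h7 := φ.tau_lt (wt_pos σ) hv h5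
    rw [h6] at h7
    have b1 := φ.tau_lt_Bd σ u
    have b2 := φ.tau_lt_Bd σ v
    unfold key
    split_ifs
    · rw [φ.uu_eq hv h5, h6, if_pos huv]
      obtain ⟨_, g2, _⟩ := φ.uu_facts _ u hu le_rfl
      have h8 := φ.anc_tau (wt_pos σ) g2
      apply lex_lt (by omega)
      left
      omega
    · rw [φ.dd_eq hv h5, h6, if_neg (not_lt.2 huv.le)]
      apply lex_lt b1
      right
      exact ⟨rfl, h7⟩

lemma key_mono (ε σ : Bool) {x y : Fin n} (h : φ.le0 x y) : φ.key ε σ x ≤ φ.key ε σ y := by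
  induction h with
  | refl => exact le_rfl
  | tail _ h2 ih => exact ih.trans (φ.key_te ε σ h2).le

/-- four linear orders realise the order of a forest -/
lemma key_sep {x y : Fin n} (hx : x ∈ S) (hy : y ∈ S) (h : ¬ φ.le0 x y) :
    ∃ ε σ, φ.key ε σ y < φ.key ε σ x := by
  by_contra hcon
  push Not at hcon
  have hxy : x ≠ y := by
    rintro rfl
    exact h Relation.ReflTransGen.refl
  obtain ⟨ux1, ux2, ux3⟩ := φ.uu_facts _ x hx le_rfl
  obtain ⟨uy1, uy2, uy3⟩ := φ.uu_facts _ y hy le_rfl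
  obtain ⟨dx1, dx2, dx3⟩ := φ.dd_facts _ x hx le_rfl
  obtain ⟨dy1, dy2, dy3⟩ := φ.dd_facts _ y hy le_rfl
  -- first type
  have hT : ∀ σ, ¬ (φ.tau (wt n σ) (φ.uu y) < φ.tau (wt n σ) (φ.uu x)) ∧
      ¬ (φ.tau (wt n σ) (φ.uu y) = φ.tau (wt n σ) (φ.uu x) ∧
        φ.tau (wt n σ) x < φ.tau (wt n σ) y) := by
    intro σ
    have h1 := hcon true σ
    have b1 := φ.tau_lt_Bd σ x
    have b2 := φ.tau_lt_Bd σ y
    constructor
    · intro h2
      apply absurd h1
      rw [not_le]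
      unfold key
      simp only [if_true]
      exact lex_lt (by omega) (Or.inl h2)
    · intro h2
      apply absurd h1
      rw [not_le]
      unfold key
      simp only [if_true]
      exact lex_lt (by omega) (Or.inr ⟨h2.1, by omega⟩)
  have hB : ∀ σ, ¬ (φ.tau (wt n σ) (φ.dd x) < φ.tau (wt n σ) (φ.dd y)) ∧
      ¬ (φ.tau (wt n σ) (φ.dd x) = φ.tau (wt n σ) (φ.dd y) ∧
        φ.tau (wt n σ) y < φ.tau (wt n σ) x) := by
    intro σ
    have h1 := hcon false σ
    have b1 := φ.tau_lt_Bd σ x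
    have b2 := φ.tau_lt_Bd σ y
    have b3 := φ.tau_lt_Bd σ (φ.dd x)
    have b4 := φ.tau_lt_Bd σ (φ.dd y)
    constructor
    · intro h2
      apply absurd h1
      rw [not_le]
      unfold key
      simp only [Bool.false_eq_true, if_false]
      exact lex_lt b2 (Or.inl (by omega))
    · intro h2
      apply absurd h1
      rw [not_le]
      unfold key
      simp only [Bool.false_eq_true, if_false]
      exact lex_lt b2 (Or.inr ⟨by omega, h2.2⟩)
  -- `uu x` is a proper ancestor of `uu y`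
  have hA1 : φ.Anc (φ.uu x) (φ.uu y) := by
    by_contra h1
    by_cases h2 : φ.Anc (φ.uu y) (φ.uu x)
    · by_cases h3 : φ.uu y = φ.uu x
      · exact h1 (by rw [h3]; exact Relation.ReflTransGen.refl)
      · exact (hT true).1 (φ.anc_tau_lt (wt_pos _) h2 h3)
    · obtain ⟨σ, hσ⟩ := φ.unrel uy1 ux1 h2 h1
      exact (hT σ).1 hσ
  have hA2 : φ.uu x ≠ φ.uu y := by
    intro h1
    -- same block
    by_cases h2 : φ.Anc x y
    · exact (hT true).2 ⟨by rw [h1], φ.anc_tau_lt (wt_pos _) h2 hxy⟩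
    · by_cases h3 : φ.Anc y x
      · exact h (ux3 y (by rw [h1]; exact uy2) h3)
      · obtain ⟨σ, hσ⟩ := φ.unrel hx hy h2 h3
        exact (hT σ).2 ⟨by rw [h1], hσ⟩
  have hB1 : φ.Anc (φ.dd y) (φ.dd x) := by
    by_contra h1
    by_cases h2 : φ.Anc (φ.dd x) (φ.dd y)
    · by_cases h3 : φ.dd x = φ.dd y
      · exact h1 (by rw [h3]; exact Relation.ReflTransGen.refl)
      · exact (hB true).1 (φ.anc_tau_lt (wt_pos _) h2 h3)
    · obtain ⟨σ, hσ⟩ := φ.unrel dx1 dy1 h2 h1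
      exact (hB σ).1 hσ
  -- both are ancestors of `x`, so they are related
  have hxu : φ.Anc (φ.uu x) y := φ.anc_trans hA1 uy2
  have hxd : φ.Anc (φ.dd y) x := φ.anc_trans hB1 dx2
  -- comparability of two ancestors of `x`
  have hcomp : ∀ c, ∀ a b, φ.Anc a c → φ.Anc b c → φ.Anc a b ∨ φ.Anc b a := by
    intro c a b ha hb
    induction ha with
    | refl => exact Or.inr hb
    | @tail u v h1 h2 ih =>
      rcases Relation.ReflTransGen.cases_tail hb with h3 | ⟨w, h3, h4⟩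
      · left
        rw [← h3]
        exact Relation.ReflTransGen.tail h1 h2
      · have : w = u := h4.2.2.symm.trans h2.2.2
        rw [this] at h3
        exact ih h3
  rcases hcomp x _ _ ux2 hxd with h1 | h1
  · -- `dd y` lies between `uu x` and `x`
    have h2 := ux3 _ h1 hxd
    have h3 := dy3 _ Relation.ReflTransGen.refl dy2
    exact h (φ.le0_trans h2 h3)
  · have h2 := ux3 _ Relation.ReflTransGen.refl ux2
    have h3 := dy3 _ h1 hxu
    exact h (φ.le0_trans h2 h3)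

/-! ### the extra edges -/

/-- bound for the keys -/
noncomputable def Kb (ε σ : Bool) : ℕ := Finset.univ.sup (φ.key ε σ) + 1

lemma key_lt_Kb (ε σ : Bool) (v : Fin n) : φ.key ε σ v < φ.Kb ε σ := by
  unfold Kb
  exact Nat.lt_succ_of_le (Finset.le_sup (f := φ.key ε σ) (Finset.mem_univ v))

open Classical in
/-- the keys with the elements below an extra edge first -/
noncomputable def keyL (ε σ : Bool) (v : Fin n) : ℕ :=
  if v ∈ S then
    (if ∃ a b, φ.ex a b ∧ φ.le0 v a then 1 + φ.key ε σ v else 1 + φ.Kb ε σ + φ.key ε σ v)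
  else 0

open Classical in
/-- the keys with the elements above an extra edge last -/
noncomputable def keyU (ε σ : Bool) (v : Fin n) : ℕ :=
  if v ∈ S then
    (if ∃ a b, φ.ex a b ∧ φ.le0 b v then 1 + φ.Kb ε σ + φ.key ε σ v else 1 + φ.key ε σ v)
  else 0

open Classical in
/-- keys separating components -/
noncomputable def keyR (σ : Bool) (v : Fin n) : ℕ :=
  if v ∈ S then 1 + wt n σ (φ.rt v) else 0

lemma gle_rt {x y : Fin n} (hx : x ∈ S) (h : gle T x y) : φ.rt x = φ.rt y := by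
  rcases φ.gle_cases hx h with h1 | ⟨a, b, h1, h2, h3⟩
  · exact φ.le0_rt h1
  · rw [φ.le0_rt h2, φ.rt_edge a h1.1 b h1.2.1 h1.2.2.2.1, φ.le0_rt h3]

lemma keyL_mono (ε σ : Bool) {x y : Fin n} (h : gle T x y) : φ.keyL ε σ x ≤ φ.keyL ε σ y := by
  unfold keyL
  by_cases hx : x ∈ S
  · have hy : y ∈ S := φ.up x hx y h
    rw [if_pos hx, if_pos hy]
    have b1 := φ.key_lt_Kb ε σ x
    rcases φ.gle_cases hx h with h1 | ⟨a, b, h1, h2, h3⟩
    · have h4 := φ.key_mono ε σ h1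
      by_cases hyA : ∃ a b, φ.ex a b ∧ φ.le0 y a
      · have hxA : ∃ a b, φ.ex a b ∧ φ.le0 x a := by
          obtain ⟨a, b, h5, h6⟩ := hyA
          exact ⟨a, b, h5, φ.le0_trans h1 h6⟩
        rw [if_pos hyA, if_pos hxA]; omega
      · rw [if_neg hyA]
        split_ifs <;> omega
    · have hxA : ∃ a b, φ.ex a b ∧ φ.le0 x a := ⟨a, b, h1, h2⟩
      have hyA : ¬ ∃ a b, φ.ex a b ∧ φ.le0 y a := by
        rintro ⟨a', b', h5, h6⟩
        have hr : φ.rt a = φ.rt a' := by
          rw [φ.rt_edge a h1.1 b h1.2.1 h1.2.2.2.1, φ.le0_rt h3, φ.le0_rt h6]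
        obtain ⟨e1, _⟩ := φ.ex_unique h1 h5 hr
        have h7 : b ≤ a' := φ.le0_le (φ.le0_trans h3 h6)
        rw [← e1] at h7
        exact absurd h1.2.2.1 (not_lt.2 h7)
      rw [if_pos hxA, if_neg hyA]
      omega
  · rw [if_neg hx]; exact Nat.zero_le _

lemma keyU_mono (ε σ : Bool) {x y : Fin n} (h : gle T x y) : φ.keyU ε σ x ≤ φ.keyU ε σ y := by
  unfold keyU
  by_cases hx : x ∈ S
  · have hy : y ∈ S := φ.up x hx y h
    rw [if_pos hx, if_pos hy]
    have b1 := φ.key_lt_Kb ε σ x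
    rcases φ.gle_cases hx h with h1 | ⟨a, b, h1, h2, h3⟩
    · have h4 := φ.key_mono ε σ h1
      by_cases hxA : ∃ a b, φ.ex a b ∧ φ.le0 b x
      · have hyA : ∃ a b, φ.ex a b ∧ φ.le0 b y := by
          obtain ⟨a, b, h5, h6⟩ := hxA
          exact ⟨a, b, h5, φ.le0_trans h6 h1⟩
        rw [if_pos hyA, if_pos hxA]; omega
      · rw [if_neg hxA]
        split_ifs <;> omega
    · have hyA : ∃ a b, φ.ex a b ∧ φ.le0 b y := ⟨a, b, h1, h3⟩
      have hxA : ¬ ∃ a b, φ.ex a b ∧ φ.le0 b x := by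
        rintro ⟨a', b', h5, h6⟩
        have hr : φ.rt a = φ.rt a' := by
          rw [← φ.le0_rt h2, ← φ.le0_rt h6, φ.rt_edge a' h5.1 b' h5.2.1 h5.2.2.2.1]
        obtain ⟨_, e2⟩ := φ.ex_unique h1 h5 hr
        have h7 : b' ≤ a := φ.le0_le (φ.le0_trans h6 h2)
        rw [← e2] at h7
        exact absurd h1.2.2.1 (not_lt.2 h7)
      rw [if_pos hyA, if_neg hxA]
      omega
  · rw [if_neg hx]; exact Nat.zero_le _

lemma keyR_mono (σ : Bool) {x y : Fin n} (h : gle T x y) : φ.keyR σ x ≤ φ.keyR σ y := by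
  unfold keyR
  by_cases hx : x ∈ S
  · have hy : y ∈ S := φ.up x hx y h
    rw [if_pos hx, if_pos hy, φ.gle_rt hx h]
  · rw [if_neg hx]; exact Nat.zero_le _

include φ in
open Classical in
/-- ten keys reverse all pairs whose first element lies in `S` -/
theorem ten_keys : ∃ F : Finset (Fin n → ℕ), F.card ≤ 10 ∧ KeyRev T F (fun x _ => x ∈ S) := by
  set F1 : Finset (Fin n → ℕ) := Finset.univ.image fun a : Bool × Bool => φ.keyL a.1 a.2 with hF1
  set F2 : Finset (Fin n → ℕ) := Finset.univ.image fun a : Bool × Bool => φ.keyU a.1 a.2 with hF2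
  set F3 : Finset (Fin n → ℕ) := Finset.univ.image fun a : Bool => φ.keyR a with hF3
  have c1 : F1.card ≤ 4 := by
    refine Finset.card_image_le.trans ?_
    rw [Finset.card_univ, Fintype.card_prod, Fintype.card_bool]
  have c2 : F2.card ≤ 4 := by
    refine Finset.card_image_le.trans ?_
    rw [Finset.card_univ, Fintype.card_prod, Fintype.card_bool]
  have c3 : F3.card ≤ 2 := by
    refine Finset.card_image_le.trans ?_
    rw [Finset.card_univ, Fintype.card_bool]
  have m1 : ∀ ε σ, φ.keyL ε σ ∈ F1 := fun ε σ =>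
    Finset.mem_image.2 ⟨(ε, σ), Finset.mem_univ _, rfl⟩
  have m2 : ∀ ε σ, φ.keyU ε σ ∈ F2 := fun ε σ =>
    Finset.mem_image.2 ⟨(ε, σ), Finset.mem_univ _, rfl⟩
  have m3 : ∀ σ, φ.keyR σ ∈ F3 := fun σ => Finset.mem_image.2 ⟨σ, Finset.mem_univ _, rfl⟩
  refine ⟨F1 ∪ F2 ∪ F3, ?_, ?_, ?_⟩
  · have h1 := Finset.card_union_le (F1 ∪ F2) F3
    have h2 := Finset.card_union_le F1 F2
    omega
  · intro f hf x y hxy
    rcases Finset.mem_union.1 hf with hf | hf
    · rcases Finset.mem_union.1 hf with hf | hf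
      · obtain ⟨a, _, rfl⟩ := Finset.mem_image.1 hf
        exact φ.keyL_mono _ _ hxy
      · obtain ⟨a, _, rfl⟩ := Finset.mem_image.1 hf
        exact φ.keyU_mono _ _ hxy
    · obtain ⟨a, _, rfl⟩ := Finset.mem_image.1 hf
      exact φ.keyR_mono _ hxy
  · intro x y hx hxy
    by_cases hy : y ∈ S
    swap
    · refine ⟨φ.keyR true, Finset.mem_union_right _ (m3 true), Or.inl ?_⟩
      unfold keyR
      rw [if_neg hy, if_pos hx]; omega
    by_cases hr : φ.rt x = φ.rt y
    swap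
    · obtain ⟨σ, hσ⟩ := wt_sep (Ne.symm hr)
      refine ⟨φ.keyR σ, Finset.mem_union_right _ (m3 σ), Or.inl ?_⟩
      unfold keyR
      rw [if_pos hy, if_pos hx]; omega
    have h0 : ¬ φ.le0 x y := fun h => hxy (φ.le0_gle h)
    obtain ⟨ε, σ, hk⟩ := φ.key_sep hx hy h0
    have b1 := φ.key_lt_Kb ε σ y
    by_cases hA : (∃ a b, φ.ex a b ∧ φ.le0 x a) ∧ ¬ ∃ a b, φ.ex a b ∧ φ.le0 y a
    · by_cases hB : (∃ a b, φ.ex a b ∧ φ.le0 b y) ∧ ¬ ∃ a b, φ.ex a b ∧ φ.le0 b x
      · exfalso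
        obtain ⟨⟨a, b, h1, h2⟩, _⟩ := hA
        obtain ⟨⟨a', b', h3, h4⟩, _⟩ := hB
        have hr' : φ.rt a = φ.rt a' := by
          rw [← φ.le0_rt h2, hr, ← φ.le0_rt h4, φ.rt_edge a' h3.1 b' h3.2.1 h3.2.2.2.1]
        obtain ⟨_, e2⟩ := φ.ex_unique h1 h3 hr'
        rw [← e2] at h4
        exact hxy (gle_trans (φ.le0_gle h2) (gle_trans (gle_edge h1.2.2.1 h1.2.2.2.1)
          (φ.le0_gle h4)))
      · refine ⟨φ.keyU ε σ, Finset.mem_union_left _ (Finset.mem_union_right _ (m2 ε σ)),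
          Or.inl ?_⟩
        unfold keyU
        rw [if_pos hx, if_pos hy]
        by_cases h1 : ∃ a b, φ.ex a b ∧ φ.le0 b y
        · have h2 : ∃ a b, φ.ex a b ∧ φ.le0 b x := by
            by_contra h3
            exact hB ⟨h1, h3⟩
          rw [if_pos h1, if_pos h2]; omega
        · rw [if_neg h1]
          split_ifs <;> omega
    · refine ⟨φ.keyL ε σ, Finset.mem_union_left _ (Finset.mem_union_left _ (m1 ε σ)), Or.inl ?_⟩
      unfold keyL
      rw [if_pos hx, if_pos hy]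
      by_cases h1 : ∃ a b, φ.ex a b ∧ φ.le0 x a
      · have h2 : ∃ a b, φ.ex a b ∧ φ.le0 y a := by
          by_contra h3
          exact hA ⟨h1, h3⟩
        rw [if_pos h1, if_pos h2]; omega
      · rw [if_neg h1]
        split_ifs <;> omega

end Forest

end Pool.Agent.H1.RO
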