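import Pool.Agent.H1.RO.UpperB

/-!
Gluing the estimates for fixed `ε` to one function, and the trivial cases.
-/

set_option autoImplicit false
set_option linter.unusedSectionVars false

namespace Pool.Agent.H1.RO

open Finset Pool.Agent.H1.CC Filter

lemma glue (Q : ℕ → ℝ → ℝ → ℝ) (x : ℕ → ℝ) (hx0 : ∀ k, 0 < x k)
    (hx : Tendsto x atTop (nhds 1))
    (hQ : ∀ k, ∃ c0 : ℝ, ∀ δ : ℝ, 0 < δ → ∀ᶠ n : ℕ in atTop, ∀ c : ℝ, c0 ≤ c → 1 ≤ c →
      c ≤ Real.log n → Q n c (x k) ≤ δ)
    (hbase : ∀ C : ℝ, ∃ b : ℝ → ℝ, (∀ y, 1 ≤ y → 0 < b y) ∧ ∀ δ : ℝ, 0 < δ → ∀ᶠ n : ℕ in atTop,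
      ∀ c : ℝ, 1 ≤ c → c ≤ C → c ≤ Real.log n → Q n c (b c) ≤ δ) :
    ∃ β : ℝ → ℝ, (∀ y, 1 ≤ y → 0 < β y) ∧ Tendsto β atTop (nhds 1) ∧
      ∀ δ : ℝ, 0 < δ → ∀ᶠ n : ℕ in atTop, ∀ c : ℝ, 1 ≤ c → c ≤ Real.log n → Q n c (β c) ≤ δ := by
  classical
  choose c0 hc0 using hQ
  -- thresholds
  have hthr : ∀ k : ℕ, ∃ C : ℝ, c0 k ≤ C ∧ (k:ℝ) ≤ C ∧ ∀ n : ℕ, C ≤ Real.log n → ∀ c : ℝ, c0 k ≤ c →
      1 ≤ c → c ≤ Real.log n → Q n c (x k) ≤ 1 / ((k:ℝ) + 1) := by
    intro k
    obtain ⟨N, hN⟩ := eventually_atTop.1 (hc0 k (1 / ((k:ℝ) + 1)) (by positivity))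
    refine ⟨max (max (c0 k) k) (Real.log N + 1), ?_, ?_, ?_⟩
    · exact (le_max_left _ _).trans (le_max_left _ _)
    · exact (le_max_right _ _).trans (le_max_left _ _)
    · intro n hn
      apply hN
      have h1 : Real.log N + 1 ≤ Real.log n := (le_max_right _ _).trans hn
      by_contra hcon
      push Not at hcon
      rcases Nat.eq_zero_or_pos n with h0 | h0
      · subst h0
        rw [Nat.cast_zero, Real.log_zero] at h1
        have : 0 ≤ Real.log N := Real.log_natCast_nonneg N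
        linarith
      · have : Real.log n ≤ Real.log N :=
          Real.log_le_log (by exact_mod_cast h0) (by exact_mod_cast hcon.le)
        linarith
  choose C hC1 hC2 hC3 using hthr
  obtain ⟨b, hb0, hb⟩ := hbase (C 1)
  set K : ℝ → ℕ := fun c => Nat.findGreatest (fun k => 1 ≤ k ∧ C k ≤ c) ⌊c⌋₊ with hK
  have hKspec : ∀ c, K c ≠ 0 → C (K c) ≤ c := by
    intro c h
    have := Nat.findGreatest_of_ne_zero (P := fun k => 1 ≤ k ∧ C k ≤ c) (n := ⌊c⌋₊) (m := K c) rfl h
    exact this.2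
  have hKge : ∀ c, ∀ k : ℕ, 1 ≤ k → C k ≤ c → k ≤ K c := by
    intro c k hk hCk
    apply Nat.le_findGreatest
    · exact Nat.le_floor ((hC2 k).trans hCk)
    · exact ⟨hk, hCk⟩
  refine ⟨fun c => if K c = 0 then b c else x (K c), ?_, ?_, ?_⟩
  · intro y hy
    beta_reduce
    split_ifs
    · exact hb0 y hy
    · exact hx0 _
  · rw [Metric.tendsto_atTop] at hx ⊢
    intro ε hε
    obtain ⟨k0, hk0⟩ := hx ε hε
    refine ⟨C (k0 + 1), ?_⟩
    intro c hc
    have h1 := hKge c (k0 + 1) (by omega) hc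
    rw [if_neg (by omega)]
    exact hk0 _ (by omega)
  · intro δ hδ
    obtain ⟨k1, hk1⟩ := exists_nat_gt (1 / δ)
    have hfin : ∀ᶠ n : ℕ in atTop, ∀ k ∈ Finset.range (k1 + 1), ∀ c : ℝ, c0 k ≤ c → 1 ≤ c →
        c ≤ Real.log n → Q n c (x k) ≤ δ := by
      rw [Filter.eventually_all_finset]
      intro k _
      exact hc0 k δ hδ
    filter_upwards [hfin, hb δ hδ] with n h1 h2
    intro c hc1 hcl
    by_cases hK0 : K c = 0
    · rw [if_pos hK0]
      apply h2 c hc1 _ hcl
      by_contra hcon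
      push Not at hcon
      have := hKge c 1 le_rfl hcon.le
      omega
    · rw [if_neg hK0]
      have h3 := hKspec c hK0
      by_cases hk : K c ≤ k1
      · exact h1 (K c) (Finset.mem_range.2 (by omega)) c ((hC1 _).trans h3) hc1 hcl
      · push Not at hk
        have h4 := hC3 (K c) n (h3.trans hcl) c ((hC1 _).trans h3) hc1 hcl
        refine h4.trans ?_
        have h5 : (k1:ℝ) ≤ K c := by exact_mod_cast hk.le
        rw [div_le_iff₀ (by positivity)]
        rw [div_lt_iff₀ hδ] at hk1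
        nlinarith

/-- with high probability the order is not a chain -/
lemma prob_small_two {n : ℕ} (hn : 2 ≤ n) {p : ℝ} (h0 : 0 ≤ p) (h1 : p ≤ 1) :
    Pr p (allE (Fin n)) (fun T => Small T 2) ≤ p := by
  set a : Fin n := ⟨0, by omega⟩ with ha
  set b : Fin n := ⟨1, by omega⟩ with hb
  have hab : a < b := by
    show (0:ℕ) < 1
    norm_num
  have h2 := prob_gle h0 h1 hab
  have h3 : b.val - a.val - 1 = 0 := rfl
  rw [h3, pow_zero, mul_one] at h2
  refine le_trans ?_ h2
  apply Pr_mono h0 h1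
  rintro T _ ⟨k, hk, L, hL⟩
  have hk2 : k < 2 := by exact_mod_cast hk
  have htot : ∀ x y, gle T x y ∨ gle T y x := by
    intro x y
    have hk01 : k = 0 ∨ k = 1 := by omega
    rcases hk01 with h | h
    · left
      rw [hL.2]
      intro i
      subst h
      exact i.elim0
    · subst h
      rcases (hL.1 0).2.2.2 x y with h4 | h4
      · left
        rw [hL.2]
        intro i
        have : i = 0 := Subsingleton.elim _ _
        rw [this]; exact h4
      · right
        rw [hL.2]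
        intro i
        have : i = 0 := Subsingleton.elim _ _
        rw [this]; exact h4
  rcases htot a b with h | h
  · exact h
  · exact absurd (gle_le h) (not_le.2 hab)

/-- every graph order has a realiser -/
lemma exists_real {n : ℕ} (T : Finset (Sym2 (Fin n))) :
    ∃ k : ℕ, ∃ L : Fin k → Fin n → Fin n → Prop, IsRealiser (gle T) L := by
  set Δ : ℕ := n + 1 with hΔ
  have h0 : 0 ≤ 1 - 1 / (3 * ((Δ:ℝ) + 1)) := by
    have : 1 / (3 * ((Δ:ℝ) + 1)) ≤ 1 := by
      rw [div_le_one (by positivity)]; linarith [Nat.cast_nonneg (α := ℝ) Δ]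
    linarith
  have h1 : 1 - 1 / (3 * ((Δ:ℝ) + 1)) < 1 := by
    have : 0 < 1 / (3 * ((Δ:ℝ) + 1)) := by positivity
    linarith
  have h2 := (tendsto_pow_atTop_nhds_zero_of_lt_one h0 h1).mul_const ((n:ℝ) ^ 2)
  rw [zero_mul] at h2
  obtain ⟨k, hk⟩ := (h2.eventually (gt_mem_nhds one_pos)).exists
  refine ⟨k, real_of_ups (Δ := Δ) (by omega) ?_ hk⟩
  intro x
  have := Finset.card_le_univ (ups T x)
  rw [Fintype.card_fin] at this
  omega

/-- lower bound, all sequences -/
theorem lower_all : ∃ β : ℝ → ℝ, (∀ y, 1 ≤ y → 0 < β y) ∧ Tendsto β atTop (nhds 1) ∧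
    ∀ δ : ℝ, 0 < δ → ∀ᶠ n : ℕ in atTop, ∀ c : ℝ, 1 ≤ c → c ≤ Real.log n →
      Pr (c / n) (allE (Fin n)) (fun T => Small T (Real.exp (β c * c))) ≤ δ := by
  apply glue (fun n c y => Pr (c / n) (allE (Fin n)) (fun T => Small T (Real.exp (y * c))))
    (fun k => 1 - 2 * (1 / ((k:ℝ) + 3)))
  · intro k
    have : 1 / ((k:ℝ) + 3) ≤ 1 / 3 :=
      one_div_le_one_div_of_le (by norm_num) (by linarith [Nat.cast_nonneg (α := ℝ) k])
    linarith
  · have h1 : Tendsto (fun k : ℕ => 1 / ((k:ℝ) + 3)) atTop (nhds 0) := by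
      have := tendsto_one_div_add_atTop_nhds_zero_nat (𝕜 := ℝ)
      have h2 := (tendsto_add_atTop_iff_nat 2).2 this
      refine h2.congr ?_
      intro k
      push_cast
      congr 1
      ring
    have := (h1.const_mul 2).const_sub 1
    simpa using this
  · intro k
    have hE0 : 0 < 1 / ((k:ℝ) + 3) := by positivity
    have hE1 : 1 / ((k:ℝ) + 3) ≤ 1 / 2 :=
      one_div_le_one_div_of_le (by norm_num) (by linarith [Nat.cast_nonneg (α := ℝ) k])
    obtain ⟨c0, hc0⟩ := lower_fixed hE0 hE1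
    refine ⟨c0, ?_⟩
    intro δ hδ
    filter_upwards [hc0, (errL_tendsto hE0).eventually (gt_mem_nhds hδ)] with n h1 h2
    intro c hc _ hcl
    exact (h1 c hc hcl).trans h2.le
  · intro C
    refine ⟨fun y => Real.log 2 / y, ?_, ?_⟩
    · intro y hy
      have := Real.log_pos (by norm_num : (1:ℝ) < 2)
      positivity
    · intro δ hδ
      have h1 : Tendsto (fun n : ℕ => Real.log n / (n:ℝ) ^ (1:ℝ)) atTop (nhds 0) :=
        ((isLittleO_log_rpow_atTop (show (0:ℝ) < 1 by norm_num)).tendsto_div_nhds_zero).comp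
          tendsto_natCast_atTop_atTop
      filter_upwards [h1.eventually (gt_mem_nhds hδ), eventually_ge_atTop 2] with n h2 h3
      intro c hc1 _ hcl
      have hn : (0:ℝ) < n := by
        have : 0 < n := by omega
        exact_mod_cast this
      have hlog : Real.log n ≤ n := by
        have := Real.log_le_sub_one_of_pos hn
        linarith
      have hc0 : 0 < c := by linarith
      have hp1 : c / n ≤ 1 := by rw [div_le_one hn]; linarith
      have h4 := prob_small_two h3 (p := c / n) (by positivity) hp1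
      have h5 : Real.exp (Real.log 2 / c * c) = 2 := by
        rw [div_mul_cancel₀ _ hc0.ne', Real.exp_log (by norm_num)]
      rw [h5]
      refine h4.trans (le_trans ?_ h2.le)
      rw [Real.rpow_one]
      exact div_le_div_of_nonneg_right hcl hn.le

end Pool.Agent.H1.RO
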