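import Pool.Agent.H1.RO.Rev

/-!
Probability that the random graph is good.
-/

set_option autoImplicit false
set_option linter.unusedSectionVars false

namespace Pool.Agent.H1.RO

open Finset Pool.Agent.H1.CC

variable {n : ℕ}

lemma inv_fact_le {m : ℕ} (hm : 1 ≤ m) : 1 / (m.factorial : ℝ) ≤ Real.exp 1 ^ m / (m:ℝ) ^ m := by
  have h1 := Real.pow_div_factorial_le_exp (m:ℝ) (Nat.cast_nonneg _) m
  have h2 : Real.exp (m:ℝ) = Real.exp 1 ^ m := by rw [← Real.exp_nat_mul]; simp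
  have hm0 : (0:ℝ) < m := by exact_mod_cast hm
  rw [h2] at h1
  rw [le_div_iff₀ (by positivity)]
  calc 1 / (m.factorial : ℝ) * (m:ℝ) ^ m = (m:ℝ) ^ m / m.factorial := by ring
    _ ≤ _ := h1

lemma sparse_term {p c : ℝ} (h0 : 0 ≤ p) (hpc : p * n = c) (hn : 0 < n) (hc : 1 ≤ c) (k : ℕ) :
    ((n.choose k : ℕ) : ℝ) * ((((k.choose 2).choose (k + 1) : ℕ) : ℝ) * p ^ (k + 1)) ≤
      k * (4 * c) ^ (k + 1) / n := by
  have hn0 : (0:ℝ) < n := by exact_mod_cast hn
  rcases Nat.eq_zero_or_pos k with h | h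
  · subst h
    simp
  have hk0 : (0:ℝ) < k := by exact_mod_cast h
  have hp : p = c / n := by rw [← hpc]; field_simp
  have a1 : ((n.choose k : ℕ) : ℝ) ≤ (n:ℝ) ^ k * (Real.exp 1 ^ k / (k:ℝ) ^ k) := by
    have h1 : ((n.choose k : ℕ) : ℝ) ≤ (n:ℝ) ^ k / k.factorial := Nat.choose_le_pow_div k n
    refine h1.trans ?_
    rw [div_eq_mul_one_div]
    exact mul_le_mul_of_nonneg_left (inv_fact_le h) (by positivity)
  have hN : ((k.choose 2 : ℕ) : ℝ) ≤ (k:ℝ) * (k + 1) / 2 := by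
    have h1 : ((k.choose 2 : ℕ) : ℝ) ≤ (k:ℝ) ^ 2 / (2:ℕ).factorial := Nat.choose_le_pow_div 2 k
    have h2 : (((2:ℕ).factorial : ℕ) : ℝ) = 2 := by norm_num [Nat.factorial]
    rw [h2] at h1
    refine h1.trans ?_
    apply div_le_div_of_nonneg_right _ (by norm_num)
    nlinarith
  have a2 : (((k.choose 2).choose (k + 1) : ℕ) : ℝ) ≤ (Real.exp 1 * k / 2) ^ (k + 1) := by
    have h1 : (((k.choose 2).choose (k + 1) : ℕ) : ℝ) ≤
        ((k.choose 2 : ℕ) : ℝ) ^ (k + 1) / (k + 1).factorial := Nat.choose_le_pow_div _ _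
    refine h1.trans ?_
    rw [div_eq_mul_one_div]
    have h2 : ((k.choose 2 : ℕ) : ℝ) ^ (k + 1) ≤ ((k:ℝ) * (k + 1) / 2) ^ (k + 1) :=
      pow_le_pow_left₀ (Nat.cast_nonneg _) hN _
    have h3 := inv_fact_le (m := k + 1) (by omega)
    calc ((k.choose 2 : ℕ) : ℝ) ^ (k + 1) * (1 / ((k + 1).factorial : ℝ)) ≤
        ((k:ℝ) * (k + 1) / 2) ^ (k + 1) * (Real.exp 1 ^ (k + 1) / ((k + 1 : ℕ) : ℝ) ^ (k + 1)) :=
          mul_le_mul h2 h3 (by positivity) (by positivity)
      _ = (Real.exp 1 * k / 2) ^ (k + 1) := by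
          rw [← div_pow, ← mul_pow]
          congr 1
          push_cast
          field_simp
  have he : Real.exp 1 * Real.exp 1 / 2 ≤ 4 := by
    have h1 := Real.exp_one_lt_d9
    have h2 := Real.exp_pos 1
    nlinarith
  have he1 : 1 ≤ Real.exp 1 := Real.one_le_exp (by norm_num)
  calc ((n.choose k : ℕ) : ℝ) * ((((k.choose 2).choose (k + 1) : ℕ) : ℝ) * p ^ (k + 1)) ≤
      ((n:ℝ) ^ k * (Real.exp 1 ^ k / (k:ℝ) ^ k)) * ((Real.exp 1 * k / 2) ^ (k + 1) * p ^ (k + 1)) := by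
        apply mul_le_mul a1 _ (by positivity) (by positivity)
        exact mul_le_mul_of_nonneg_right a2 (by positivity)
    _ = (k / n) * (Real.exp 1 ^ k * Real.exp 1 ^ (k + 1)) * (c / 2) ^ (k + 1) := by
        rw [hp, div_pow, div_pow, div_pow, mul_pow, pow_succ (k:ℝ) k, pow_succ (n:ℝ) k]
        field_simp
    _ ≤ (k / n) * (Real.exp 1 ^ (k + 1) * Real.exp 1 ^ (k + 1)) * (c / 2) ^ (k + 1) := by
        apply mul_le_mul_of_nonneg_right _ (by positivity)
        apply mul_le_mul_of_nonneg_left _ (by positivity)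
        apply mul_le_mul_of_nonneg_right _ (by positivity)
        exact pow_le_pow_right₀ he1 (by omega)
    _ = (k / n) * ((Real.exp 1 * Real.exp 1 / 2) * c) ^ (k + 1) := by
        rw [mul_assoc, ← mul_pow, ← mul_pow]
        congr 2
        ring
    _ ≤ (k / n) * (4 * c) ^ (k + 1) := by
        apply mul_le_mul_of_nonneg_left _ (by positivity)
        apply pow_le_pow_left₀ (by positivity)
        exact mul_le_mul_of_nonneg_right he (by linarith)
    _ = _ := by ring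

open Classical in
lemma prob_sparse {p c : ℝ} (h0 : 0 ≤ p) (h1 : p ≤ 1) (hpc : p * n = c) (hn : 0 < n) (hc : 1 ≤ c)
    (s : ℕ) : Pr p (allE (Fin n)) (fun T => ∃ A : Finset (Fin n), A.card ≤ s ∧
      A.card < (T ∩ ins A).card) ≤ (s + 1) * (s * (4 * c) ^ (s + 1) / n) := by
  have hn0 : (0:ℝ) < n := by exact_mod_cast hn
  have e1 : Pr p (allE (Fin n)) (fun T => ∃ A : Finset (Fin n), A.card ≤ s ∧
      A.card < (T ∩ ins A).card) ≤ Pr p (allE (Fin n)) (fun T => ∃ k ∈ Finset.range (s + 1),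
        ∃ A ∈ (Finset.univ : Finset (Fin n)).powersetCard k,
          ∃ W ∈ (ins A).powersetCard (k + 1), W ⊆ T) := by
    apply Pr_mono h0 h1
    rintro T _ ⟨A, h2, h3⟩
    obtain ⟨W, h4, h5⟩ := Finset.exists_subset_card_eq (show A.card + 1 ≤ (T ∩ ins A).card from h3)
    refine ⟨A.card, Finset.mem_range.2 (by omega), A,
      Finset.mem_powersetCard.2 ⟨Finset.subset_univ _, rfl⟩, W,
      Finset.mem_powersetCard.2 ⟨h4.trans Finset.inter_subset_right, h5⟩,
      h4.trans Finset.inter_subset_left⟩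
  refine e1.trans ((Pr_exists_le h0 h1 _ _).trans ?_)
  have e2 : ∀ k ∈ Finset.range (s + 1), Pr p (allE (Fin n)) (fun T =>
        ∃ A ∈ (Finset.univ : Finset (Fin n)).powersetCard k,
          ∃ W ∈ (ins A).powersetCard (k + 1), W ⊆ T) ≤ s * (4 * c) ^ (s + 1) / n := by
    intro k hk
    have hks : k ≤ s := by have := Finset.mem_range.1 hk; omega
    refine (Pr_exists_le h0 h1 _ _).trans ?_
    have e3 : ∀ A ∈ (Finset.univ : Finset (Fin n)).powersetCard k,
        Pr p (allE (Fin n)) (fun T => ∃ W ∈ (ins A).powersetCard (k + 1), W ⊆ T) ≤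
          (((k.choose 2).choose (k + 1) : ℕ) : ℝ) * p ^ (k + 1) := by
      intro A hA
      refine (Pr_exists_le h0 h1 _ _).trans ?_
      have e4 : ∀ W ∈ (ins A).powersetCard (k + 1),
          Pr p (allE (Fin n)) (fun T => W ⊆ T) = p ^ (k + 1) := by
        intro W hW
        rw [Finset.mem_powersetCard] at hW
        have := Ex_subset (p := p) (S := allE (Fin n)) (F := W)
          (hW.1.trans (ins_subset_allE A))
        rw [hW.2] at this
        exact this
      rw [Finset.sum_congr rfl e4, Finset.sum_const, nsmul_eq_mul, Finset.card_powersetCard,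
        card_ins, (Finset.mem_powersetCard.1 hA).2]
    refine (Finset.sum_le_sum e3).trans ?_
    rw [Finset.sum_const, nsmul_eq_mul, Finset.card_powersetCard, Finset.card_univ,
      Fintype.card_fin]
    refine (sparse_term h0 hpc hn hc k).trans ?_
    apply div_le_div_of_nonneg_right _ hn0.le
    apply mul_le_mul (by exact_mod_cast hks) _ (by positivity) (by positivity)
    exact pow_le_pow_right₀ (by linarith) (by omega)
  refine (Finset.sum_le_sum e2).trans ?_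
  rw [Finset.sum_const, nsmul_eq_mul, Finset.card_range]
  push_cast
  exact le_rfl

lemma prob_path {p c : ℝ} (h0 : 0 ≤ p) (h1 : p ≤ 1 / 2) (hpc : p * n = c) (h : ℕ) :
    Pr p (allE (Fin n)) (fun T => ∃ u v A, PS rkU T (h + 1) u v A) ≤
      n * (c ^ (h + 1) / (h + 1).factorial) := by
  have hp1 : p ≤ 1 := by linarith
  have e1 : Pr p (allE (Fin n)) (fun T => ∃ u v A, PS rkU T (h + 1) u v A) ≤
      Pr p (allE (Fin n)) (fun T => ∃ u ∈ (Finset.univ : Finset (Fin n)),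
        PP rkU (h + 1) (fun _ _ _ => True) u {u} T) := by
    apply Pr_mono h0 hp1
    rintro T _ ⟨u, v, A, h2⟩
    refine ⟨u, Finset.mem_univ u, ?_⟩
    have i0 : ∀ (u : Fin n) (V : Finset (Fin n)),
        Inc ((fun _ _ _ => True : Fin n → Finset (Fin n) → Finset (Sym2 (Fin n)) → Prop) u V) :=
      fun _ _ _ _ _ _ => trivial
    have h3 := PP_of_PS i0 h2 (V := {u}) (T' := ∅) (Finset.mem_singleton_self _) trivial
      (Finset.disjoint_empty_right _)
    refine PP_inc i0 u {u} ?_ h3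
    rw [Finset.union_empty]
    exact Finset.inter_subset_left
  refine e1.trans ((Pr_exists_le h0 hp1 _ _).trans ?_)
  have e2 : ∀ u ∈ (Finset.univ : Finset (Fin n)), Pr p (allE (Fin n))
      (PP rkU (h + 1) (fun _ _ _ => True) u {u}) ≤ c ^ (h + 1) / (h + 1).factorial := by
    intro u _
    refine (PP_bound h0 h1 rkU_inj (X := fun _ _ _ => True) (fun _ _ _ _ _ _ => trivial)
      (ξ := 1) (B := 1) (by norm_num) le_rfl (by
        intro u V
        rw [one_pow, mul_one]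
        exact Pr_le_one h0 hp1 _) (h + 1) u {u}).trans ?_
    rw [one_pow, mul_one, mul_one]
    have h2 : (((rkU u).choose (h + 1) : ℕ) : ℝ) ≤ (rkU u : ℝ) ^ (h + 1) / (h + 1).factorial :=
      Nat.choose_le_pow_div (h + 1) (rkU u)
    have h3 : (rkU u : ℝ) ^ (h + 1) ≤ (n:ℝ) ^ (h + 1) :=
      pow_le_pow_left₀ (Nat.cast_nonneg _) (by exact_mod_cast rkU_le u) _
    calc (((rkU u).choose (h + 1) : ℕ) : ℝ) * p ^ (h + 1) ≤
        ((n:ℝ) ^ (h + 1) / (h + 1).factorial) * p ^ (h + 1) := by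
          apply mul_le_mul_of_nonneg_right _ (by positivity)
          exact h2.trans (div_le_div_of_nonneg_right h3 (Nat.cast_nonneg _))
      _ = c ^ (h + 1) / (h + 1).factorial := by rw [← hpc, mul_pow]; ring
  refine (Finset.sum_le_sum e2).trans ?_
  rw [Finset.sum_const, nsmul_eq_mul, Finset.card_univ, Fintype.card_fin]

lemma prob_chain {p c z : ℝ} (h0 : 0 ≤ p) (h1 : p ≤ 1 / 2) (hpc : p * n = c) (hz : 1 ≤ z)
    {M j : ℕ} (hM : 1 ≤ M)
    (hθ : RR c M j * Real.exp (5 * (c * z * Real.exp 1)) * Real.exp 1 ≤ 1) (d : ℕ) :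
    Pr p (allE (Fin n)) (fun T => ∃ q ∈ Finset.range (n + 1), ∃ a : Fin n, CH M n q d a T) ≤
      (n + 1) * (n * z⁻¹ ^ d) := by
  have hp1 : p ≤ 1 := by linarith
  refine (Pr_exists_le h0 hp1 _ _).trans ?_
  have e1 : ∀ q ∈ Finset.range (n + 1), Pr p (allE (Fin n)) (fun T => ∃ a : Fin n,
      CH M n q d a T) ≤ n * z⁻¹ ^ d := by
    intro q _
    have e2 : Pr p (allE (Fin n)) (fun T => ∃ a : Fin n, CH M n q d a T) ≤
        Pr p (allE (Fin n)) (fun T => ∃ a ∈ (Finset.univ : Finset (Fin n)), CH M n q d a T) := by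
      apply Pr_mono h0 hp1
      rintro T _ ⟨a, ha⟩
      exact ⟨a, Finset.mem_univ a, ha⟩
    refine e2.trans ((Pr_exists_le h0 hp1 _ _).trans ?_)
    have e3 : ∀ a ∈ (Finset.univ : Finset (Fin n)), Pr p (allE (Fin n)) (CH M n q d a) ≤
        z⁻¹ ^ d := by
      intro a _
      have := CH_bound (N := n) h0 h1 hpc hz hM hθ q d a
      rwa [one_pow, one_mul] at this
    refine (Finset.sum_le_sum e3).trans ?_
    rw [Finset.sum_const, nsmul_eq_mul, Finset.card_univ, Fintype.card_fin]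
  refine (Finset.sum_le_sum e1).trans ?_
  rw [Finset.sum_const, nsmul_eq_mul, Finset.card_range]
  push_cast
  exact le_rfl

/-- the error term -/
noncomputable def errG (n : ℕ) (c z : ℝ) (d h s : ℕ) : ℝ :=
  n * (c ^ (h + 1) / (h + 1).factorial) + (n + 1) * (n * z⁻¹ ^ d) +
    (s + 1) * (s * (4 * c) ^ (s + 1) / n)

theorem prob_good {p c z : ℝ} (h0 : 0 ≤ p) (h1 : p ≤ 1 / 2) (hpc : p * n = c) (hn : 0 < n)
    (hc : 1 ≤ c) (hz : 1 ≤ z) {M j : ℕ} (hM : 1 ≤ M)
    (hθ : RR c M j * Real.exp (5 * (c * z * Real.exp 1)) * Real.exp 1 ≤ 1) (d h s : ℕ) :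
    Pr p (allE (Fin n)) (fun T => ¬ GoodT T M d h s) ≤ errG n c z d h s := by
  classical
  have hp1 : p ≤ 1 := by linarith
  have e1 : Pr p (allE (Fin n)) (fun T => ¬ GoodT T M d h s) ≤
      Pr p (allE (Fin n)) (fun T => ((∃ u v A, PS rkU T (h + 1) u v A) ∨
        (∃ q ∈ Finset.range (n + 1), ∃ a : Fin n, CH M n q d a T)) ∨
        (∃ A : Finset (Fin n), A.card ≤ s ∧ A.card < (T ∩ ins A).card)) := by
    apply Pr_mono h0 hp1
    intro T _ hT
    by_contra hcon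
    push Not at hcon
    obtain ⟨⟨k1, k2⟩, k3⟩ := hcon
    exact hT ⟨k1, k2, k3⟩
  refine e1.trans ((Pr_or_le h0 hp1 _ _).trans ?_)
  unfold errG
  apply add_le_add _ (prob_sparse h0 hp1 hpc hn hc s)
  refine (Pr_or_le h0 hp1 _ _).trans ?_
  exact add_le_add (prob_path h0 h1 hpc h) (prob_chain h0 h1 hpc hz hM hθ d)

/-- the realiser, with the error -/
theorem prob_has {p c z : ℝ} (h0 : 0 ≤ p) (h1 : p ≤ 1 / 2) (hpc : p * n = c) (hn : 0 < n)
    (hc : 1 ≤ c) (hz : 1 ≤ z) {M j : ℕ} (hM : 1 ≤ M)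
    (hθ : RR c M j * Real.exp (5 * (c * z * Real.exp 1)) * Real.exp 1 ≤ 1) {d h s : ℕ}
    (hs : 4 * (d + 5 * h + 1) ≤ s) {b r t : ℕ} (hr : 1 ≤ r)
    (hb : 4 * M ^ (r + 3) ≤ 2 ^ (b * r))
    (ht : (1 - 1 / (3 * ((r:ℝ) + 1))) ^ t * (((M * M + 1) * (M * M + 2) ^ r : ℕ) : ℝ) < 1)
    {y : ℝ} (hy : ((20 + 2 ^ b * (t * 2) : ℕ) : ℝ) ≤ y) :
    Pr p (allE (Fin n)) (fun T => ¬ Has T y) ≤ 2 * errG n c z d h s := by
  have hp1 : p ≤ 1 := by linarith
  have e1 : Pr p (allE (Fin n)) (fun T => ¬ Has T y) ≤ Pr p (allE (Fin n)) (fun T =>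
      ¬ GoodT T M d h s ∨ ¬ GoodT (rvT T) M d h s) := by
    apply Pr_mono h0 hp1
    intro T _ hT
    by_contra hcon
    push Not at hcon
    apply hT
    obtain ⟨k, h2, h3⟩ := has_of_good hcon.1 hcon.2 hs hM hr hb ht
    exact ⟨k, h2.trans hy, h3⟩
  refine e1.trans ((Pr_or_le h0 hp1 _ _).trans ?_)
  have e2 := prob_good h0 h1 hpc hn hc hz hM hθ d h s
  have e3 := Pr_rev p (fun T : Finset (Sym2 (Fin n)) => ¬ GoodT T M d h s)
  rw [e3]
  linarith

end Pool.Agent.H1.RO
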