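import Pool.Agent.H1.RO.Expand

/-!
Growth of the set of reachable vertices through a sequence of windows.
-/

set_option autoImplicit false
set_option linter.unusedSectionVars false

namespace Pool.Agent.H1.RO

open Finset Pool.Agent.H1.CC

variable {V : Type*} [DecidableEq V] [Fintype V]

/-- reachable set after the first `i` windows -/
def grow (T : Finset (Sym2 V)) (W : ℕ → Finset V) (S : Finset V) : ℕ → Finset V
  | 0 => S
  | i + 1 => grow T W S i ∪ nnb T (grow T W S i) (W i)

/-- the base set and the first `i` windows -/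
def upto (U : Finset V) (W : ℕ → Finset V) (i : ℕ) : Finset V := U ∪ (Finset.range i).biUnion W

/-- two steps -/
def ts (T : Finset (Sym2 V)) (A W1 W2 : Finset V) : Finset V := nnb T (nnb T A W1) W2

lemma upto_succ (U : Finset V) (W : ℕ → Finset V) (i : ℕ) :
    upto U W (i + 1) = upto U W i ∪ W i := by
  unfold upto
  rw [Finset.range_add_one, Finset.biUnion_insert]
  ext x
  simp only [Finset.mem_union]
  tauto

lemma grow_subset {T : Finset (Sym2 V)} {W : ℕ → Finset V} {S U : Finset V} (h : S ⊆ U) (i : ℕ) :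
    grow T W S i ⊆ upto U W i := by
  induction i with
  | zero =>
    intro x hx
    exact Finset.mem_union_left _ (h hx)
  | succ i ih =>
    rw [upto_succ]
    exact Finset.union_subset_union ih (nnb_subset _ _ _)

lemma grow_mono_step {T : Finset (Sym2 V)} {W : ℕ → Finset V} {S : Finset V} (i : ℕ) :
    grow T W S i ⊆ grow T W S (i + 1) := Finset.subset_union_left

lemma grow_mono {T : Finset (Sym2 V)} {W : ℕ → Finset V} {S : Finset V} {i j : ℕ} (h : i ≤ j) :
    grow T W S i ⊆ grow T W S j := by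
  induction h with
  | refl => exact Finset.Subset.refl _
  | step _ ih => exact ih.trans (grow_mono_step _)

lemma nnb_inter {T F : Finset (Sym2 V)} {G W : Finset V}
    (h : ∀ v ∈ W, ∀ u ∈ G, s(v, u) ∈ F) : nnb (T ∩ F) G W = nnb T G W := by
  ext v
  rw [mem_nnb, mem_nnb]
  constructor
  · rintro ⟨h1, u, hu, h2⟩
    exact ⟨h1, u, hu, (Finset.mem_inter.1 h2).1⟩
  · rintro ⟨h1, u, hu, h2⟩
    exact ⟨h1, u, hu, Finset.mem_inter.2 ⟨h2, h v h1 u hu⟩⟩

lemma ts_subset {T : Finset (Sym2 V)} {A W1 W2 : Finset V} : ts T A W1 W2 ⊆ W2 := nnb_subset _ _ _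

lemma ts_inter {T F : Finset (Sym2 V)} {A W0 W1 W2 : Finset V} (hA : A ⊆ W0)
    (h01 : Disjoint W0 W1) (h12 : Disjoint W1 W2) (hF : ins (W0 ∪ W1 ∪ W2) ⊆ F) :
    ts (T ∩ F) A W1 W2 = ts T A W1 W2 := by
  unfold ts
  have h1 : nnb (T ∩ F) A W1 = nnb T A W1 := by
    apply nnb_inter
    intro v hv u hu
    apply hF
    rw [mem_ins]
    refine ⟨?_, ?_, ?_⟩
    · simp [hv]
    · simp [hA hu]
    · rintro rfl
      exact Finset.disjoint_left.1 h01 (hA hu) hv
  rw [h1]
  apply nnb_inter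
  intro v hv u hu
  have hu' : u ∈ W1 := nnb_subset _ _ _ hu
  apply hF
  rw [mem_ins]
  refine ⟨?_, ?_, ?_⟩
  · simp [hv]
  · simp [hu']
  · rintro rfl
    exact Finset.disjoint_left.1 h12 hu' hv

lemma grow_inter {T F : Finset (Sym2 V)} {W : ℕ → Finset V} {S U : Finset V} (hS : S ⊆ U) (i : ℕ)
    (hd : ∀ j < i, Disjoint (upto U W j) (W j)) (hF : ins (upto U W i) ⊆ F) :
    grow (T ∩ F) W S i = grow T W S i := by
  induction i with
  | zero => rfl
  | succ i ih =>
    have hsub : ins (upto U W i) ⊆ ins (upto U W (i + 1)) := by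
      apply ins_mono
      rw [upto_succ]
      exact Finset.subset_union_left
    have ih' := ih (fun j hj => hd j (by omega)) (hsub.trans hF)
    show grow (T ∩ F) W S i ∪ nnb (T ∩ F) (grow (T ∩ F) W S i) (W i) = _
    rw [ih']
    have : nnb (T ∩ F) (grow T W S i) (W i) = nnb T (grow T W S i) (W i) := by
      apply nnb_inter
      intro v hv u hu
      have hu' := grow_subset (T := T) (W := W) hS i hu
      apply hF
      rw [mem_ins, upto_succ]
      refine ⟨Finset.mem_union_right _ hv, Finset.mem_union_left _ hu', ?_⟩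
      rintro rfl
      exact Finset.disjoint_left.1 (hd i (by omega)) hu' hv
    rw [this]
    rfl

lemma prob_grow_one {p : ℝ} (h0 : 0 < p) (h1 : p ≤ 1) {W : ℕ → Finset V} {A W0 W1 W2 : Finset V}
    (hA : A ⊆ W0) (h01 : Disjoint W0 W1) (h12 : Disjoint W1 W2) {i : ℕ}
    (hd : ∀ j ≤ i, Disjoint (upto (W0 ∪ W1 ∪ W2) W j) (W j)) {e : ℝ} (he0 : 0 < e) (he1 : e ≤ 1)
    {s' : ℝ} (hs' : 0 ≤ s') :
    Pr p (allE V) (fun T => s' ≤ ((grow T W (ts T A W1 W2) i).card : ℝ) ∧
      ((nnb T (grow T W (ts T A W1 W2) i) (W i)).card : ℝ) <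
        (1 - e) * (W i).card * min (p * ((grow T W (ts T A W1 W2) i).card : ℝ)) e) ≤
      Real.exp (-(e ^ 2 / 8 * ((W i).card * min (p * s') e))) := by
  set U := upto (W0 ∪ W1 ∪ W2) W i with hU
  have hts : ∀ T : Finset (Sym2 V), ts T A W1 W2 ⊆ W0 ∪ W1 ∪ W2 := fun T =>
    ts_subset.trans Finset.subset_union_right
  have step1 : Pr p (allE V) (fun T => s' ≤ ((grow T W (ts T A W1 W2) i).card : ℝ) ∧
      ((nnb T (grow T W (ts T A W1 W2) i) (W i)).card : ℝ) <
        (1 - e) * (W i).card * min (p * ((grow T W (ts T A W1 W2) i).card : ℝ)) e) ≤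
      Pr p (allE V) (fun T => (s' ≤ ((grow T W (ts T A W1 W2) i).card : ℝ) ∧
        grow T W (ts T A W1 W2) i ⊆ U) ∧
      ((nnb T (grow T W (ts T A W1 W2) i) (W i)).card : ℝ) <
        (1 - e) * (W i).card * min (p * ((grow T W (ts T A W1 W2) i).card : ℝ)) e) := by
    apply Pr_mono h0.le h1
    rintro T _ ⟨h2, h3⟩
    exact ⟨⟨h2, grow_subset (hts T) i⟩, h3⟩
  refine step1.trans ?_
  have hUW : Disjoint U (W i) := hd i le_rfl
  apply Pr_fresh h0.le h1 (A := ins U) (B := btw (W i) U) (ins_subset_allE U)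
    (btw_subset_allE hUW.symm) ?_ (fun T => grow T W (ts T A W1 W2) i) ?_
    (fun x T => ((nnb T x (W i)).card : ℝ) < (1 - e) * (W i).card * min (p * (x.card : ℝ)) e)
    (fun x => s' ≤ (x.card : ℝ) ∧ x ⊆ U) ?_ (Real.exp_pos _).le
  · rintro x ⟨hx1, hx2⟩
    have hxW : Disjoint x (W i) := Finset.disjoint_of_subset_left hx2 hUW
    have hm0 : 0 ≤ min (p * (x.card : ℝ)) e := le_min (by positivity) he0.le
    refine (prob_nnb h0.le h1 hxW he0 he1 hm0 (min_le_right _ _) (min_le_left _ _)).trans ?_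
    apply Real.exp_le_exp.2
    have h2 : min (p * s') e ≤ min (p * (x.card : ℝ)) e :=
      min_le_min_right _ (mul_le_mul_of_nonneg_left hx1 h0.le)
    have h3 : (0:ℝ) ≤ (W i).card := Nat.cast_nonneg _
    have h4 := mul_le_mul_of_nonneg_left h2 h3
    have h5 : 0 ≤ e ^ 2 / 8 := by positivity
    have := mul_le_mul_of_nonneg_left h4 h5
    linarith
  · rw [Finset.disjoint_left]
    intro f hf hf'
    obtain ⟨v, hv, u, hu, rfl⟩ := mem_btw.1 hf'
    exact Finset.disjoint_left.1 hUW (mem_ins.1 hf).1 hv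
  · intro T
    have hF : ins (W0 ∪ W1 ∪ W2) ⊆ ins U := ins_mono Finset.subset_union_left
    have e1 : ts (T ∩ ins U) A W1 W2 = ts T A W1 W2 := ts_inter hA h01 h12 hF
    show grow T W (ts T A W1 W2) i = grow (T ∩ ins U) W (ts (T ∩ ins U) A W1 W2) i
    rw [e1]
    exact (grow_inter (hts T) i (fun j hj => hd j hj.le) (Finset.Subset.refl _)).symm
  · rintro x ⟨_, hx2⟩ T
    have e1 : nnb (T ∩ btw (W i) U) x (W i) = nnb T x (W i) := by
      apply nnb_inter
      intro v hv u hu
      exact mem_btw.2 ⟨v, hv, u, hx2 hu, rfl⟩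
    simp only [e1]

/-- the growth property for all starting sets -/
def GRp (T : Finset (Sym2 V)) (W0 W1 W2 : Finset V) (W : ℕ → Finset V) (m : ℕ)
    (p e K σ s1 : ℝ) : Prop :=
  ∀ A ⊆ W0, σ ≤ A.card → (A.card : ℝ) ≤ s1 → ∀ i < m,
    K * A.card ≤ ((grow T W (ts T A W1 W2) i).card : ℝ) →
      (1 - e) * (W i).card * min (p * ((grow T W (ts T A W1 W2) i).card : ℝ)) e ≤
        ((nnb T (grow T W (ts T A W1 W2) i) (W i)).card : ℝ)

lemma prob_GR {p : ℝ} (h0 : 0 < p) (h1 : p ≤ 1) {W : ℕ → Finset V} {W0 W1 W2 : Finset V}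
    (h01 : Disjoint W0 W1) (h12 : Disjoint W1 W2) {m w : ℕ}
    (hd : ∀ j < m, Disjoint (upto (W0 ∪ W1 ∪ W2) W j) (W j)) (hw : ∀ j < m, (W j).card = w)
    {e : ℝ} (he0 : 0 < e) (he1 : e ≤ 1) {K σ s1 c : ℝ} (hK : 0 ≤ K) (hσ : 1 ≤ σ) (hc : 1 ≤ c)
    (hσc : Real.log (Fintype.card V / σ) ≤ c) (hpK : p * (K * s1) ≤ e)
    (hmain : 4 * c ≤ e ^ 2 / 8 * (w * (p * K))) :
    Pr p (allE V) (fun T => ¬ GRp T W0 W1 W2 W m p e K σ s1) ≤
      (Fintype.card V + 1) * (m * Real.exp (-(2 * σ))) := by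
  classical
  set n := Fintype.card V with hnV
  set I : Finset ℕ := (Finset.range (n + 1)).filter fun s => σ ≤ s ∧ (s:ℝ) ≤ s1 with hI
  have step1 : Pr p (allE V) (fun T => ¬ GRp T W0 W1 W2 W m p e K σ s1) ≤
      Pr p (allE V) (fun T => ∃ s ∈ I, ∃ x ∈ (W0.powersetCard s ×ˢ Finset.range m :
        Finset (Finset V × ℕ)),
        K * s ≤ ((grow T W (ts T x.1 W1 W2) x.2).card : ℝ) ∧
      ((nnb T (grow T W (ts T x.1 W1 W2) x.2) (W x.2)).card : ℝ) <
        (1 - e) * (W x.2).card * min (p * ((grow T W (ts T x.1 W1 W2) x.2).card : ℝ)) e) := by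
    apply Pr_mono h0.le h1
    intro T _ h
    unfold GRp at h
    push Not at h
    obtain ⟨A, hA, hA1, hA2, i, hi, h2, h3⟩ := h
    have hAn : A.card ≤ n := Finset.card_le_univ A
    refine ⟨A.card, Finset.mem_filter.2 ⟨Finset.mem_range.2 (by omega), hA1, hA2⟩, (A, i), ?_, h2, h3⟩
    rw [Finset.mem_product, Finset.mem_powersetCard]
    exact ⟨⟨hA, rfl⟩, Finset.mem_range.2 hi⟩
  refine step1.trans ((Pr_exists_le h0.le h1 _ _).trans ?_)
  have step2 : ∀ s ∈ I, Pr p (allE V) (fun T => ∃ x ∈ (W0.powersetCard s ×ˢ Finset.range m :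
        Finset (Finset V × ℕ)),
        K * s ≤ ((grow T W (ts T x.1 W1 W2) x.2).card : ℝ) ∧
      ((nnb T (grow T W (ts T x.1 W1 W2) x.2) (W x.2)).card : ℝ) <
        (1 - e) * (W x.2).card * min (p * ((grow T W (ts T x.1 W1 W2) x.2).card : ℝ)) e) ≤
      m * Real.exp (-(2 * σ)) := by
    intro s hs
    rw [hI, Finset.mem_filter, Finset.mem_range] at hs
    obtain ⟨hs1', hs2, hs3⟩ := hs
    have hsR : (1:ℝ) ≤ s := hσ.trans hs2
    have hsN : 1 ≤ s := by exact_mod_cast hsR
    have hsn : s ≤ n := by omega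
    have hn' : (0:ℝ) < n := by
      have : 0 < n := by omega
      exact_mod_cast this
    refine (Pr_exists_le h0.le h1 _ _).trans ?_
    have hmin : min (p * (K * s)) e = p * (K * s) := by
      apply min_eq_left
      refine le_trans ?_ hpK
      gcongr
    have step3 : ∀ x ∈ (W0.powersetCard s ×ˢ Finset.range m : Finset (Finset V × ℕ)),
        Pr p (allE V) (fun T => K * s ≤ ((grow T W (ts T x.1 W1 W2) x.2).card : ℝ) ∧
      ((nnb T (grow T W (ts T x.1 W1 W2) x.2) (W x.2)).card : ℝ) <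
        (1 - e) * (W x.2).card * min (p * ((grow T W (ts T x.1 W1 W2) x.2).card : ℝ)) e) ≤
        Real.exp (-(4 * c * s)) := by
      intro x hx
      rw [Finset.mem_product, Finset.mem_powersetCard, Finset.mem_range] at hx
      refine (prob_grow_one h0 h1 hx.1.1 h01 h12 (fun j hj => hd j (by omega)) he0 he1
        (by positivity)).trans ?_
      apply Real.exp_le_exp.2
      rw [hmin, hw _ hx.2]
      have := mul_le_mul_of_nonneg_right hmain (by linarith : (0:ℝ) ≤ s)
      nlinarith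
    refine (Finset.sum_le_sum step3).trans ?_
    rw [Finset.sum_const, nsmul_eq_mul, Finset.card_product, Finset.card_powersetCard,
      Finset.card_range, Nat.cast_mul]
    have c1 : ((W0.card.choose s : ℕ) : ℝ) ≤ Real.exp (s * (1 + c)) := by
      have h2 : W0.card.choose s ≤ n.choose s := Nat.choose_le_choose s (Finset.card_le_univ W0)
      have h3 := choose_le_exp hsN hsn
      have h4 : Real.log (n / s) ≤ c := by
        refine le_trans ?_ hσc
        apply Real.log_le_log (by positivity)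
        exact div_le_div_of_nonneg_left hn'.le (by linarith) hs2
      calc ((W0.card.choose s : ℕ) : ℝ) ≤ ((n.choose s : ℕ) : ℝ) := by exact_mod_cast h2
        _ ≤ _ := h3
        _ ≤ _ := Real.exp_le_exp.2 (mul_le_mul_of_nonneg_left (by linarith) (by linarith))
    calc ((W0.card.choose s : ℕ) : ℝ) * m * Real.exp (-(4 * c * s)) ≤
        Real.exp (s * (1 + c)) * m * Real.exp (-(4 * c * s)) := by gcongr
      _ = m * Real.exp (s * (1 + c) - 4 * c * s) := by
          rw [sub_eq_add_neg, Real.exp_add]; ring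
      _ ≤ m * Real.exp (-(2 * σ)) := by
          apply mul_le_mul_of_nonneg_left _ (Nat.cast_nonneg _)
          apply Real.exp_le_exp.2
          nlinarith
  refine (Finset.sum_le_sum step2).trans ?_
  rw [Finset.sum_const, nsmul_eq_mul]
  apply mul_le_mul_of_nonneg_right _ (by positivity)
  have : I.card ≤ n + 1 := by
    refine (Finset.card_filter_le _ _).trans ?_
    rw [Finset.card_range]
  exact_mod_cast this

/-- real recursion -/
lemma rec_large {g : ℕ → ℝ} {a τ s : ℝ} {m i1 i2 : ℕ} (ha : 0 ≤ a) (hτ : 0 ≤ τ) (hs : 0 ≤ s)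
    (hg0 : s ≤ g 0) (hg : ∀ i < m, s ≤ g i → g i + a * min (g i) τ ≤ g (i + 1))
    (h1 : τ ≤ (1 + a) ^ i1 * s) (hm : i1 + i2 ≤ m) :
    τ + i2 * (a * τ) ≤ g (i1 + i2) := by
  have k1 : ∀ i ≤ m, s ≤ g i := by
    intro i
    induction i with
    | zero => exact fun _ => hg0
    | succ i ih =>
      intro hi
      have h2 := ih (by omega)
      have h3 := hg i (by omega) h2
      have h4 : 0 ≤ min (g i) τ := le_min (hs.trans h2) hτ
      nlinarith
  have k2 : ∀ i ≤ m, min τ ((1 + a) ^ i * s) ≤ g i := by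
    intro i
    induction i with
    | zero => intro _; rw [pow_zero, one_mul]; exact (min_le_right _ _).trans hg0
    | succ i ih =>
      intro hi
      have h2 := ih (by omega)
      have h3 := hg i (by omega) (k1 i (by omega))
      rcases le_or_gt (g i) τ with h4 | h4
      · rw [min_eq_left h4] at h3
        rcases le_or_gt τ ((1 + a) ^ i * s) with h5 | h5
        · rw [min_eq_left h5] at h2
          have h6 := k1 i (by omega)
          have : g i ≤ g (i + 1) := by nlinarith [hs.trans h6]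
          exact (min_le_left _ _).trans (h2.trans this)
        · rw [min_eq_right h5.le] at h2
          refine (min_le_right _ _).trans ?_
          calc (1 + a) ^ (i + 1) * s = (1 + a) * ((1 + a) ^ i * s) := by ring
            _ ≤ (1 + a) * g i := mul_le_mul_of_nonneg_left h2 (by linarith)
            _ = g i + a * g i := by ring
            _ ≤ _ := h3
      · rw [min_eq_right h4.le] at h3
        refine (min_le_left _ _).trans ?_
        nlinarith [mul_nonneg ha hτ]
  have k3 : ∀ j, i1 + j ≤ m → τ + j * (a * τ) ≤ g (i1 + j) := by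
    intro j
    induction j with
    | zero =>
      intro hj
      have h2 := k2 i1 (by omega)
      rw [min_eq_left h1] at h2
      simpa using h2
    | succ j ih =>
      intro hj
      have h2 := ih (by omega)
      have h3 := hg (i1 + j) (by omega) (k1 _ (by omega))
      have h5 : 0 ≤ (j:ℝ) * (a * τ) := by positivity
      have h4 : τ ≤ g (i1 + j) := by linarith
      rw [min_eq_right h4] at h3
      have h6 : i1 + (j + 1) = i1 + j + 1 := by ring
      rw [h6]
      push_cast
      linarith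
  exact k3 i2 hm

/-- all starting sets with many second neighbours grow to a large set -/
lemma grow_large {T : Finset (Sym2 V)} {W0 W1 W2 : Finset V} {W : ℕ → Finset V} {m w : ℕ}
    {p e K σ s1 : ℝ} (hp : 0 < p) (he0 : 0 < e) (he1 : e ≤ 1) (hK : 1 ≤ K)
    (hd : ∀ j < m, Disjoint (upto (W0 ∪ W1 ∪ W2) W j) (W j)) (hw : ∀ j < m, (W j).card = w)
    (hGR : GRp T W0 W1 W2 W m p e K σ s1) {A : Finset V} (hA : A ⊆ W0) (hσA : σ ≤ A.card)
    (hAs : (A.card : ℝ) ≤ s1) (hts : K * A.card ≤ ((ts T A W1 W2).card : ℝ)) {i1 i2 : ℕ}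
    (h1 : e / p ≤ (1 + (1 - e) * w * p) ^ i1 * A.card) (hm : i1 + i2 ≤ m) :
    e / p + i2 * ((1 - e) * w * e) ≤ ((grow T W (ts T A W1 W2) (i1 + i2)).card : ℝ) := by
  set g : ℕ → ℝ := fun i => ((grow T W (ts T A W1 W2) i).card : ℝ) with hg
  have hA0 : (0:ℝ) ≤ A.card := Nat.cast_nonneg _
  have hKA : (A.card:ℝ) ≤ K * A.card := by nlinarith
  have hstep : ∀ i < m, K * A.card ≤ g i →
      g i + (1 - e) * w * p * min (g i) (e / p) ≤ g (i + 1) := by
    intro i hi hgi
    have h2 := hGR A hA hσA hAs i hi hgi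
    have hdis : Disjoint (grow T W (ts T A W1 W2) i) (nnb T (grow T W (ts T A W1 W2) i) (W i)) := by
      apply Finset.disjoint_of_subset_left (grow_subset
        (ts_subset.trans Finset.subset_union_right : ts T A W1 W2 ⊆ W0 ∪ W1 ∪ W2) i)
      exact Finset.disjoint_of_subset_right (nnb_subset _ _ _) (hd i hi)
    have h3 : g (i + 1) = g i + ((nnb T (grow T W (ts T A W1 W2) i) (W i)).card : ℝ) := by
      show ((grow T W (ts T A W1 W2) i ∪ nnb T (grow T W (ts T A W1 W2) i) (W i)).card : ℝ) = _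
      rw [Finset.card_union_of_disjoint hdis]
      push_cast
      rfl
    rw [h3, hw i hi] at *
    have h4 : min (p * g i) e = p * min (g i) (e / p) := by
      rw [mul_min_of_nonneg _ _ hp.le]
      congr 1
      field_simp
    have h5 : (1 - e) * w * min (p * g i) e = (1 - e) * w * p * min (g i) (e / p) := by
      rw [h4]; ring
    have h6 : (1 - e) * w * min (p * g i) e ≤ ((nnb T (grow T W (ts T A W1 W2) i) (W i)).card : ℝ) := h2
    rw [h5] at h6
    linarith
  have ha : 0 ≤ (1 - e) * w * p := by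
    have : 0 ≤ 1 - e := by linarith
    positivity
  have hτ : 0 ≤ e / p := by positivity
  have key := rec_large (g := g) (a := (1 - e) * w * p) (τ := e / p) (s := K * A.card) (m := m)
    (i1 := i1) (i2 := i2) ha hτ (by positivity) hts hstep
    (h1.trans (mul_le_mul_of_nonneg_left hKA (by positivity))) hm
  have e1 : (1 - e) * w * p * (e / p) = (1 - e) * w * e := by field_simp
  rw [e1] at key
  exact key

/-- every reached vertex is reached from the starting set -/
lemma grow_conn {T : Finset (Sym2 V)} {W0 W1 W2 : Finset V} {W : ℕ → Finset V} {m : ℕ}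
    {R : V → V → Prop} (hR : ∀ a b c, R a b → R b c → R a c)
    (h01 : ∀ u ∈ W0, ∀ v ∈ W1, s(v, u) ∈ T → R u v)
    (h12 : ∀ u ∈ W1, ∀ v ∈ W2, s(v, u) ∈ T → R u v)
    (hW : ∀ i < m, ∀ u ∈ upto (W0 ∪ W1 ∪ W2) W i, ∀ v ∈ W i, s(v, u) ∈ T → R u v)
    {A : Finset V} (hA : A ⊆ W0) {i : ℕ} (hi : i ≤ m) :
    ∀ v ∈ grow T W (ts T A W1 W2) i, ∃ a ∈ A, R a v := by
  induction i with
  | zero =>
    intro v hv
    have hv' : v ∈ ts T A W1 W2 := hv
    unfold ts at hv'
    obtain ⟨hv2, u, hu, huv⟩ := mem_nnb.1 hv'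
    obtain ⟨hu1, a, ha, hau⟩ := mem_nnb.1 hu
    exact ⟨a, ha, hR _ _ _ (h01 a (hA ha) u hu1 hau) (h12 u hu1 v hv2 huv)⟩
  | succ i ih =>
    intro v hv
    have hv' : v ∈ grow T W (ts T A W1 W2) i ∪ nnb T (grow T W (ts T A W1 W2) i) (W i) := hv
    rw [Finset.mem_union] at hv'
    rcases hv' with h | h
    · exact ih (by omega) v h
    · obtain ⟨hv2, u, hu, huv⟩ := mem_nnb.1 h
      obtain ⟨a, ha, hau⟩ := ih (by omega) u hu
      have hu' := grow_subset (T := T) (W := W)
        (ts_subset.trans Finset.subset_union_right : ts T A W1 W2 ⊆ W0 ∪ W1 ∪ W2) i hu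
      exact ⟨a, ha, hR _ _ _ hau (hW i (by omega) u hu' v hv2 huv)⟩

end Pool.Agent.H1.RO
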