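import Pool.Agent.H1.RO.Path

/-!
Lower bound, deterministic assembly: no large comparability-free rectangles.
-/

set_option autoImplicit false
set_option linter.unusedSectionVars false

namespace Pool.Agent.H1.RO

open Finset Pool.Agent.H1.CC

variable {n : ℕ}

/-- windows of the upward growth -/
def Wu (n w g : ℕ) (i : ℕ) : Finset (Fin n) := blk n w (4 * g + i) (4 * g + i + 1)

/-- windows of the downward growth -/
def Wd (n w g m : ℕ) (i : ℕ) : Finset (Fin n) := blk n w (m - 4 * g - i - 1) (m - 4 * g - i)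

lemma upto_up {w g : ℕ} (i : ℕ) :
    upto (blk n w g (2 * g) ∪ blk n w (2 * g) (3 * g) ∪ blk n w (3 * g) (4 * g)) (Wu n w g) i ⊆
      blk n w g (4 * g + i) := by
  unfold upto
  apply Finset.union_subset
  · apply Finset.union_subset
    · apply Finset.union_subset
      · exact blk_mono le_rfl (by omega)
      · exact blk_mono (by omega) (by omega)
    · exact blk_mono (by omega) (by omega)
  · apply Finset.biUnion_subset.2
    intro j hj
    rw [Finset.mem_range] at hj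
    exact blk_mono (by omega) (by omega)

lemma upto_down {w g m : ℕ} (i : ℕ) :
    upto (blk n w (m - 2 * g) (m - g) ∪ blk n w (m - 3 * g) (m - 2 * g) ∪
      blk n w (m - 4 * g) (m - 3 * g)) (Wd n w g m) i ⊆ blk n w (m - 4 * g - i) (m - g) := by
  unfold upto
  apply Finset.union_subset
  · apply Finset.union_subset
    · apply Finset.union_subset
      · exact blk_mono (by omega) le_rfl
      · exact blk_mono (by omega) (by omega)
    · exact blk_mono (by omega) (by omega)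
  · apply Finset.biUnion_subset.2
    intro j hj
    rw [Finset.mem_range] at hj
    exact blk_mono (by omega) (by omega)

lemma dis_up {w g : ℕ} (i : ℕ) :
    Disjoint (upto (blk n w g (2 * g) ∪ blk n w (2 * g) (3 * g) ∪ blk n w (3 * g) (4 * g))
      (Wu n w g) i) (Wu n w g i) :=
  Finset.disjoint_of_subset_left (upto_up i) (blk_disjoint le_rfl)

lemma dis_down {w g m : ℕ} (i : ℕ) :
    Disjoint (upto (blk n w (m - 2 * g) (m - g) ∪ blk n w (m - 3 * g) (m - 2 * g) ∪
      blk n w (m - 4 * g) (m - 3 * g)) (Wd n w g m) i) (Wd n w g m i) :=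
  Finset.disjoint_of_subset_left (upto_down i) (blk_disjoint le_rfl).symm

lemma card_up {w g m i : ℕ} (hmw : m * w ≤ n) (hi : 4 * g + i + 1 ≤ m) : (Wu n w g i).card = w := by
  unfold Wu
  rw [card_blk ((Nat.mul_le_mul_right w hi).trans hmw)]
  have : 4 * g + i + 1 - (4 * g + i) = 1 := by omega
  rw [this, one_mul]

lemma card_down {w g m i : ℕ} (hmw : m * w ≤ n) (hi : 4 * g + i + 1 ≤ m) :
    (Wd n w g m i).card = w := by
  unfold Wd
  rw [card_blk ((Nat.mul_le_mul_right w (by omega : m - 4 * g - i ≤ m)).trans hmw)]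
  have : m - 4 * g - i - (m - 4 * g - i - 1) = 1 := by omega
  rw [this, one_mul]

/-- the lower set -/
noncomputable def A0 (T : Finset (Sym2 (Fin n))) (w g : ℕ) (ρ : ℝ) : Finset (Fin n) :=
  hdg T (blk n w g (2 * g)) (hdg T (blk n w (2 * g) (3 * g)) (blk n w (3 * g) (4 * g)) (2 * ρ))
    (2 * ρ)

/-- the upper set -/
noncomputable def B0 (T : Finset (Sym2 (Fin n))) (w g m : ℕ) (ρ : ℝ) : Finset (Fin n) :=
  hdg T (blk n w (m - 2 * g) (m - g)) (hdg T (blk n w (m - 3 * g) (m - 2 * g))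
    (blk n w (m - 4 * g) (m - 3 * g)) (2 * ρ)) (2 * ρ)

lemma free_rect {T : Finset (Sym2 (Fin n))} {w g m M s1 : ℕ} {p e ρ σ s1E K η Z : ℝ}
    (hmw : m * w ≤ n) (hM : 4 * g + M ≤ m) (hp : 0 < p) (he0 : 0 < e) (he1 : e ≤ 1)
    (hη : 0 < η) (hPR : PRp T p η) (hρ : 1 ≤ ρ) (hEX : EXp T ρ σ s1E) (hK1 : 1 ≤ K)
    (hKρ : K ≤ ρ ^ 2) (hs1E : ρ * (s1:ℝ) + 1 ≤ s1E)
    (hGu : GRp T (blk n w g (2 * g)) (blk n w (2 * g) (3 * g)) (blk n w (3 * g) (4 * g))
      (Wu n w g) M p e K σ s1)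
    (hGd : GRp T (blk n w (m - 2 * g) (m - g)) (blk n w (m - 3 * g) (m - 2 * g))
      (blk n w (m - 4 * g) (m - 3 * g)) (Wd n w g m) M p e K σ s1)
    (hfin : η ≤ e / p + g * ((1 - e) * w * e))
    (hsz : ∀ x y : ℕ, x ≤ n → y ≤ n → Z < (x:ℝ) * y → ∃ i j : ℕ,
      σ ≤ ((min x s1 : ℕ) : ℝ) ∧ σ ≤ ((min y s1 : ℕ) : ℝ) ∧
      e / p ≤ (1 + (1 - e) * w * p) ^ i * ((min x s1 : ℕ) : ℝ) ∧
      e / p ≤ (1 + (1 - e) * w * p) ^ j * ((min y s1 : ℕ) : ℝ) ∧
      i + g ≤ M ∧ j + g ≤ M ∧ 10 * g + i + j ≤ m) :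
    ∀ A' ⊆ A0 T w g ρ, ∀ B' ⊆ B0 T w g m ρ, (∀ a ∈ A', ∀ b ∈ B', ¬ gle T a b) →
      (A'.card : ℝ) * B'.card ≤ Z := by
  intro A' hA' B' hB' hfree
  by_contra hcon
  push Not at hcon
  have hxn : A'.card ≤ n := by
    have := Finset.card_le_univ A'; rwa [Fintype.card_fin] at this
  have hyn : B'.card ≤ n := by
    have := Finset.card_le_univ B'; rwa [Fintype.card_fin] at this
  obtain ⟨i, j, hs, ht, hi, hj, hiM, hjM, hij⟩ := hsz _ _ hxn hyn hcon
  obtain ⟨A, hAA, hAc⟩ := Finset.exists_subset_card_eq (min_le_left A'.card s1)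
  obtain ⟨B, hBB, hBc⟩ := Finset.exists_subset_card_eq (min_le_left B'.card s1)
  rw [← hAc] at hs hi
  rw [← hBc] at ht hj
  have hAs : (A.card : ℝ) ≤ s1 := by rw [hAc]; exact_mod_cast min_le_right _ _
  have hBs : (B.card : ℝ) ≤ s1 := by rw [hBc]; exact_mod_cast min_le_right _ _
  have hA0 := hAA.trans hA'
  have hB0 := hBB.trans hB'
  have hAc0 : (0:ℝ) ≤ A.card := Nat.cast_nonneg _
  have hBc0 : (0:ℝ) ≤ B.card := Nat.cast_nonneg _
  have hAt : K * A.card ≤
      ((ts T A (blk n w (2 * g) (3 * g)) (blk n w (3 * g) (4 * g))).card : ℝ) := by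
    refine le_trans (mul_le_mul_of_nonneg_right hKρ hAc0) ?_
    refine expand_two hρ hEX (blk_disjoint le_rfl) (blk_disjoint le_rfl) hA0 hs ?_
    have := mul_le_mul_of_nonneg_left hAs (by linarith : 0 ≤ ρ)
    linarith
  have hBt : K * B.card ≤ ((ts T B (blk n w (m - 3 * g) (m - 2 * g))
      (blk n w (m - 4 * g) (m - 3 * g))).card : ℝ) := by
    refine le_trans (mul_le_mul_of_nonneg_right hKρ hBc0) ?_
    refine expand_two hρ hEX (blk_disjoint le_rfl).symm (blk_disjoint le_rfl).symm hB0 ht ?_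
    have := mul_le_mul_of_nonneg_left hBs (by linarith : 0 ≤ ρ)
    linarith
  have hAW : A ⊆ blk n w g (2 * g) := hA0.trans (hdg_subset _ _ _ _)
  have hBW : B ⊆ blk n w (m - 2 * g) (m - g) := hB0.trans (hdg_subset _ _ _ _)
  have gA := grow_large (W := Wu n w g) (m := M) (w := w) hp he0 he1 hK1 (fun k _ => dis_up k)
    (fun k hk => card_up hmw (by omega)) hGu hAW hs hAs hAt (i1 := i) (i2 := g) hi hiM
  have gB := grow_large (W := Wd n w g m) (m := M) (w := w) hp he0 he1 hK1 (fun k _ => dis_down k)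
    (fun k hk => card_down hmw (by omega)) hGd hBW ht hBs hBt (i1 := j) (i2 := g) hj hjM
  set GA := grow T (Wu n w g) (ts T A (blk n w (2 * g) (3 * g)) (blk n w (3 * g) (4 * g))) (i + g)
    with hGA
  set GB := grow T (Wd n w g m) (ts T B (blk n w (m - 3 * g) (m - 2 * g))
    (blk n w (m - 4 * g) (m - 3 * g))) (j + g) with hGB
  have sA : GA ⊆ blk n w g (4 * g + (i + g)) :=
    (grow_subset (ts_subset.trans Finset.subset_union_right) _).trans (upto_up _)
  have sB : GB ⊆ blk n w (m - 4 * g - (j + g)) (m - g) :=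
    (grow_subset (ts_subset.trans Finset.subset_union_right) _).trans (upto_down _)
  have hdis : Disjoint GA GB := by
    apply Finset.disjoint_of_subset_left sA
    apply Finset.disjoint_of_subset_right sB
    exact blk_disjoint (by omega)
  have hedge := hPR GA GB hdis (hfin.trans gA) (hfin.trans gB)
  have hposA : (0:ℝ) < GA.card := lt_of_lt_of_le hη (hfin.trans gA)
  have hposB : (0:ℝ) < GB.card := lt_of_lt_of_le hη (hfin.trans gB)
  have hpos : (0:ℝ) < ((eb T GA GB : ℕ) : ℝ) := lt_of_lt_of_le (by positivity) hedge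
  have hpos' : 0 < eb T GA GB := by exact_mod_cast hpos
  unfold eb at hpos'
  obtain ⟨f, hf⟩ := Finset.card_pos.1 hpos'
  rw [Finset.mem_inter] at hf
  obtain ⟨u, hu, v, hv, rfl⟩ := mem_btw.1 hf.1
  have huv : u < v := blk_lt (by omega : 4 * g + (i + g) ≤ m - 4 * g - (j + g)) (sA hu) (sB hv)
  have h1 : gle T u v := gle_edge huv hf.2
  obtain ⟨a, ha, hau⟩ := grow_conn (T := T) (R := fun a b => gle T a b) (m := M)
    (W := Wu n w g) (fun a b c h h' => gle_trans h h')
    (fun x hx y hy hxy => gle_edge (blk_lt le_rfl hx hy) (by rw [Sym2.eq_swap]; exact hxy))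
    (fun x hx y hy hxy => gle_edge (blk_lt le_rfl hx hy) (by rw [Sym2.eq_swap]; exact hxy))
    (fun k _ x hx y hy hxy => gle_edge (blk_lt le_rfl (upto_up k hx) hy)
      (by rw [Sym2.eq_swap]; exact hxy)) hAW hiM u hu
  obtain ⟨b, hb, hbv⟩ := grow_conn (T := T) (R := fun a b => gle T b a) (m := M)
    (W := Wd n w g m) (fun a b c h h' => gle_trans h' h)
    (fun x hx y hy hxy => gle_edge (blk_lt le_rfl hy hx) hxy)
    (fun x hx y hy hxy => gle_edge (blk_lt le_rfl hy hx) hxy)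
    (fun k _ x hx y hy hxy => gle_edge (blk_lt le_rfl hy (upto_down k hx)) hxy) hBW hjM v hv
  exact hfree a (hAA ha) b (hBB hb) (gle_trans hau (gle_trans h1 hbv))

end Pool.Agent.H1.RO
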