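import Pool.Agent.H1.RO.LowerA

/-!
Lower bound: sizes, counting, probability.
-/

set_option autoImplicit false
set_option linter.unusedSectionVars false

namespace Pool.Agent.H1.RO

open Finset Pool.Agent.H1.CC

variable {n : ℕ}

/-- `L` is a realiser of `le`: a family of linear orders whose intersection is `le` -/
def IsRealiser {V : Type*} (le : V → V → Prop) {k : ℕ} (L : Fin k → V → V → Prop) : Prop :=
  (∀ i, (∀ x, L i x x) ∧ (∀ x y z, L i x y → L i y z → L i x z) ∧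
    (∀ x y, L i x y → L i y x → x = y) ∧ (∀ x y, L i x y ∨ L i y x)) ∧
  ∀ x y, le x y ↔ ∀ i, L i x y

lemma hdg_two {T : Finset (Sym2 (Fin n))} {p η ρ : ℝ} (hPR : PRp T p η) (hη : 0 < η)
    (hp : 0 < p) {W0 W1 W2 : Finset (Fin n)} (h01 : Disjoint W0 W1) (h12 : Disjoint W1 W2) {x : ℝ}
    (h0 : (W0.card : ℝ) = x) (h1 : (W1.card : ℝ) = x) (h2 : (W2.card : ℝ) = x)
    (hx : 2 * η ≤ x) (hρ : 2 * ρ ≤ p * (x - η) / 2) :
    x - η ≤ ((hdg T W0 (hdg T W1 W2 (2 * ρ)) (2 * ρ)).card : ℝ) := by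
  have e1 : x - η ≤ ((hdg T W1 W2 (2 * ρ)).card : ℝ) := by
    rw [← h1]
    apply hdg_large hPR hη h12 (by rw [h2]; linarith)
    rw [h2]
    have : p * (x - η) ≤ p * x := mul_le_mul_of_nonneg_left (by linarith) hp.le
    linarith
  have h01' : Disjoint W0 (hdg T W1 W2 (2 * ρ)) :=
    Finset.disjoint_of_subset_right (hdg_subset _ _ _ _) h01
  rw [← h0]
  apply hdg_large hPR hη h01' (by linarith)
  have : p * (x - η) ≤ p * ((hdg T W1 W2 (2 * ρ)).card : ℝ) := mul_le_mul_of_nonneg_left e1 hp.le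
  linarith

open Classical in
lemma count_lower {T : Finset (Sym2 (Fin n))} {A B : Finset (Fin n)} {k : ℕ}
    {L : Fin k → Fin n → Fin n → Prop} (hL : IsRealiser (gle T) L) {Z x κ : ℝ} (hZ : 0 < Z)
    (hn : 1 ≤ n) (hZn : Z ≤ (n:ℝ) ^ 2) (hx : 0 ≤ x) (hA : x ≤ A.card) (hB : x ≤ B.card)
    (hfree : ∀ A' ⊆ A, ∀ B' ⊆ B, (∀ a ∈ A', ∀ b ∈ B', ¬ gle T a b) →
      (A'.card : ℝ) * B'.card ≤ Z)
    (hκ : (((A ×ˢ B).filter fun x => gle T x.1 x.2).card : ℝ) ≤ κ) :
    x ^ 2 - κ ≤ k * (Z * (2 + Real.log ((n : ℝ) ^ 2 / Z))) := by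
  have h1 := dim_lower L (fun i => (hL.1 i).2.1) (fun i => (hL.1 i).2.2.2) hL.2 hZ
    (by rw [Fintype.card_fin]; exact hn) (by rw [Fintype.card_fin]; exact hZn) hfree
  rw [Fintype.card_fin] at h1
  have h2 : ((A ×ˢ B).filter fun x => gle T x.1 x.2).card +
      ((A ×ˢ B).filter fun x => ¬ gle T x.1 x.2).card = A.card * B.card := by
    rw [Finset.card_filter_add_card_filter_not, Finset.card_product]
  have h3 : (((A ×ˢ B).filter fun x => gle T x.1 x.2).card : ℝ) +
      (((A ×ˢ B).filter fun x => ¬ gle T x.1 x.2).card : ℝ) = A.card * B.card := by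
    exact_mod_cast h2
  have h4 : x ^ 2 ≤ (A.card : ℝ) * B.card := by
    rw [pow_two]; exact mul_le_mul hA hB hx (Nat.cast_nonneg _)
  linarith

/-- numerical facts for the choice of the number of windows -/
lemma size_lemma {E e c : ℝ} {n w m g s1 : ℕ} (hE0 : 0 < E) (hE1 : E ≤ 1 / 2) (he : e = E / 40)
    (hc : 1 ≤ c) (hn0 : 0 < n) (hw0 : 0 < w)
    (hw1 : (w:ℝ) ≤ e * n / c) (hw2 : e * n / c - 1 ≤ w) (hcn : c / n ≤ e ^ 2)
    (hm : (n:ℝ) / w - 1 ≤ m) (hg : (g:ℝ) ≤ c + 1)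
    (hs1 : (n:ℝ) / (2 * c ^ 6) ≤ s1)
    (hC5 : 2 * c ^ 6 ≤ Real.exp ((1 - E) * c))
    (hC6 : 13 * e + (12 * Real.log c + 2) * (11 / 10) ≤ 27 / 40 * E * c) :
    ∀ x y : ℕ, x ≤ n → y ≤ n → (n:ℝ) ^ 2 * Real.exp (-((1 - E) * c)) < (x:ℝ) * y → ∃ i j : ℕ,
      (n:ℝ) * Real.exp (-((1 - E) * c)) ≤ ((min x s1 : ℕ) : ℝ) ∧
      (n:ℝ) * Real.exp (-((1 - E) * c)) ≤ ((min y s1 : ℕ) : ℝ) ∧
      e / (c / n) ≤ (1 + (1 - e) * w * (c / n)) ^ i * ((min x s1 : ℕ) : ℝ) ∧
      e / (c / n) ≤ (1 + (1 - e) * w * (c / n)) ^ j * ((min y s1 : ℕ) : ℝ) ∧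
      10 * g + i + j ≤ m := by
  intro x y hx hy hxy
  have he0 : 0 < e := by rw [he]; positivity
  have he1 : e ≤ 1 / 80 := by rw [he]; linarith
  have hn : (0:ℝ) < n := by exact_mod_cast hn0
  have hw : (0:ℝ) < w := by exact_mod_cast hw0
  have hx' : (x:ℝ) ≤ n := by exact_mod_cast hx
  have hy' : (y:ℝ) ≤ n := by exact_mod_cast hy
  have hc0 : 0 < c := by linarith
  set q := Real.exp (-((1 - E) * c)) with hq
  have hq0 : 0 < q := Real.exp_pos _
  have hxσ : (n:ℝ) * q ≤ x := by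
    by_contra hcon
    push Not at hcon
    have h1 : (x:ℝ) * y ≤ n * q * n := by
      calc (x:ℝ) * y ≤ (n * q) * y := mul_le_mul_of_nonneg_right hcon.le (Nat.cast_nonneg _)
        _ ≤ n * q * n := mul_le_mul_of_nonneg_left hy' (by positivity)
    nlinarith
  have hyσ : (n:ℝ) * q ≤ y := by
    by_contra hcon
    push Not at hcon
    have h1 : (x:ℝ) * y ≤ n * (n * q) := by
      calc (x:ℝ) * y ≤ n * y := mul_le_mul_of_nonneg_right hx' (Nat.cast_nonneg _)
        _ ≤ n * (n * q) := mul_le_mul_of_nonneg_left hcon.le hn.le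
    nlinarith
  have hs1σ : (n:ℝ) * q ≤ s1 := by
    refine le_trans ?_ hs1
    rw [hq, Real.exp_neg, div_eq_mul_inv]
    apply mul_le_mul_of_nonneg_left _ hn.le
    exact inv_anti₀ (by positivity) hC5
  have hmin : ∀ z : ℕ, (n:ℝ) * q ≤ z → (n:ℝ) * q ≤ ((min z s1 : ℕ) : ℝ) := by
    intro z hz
    rw [Nat.cast_min]
    exact le_min hz hs1σ
  set a : ℝ := (1 - e) * w * (c / n) with ha
  have hwp : e - e ^ 2 ≤ w * (c / n) := by
    have h1 : (e * n / c - 1) * (c / n) ≤ w * (c / n) :=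
      mul_le_mul_of_nonneg_right hw2 (by positivity)
    have h2 : (e * n / c - 1) * (c / n) = e - c / n := by field_simp
    linarith
  have ha1 : e * (1 - 2 * e) ≤ a := by
    have h1 : (1 - e) * (e - e ^ 2) ≤ (1 - e) * (w * (c / n)) :=
      mul_le_mul_of_nonneg_left hwp (by linarith)
    have h2 : a = (1 - e) * (w * (c / n)) := by rw [ha]; ring
    rw [h2]
    nlinarith [pow_pos he0 3]
  have ha0 : 0 < a := lt_of_lt_of_le (by nlinarith) ha1
  have hlog : e * (1 - 5 / 2 * e) ≤ Real.log (1 + a) := by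
    have h1 : e * (1 - 2 * e) - (e * (1 - 2 * e)) ^ 2 / 2 ≤ Real.log (1 + a) := by
      set x := e * (1 - 2 * e) with hx
      have hx0 : 0 ≤ x := by rw [hx]; nlinarith
      have h2 := Real.le_log_one_add_of_nonneg hx0
      have h3 : x - x ^ 2 / 2 ≤ 2 * x / (x + 2) := by
        rw [le_div_iff₀ (by linarith)]
        nlinarith [pow_nonneg hx0 3]
      have h4 : Real.log (1 + x) ≤ Real.log (1 + a) :=
        Real.log_le_log (by linarith) (by linarith)
      linarith
    nlinarith [pow_pos he0 3, pow_pos he0 4, pow_pos he0 2]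
  have hlog0 : 0 < Real.log (1 + a) := lt_of_lt_of_le (by nlinarith) hlog
  have hchoice : ∀ z : ℕ, z ≤ n → (n:ℝ) * q ≤ z → ∃ i : ℕ,
      e / (c / n) ≤ (1 + a) ^ i * ((min z s1 : ℕ) : ℝ) ∧
      (i:ℝ) ≤ (Real.log (n / z) + (6 * Real.log c + 1)) / Real.log (1 + a) + 1 := by
    intro z hzn hz
    have hzn' : (z:ℝ) ≤ n := by exact_mod_cast hzn
    have hs0 : (0:ℝ) < ((min z s1 : ℕ) : ℝ) := lt_of_lt_of_le (by positivity) (hmin z hz)
    set s : ℝ := ((min z s1 : ℕ) : ℝ) with hs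
    have hz0 : (0:ℝ) < z := lt_of_lt_of_le (by positivity) hz
    have hs10 : (0:ℝ) < s1 := lt_of_lt_of_le (by positivity) hs1
    have hsn : s ≤ n := by
      rw [hs, Nat.cast_min]; exact (min_le_left _ _).trans hzn'
    have hlns : 0 ≤ Real.log (n / s) := Real.log_nonneg (by rw [le_div_iff₀ hs0]; linarith)
    have hbound : Real.log (n / s) ≤ Real.log (n / z) + (6 * Real.log c + 1) := by
      have hlz : 0 ≤ Real.log (n / z) := Real.log_nonneg (by rw [le_div_iff₀ hz0]; linarith)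
      have hlc : 0 ≤ Real.log c := Real.log_nonneg hc
      rcases min_choice (z:ℝ) (s1:ℝ) with h | h
      · rw [hs, Nat.cast_min, h]; linarith
      · rw [hs, Nat.cast_min, h]
        have h5 : (n:ℝ) / s1 ≤ 2 * c ^ 6 := by
          rw [div_le_iff₀ hs10]
          rw [div_le_iff₀ (by positivity)] at hs1
          linarith
        have h6 := Real.log_le_log (by positivity) h5
        rw [Real.log_mul (by norm_num) (by positivity), Real.log_pow] at h6
        have := Real.log_two_lt_d9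
        push_cast at h6
        linarith
    refine ⟨⌈Real.log (n / s) / Real.log (1 + a)⌉₊, ?_, ?_⟩
    · have h7 : Real.log (n / s) ≤ ((⌈Real.log (n / s) / Real.log (1 + a)⌉₊ : ℕ) : ℝ) *
          Real.log (1 + a) := by
        have := Nat.le_ceil (Real.log (n / s) / Real.log (1 + a))
        rwa [div_le_iff₀ hlog0] at this
      have h8 : (n:ℝ) / s ≤ (1 + a) ^ ⌈Real.log (n / s) / Real.log (1 + a)⌉₊ := by
        calc (n:ℝ) / s = Real.exp (Real.log (n / s)) :=
              (Real.exp_log (show 0 < (n:ℝ) / s by positivity)).symm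
          _ ≤ Real.exp (((⌈Real.log (n / s) / Real.log (1 + a)⌉₊ : ℕ) : ℝ) * Real.log (1 + a)) :=
              Real.exp_le_exp.2 h7
          _ = _ := by rw [Real.exp_nat_mul, Real.exp_log (by linarith)]
      have h9 : (n:ℝ) ≤ (1 + a) ^ ⌈Real.log (n / s) / Real.log (1 + a)⌉₊ * s := by
        rwa [div_le_iff₀ hs0] at h8
      refine le_trans ?_ h9
      rw [div_div_eq_mul_div, div_le_iff₀ hc0]
      nlinarith
    · have h7 := Nat.ceil_lt_add_one (div_nonneg hlns hlog0.le)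
      have h8 : Real.log (n / s) / Real.log (1 + a) ≤
          (Real.log (n / z) + (6 * Real.log c + 1)) / Real.log (1 + a) :=
        div_le_div_of_nonneg_right hbound hlog0.le
      linarith
  obtain ⟨i, hi1, hi2⟩ := hchoice x hx hxσ
  obtain ⟨j, hj1, hj2⟩ := hchoice y hy hyσ
  refine ⟨i, j, hmin x hxσ, hmin y hyσ, hi1, hj1, ?_⟩
  have hx0 : (0:ℝ) < x := lt_of_lt_of_le (by positivity) hxσ
  have hy0 : (0:ℝ) < y := lt_of_lt_of_le (by positivity) hyσ
  have hsum : Real.log (n / x) + Real.log (n / y) ≤ (1 - E) * c := by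
    rw [← Real.log_mul (by positivity) (by positivity)]
    have h1 : (n:ℝ) / x * (n / y) ≤ Real.exp ((1 - E) * c) := by
      rw [div_mul_div_comm, div_le_iff₀ (by positivity)]
      have h2 : Real.exp ((1 - E) * c) * q = 1 := by
        rw [hq, ← Real.exp_add]; simp
      have h3 := mul_le_mul_of_nonneg_left hxy.le (Real.exp_pos ((1 - E) * c)).le
      calc (n:ℝ) * n = Real.exp ((1 - E) * c) * ((n:ℝ) ^ 2 * q) := by
            rw [mul_comm ((n:ℝ) ^ 2) q, ← mul_assoc, h2]; ring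
        _ ≤ _ := h3
    have h4 := Real.log_le_log (by positivity) h1
    rwa [Real.log_exp] at h4
  have hlc : 0 ≤ Real.log c := Real.log_nonneg hc
  set Y : ℝ := (1 - E) * c + 12 * Real.log c + 2 with hY
  have hY0 : 0 ≤ Y := by
    have : 0 ≤ (1 - E) * c := by
      apply mul_nonneg <;> linarith
    rw [hY]; linarith
  have hij : (i:ℝ) + j ≤ Y / Real.log (1 + a) + 2 := by
    have h1 : (i:ℝ) + j ≤ ((Real.log (n / x) + (6 * Real.log c + 1)) +
        (Real.log (n / y) + (6 * Real.log c + 1))) / Real.log (1 + a) + 2 := by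
      rw [add_div]; linarith
    refine h1.trans ?_
    have : ((Real.log (n / x) + (6 * Real.log c + 1)) +
        (Real.log (n / y) + (6 * Real.log c + 1))) / Real.log (1 + a) ≤ Y / Real.log (1 + a) := by
      apply div_le_div_of_nonneg_right _ hlog0.le
      rw [hY]; linarith
    linarith
  have hij2 : Y / Real.log (1 + a) ≤ Y * (1 + 3 * e) / e := by
    rw [div_le_div_iff₀ hlog0 he0]
    have h1 : e ≤ (1 + 3 * e) * (e * (1 - 5 / 2 * e)) := by
      have : (1 + 3 * e) * (e * (1 - 5 / 2 * e)) = e + e ^ 2 * (1 / 2 - 15 / 2 * e) := by ring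
      rw [this]
      have : 0 ≤ e ^ 2 * (1 / 2 - 15 / 2 * e) := by
        apply mul_nonneg (by positivity); linarith
      linarith
    have h2 : (1 + 3 * e) * (e * (1 - 5 / 2 * e)) ≤ (1 + 3 * e) * Real.log (1 + a) :=
      mul_le_mul_of_nonneg_left hlog (by linarith)
    have h3 := mul_le_mul_of_nonneg_left (h1.trans h2) hY0
    linarith
  have hnw : c / e ≤ (n:ℝ) / w := by
    rw [div_le_div_iff₀ he0 hw]
    have h1 := mul_le_mul_of_nonneg_left hw1 hc0.le
    have h2 : c * (e * n / c) = e * n := by field_simp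
    linarith
  have hfinal : (10 * (c + 1) + 2 + Y * (1 + 3 * e) / e) ≤ c / e - 1 := by
    rw [← sub_nonneg]
    have h1 : c / e - 1 - (10 * (c + 1) + 2 + Y * (1 + 3 * e) / e) =
        (c - 13 * e - 10 * e * c - Y * (1 + 3 * e)) / e := by
      field_simp
      ring
    rw [h1]
    apply div_nonneg _ he0.le
    have h2 : Y * (1 + 3 * e) ≤ (1 - E) * c * (1 + 3 * e) + (12 * Real.log c + 2) * (11 / 10) := by
      have h3 : Y * (1 + 3 * e) = (1 - E) * c * (1 + 3 * e) + (12 * Real.log c + 2) * (1 + 3 * e) := by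
        rw [hY]; ring
      rw [h3]
      have h4 : (12 * Real.log c + 2) * (1 + 3 * e) ≤ (12 * Real.log c + 2) * (11 / 10) :=
        mul_le_mul_of_nonneg_left (by linarith) (by linarith)
      linarith
    have h5 : (1 - E) * c * (1 + 3 * e) ≤ c * (1 - E + 3 * e) := by
      have : (1 - E) * c * (1 + 3 * e) = c * (1 - E + 3 * e) - c * (3 * e * E) := by ring
      rw [this]
      have : 0 ≤ c * (3 * e * E) := by positivity
      linarith
    have h6 : c * (1 - E + 3 * e) + 10 * e * c = c - 27 / 40 * E * c := by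
      rw [he]; ring
    linarith
  have hcast : (10 * (g:ℝ) + i + j) ≤ m := by
    have : 10 * (g:ℝ) ≤ 10 * (c + 1) := by linarith
    linarith
  exact_mod_cast hcast

end Pool.Agent.H1.RO
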