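import Pool.Agent.H1.RO.LowerB

/-!
Lower bound: the core estimate for fixed `n` and `c`.
-/

set_option autoImplicit false
set_option linter.unusedSectionVars false

namespace Pool.Agent.H1.RO

open Finset Pool.Agent.H1.CC

/-- there is a realiser with fewer than `x` linear orders -/
def Small {n : ℕ} (T : Finset (Sym2 (Fin n))) (x : ℝ) : Prop :=
  ∃ k : ℕ, (k:ℝ) < x ∧ ∃ L : Fin k → Fin n → Fin n → Prop, IsRealiser (gle T) L

open Classical in
lemma lower_core {E e c : ℝ} {n : ℕ} (hE0 : 0 < E) (hE1 : E ≤ 1 / 2) (he : e = E / 40)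
    (hc8 : 8 ≤ c) (hcl : c ≤ Real.log n) (C1 : 16384 / e ^ 5 ≤ c)
    (C5 : 2 * c ^ 6 ≤ Real.exp ((1 - E) * c))
    (C6 : 13 * e + (12 * Real.log c + 2) * (11 / 10) ≤ 27 / 40 * E * c)
    (C7 : Real.log 4 + 1 ≤ 3 / 320 * e ^ 4 * c)
    (C8 : 32 * (2 + c) / e ^ 2 ≤ Real.exp (E * c))
    (N1 : c ≤ e ^ 2 * n) (N2 : 2 * c ^ 6 ≤ n) :
    Pr (c / n) (allE (Fin n)) (fun T => Small T (Real.exp ((1 - 2 * E) * c))) ≤
      Real.exp (-n) + (n + 1) * Real.exp (-(2 * (n:ℝ) ^ E)) +
        2 * ((n + 1) * (n * Real.exp (-(2 * (n:ℝ) ^ E)))) +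
        32 * Real.log n * (n:ℝ) ^ (-e) / e ^ 2 := by
  have he0 : 0 < e := by rw [he]; positivity
  have he1 : e ≤ 1 / 80 := by rw [he]; linarith
  have hc0 : 0 < c := by linarith
  have hc1 : 1 ≤ c := by linarith
  have hn : (0:ℝ) < n := by
    have : 0 < 2 * c ^ 6 := by positivity
    linarith
  have hn0 : 0 < n := by exact_mod_cast hn
  set p : ℝ := c / n with hp
  have hp0 : 0 < p := by positivity
  have hpe : p ≤ e ^ 2 := by
    rw [hp, div_le_iff₀ hn]; exact N1
  have hp1 : p ≤ 1 := by nlinarith only [hpe, he0, he1]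
  have hpn : p * n = c := by rw [hp]; field_simp
  -- the window size
  set w : ℕ := ⌊e * n / c⌋₊ with hw
  have hw1 : (w:ℝ) ≤ e * n / c := Nat.floor_le (by positivity)
  have hw2 : e * n / c - 1 ≤ w := by
    have : e * n / c < w + 1 := Nat.lt_floor_add_one _
    linarith
  have hwbig : 1 / e ≤ e * n / c := by
    rw [div_le_div_iff₀ he0 hc0]
    nlinarith only [N1, hc0, he0, hn]
  have hw0 : 0 < w := by
    rw [hw, Nat.floor_pos]
    have : 1 ≤ 1 / e := by rw [le_div_iff₀ he0]; linarith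
    linarith
  have hw0' : (0:ℝ) < w := by exact_mod_cast hw0
  set m : ℕ := n / w with hm
  have hmw : m * w ≤ n := Nat.div_mul_le_self n w
  have hm1 : (n:ℝ) / w - 1 ≤ m := by
    have h1 : n < (m + 1) * w := by
      rw [mul_comm]; exact Nat.lt_mul_div_succ n hw0
    have h2 : (n:ℝ) < (m + 1) * w := by exact_mod_cast h1
    have h3 : (n:ℝ) / w ≤ m + 1 := by rw [div_le_iff₀ hw0']; exact h2.le
    linarith
  have hmn : m ≤ n := Nat.div_le_self n w
  set g : ℕ := ⌈c⌉₊ with hg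
  have hg1 : c ≤ g := Nat.le_ceil c
  have hg2 : (g:ℝ) ≤ c + 1 := (Nat.ceil_lt_add_one hc0.le).le
  have hnw : c / e ≤ (n:ℝ) / w := by
    rw [div_le_div_iff₀ he0 hw0']
    have h1 := mul_le_mul_of_nonneg_left hw1 hc0.le
    have h2 : c * (e * n / c) = e * n := by field_simp
    linarith
  have h8g : 8 * g ≤ m := by
    have h1 : 80 * c ≤ c / e := by
      rw [le_div_iff₀ he0]; nlinarith only [hc0, he0, he1]
    have h2 : (8:ℝ) * g ≤ m := by linarith
    exact_mod_cast h2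
  set M : ℕ := m - 8 * g with hM
  -- size of the blocks
  set x : ℝ := (g:ℝ) * w with hx
  have hx1 : e * n / 2 ≤ x := by
    have h1 : c * (e * n / c - 1) ≤ g * w :=
      mul_le_mul hg1 hw2 (by
        have : 1 ≤ 1 / e := by rw [le_div_iff₀ he0]; linarith
        linarith) (Nat.cast_nonneg _)
    have h2 : c * (e * n / c - 1) = e * n - c := by field_simp
    have h3 : e ^ 2 * n ≤ e * n / 2 := by
      have : e ^ 2 * (n:ℝ) = e * (e * n) := by ring
      rw [this]
      have : 0 ≤ e * (n:ℝ) := by positivity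
      nlinarith only [this, he1]
    rw [hx]; linarith
  have hcard : ∀ a b : ℕ, b ≤ m → b - a = g → ((blk n w a b).card : ℝ) = x := by
    intro a b hb hba
    rw [card_blk ((Nat.mul_le_mul_right w hb).trans hmw), hba, hx]
    push_cast; rfl
  set η : ℝ := e ^ 2 * n / 4 with hη
  have hη0 : 0 < η := by positivity
  have hηx : 2 * η ≤ x := by
    have : 2 * η ≤ e * n / 2 := by
      rw [hη]
      have : 0 ≤ e * (n:ℝ) := by positivity
      nlinarith only [this, he1]
    linarith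
  have hηx4 : e * n / 4 ≤ x - η := by
    have : η ≤ e * n / 4 := by
      rw [hη]
      have : 0 ≤ e * (n:ℝ) := by positivity
      nlinarith only [this, he1]
    linarith
  set ρ : ℝ := e * c / 16 with hρ
  have hce : 16384 ≤ c * e ^ 5 := by
    rwa [div_le_iff₀ (by positivity)] at C1
  have he5 : e ^ 5 ≤ e := by
    calc e ^ 5 ≤ e ^ 1 := pow_le_pow_of_le_one he0.le (by linarith) (by norm_num)
      _ = e := pow_one e
  have hce1 : 16384 ≤ c * e := hce.trans (mul_le_mul_of_nonneg_left he5 hc0.le)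
  have hρ8 : 8 ≤ ρ := by rw [hρ]; nlinarith only [hce1]
  have hρx : 2 * ρ ≤ p * (x - η) / 2 := by
    have h1 : p * (e * n / 4) ≤ p * (x - η) := mul_le_mul_of_nonneg_left hηx4 hp0.le
    have h2 : p * (e * n / 4) = e * c / 4 := by rw [← hpn]; ring
    rw [hρ]; linarith
  set K : ℝ := 64 * c / e ^ 3 with hK
  have hKρ : K ≤ ρ ^ 2 := by
    rw [hK, hρ, div_le_iff₀ (by positivity)]
    have h1 : (e * c / 16) ^ 2 * e ^ 3 = c * (c * e ^ 5) / 256 := by ring
    rw [h1]
    nlinarith only [hce, hc0]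
  have hK1 : 1 ≤ K := by
    rw [hK, le_div_iff₀ (by positivity)]
    have : e ^ 3 ≤ 1 := pow_le_one₀ he0.le (by linarith)
    nlinarith only [this, hc8]
  set s1 : ℕ := ⌊(n:ℝ) / c ^ 6⌋₊ with hs1
  have hs1a : (s1:ℝ) ≤ n / c ^ 6 := Nat.floor_le (by positivity)
  have hnc6 : 2 ≤ (n:ℝ) / c ^ 6 := by
    rw [le_div_iff₀ (by positivity)]; exact N2
  have hs1b : (n:ℝ) / (2 * c ^ 6) ≤ s1 := by
    have h1 : (n:ℝ) / c ^ 6 < s1 + 1 := Nat.lt_floor_add_one _
    have h2 : (n:ℝ) / (2 * c ^ 6) = (n / c ^ 6) / 2 := by field_simp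
    rw [h2]; linarith
  set s1E : ℝ := (n:ℝ) / c ^ 5 with hs1E
  have hs1E0 : 0 < s1E := by positivity
  have hnc5 : 2 ≤ s1E := by
    rw [hs1E, le_div_iff₀ (by positivity)]
    have : c ^ 5 ≤ c ^ 6 := pow_le_pow_right₀ hc1 (by norm_num)
    linarith
  have hs1c : ρ * (s1:ℝ) + 1 ≤ s1E := by
    have h1 : ρ * (s1:ℝ) ≤ ρ * (n / c ^ 6) := mul_le_mul_of_nonneg_left hs1a (by linarith)
    have h2 : ρ * (n / c ^ 6) = e / 16 * s1E := by
      rw [hρ, hs1E]; field_simp
    have h3 : e / 16 * s1E ≤ 1 / 2 * s1E := mul_le_mul_of_nonneg_right (by linarith) hs1E0.le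
    linarith
  set q : ℝ := Real.exp (-((1 - E) * c)) with hq
  set σ : ℝ := (n:ℝ) * q with hσ
  set Z : ℝ := (n:ℝ) ^ 2 * q with hZ
  have hq0 : 0 < q := Real.exp_pos _
  have hσE : (n:ℝ) ^ E ≤ σ := by
    rw [hσ, hq]
    have h1 : (n:ℝ) ^ E = n * Real.exp (-((1 - E) * Real.log n)) := by
      rw [Real.rpow_def_of_pos hn]
      nth_rewrite 2 [← Real.exp_log hn]
      rw [← Real.exp_add]; congr 1; ring
    rw [h1]
    apply mul_le_mul_of_nonneg_left _ hn.le
    apply Real.exp_le_exp.2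
    have : (1 - E) * c ≤ (1 - E) * Real.log n := mul_le_mul_of_nonneg_left hcl (by linarith)
    linarith
  have hσ1 : 1 ≤ σ := by
    refine le_trans ?_ hσE
    exact Real.one_le_rpow (by exact_mod_cast hn0) hE0.le
  have hexpσ : Real.exp (-(2 * σ)) ≤ Real.exp (-(2 * (n:ℝ) ^ E)) :=
    Real.exp_le_exp.2 (by linarith)
  have hσc : Real.log ((n:ℝ) / σ) ≤ c := by
    have h1 : (n:ℝ) / σ = Real.exp ((1 - E) * c) := by
      rw [hσ, hq, Real.exp_neg]
      field_simp
    rw [h1, Real.log_exp]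
    nlinarith only [hc0, hE0]
  set κ : ℝ := e ^ 2 * n ^ 2 / 32 with hκ
  have hκ0 : 0 < κ := by positivity
  have hc5 : Real.log ((n:ℝ) / s1E) = 5 * Real.log c := by
    have h1 : (n:ℝ) / s1E = c ^ 5 := by rw [hs1E]; field_simp
    rw [h1, Real.log_pow]; norm_num
  have hlogc : 2 ≤ Real.log c := by
    rw [Real.le_log_iff_exp_le hc0]
    have h1 := Real.exp_one_lt_d9
    have h2 : Real.exp 2 = Real.exp 1 * Real.exp 1 := by rw [← Real.exp_add]; norm_num
    have h3 := Real.exp_pos 1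
    rw [h2]; nlinarith only [h1, h3, hc8]
  have hwp : e / 2 ≤ w * p := by
    have h1 : (e * n / c - 1) * p ≤ w * p := mul_le_mul_of_nonneg_right hw2 hp0.le
    have h2 : (e * n / c - 1) * p = e - p := by
      rw [hp]; field_simp
    nlinarith only [h1, h2, hpe, he0, he1]
  have hfin : η ≤ e / p + g * ((1 - e) * w * e) := by
    have h1 : (g:ℝ) * ((1 - e) * w * e) = (1 - e) * e * x := by rw [hx]; ring
    have h2 : (1 - e) * e * (e * n / 2) ≤ (1 - e) * e * x :=
      mul_le_mul_of_nonneg_left hx1 (by nlinarith only [he0, he1])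
    have h3 : η ≤ (1 - e) * e * (e * n / 2) := by
      rw [hη]
      have : (1 - e) * e * (e * n / 2) - e ^ 2 * n / 4 = e ^ 2 * n * (1 / 4 - e / 2) := by ring
      have h4 : 0 ≤ e ^ 2 * (n:ℝ) * (1 / 4 - e / 2) := by
        apply mul_nonneg (by positivity); linarith
      linarith
    have h4 : 0 < e / p := by positivity
    linarith
  have hsz := size_lemma (E := E) (e := e) (c := c) (n := n) (w := w) (m := m) (g := g) (s1 := s1)
    hE0 hE1 he hc1 hn0 hw0 hw1 hw2 (by rw [← hp]; exact hpe) hm1 hg2 hs1b C5 C6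
  rw [← hp, ← hq] at hsz
  -- the five bad events
  have b1 := prob_PR (V := Fin n) hp0.le hp1 (m := η) hη0.le
  have b2 := prob_EX (V := Fin n) hp0 hp1 (ρ := ρ) (σ := σ) (s1 := s1E) (c := c) hρ8 hσ1
    (by rw [Fintype.card_fin]; exact hn0) hc1 (by rw [Fintype.card_fin]; exact hpn) hs1E0
    (by
      rw [Fintype.card_fin, hs1E, mul_div_assoc', div_le_iff₀ (by positivity), mul_comm]
      apply mul_le_mul_of_nonneg_left _ hn.le
      have h1 : c ^ 1 ≤ c ^ 5 := pow_le_pow_right₀ hc1 (by norm_num)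
      rw [hρ]
      nlinarith only [h1, he0, he1, hc8])
    (by rw [Fintype.card_fin, hc5]; linarith) (by rw [Fintype.card_fin, hc5])
  have hmain : 4 * c ≤ e ^ 2 / 8 * (w * (p * K)) := by
    have h1 : e ^ 2 / 8 * (w * (p * K)) = (w * p) * (8 * c / e) := by
      rw [hK]; field_simp; ring
    rw [h1]
    have h2 : e / 2 * (8 * c / e) ≤ (w * p) * (8 * c / e) :=
      mul_le_mul_of_nonneg_right hwp (by positivity)
    have h3 : e / 2 * (8 * c / e) = 4 * c := by field_simp; ring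
    linarith
  have hpK : p * (K * s1) ≤ e := by
    have h1 : p * (K * s1) ≤ p * (K * (n / c ^ 6)) := by gcongr
    have h2 : p * (K * (n / c ^ 6)) = 64 / (e ^ 3 * c ^ 4) := by
      rw [hp, hK]; field_simp
    rw [h2] at h1
    refine h1.trans ?_
    rw [div_le_iff₀ (by positivity)]
    have h3 : e * (e ^ 3 * c ^ 4) = (c * e) ^ 4 := by ring
    rw [h3]
    have h4 : (64:ℝ) ≤ 16384 ^ 4 := by norm_num
    exact h4.trans (pow_le_pow_left₀ (by norm_num) hce1 4)
  have b3 := prob_GR (V := Fin n) hp0 hp1 (W := Wu n w g) (W0 := blk n w g (2 * g))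
    (W1 := blk n w (2 * g) (3 * g)) (W2 := blk n w (3 * g) (4 * g)) (blk_disjoint le_rfl)
    (blk_disjoint le_rfl) (m := M) (w := w) (fun j _ => dis_up j)
    (fun j hj => card_up hmw (by omega)) he0 (by linarith) (K := K) (σ := σ) (s1 := s1) (c := c)
    (by linarith) hσ1 hc1 (by rw [Fintype.card_fin]; exact hσc) hpK hmain
  have b4 := prob_GR (V := Fin n) hp0 hp1 (W := Wd n w g m) (W0 := blk n w (m - 2 * g) (m - g))
    (W1 := blk n w (m - 3 * g) (m - 2 * g)) (W2 := blk n w (m - 4 * g) (m - 3 * g))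
    (blk_disjoint le_rfl).symm
    (blk_disjoint le_rfl).symm (m := M) (w := w) (fun j _ => dis_down j)
    (fun j hj => card_down hmw (by omega)) he0 (by linarith) (K := K) (σ := σ) (s1 := s1) (c := c)
    (by linarith) hσ1 hc1 (by rw [Fintype.card_fin]; exact hσc) hpK hmain
  have h2gw : 2 * (g * w) ≤ n := by
    have h1 : 2 * g * w ≤ m * w := Nat.mul_le_mul_right w (by omega)
    have h2 : 2 * (g * w) = 2 * g * w := by ring
    omega
  have b5 := prob_comp (n := n) hp0.le hp1 (A := blk n w g (2 * g))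
    (B := blk n w (m - 2 * g) (m - g)) (D := n - 2 * (g * w)) (by
      intro a ha b hb
      refine ⟨blk_lt (by omega) ha hb, ?_⟩
      rw [mem_blk] at ha hb
      have h1 : (m - g) * w + g * w ≤ n := by
        rw [← Nat.add_mul]
        refine le_trans (Nat.mul_le_mul_right w ?_) hmw
        omega
      omega) hκ0
  rw [Fintype.card_fin] at b1 b2 b3 b4
  have hsub : Pr p (allE (Fin n)) (fun T => Small T (Real.exp ((1 - 2 * E) * c))) ≤
      Pr p (allE (Fin n)) (fun T => ¬ PRp T p η ∨ (¬ EXp T ρ σ s1E ∨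
        (¬ GRp T (blk n w g (2 * g)) (blk n w (2 * g) (3 * g)) (blk n w (3 * g) (4 * g))
          (Wu n w g) M p e K σ s1 ∨
        (¬ GRp T (blk n w (m - 2 * g) (m - g)) (blk n w (m - 3 * g) (m - 2 * g))
          (blk n w (m - 4 * g) (m - 3 * g)) (Wd n w g m) M p e K σ s1 ∨
        κ ≤ (((blk n w g (2 * g) ×ˢ blk n w (m - 2 * g) (m - g)).filter
          fun x => gle T x.1 x.2).card : ℝ))))) := by
    apply Pr_mono hp0.le hp1
    rintro T _ ⟨k, hk, L, hL⟩
    by_contra hcon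
    push Not at hcon
    obtain ⟨g1, g2, g3, g4, g5⟩ := hcon
    have hfree := free_rect (T := T) (Z := Z) hmw (by omega : 4 * g + M ≤ m) hp0 he0 (by linarith)
      hη0 g1 (by linarith) g2 hK1 hKρ hs1c g3 g4 hfin (by
        intro x' y' hx' hy' hxy
        obtain ⟨i, j, f1, f2, f3, f4, f5⟩ := hsz x' y' hx' hy' hxy
        exact ⟨i, j, f1, f2, f3, f4, by omega, by omega, f5⟩)
    have hAc : x - η ≤ ((A0 T w g ρ).card : ℝ) :=
      hdg_two g1 hη0 hp0 (blk_disjoint le_rfl) (blk_disjoint le_rfl) (hcard _ _ (by omega) (by omega))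
        (hcard _ _ (by omega) (by omega)) (hcard _ _ (by omega) (by omega)) hηx hρx
    have hBc : x - η ≤ ((B0 T w g m ρ).card : ℝ) :=
      hdg_two g1 hη0 hp0 (blk_disjoint le_rfl).symm (blk_disjoint le_rfl).symm
        (hcard _ _ (by omega) (by omega))
        (hcard _ _ (by omega) (by omega)) (hcard _ _ (by omega) (by omega)) hηx hρx
    have hZ0 : 0 < Z := by positivity
    have hq1 : q ≤ 1 := Real.exp_le_one_iff.2 (by
      have : 0 ≤ (1 - E) * c := mul_nonneg (by linarith) hc0.le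
      linarith)
    have hcnt := count_lower (κ := κ) hL hZ0 hn0 (by
        rw [hZ]
        have := mul_le_mul_of_nonneg_left hq1 (sq_nonneg (n:ℝ))
        linarith) (by
        have : 0 ≤ e * (n:ℝ) / 4 := by positivity
        linarith) hAc hBc hfree (by
        refine le_trans ?_ g5.le
        have : ((A0 T w g ρ ×ˢ B0 T w g m ρ).filter fun x => gle T x.1 x.2) ⊆
            ((blk n w g (2 * g) ×ˢ blk n w (m - 2 * g) (m - g)).filter
          fun x => gle T x.1 x.2) := by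
          apply Finset.filter_subset_filter
          exact Finset.product_subset_product (hdg_subset _ _ _ _) (hdg_subset _ _ _ _)
        exact_mod_cast Finset.card_le_card this)
    have hlogZ : Real.log ((n:ℝ) ^ 2 / Z) = (1 - E) * c := by
      have : (n:ℝ) ^ 2 / Z = Real.exp ((1 - E) * c) := by
        rw [hZ, hq, Real.exp_neg]; field_simp
      rw [this, Real.log_exp]
    rw [hlogZ] at hcnt
    have hsq : (e * n / 4) ^ 2 ≤ (x - η) ^ 2 :=
      pow_le_pow_left₀ (by positivity) hηx4 2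
    have h1 : κ ≤ (x - η) ^ 2 - κ := by
      have : (e * n / 4) ^ 2 = 2 * κ := by rw [hκ]; ring
      linarith
    have hk0 : (0:ℝ) ≤ k := Nat.cast_nonneg _
    have h2 : κ ≤ k * (Z * (2 + c)) := by
      refine h1.trans (hcnt.trans ?_)
      apply mul_le_mul_of_nonneg_left _ hk0
      apply mul_le_mul_of_nonneg_left _ hZ0.le
      nlinarith only [hc0, hE0]
    have h3 : e ^ 2 / 32 ≤ k * (q * (2 + c)) := by
      have h4 : κ = (n:ℝ) ^ 2 * (e ^ 2 / 32) := by rw [hκ]; ring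
      have h5 : k * (Z * (2 + c)) = (n:ℝ) ^ 2 * (k * (q * (2 + c))) := by rw [hZ]; ring
      rw [h4, h5] at h2
      exact le_of_mul_le_mul_left h2 (by positivity)
    -- contradiction with k < exp ((1-2E)c)
    have h6 : (k:ℝ) * (q * (2 + c)) < Real.exp ((1 - 2 * E) * c) * (q * (2 + c)) :=
      mul_lt_mul_of_pos_right hk (by positivity)
    have h7 : Real.exp ((1 - 2 * E) * c) * (q * (2 + c)) = Real.exp (-(E * c)) * (2 + c) := by
      rw [hq, ← mul_assoc, ← Real.exp_add]; congr 2; ring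
    rw [h7] at h6
    have h8 : Real.exp (-(E * c)) * (2 + c) ≤ e ^ 2 / 32 := by
      rw [Real.exp_neg, inv_mul_le_iff₀ (Real.exp_pos _)]
      rw [div_le_iff₀ (by positivity)] at C8
      linarith
    linarith
  refine hsub.trans ?_
  refine (Pr_or_le hp0.le hp1 _ _).trans ?_
  refine (add_le_add_right ((Pr_or_le hp0.le hp1 _ _).trans
    (add_le_add_right ((Pr_or_le hp0.le hp1 _ _).trans
      (add_le_add_right (Pr_or_le hp0.le hp1 _ _) _)) _)) _).trans ?_
  have b1' : (4:ℝ) ^ n * Real.exp (-(3 / 20 * (p * η ^ 2))) ≤ Real.exp (-n) := by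
    have h1 : (4:ℝ) ^ n = Real.exp (n * Real.log 4) := by
      rw [Real.exp_nat_mul, Real.exp_log (by norm_num)]
    rw [h1, ← Real.exp_add]
    apply Real.exp_le_exp.2
    have h2 : p * η ^ 2 = c * n * e ^ 4 / 16 := by rw [hη, ← hpn]; ring
    rw [h2]
    have := mul_le_mul_of_nonneg_left C7 hn.le
    nlinarith only [this, hn]
  have b34 : ((n:ℝ) + 1) * (M * Real.exp (-(2 * σ))) ≤
      (n + 1) * (n * Real.exp (-(2 * (n:ℝ) ^ E))) := by
    have hMn : (M:ℝ) ≤ n := by
      have : M ≤ n := by omega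
      exact_mod_cast this
    gcongr
  have b2' : ((n:ℝ) + 1) * Real.exp (-(2 * σ)) ≤ (n + 1) * Real.exp (-(2 * (n:ℝ) ^ E)) := by
    gcongr
  have b5' : (n:ℝ) ^ 2 * (p * Real.exp (p * ((n - 2 * (g * w) : ℕ) : ℝ))) / κ ≤
      32 * Real.log n * (n:ℝ) ^ (-e) / e ^ 2 := by
    have h1 : p * ((n - 2 * (g * w) : ℕ) : ℝ) ≤ c * (1 - e) := by
      rw [Nat.cast_sub h2gw]
      push_cast
      rw [← hx]
      have : p * (e * n) ≤ p * (2 * x) := mul_le_mul_of_nonneg_left (by linarith) hp0.le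
      have h3 : p * (e * n) = e * c := by rw [← hpn]; ring
      have h4 : p * (n - 2 * x) = c - p * (2 * x) := by rw [← hpn]; ring
      rw [h4]; linarith
    have h2 : Real.exp (p * ((n - 2 * (g * w) : ℕ) : ℝ)) ≤ n * (n:ℝ) ^ (-e) := by
      refine (Real.exp_le_exp.2 h1).trans ?_
      have h3 : (n:ℝ) * (n:ℝ) ^ (-e) = Real.exp (Real.log n * (1 - e)) := by
        rw [Real.rpow_def_of_pos hn]
        nth_rewrite 1 [← Real.exp_log hn]
        rw [← Real.exp_add]; congr 1; ring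
      rw [h3]
      exact Real.exp_le_exp.2 (mul_le_mul_of_nonneg_right hcl (by linarith))
    have h4 : (n:ℝ) ^ 2 * (p * Real.exp (p * ((n - 2 * (g * w) : ℕ) : ℝ))) ≤
        (n:ℝ) ^ 2 * (p * (n * (n:ℝ) ^ (-e))) := by gcongr
    have h5 : (n:ℝ) ^ 2 * (p * (n * (n:ℝ) ^ (-e))) = n ^ 2 * c * (n:ℝ) ^ (-e) := by
      rw [← hpn]; ring
    rw [h5] at h4
    have h6 : (n:ℝ) ^ 2 * c * (n:ℝ) ^ (-e) ≤ n ^ 2 * Real.log n * (n:ℝ) ^ (-e) := by gcongr
    calc (n:ℝ) ^ 2 * (p * Real.exp (p * ((n - 2 * (g * w) : ℕ) : ℝ))) / κ ≤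
        (n ^ 2 * Real.log n * (n:ℝ) ^ (-e)) / κ := div_le_div_of_nonneg_right (h4.trans h6) hκ0.le
      _ = 32 * Real.log n * (n:ℝ) ^ (-e) / e ^ 2 := by rw [hκ]; field_simp
  linarith [b1, b2, b3, b4, b5, b1', b34, b2', b5']

end Pool.Agent.H1.RO
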