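import Pool.Agent.H1.RO.LowerC
import Pool.Agent.H1.CC.Fin

/-!
Lower bound: asymptotic form.
-/

set_option autoImplicit false
set_option linter.unusedSectionVars false

namespace Pool.Agent.H1.RO

open Finset Pool.Agent.H1.CC Filter

lemma tendsto_log_nat : Tendsto (fun n : ℕ => Real.log (n : ℝ)) atTop atTop :=
  Real.tendsto_log_atTop.comp tendsto_natCast_atTop_atTop

lemma ev_pow_le_exp (k : ℕ) {b C : ℝ} (hb : 0 < b) (hC : 0 ≤ C) :
    ∀ᶠ c : ℝ in atTop, C * c ^ k ≤ Real.exp (b * c) := by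
  have h1 := (isLittleO_pow_exp_pos_mul_atTop k hb).bound (show 0 < 1 / (C + 1) by positivity)
  filter_upwards [h1, eventually_ge_atTop 0] with c h2 h3
  rw [Real.norm_eq_abs, Real.norm_eq_abs, abs_of_nonneg (by positivity : 0 ≤ c ^ k),
    abs_of_pos (Real.exp_pos _)] at h2
  calc C * c ^ k ≤ (C + 1) * c ^ k := by
        apply mul_le_mul_of_nonneg_right (by linarith) (by positivity)
    _ ≤ (C + 1) * (1 / (C + 1) * Real.exp (b * c)) := mul_le_mul_of_nonneg_left h2 (by positivity)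
    _ = Real.exp (b * c) := by field_simp

/-- the error function of the lower bound -/
noncomputable def errL (E : ℝ) (n : ℕ) : ℝ :=
  Real.exp (-(n:ℝ)) + 6 * (((n:ℝ) ^ E) ^ (2 / E) * Real.exp (-2 * (n:ℝ) ^ E)) +
    32 / (E / 40) ^ 2 * (Real.log n / (n:ℝ) ^ (E / 40))

lemma errL_tendsto {E : ℝ} (hE : 0 < E) : Tendsto (errL E) atTop (nhds 0) := by
  have h1 : Tendsto (fun n : ℕ => Real.exp (-(n:ℝ))) atTop (nhds 0) :=
    Real.tendsto_exp_neg_atTop_nhds_zero.comp tendsto_natCast_atTop_atTop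
  have h2 : Tendsto (fun n : ℕ => ((n:ℝ) ^ E) ^ (2 / E) * Real.exp (-2 * (n:ℝ) ^ E)) atTop
      (nhds 0) := by
    have := tendsto_rpow_mul_exp_neg_mul_atTop_nhds_zero (2 / E) 2 (by norm_num)
    exact this.comp ((tendsto_rpow_atTop hE).comp tendsto_natCast_atTop_atTop)
  have h3 : Tendsto (fun n : ℕ => Real.log n / (n:ℝ) ^ (E / 40)) atTop (nhds 0) :=
    ((isLittleO_log_rpow_atTop (show 0 < E / 40 by positivity)).tendsto_div_nhds_zero).comp
      tendsto_natCast_atTop_atTop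
  have := (h1.add (h2.const_mul 6)).add (h3.const_mul (32 / (E / 40) ^ 2))
  rw [mul_zero, mul_zero, add_zero, add_zero] at this
  exact this

theorem lower_fixed {E : ℝ} (hE0 : 0 < E) (hE1 : E ≤ 1 / 2) :
    ∃ c0 : ℝ, ∀ᶠ n : ℕ in atTop, ∀ c : ℝ, c0 ≤ c → c ≤ Real.log n →
      Pr (c / n) (allE (Fin n)) (fun T => Small T (Real.exp ((1 - 2 * E) * c))) ≤ errL E n := by
  set e : ℝ := E / 40 with he
  have he0 : 0 < e := by positivity
  have a1 := eventually_ge_atTop (16384 / e ^ 5)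
  have a5 := ev_pow_le_exp 6 (b := 1 / 2) (C := 2) (by norm_num) (by norm_num)
  have a6 := log_small (c := 27 / 80 * E) (C := 12 * (11 / 10)) (by positivity)
  have a6' := eventually_ge_atTop ((13 * e + 2 * (11 / 10)) / (27 / 80 * E))
  have a7 := eventually_ge_atTop ((Real.log 4 + 1) / (3 / 320 * e ^ 4))
  have a8 := ev_pow_le_exp 1 (b := E) (C := 64 / e ^ 2) hE0 (by positivity)
  obtain ⟨c0, hc0⟩ := eventually_atTop.1
    (a1.and (a5.and (a6.and (a6'.and (a7.and (a8.and (eventually_ge_atTop (8:ℝ))))))))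
  refine ⟨c0, ?_⟩
  have n1 : ∀ᶠ n : ℕ in atTop, Real.log n ≤ e ^ 2 * n := by
    have h1 := (Real.isLittleO_log_id_atTop.bound (show 0 < e ^ 2 by positivity))
    have h2 := tendsto_natCast_atTop_atTop.eventually h1
    filter_upwards [h2, eventually_ge_atTop 1] with n h3 h4
    have h5 : 0 ≤ Real.log n := Real.log_nonneg (by exact_mod_cast h4)
    simp only [id, Real.norm_eq_abs] at h3
    rw [abs_of_nonneg h5, abs_of_nonneg (Nat.cast_nonneg _)] at h3
    exact h3
  have n2 : ∀ᶠ n : ℕ in atTop, 2 * (Real.log n) ^ 6 ≤ n := by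
    have h1 := tendsto_log_nat.eventually
      (ev_pow_le_exp 6 (b := 1) (C := 2) (by norm_num) (by norm_num))
    filter_upwards [h1, eventually_ge_atTop 1] with n h2 h3
    rwa [one_mul, Real.exp_log (by exact_mod_cast h3)] at h2
  filter_upwards [n1, n2, eventually_ge_atTop 1] with n m1 m2 m3
  intro c hc hcl
  obtain ⟨k1, k5, k6, k6', k7, k8, k9⟩ := hc0 c hc
  have hc1 : 0 < c := by linarith
  have hn : (0:ℝ) < n := by exact_mod_cast m3
  have hn1 : (1:ℝ) ≤ n := by exact_mod_cast m3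
  have hmain := lower_core (E := E) (e := e) (c := c) (n := n) hE0 hE1 he k9 hcl k1
    (by
      refine k5.trans (Real.exp_le_exp.2 ?_)
      exact mul_le_mul_of_nonneg_right (by linarith) hc1.le)
    (by
      rw [div_le_iff₀ (by positivity)] at k6'
      have h1 : Real.log c ≤ Real.log (c + 1) := Real.log_le_log hc1 (by linarith)
      have h2 : 12 * (11 / 10) * Real.log c ≤ 12 * (11 / 10) * Real.log (c + 1) :=
        mul_le_mul_of_nonneg_left h1 (by norm_num)
      linarith)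
    (by
      rw [div_le_iff₀ (by positivity)] at k7
      linarith)
    (by
      rw [pow_one] at k8
      refine le_trans ?_ k8
      rw [div_mul_eq_mul_div]
      apply div_le_div_of_nonneg_right _ (by positivity)
      linarith)
    (hcl.trans m1)
    (by
      refine le_trans ?_ m2
      have := pow_le_pow_left₀ hc1.le hcl 6
      linarith)
  refine hmain.trans ?_
  unfold errL
  have e1 : ((n:ℝ) ^ E) ^ (2 / E) = n ^ 2 := by
    rw [← Real.rpow_mul hn.le]
    have : E * (2 / E) = ((2:ℕ):ℝ) := by push_cast; field_simp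
    rw [this, Real.rpow_natCast]
  have e2 : Real.exp (-(2 * (n:ℝ) ^ E)) = Real.exp (-2 * (n:ℝ) ^ E) := by congr 1; ring
  rw [e1, e2, ← he]
  have hx := Real.exp_pos (-2 * (n:ℝ) ^ E)
  set X := Real.exp (-2 * (n:ℝ) ^ E)
  have e3 : ((n:ℝ) + 1) * X ≤ 2 * (n ^ 2 * X) := by
    have : (n:ℝ) + 1 ≤ 2 * n ^ 2 := by nlinarith
    have := mul_le_mul_of_nonneg_right this hx.le
    linarith
  have e4 : 2 * (((n:ℝ) + 1) * (n * X)) ≤ 4 * (n ^ 2 * X) := by
    have : ((n:ℝ) + 1) * n ≤ 2 * n ^ 2 := by nlinarith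
    have := mul_le_mul_of_nonneg_right this hx.le
    linarith
  have e5 : 32 * Real.log n * (n:ℝ) ^ (-e) / e ^ 2 = 32 / e ^ 2 * (Real.log n / (n:ℝ) ^ e) := by
    rw [Real.rpow_neg hn.le]; field_simp
  rw [e5]
  linarith

end Pool.Agent.H1.RO
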