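import Pool.Agent.H1.RO.BK

/-!
Few linear extensions reverse all pairs of elements with small up-sets and small down-sets.
-/

set_option autoImplicit false
set_option linter.unusedSectionVars false

namespace Pool.Agent.H1.RO

open Finset Pool.Agent.H1.CC

variable {n : ℕ}

/-- the keys in `F` are monotone and reverse all incomparable pairs in the relation `R` -/
def KeyRev (T : Finset (Sym2 (Fin n))) (F : Finset (Fin n → ℕ)) (R : Fin n → Fin n → Prop) : Prop :=
  (∀ f ∈ F, ∀ x y, gle T x y → f x ≤ f y) ∧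
    ∀ x y, R x y → ¬ gle T x y → ∃ f ∈ F, f y < f x ∨ (f y = f x ∧ y < x)

lemma KeyRev.union {T : Finset (Sym2 (Fin n))} {F F' : Finset (Fin n → ℕ)}
    {R R' : Fin n → Fin n → Prop} (h : KeyRev T F R) (h' : KeyRev T F' R') :
    KeyRev T (F ∪ F') (fun x y => R x y ∨ R' x y) := by
  refine ⟨?_, ?_⟩
  · intro f hf
    rcases Finset.mem_union.1 hf with hf | hf
    · exact h.1 f hf
    · exact h'.1 f hf
  · intro x y hR hxy
    rcases hR with hR | hR
    · obtain ⟨f, hf, h1⟩ := h.2 x y hR hxy
      exact ⟨f, Finset.mem_union_left _ hf, h1⟩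
    · obtain ⟨f, hf, h1⟩ := h'.2 x y hR hxy
      exact ⟨f, Finset.mem_union_right _ hf, h1⟩

lemma KeyRev.has {T : Finset (Sym2 (Fin n))} {F : Finset (Fin n → ℕ)}
    (h : KeyRev T F (fun _ _ => True)) {y : ℝ} (hy : (F.card : ℝ) ≤ y) : Has T y := by
  refine ⟨F.card, hy, ?_⟩
  apply real_of_keys (fun i => (F.equivFin.symm i).1)
  · intro i x y hxy
    exact h.1 _ (F.equivFin.symm i).2 x y hxy
  · intro x y hxy
    obtain ⟨f, hf, h1⟩ := h.2 x y trivial hxy
    refine ⟨F.equivFin ⟨f, hf⟩, ?_⟩
    rw [Equiv.symm_apply_apply]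
    exact h1

/-- down-sets -/
noncomputable def dns (T : Finset (Sym2 (Fin n))) (y : Fin n) : Finset (Fin n) := by
  classical exact Finset.univ.filter fun z => gle T z y

lemma mem_dns {T : Finset (Sym2 (Fin n))} {y z : Fin n} : z ∈ dns T y ↔ gle T z y := by
  unfold dns; simp

open Classical in
/-- greedy colouring -/
lemma greedy_col {V : Type*} [Fintype V] (C : V → V → Prop) (hC : ∀ u v, C u v → C v u) {d : ℕ}
    (hd' : ∀ v, ∀ A : Finset V, (∀ u ∈ A, C v u) → A.card ≤ d) :
    ∃ κ : V → Fin (d + 1), ∀ u v, u ≠ v → C u v → κ u ≠ κ v := by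
  have hd : ∀ v, (Finset.univ.filter fun u => C v u).card ≤ d := fun v =>
    hd' v _ fun u hu => (Finset.mem_filter.1 hu).2
  have key : ∀ A : Finset V, ∃ κ : V → Fin (d + 1), ∀ u ∈ A, ∀ v ∈ A, u ≠ v → C u v → κ u ≠ κ v := by
    intro A
    induction A using Finset.induction_on with
    | empty => exact ⟨fun _ => 0, fun u hu => absurd hu (Finset.notMem_empty u)⟩
    | insert a A ha ih =>
      obtain ⟨κ, hκ⟩ := ih
      have h1 : ((Finset.univ.filter fun u => C a u).image κ).card < Fintype.card (Fin (d + 1)) := by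
        rw [Fintype.card_fin]
        have := Finset.card_image_le (s := Finset.univ.filter fun u => C a u) (f := κ)
        have := hd a
        omega
      obtain ⟨c, hc⟩ : ∃ c, c ∉ ((Finset.univ.filter fun u => C a u).image κ) := by
        by_contra hcon
        push Not at hcon
        rw [Finset.eq_univ_iff_forall.2 hcon, Finset.card_univ] at h1
        exact lt_irrefl _ h1
      refine ⟨Function.update κ a c, ?_⟩
      have hne : ∀ u ∈ A, u ≠ a := fun u hu h => ha (h ▸ hu)
      intro u hu v hv huv hCuv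
      rcases Finset.mem_insert.1 hu with h2 | h2
      · rcases Finset.mem_insert.1 hv with h3 | h3
        · exact absurd (h2.trans h3.symm) huv
        · rw [h2, Function.update_self, Function.update_of_ne (hne v h3)]
          intro h4
          apply hc
          rw [Finset.mem_image]
          exact ⟨v, Finset.mem_filter.2 ⟨Finset.mem_univ _, h2 ▸ hCuv⟩, h4.symm⟩
      · rcases Finset.mem_insert.1 hv with h3 | h3
        · rw [h3, Function.update_self, Function.update_of_ne (hne u h2)]
          intro h4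
          apply hc
          rw [Finset.mem_image]
          exact ⟨u, Finset.mem_filter.2 ⟨Finset.mem_univ _, hC _ _ (h3 ▸ hCuv)⟩, h4⟩
        · rw [Function.update_of_ne (hne u h2), Function.update_of_ne (hne v h3)]
          exact hκ u h2 v h3 huv hCuv
  obtain ⟨κ, hκ⟩ := key Finset.univ
  exact ⟨κ, fun u v => hκ u (Finset.mem_univ u) v (Finset.mem_univ v)⟩

/-- probability of a prescribed trace -/
lemma prob_trace {E : Type*} [DecidableEq E] {S A : Finset E} (hA : A ⊆ S) (W : Finset E) :
    Pr (1 / 2) S (fun R => R ∩ A = W) ≤ (1 / 2 : ℝ) ^ A.card := by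
  have hd : Dep (fun R : Finset E => ind (R ∩ A = W)) A := by
    intro R
    apply ind_congr
    rw [Finset.inter_assoc, Finset.inter_self]
  unfold Pr
  rw [Ex_dep hd hA]
  unfold Ex
  have hw : ∀ T ∈ A.powerset, (∏ e ∈ A, if e ∈ T then (1/2:ℝ) else 1 - 1/2) * ind (T ∩ A = W) =
      (1 / 2 : ℝ) ^ A.card * ind (T = W) := by
    intro T hT
    rw [Finset.inter_eq_left.2 (Finset.mem_powerset.1 hT)]
    congr 1
    rw [← Finset.prod_const]
    apply Finset.prod_congr rfl
    intro e _
    split_ifs <;> norm_num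
  rw [Finset.sum_congr rfl hw, ← Finset.mul_sum]
  have h2 : ∑ T ∈ A.powerset, ind (T = W) ≤ 1 := by
    have h3 : ∀ T ∈ A.powerset, ind (T = W) = if T = W then (1:ℝ) else 0 := by
      intro T _
      by_cases h : T = W
      · rw [ind_of h, if_pos h]
      · rw [ind_not_of h, if_neg h]
    rw [Finset.sum_congr rfl h3, Finset.sum_ite_eq']
    split_ifs <;> norm_num
  have h4 : (0:ℝ) ≤ (1 / 2) ^ A.card := by positivity
  nlinarith

/-- the colour of `v` given by the random set `R` -/
def col {b : ℕ} (R : Finset (Fin n × Fin b)) (v : Fin n) : Finset (Fin b) :=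
  Finset.univ.filter fun β => (v, β) ∈ R

lemma mem_col {b : ℕ} {R : Finset (Fin n × Fin b)} {v : Fin n} {β : Fin b} :
    β ∈ col R v ↔ (v, β) ∈ R := by
  unfold col; simp

open Classical in
lemma exists_classes {T : Finset (Sym2 (Fin n))} {M b r : ℕ} (hM : 1 ≤ M) {X Y : Finset (Fin n)}
    (hX : ∀ x ∈ X, (ups T x).card ≤ M) (hY : ∀ y ∈ Y, (dns T y).card ≤ M)
    (hb : 4 * M ^ (r + 3) ≤ 2 ^ (b * r)) :
    ∃ χ : Fin n → Finset (Fin b), ∀ x ∈ X, ∀ τ : Finset (Fin b),
      ((ups T x ∩ Y).filter fun z => χ z = τ).card ≤ r := by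
  set H : Fin n → Finset (Fin n) := fun x => ups T x ∩ Y with hH
  set S : Finset (Fin n × Fin b) := Finset.univ with hS
  set A : Fin n → Finset (Fin n × Fin b) → Prop := fun x R =>
    ∃ Z ∈ (H x).powersetCard (r + 1), ∃ τ ∈ (Finset.univ : Finset (Finset (Fin b))),
      ∀ z ∈ Z, col R z = τ with hA
  set B : Fin n → Finset (Fin n × Fin b) := fun x => H x ×ˢ Finset.univ with hB
  set q : ℝ := (M:ℝ) ^ (r + 1) * (1 / 2) ^ (b * r) with hq
  have hHM : ∀ x ∈ X, (H x).card ≤ M := fun x hx =>
    (Finset.card_le_card Finset.inter_subset_left).trans (hX x hx)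
  obtain ⟨R, _, hR⟩ := lll (p := 1 / 2) (by norm_num) (by norm_num) (S := S) X A B (q := q)
    (d := M * M) (by
      intro x _ R
      apply ind_congr
      have hcol : ∀ z ∈ H x, col (R ∩ B x) z = col R z := by
        intro z hz
        ext β
        rw [mem_col, mem_col, Finset.mem_inter]
        constructor
        · exact fun h => h.1
        · exact fun h => ⟨h, Finset.mem_product.2 ⟨hz, Finset.mem_univ _⟩⟩
      constructor
      · rintro ⟨Z, hZ, τ, hτ, h⟩
        refine ⟨Z, hZ, τ, hτ, fun z hz => ?_⟩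
        rw [hcol z ((Finset.mem_powersetCard.1 hZ).1 hz)]
        exact h z hz
      · rintro ⟨Z, hZ, τ, hτ, h⟩
        refine ⟨Z, hZ, τ, hτ, fun z hz => ?_⟩
        rw [← hcol z ((Finset.mem_powersetCard.1 hZ).1 hz)]
        exact h z hz)
    (fun x _ => Finset.subset_univ _)
    (by
      intro x hx
      refine (Pr_exists_le (by norm_num) (by norm_num) _ _).trans ?_
      have h1 : ∀ Z ∈ (H x).powersetCard (r + 1), Pr (1 / 2) S (fun R =>
          ∃ τ ∈ (Finset.univ : Finset (Finset (Fin b))), ∀ z ∈ Z, col R z = τ) ≤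
          (1 / 2 : ℝ) ^ (b * r) := by
        intro Z hZ
        refine (Pr_exists_le (by norm_num) (by norm_num) _ _).trans ?_
        have h2 : ∀ τ ∈ (Finset.univ : Finset (Finset (Fin b))),
            Pr (1 / 2) S (fun R => ∀ z ∈ Z, col R z = τ) ≤ (1 / 2 : ℝ) ^ (b * (r + 1)) := by
          intro τ _
          have h3 := prob_trace (S := S) (A := Z ×ˢ (Finset.univ : Finset (Fin b)))
            (Finset.subset_univ _) (Z ×ˢ τ)
          rw [Finset.card_product, Finset.card_univ, Fintype.card_fin,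
            (Finset.mem_powersetCard.1 hZ).2, mul_comm (r + 1) b] at h3
          refine le_trans (Pr_mono (by norm_num) (by norm_num) ?_) h3
          intro R _ h
          ext ⟨z, β⟩
          rw [Finset.mem_inter, Finset.mem_product, Finset.mem_product]
          constructor
          · rintro ⟨h4, h5, _⟩
            refine ⟨h5, ?_⟩
            have := h z h5
            rw [← this, mem_col]
            exact h4
          · rintro ⟨h5, h6⟩
            have := h z h5
            rw [← this, mem_col] at h6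
            exact ⟨h6, h5, Finset.mem_univ _⟩
        refine (Finset.sum_le_sum h2).trans ?_
        rw [Finset.sum_const, Finset.card_univ, Fintype.card_finset, Fintype.card_fin,
          nsmul_eq_mul]
        push_cast
        rw [mul_add, mul_one, pow_add, ← mul_assoc, mul_comm ((2:ℝ) ^ b), mul_assoc, ← mul_pow]
        norm_num
      refine (Finset.sum_le_sum h1).trans ?_
      rw [Finset.sum_const, Finset.card_powersetCard, nsmul_eq_mul, hq]
      apply mul_le_mul_of_nonneg_right _ (by positivity)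
      have h5 : (H x).card.choose (r + 1) ≤ M ^ (r + 1) :=
        (Nat.choose_le_pow _ _).trans (Nat.pow_le_pow_left (hHM x hx) _)
      exact_mod_cast h5)
    (by
      intro x hx
      have h1 : (X.filter fun j => ¬ Disjoint (B x) (B j)) ⊆ (H x).biUnion fun y => dns T y := by
        intro x' hx'
        rw [Finset.mem_filter] at hx'
        obtain ⟨_, hnd⟩ := hx'
        rw [Finset.not_disjoint_iff] at hnd
        obtain ⟨⟨y, β⟩, h2, h3⟩ := hnd
        have h4 := (Finset.mem_product.1 h2).1
        have h5 := (Finset.mem_product.1 h3).1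
        rw [Finset.mem_biUnion]
        refine ⟨y, h4, ?_⟩
        rw [mem_dns]
        exact mem_ups.1 (Finset.mem_inter.1 h5).1
      refine (Finset.card_le_card h1).trans (Finset.card_biUnion_le.trans ?_)
      calc ∑ y ∈ H x, (dns T y).card ≤ ∑ _y ∈ H x, M :=
            Finset.sum_le_sum fun y hy => hY y (Finset.mem_inter.1 hy).2
        _ = (H x).card * M := by rw [Finset.sum_const, smul_eq_mul]
        _ ≤ M * M := Nat.mul_le_mul_right _ (hHM x hx))
    (by positivity) (Nat.mul_pos hM hM)
    (by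
      rw [hq]
      have h1 : (4 * (M:ℝ) ^ (r + 3)) ≤ 2 ^ (b * r) := by exact_mod_cast hb
      have h2 : 4 * ((M:ℝ) ^ (r + 1) * (1 / 2) ^ (b * r)) * ((M * M : ℕ) : ℝ) =
          (4 * (M:ℝ) ^ (r + 3)) * (1 / 2) ^ (b * r) := by
        push_cast; ring
      rw [h2]
      calc (4 * (M:ℝ) ^ (r + 3)) * (1 / 2) ^ (b * r) ≤ 2 ^ (b * r) * (1 / 2) ^ (b * r) :=
            mul_le_mul_of_nonneg_right h1 (by positivity)
        _ = 1 := by rw [← mul_pow]; norm_num)
  refine ⟨fun v => col R v, ?_⟩
  intro x hx τ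
  by_contra hcon
  push Not at hcon
  obtain ⟨Z, hZ1, hZ2⟩ := Finset.exists_subset_card_eq (show r + 1 ≤ _ from hcon)
  apply hR x hx
  refine ⟨Z, Finset.mem_powersetCard.2 ⟨hZ1.trans (Finset.filter_subset _ _), hZ2⟩, τ,
    Finset.mem_univ _, ?_⟩
  intro z hz
  exact (Finset.mem_filter.1 (hZ1 hz)).2

open Classical in
theorem normal_keys {T : Finset (Sym2 (Fin n))} {M b r t : ℕ} (hM : 1 ≤ M) (hr : 1 ≤ r)
    {X Y : Finset (Fin n)}
    (hX : ∀ x ∈ X, (ups T x).card ≤ M) (hY : ∀ y ∈ Y, (dns T y).card ≤ M)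
    (hb : 4 * M ^ (r + 3) ≤ 2 ^ (b * r))
    (ht : (1 - 1 / (3 * ((r:ℝ) + 1))) ^ t * (((M * M + 1) * (M * M + 2) ^ r : ℕ) : ℝ) < 1) :
    ∃ F : Finset (Fin n → ℕ), F.card ≤ 2 ^ b * (t * 2) ∧ KeyRev T F (fun x y => x ∈ X ∧ y ∈ Y) := by
  obtain ⟨χ, hχ⟩ := exists_classes hM hX hY hb
  -- proper colouring of the conflict graph
  set C : Fin n → Fin n → Prop := fun y y' => ∃ x ∈ X, y ∈ ups T x ∩ Y ∧ y' ∈ ups T x ∩ Y with hC
  obtain ⟨κ, hκ⟩ := greedy_col C (fun u v ⟨x, hx, h1, h2⟩ => ⟨x, hx, h2, h1⟩) (d := M * M) (by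
    intro y A hA
    by_cases hy : y ∈ Y
    · have h1 : A ⊆ (dns T y ∩ X).biUnion fun x => ups T x := by
        intro u hu
        obtain ⟨x, hx, h2, h3⟩ := hA u hu
        rw [Finset.mem_biUnion]
        refine ⟨x, Finset.mem_inter.2 ⟨?_, hx⟩, (Finset.mem_inter.1 h3).1⟩
        rw [mem_dns]
        exact mem_ups.1 (Finset.mem_inter.1 h2).1
      refine (Finset.card_le_card h1).trans (Finset.card_biUnion_le.trans ?_)
      calc ∑ x ∈ dns T y ∩ X, (ups T x).card ≤ ∑ _x ∈ dns T y ∩ X, M :=
            Finset.sum_le_sum fun x hx => hX x (Finset.mem_inter.1 hx).2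
        _ = (dns T y ∩ X).card * M := by rw [Finset.sum_const, smul_eq_mul]
        _ ≤ M * M := Nat.mul_le_mul_right _
            ((Finset.card_le_card Finset.inter_subset_left).trans (hY y hy))
    · have h1 : A = ∅ := by
        rw [Finset.eq_empty_iff_forall_notMem]
        intro u hu
        obtain ⟨x, _, h2, _⟩ := hA u hu
        exact hy (Finset.mem_inter.1 h2).2
      rw [h1, Finset.card_empty]
      exact Nat.zero_le _)
  -- the separating family on colours
  have hq0 : 0 ≤ 1 / ((r:ℝ) + 1) := by positivity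
  have hq1 : 1 / ((r:ℝ) + 1) ≤ 1 := by
    rw [div_le_one (by positivity)]; linarith [Nat.cast_nonneg (α := ℝ) r]
  set Q : Finset (Fin (M * M + 1) × Finset (Fin (M * M + 1))) :=
    (Finset.univ ×ˢ (Finset.univ.filter fun Z : Finset (Fin (M * M + 1)) => Z.card ≤ r)).filter
      fun z => z.1 ∉ z.2 with hQ
  obtain ⟨G, _, hG⟩ := greedy hq0 hq1 (S := (Finset.univ : Finset (Fin (M * M + 1)))) Q
    (fun z R => z.1 ∈ R ∧ Disjoint R z.2) (δ := 1 / (3 * ((r:ℝ) + 1))) (by
      intro z hz
      rw [hQ, Finset.mem_filter, Finset.mem_product, Finset.mem_filter] at hz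
      exact prob_sep hr hz.2 hz.1.2.2) t
  have hQc : Q.card ≤ (M * M + 1) * (M * M + 2) ^ r := by
    refine (Finset.card_filter_le _ _).trans ?_
    rw [Finset.card_product, Finset.card_univ, Fintype.card_fin]
    apply Nat.mul_le_mul_left
    have := card_small (V := Fin (M * M + 1)) r
    rw [Fintype.card_fin] at this
    refine le_trans this ?_
    exact Nat.pow_le_pow_left (by omega) _
  have h0' : 0 ≤ 1 - 1 / (3 * ((r:ℝ) + 1)) := by
    have : 1 / (3 * ((r:ℝ) + 1)) ≤ 1 := by
      rw [div_le_one (by positivity)]; linarith [Nat.cast_nonneg (α := ℝ) r]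
    linarith
  have hemp : (Q.filter fun z => ∀ j, ¬ (z.1 ∈ G j ∧ Disjoint (G j) z.2)) = ∅ := by
    rw [← Finset.card_eq_zero]
    have hlt : (((Q.filter fun z => ∀ j, ¬ (z.1 ∈ G j ∧ Disjoint (G j) z.2)).card : ℕ) : ℝ) < 1 := by
      refine lt_of_le_of_lt ?_ ht
      have hQc' : (Q.card : ℝ) ≤ (((M * M + 1) * (M * M + 2) ^ r : ℕ) : ℝ) := by
        exact_mod_cast hQc
      refine le_trans ?_ (mul_le_mul_of_nonneg_left hQc' (pow_nonneg h0' _))
      refine le_trans (le_of_eq ?_) hG
      congr!
    have : (Q.filter fun z => ∀ j, ¬ (z.1 ∈ G j ∧ Disjoint (G j) z.2)).card < 1 := by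
      exact_mod_cast hlt
    omega
  have hsep : ∀ k : Fin (M * M + 1), ∀ R : Finset (Fin (M * M + 1)), R.card ≤ r → k ∉ R →
      ∃ i, k ∈ G i ∧ Disjoint (G i) R := by
    intro k R hR hkR
    by_contra hcon
    push Not at hcon
    have h1 : (k, R) ∈ Q.filter fun z => ∀ j, ¬ (z.1 ∈ G j ∧ Disjoint (G j) z.2) := by
      rw [Finset.mem_filter, hQ, Finset.mem_filter, Finset.mem_product, Finset.mem_filter]
      exact ⟨⟨⟨Finset.mem_univ _, Finset.mem_univ _, hR⟩, hkR⟩, fun j h => hcon j h.1 h.2⟩
    rw [hemp] at h1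
    exact absurd h1 (Finset.notMem_empty _)
  -- the keys
  set W : Finset (Fin b) → Fin t → Fin n → Finset (Fin n) := fun τ i v =>
    (ups T v ∩ Y).filter fun z => χ z = τ ∧ κ z ∈ G i with hW
  set g : Bool → Fin n → ℕ := fun σ z => if σ then z.val + 1 else n - z.val with hg
  set f : Finset (Fin b) × Fin t × Bool → Fin n → ℕ := fun a v =>
    n - (W a.1 a.2.1 v).sup (g a.2.2) with hf
  have hg1 : ∀ σ z, 1 ≤ g σ z := by
    intro σ z
    have := z.isLt
    rw [hg]; simp only
    split_ifs <;> omega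
  have hgn : ∀ σ z, g σ z ≤ n := by
    intro σ z
    have := z.isLt
    rw [hg]; simp only
    split_ifs <;> omega
  refine ⟨Finset.univ.image f, ?_, ?_, ?_⟩
  · refine Finset.card_image_le.trans ?_
    rw [Finset.card_univ, Fintype.card_prod, Fintype.card_prod, Fintype.card_finset,
      Fintype.card_fin, Fintype.card_fin, Fintype.card_bool]
  · intro f' hf' x y hxy
    obtain ⟨a, _, rfl⟩ := Finset.mem_image.1 hf'
    apply Nat.sub_le_sub_left
    apply Finset.sup_mono
    apply Finset.filter_subset_filter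
    exact Finset.inter_subset_inter_right (ups_mono hxy)
  · rintro x y ⟨hx, hy⟩ hxy
    set R : Finset (Fin (M * M + 1)) :=
      (((ups T x ∩ Y).filter fun z => χ z = χ y).image κ).erase (κ y) with hR
    have hRc : R.card ≤ r :=
      (Finset.card_erase_le.trans Finset.card_image_le).trans (hχ x hx (χ y))
    obtain ⟨i, hi1, hi2⟩ := hsep (κ y) R hRc (Finset.notMem_erase _ _)
    have hWx : ∀ z ∈ W (χ y) i x, z ∈ ups T x ∩ Y ∧ κ z = κ y := by
      intro z hz
      rw [hW] at hz
      simp only at hz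
      rw [Finset.mem_filter] at hz
      refine ⟨hz.1, ?_⟩
      by_contra hne
      have h1 : κ z ∈ R := by
        rw [hR, Finset.mem_erase]
        exact ⟨hne, Finset.mem_image_of_mem _ (Finset.mem_filter.2 ⟨hz.1, hz.2.1⟩)⟩
      exact Finset.disjoint_left.1 hi2 hz.2.2 h1
    have hyW : y ∈ W (χ y) i y := by
      rw [hW]; simp only
      rw [Finset.mem_filter, Finset.mem_inter, mem_ups]
      exact ⟨⟨gle_refl _ _, hy⟩, rfl, hi1⟩
    have hfin : ∀ σ, (∀ z ∈ W (χ y) i x, g σ z < g σ y) →
        f (χ y, i, σ) y < f (χ y, i, σ) x := by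
      intro σ h
      rw [hf]; simp only
      have h1 : g σ y ≤ (W (χ y) i y).sup (g σ) := Finset.le_sup hyW
      have h2 : (W (χ y) i x).sup (g σ) < g σ y := by
        rw [Finset.sup_lt_iff (by
          have := hg1 σ y
          exact Nat.lt_of_lt_of_le Nat.zero_lt_one this)]
        exact h
      have h3 := hgn σ y
      omega
    rcases (W (χ y) i x).eq_empty_or_nonempty with h0 | ⟨z0, hz0⟩
    · refine ⟨f (χ y, i, true), Finset.mem_image_of_mem _ (Finset.mem_univ _), Or.inl ?_⟩
      apply hfin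
      intro z hz
      rw [h0] at hz
      exact absurd hz (Finset.notMem_empty _)
    · have huniq : ∀ z ∈ W (χ y) i x, z = z0 := by
        intro z hz
        by_contra hne
        have h1 := hWx z hz
        have h2 := hWx z0 hz0
        exact hκ z z0 hne ⟨x, hx, h1.1, h2.1⟩ (h1.2.trans h2.2.symm)
      have hzy : z0 ≠ y := by
        rintro rfl
        exact hxy (mem_ups.1 (Finset.mem_inter.1 (hWx z0 hz0).1).1)
      rcases lt_or_gt_of_ne hzy with h | h
      · refine ⟨f (χ y, i, true), Finset.mem_image_of_mem _ (Finset.mem_univ _), Or.inl ?_⟩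
        apply hfin
        intro z hz
        rw [huniq z hz, hg]
        simp only [if_true]
        have : z0.val < y.val := h
        omega
      · refine ⟨f (χ y, i, false), Finset.mem_image_of_mem _ (Finset.mem_univ _), Or.inl ?_⟩
        apply hfin
        intro z hz
        rw [huniq z hz, hg]
        simp only [Bool.false_eq_true, if_false]
        have : y.val < z0.val := h
        have := z0.isLt
        omega

end Pool.Agent.H1.RO
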