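import Pool.Agent.H1.RO.Det

/-!
The random graph order; probability that two elements are comparable.
-/

set_option autoImplicit false
set_option linter.unusedSectionVars false

namespace Pool.Agent.H1.RO

open Finset Pool.Agent.H1.CC

variable {n : ℕ}

/-- the graph order of the graph with edge set `T` -/
def gle (T : Finset (Sym2 (Fin n))) (a b : Fin n) : Prop :=
  Relation.ReflTransGen (fun x y => x < y ∧ s(x, y) ∈ T) a b

lemma gle_refl (T : Finset (Sym2 (Fin n))) (a : Fin n) : gle T a a := Relation.ReflTransGen.refl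

lemma gle_trans {T : Finset (Sym2 (Fin n))} {a b c : Fin n} (h : gle T a b) (h' : gle T b c) :
    gle T a c := Relation.ReflTransGen.trans h h'

lemma gle_edge {T : Finset (Sym2 (Fin n))} {a b : Fin n} (h : a < b) (h' : s(a, b) ∈ T) :
    gle T a b := Relation.ReflTransGen.single ⟨h, h'⟩

lemma gle_le {T : Finset (Sym2 (Fin n))} {a b : Fin n} (h : gle T a b) : a ≤ b := by
  induction h with
  | refl => exact le_rfl
  | tail _ h2 ih => exact ih.trans h2.1.le

/-- dependence on the edges below `b` -/
lemma gle_inter {T F : Finset (Sym2 (Fin n))} {a b : Fin n}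
    (hF : ins (Finset.univ.filter fun v : Fin n => v ≤ b) ⊆ F) : gle (T ∩ F) a b ↔ gle T a b := by
  constructor
  · intro h
    induction h with
    | refl => exact gle_refl _ _
    | tail _ h2 ih =>
      exact Relation.ReflTransGen.tail (ih ((ins_mono (by
        intro v hv
        simp only [Finset.mem_filter, Finset.mem_univ, true_and] at hv ⊢
        exact hv.trans h2.1.le)).trans hF)) ⟨h2.1, (Finset.mem_inter.1 h2.2).1⟩
  · intro h
    have key : ∀ c, gle T a c → c ≤ b → gle (T ∩ F) a c := by
      intro c hc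
      induction hc with
      | refl => intro _; exact gle_refl _ _
      | tail hab h2 ih =>
        rename_i x y
        intro hy
        refine Relation.ReflTransGen.tail (ih (h2.1.le.trans hy)) ⟨h2.1, ?_⟩
        rw [Finset.mem_inter]
        refine ⟨h2.2, hF ?_⟩
        rw [mem_ins]
        simp only [Finset.mem_filter, Finset.mem_univ, true_and]
        exact ⟨h2.1.le.trans hy, hy, h2.1.ne⟩
    exact key b h le_rfl

lemma prob_last {p : ℝ} (_h0 : 0 ≤ p) (_h1 : p ≤ 1) {a u b : Fin n} (hub : u < b) :
    Pr p (allE (Fin n)) (fun T => gle T a u ∧ s(u, b) ∈ T) ≤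
      p * Pr p (allE (Fin n)) (fun T => gle T a u) := by
  unfold Pr
  simp only [ind_and]
  set F := ins (Finset.univ.filter fun v : Fin n => v ≤ u) with hF
  have hdep1 : Dep (fun T : Finset (Sym2 (Fin n)) => ind (gle T a u)) F := by
    intro T
    apply ind_congr
    exact (gle_inter (Finset.Subset.refl _)).symm
  have hdep2 : Dep (fun T : Finset (Sym2 (Fin n)) => ind (s(u, b) ∈ T)) {s(u, b)} := by
    intro T
    apply ind_congr
    simp
  have hdis : Disjoint F {s(u, b)} := by
    rw [Finset.disjoint_singleton_right, hF, mem_ins]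
    simp only [Finset.mem_filter, Finset.mem_univ, true_and]
    intro h
    exact absurd h.2.1 (not_le.2 hub)
  rw [Ex_mul_indep hdep1 hdep2 hdis (ins_subset_allE _)
    (Finset.singleton_subset_iff.2 (mem_allE.2 hub.ne)), mul_comm]
  apply le_of_eq
  congr 1
  have := Ex_subset (p := p) (S := allE (Fin n)) (F := {s(u, b)})
    (Finset.singleton_subset_iff.2 (mem_allE.2 hub.ne))
  simp only [Finset.singleton_subset_iff, Finset.card_singleton, pow_one] at this
  exact this

lemma prob_gle {p : ℝ} (h0 : 0 ≤ p) (h1 : p ≤ 1) {a b : Fin n} (hab : a < b) :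
    Pr p (allE (Fin n)) (fun T => gle T a b) ≤ p * (1 + p) ^ (b.val - a.val - 1) := by
  classical
  set f : ℕ → ℝ := fun j => if h : j < n then Pr p (allE (Fin n)) (fun T => gle T a ⟨j, h⟩) else 0
    with hf
  have hf0 : ∀ j, 0 ≤ f j := by
    intro j
    rw [hf]; simp only
    split_ifs
    · exact Pr_nonneg h0 h1 _
    · exact le_rfl
  have step : ∀ d : ℕ, 1 ≤ d → f (a.val + d) ≤ p * ∑ j ∈ Finset.range d, f (a.val + j) := by
    intro d hd
    by_cases hn : a.val + d < n
    · have e1 : f (a.val + d) = Pr p (allE (Fin n)) (fun T => gle T a ⟨a.val + d, hn⟩) := by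
        rw [hf]; simp only; rw [dif_pos hn]
      rw [e1]
      have step1 : Pr p (allE (Fin n)) (fun T => gle T a ⟨a.val + d, hn⟩) ≤
          Pr p (allE (Fin n)) (fun T => ∃ j ∈ Finset.range d, ∃ hj : a.val + j < n,
            gle T a ⟨a.val + j, hj⟩ ∧ s(⟨a.val + j, hj⟩, (⟨a.val + d, hn⟩ : Fin n)) ∈ T) := by
        apply Pr_mono h0 h1
        intro T _ h
        rcases Relation.ReflTransGen.cases_tail h with h2 | ⟨u, h2, h3⟩
        · have : (⟨a.val + d, hn⟩ : Fin n).val = a.val := by rw [h2]
          simp at this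
          omega
        · have h4 : a ≤ u := gle_le h2
          have h4' : a.val ≤ u.val := h4
          have h5 : u.val < a.val + d := h3.1
          refine ⟨u.val - a.val, Finset.mem_range.2 (by omega), by omega, ?_⟩
          have h6 : (⟨a.val + (u.val - a.val), by omega⟩ : Fin n) = u := by
            apply Fin.ext
            show a.val + (u.val - a.val) = u.val
            omega
          rw [h6]
          exact ⟨h2, h3.2⟩
      refine step1.trans ((Pr_exists_le h0 h1 _ _).trans ?_)
      rw [Finset.mul_sum]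
      apply Finset.sum_le_sum
      intro j hj
      rw [Finset.mem_range] at hj
      have hjn : a.val + j < n := by omega
      have e2 : f (a.val + j) = Pr p (allE (Fin n)) (fun T => gle T a ⟨a.val + j, hjn⟩) := by
        rw [hf]; simp only; rw [dif_pos hjn]
      rw [e2]
      have hlt : (⟨a.val + j, hjn⟩ : Fin n) < ⟨a.val + d, hn⟩ := by
        show a.val + j < a.val + d
        omega
      refine le_trans ?_ (prob_last h0 h1 hlt)
      apply Pr_mono h0 h1
      rintro T _ ⟨_, h⟩
      exact h
    · have e1 : f (a.val + d) = 0 := by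
        rw [hf]; simp only; rw [dif_neg hn]
      rw [e1]
      exact mul_nonneg h0 (Finset.sum_nonneg fun j _ => hf0 _)
  have hS : ∀ d : ℕ, ∑ j ∈ Finset.range (d + 1), f (a.val + j) ≤ (1 + p) ^ d := by
    intro d
    induction d with
    | zero =>
      simp only [zero_add, Finset.range_one, Finset.sum_singleton, add_zero, pow_zero]
      rw [hf]; simp only; rw [dif_pos a.isLt]
      exact Pr_le_one h0 h1 _
    | succ d ih =>
      rw [Finset.sum_range_succ]
      have h2 := step (d + 1) (by omega)
      have h3 : p * ∑ j ∈ Finset.range (d + 1), f (a.val + j) ≤ p * (1 + p) ^ d :=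
        mul_le_mul_of_nonneg_left ih h0
      calc ∑ j ∈ Finset.range (d + 1), f (a.val + j) + f (a.val + (d + 1)) ≤
          (1 + p) ^ d + p * (1 + p) ^ d := add_le_add ih (h2.trans h3)
        _ = (1 + p) ^ (d + 1) := by ring
  obtain ⟨d, hd⟩ : ∃ d, b.val = a.val + (d + 1) := ⟨b.val - a.val - 1, by
    have : a.val < b.val := hab
    omega⟩
  have h2 := step (d + 1) (by omega)
  have h3 := hS d
  have h4 : f (a.val + (d + 1)) = Pr p (allE (Fin n)) (fun T => gle T a b) := by
    rw [hf]; simp only
    rw [dif_pos (by rw [← hd]; exact b.isLt)]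
    have : (⟨a.val + (d + 1), by rw [← hd]; exact b.isLt⟩ : Fin n) = b := Fin.ext hd.symm
    rw [this]
  rw [← h4]
  have h5 : b.val - a.val - 1 = d := by omega
  rw [h5]
  exact h2.trans (mul_le_mul_of_nonneg_left h3 h0)

open Classical in
/-- few comparable pairs -/
lemma prob_comp {p : ℝ} (h0 : 0 ≤ p) (h1 : p ≤ 1) {A B : Finset (Fin n)} {D : ℕ}
    (hAB : ∀ a ∈ A, ∀ b ∈ B, a < b ∧ b.val ≤ a.val + D) {κ : ℝ} (hκ : 0 < κ) :
    Pr p (allE (Fin n)) (fun T => κ ≤ (((A ×ˢ B).filter fun x => gle T x.1 x.2).card : ℝ)) ≤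
      (n:ℝ) ^ 2 * (p * Real.exp (p * D)) / κ := by
  refine (markov h0 h1 (fun T _ => Nat.cast_nonneg _) hκ).trans ?_
  apply div_le_div_of_nonneg_right _ hκ.le
  have e1 : Ex p (allE (Fin n)) (fun T => (((A ×ˢ B).filter fun x => gle T x.1 x.2).card : ℝ)) =
      ∑ x ∈ A ×ˢ B, Pr p (allE (Fin n)) (fun T => gle T x.1 x.2) := by
    unfold Pr
    rw [← Ex_sum]
    apply Ex_congr
    intro T _
    rw [Finset.card_filter, Nat.cast_sum]
    apply Finset.sum_congr rfl
    intro x _
    by_cases h : gle T x.1 x.2
    · rw [if_pos h, ind_of h, Nat.cast_one]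
    · rw [if_neg h, ind_not_of h, Nat.cast_zero]
  rw [e1]
  calc ∑ x ∈ A ×ˢ B, Pr p (allE (Fin n)) (fun T => gle T x.1 x.2) ≤
      ∑ _x ∈ A ×ˢ B, p * Real.exp (p * D) := by
        apply Finset.sum_le_sum
        intro x hx
        rw [Finset.mem_product] at hx
        obtain ⟨h2, h3⟩ := hAB _ hx.1 _ hx.2
        refine (prob_gle h0 h1 h2).trans (mul_le_mul_of_nonneg_left ?_ h0)
        calc (1 + p) ^ (x.2.val - x.1.val - 1) ≤ (1 + p) ^ D :=
              pow_le_pow_right₀ (by linarith) (by omega)
          _ ≤ (Real.exp p) ^ D :=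
              pow_le_pow_left₀ (by linarith) (by have := Real.add_one_le_exp p; linarith) _
          _ = Real.exp (p * D) := by rw [← Real.exp_nat_mul]; congr 1; ring
    _ = ((A ×ˢ B).card : ℝ) * (p * Real.exp (p * D)) := by rw [Finset.sum_const, nsmul_eq_mul]
    _ ≤ (n:ℝ) ^ 2 * (p * Real.exp (p * D)) := by
        apply mul_le_mul_of_nonneg_right _ (by positivity)
        rw [Finset.card_product, pow_two]
        have hA : A.card ≤ n := by
          have := Finset.card_le_univ A; rwa [Fintype.card_fin] at this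
        have hB : B.card ≤ n := by
          have := Finset.card_le_univ B; rwa [Fintype.card_fin] at this
        exact_mod_cast Nat.mul_le_mul hA hB

/-! ### blocks -/

/-- the cells `a, …, b-1` of width `w` -/
def blk (n w a b : ℕ) : Finset (Fin n) :=
  Finset.univ.filter fun v => a * w ≤ v.val ∧ v.val < b * w

lemma mem_blk {w a b : ℕ} {v : Fin n} : v ∈ blk n w a b ↔ a * w ≤ v.val ∧ v.val < b * w := by
  unfold blk; simp

lemma card_blk {w a b : ℕ} (hb : b * w ≤ n) : (blk n w a b).card = (b - a) * w := by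
  have h1 : (blk n w a b).map Fin.valEmbedding = Finset.Ico (a * w) (b * w) := by
    ext x
    rw [Finset.mem_map, Finset.mem_Ico]
    constructor
    · rintro ⟨v, hv, rfl⟩
      exact mem_blk.1 hv
    · intro h
      exact ⟨⟨x, by omega⟩, mem_blk.2 h, rfl⟩
  rw [← Finset.card_map Fin.valEmbedding, h1, Nat.card_Ico, Nat.sub_mul]

lemma blk_disjoint {w a b c d : ℕ} (h : b ≤ c) : Disjoint (blk n w a b) (blk n w c d) := by
  rw [Finset.disjoint_left]
  intro v hv hv'
  rw [mem_blk] at hv hv'
  have := Nat.mul_le_mul_right w h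
  omega

lemma blk_lt {w a b c d : ℕ} (h : b ≤ c) {u v : Fin n} (hu : u ∈ blk n w a b)
    (hv : v ∈ blk n w c d) : u < v := by
  rw [mem_blk] at hu hv
  have := Nat.mul_le_mul_right w h
  show u.val < v.val
  omega

lemma blk_mono {w a b c d : ℕ} (h : c ≤ a) (h' : b ≤ d) : blk n w a b ⊆ blk n w c d := by
  intro v hv
  rw [mem_blk] at hv ⊢
  have h1 := Nat.mul_le_mul_right w h
  have h2 := Nat.mul_le_mul_right w h'
  omega

end Pool.Agent.H1.RO
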