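import Pool.Agent.H1.RO.Bfs

/-!
Reversal of the order, and the realiser of a good graph.
-/

set_option autoImplicit false
set_option linter.unusedSectionVars false

namespace Pool.Agent.H1.RO

open Finset Pool.Agent.H1.CC

variable {n : ℕ}

/-- reversal of a pair -/
def rve (e : Sym2 (Fin n)) : Sym2 (Fin n) := e.map Fin.rev

lemma rve_mk (u v : Fin n) : rve s(u, v) = s(Fin.rev u, Fin.rev v) := rfl

lemma rve_rve (e : Sym2 (Fin n)) : rve (rve e) = e := by
  induction e using Sym2.ind with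
  | _ u v => rw [rve_mk, rve_mk, Fin.rev_rev, Fin.rev_rev]

/-- reversal of a graph -/
def rvT (T : Finset (Sym2 (Fin n))) : Finset (Sym2 (Fin n)) := T.image rve

lemma mem_rvT {T : Finset (Sym2 (Fin n))} {e : Sym2 (Fin n)} : e ∈ rvT T ↔ rve e ∈ T := by
  unfold rvT
  rw [Finset.mem_image]
  constructor
  · rintro ⟨f, hf, rfl⟩
    rw [rve_rve]; exact hf
  · intro h
    exact ⟨rve e, h, rve_rve e⟩

lemma rvT_rvT (T : Finset (Sym2 (Fin n))) : rvT (rvT T) = T := by
  ext e
  rw [mem_rvT, mem_rvT, rve_rve]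

lemma rve_allE {e : Sym2 (Fin n)} : rve e ∈ allE (Fin n) ↔ e ∈ allE (Fin n) := by
  induction e using Sym2.ind with
  | _ u v =>
    rw [rve_mk, mem_allE, mem_allE]
    exact not_congr Fin.rev_inj

lemma rvT_subset {T : Finset (Sym2 (Fin n))} (h : T ⊆ allE (Fin n)) : rvT T ⊆ allE (Fin n) := by
  intro e he
  rw [mem_rvT] at he
  exact rve_allE.1 (h he)

lemma Pr_rev (p : ℝ) (P : Finset (Sym2 (Fin n)) → Prop) :
    Pr p (allE (Fin n)) (fun T => P (rvT T)) = Pr p (allE (Fin n)) P := by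
  unfold Pr Ex
  apply Finset.sum_nbij' rvT rvT
  · intro T hT
    exact Finset.mem_powerset.2 (rvT_subset (Finset.mem_powerset.1 hT))
  · intro T hT
    exact Finset.mem_powerset.2 (rvT_subset (Finset.mem_powerset.1 hT))
  · intro T _; exact rvT_rvT T
  · intro T _; exact rvT_rvT T
  · intro T _
    congr 1
    apply Finset.prod_nbij' rve rve
    · intro e he; exact rve_allE.2 he
    · intro e he; exact rve_allE.2 he
    · intro e _; exact rve_rve e
    · intro e _; exact rve_rve e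
    · intro e _
      have h : e ∈ T ↔ rve e ∈ rvT T := by rw [mem_rvT, rve_rve]
      by_cases h2 : e ∈ T
      · rw [if_pos h2, if_pos (h.1 h2)]
      · rw [if_neg h2, if_neg (fun h3 => h2 (h.2 h3))]

lemma gle_rvT_aux {T : Finset (Sym2 (Fin n))} {x y : Fin n} (h : gle (rvT T) x y) :
    gle T (Fin.rev y) (Fin.rev x) := by
  induction h with
  | refl => exact gle_refl _ _
  | @tail u v _ h2 ih =>
    refine gle_trans (gle_edge (Fin.rev_lt_rev.2 h2.1) ?_) ih
    have := mem_rvT.1 h2.2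
    rw [rve_mk, Sym2.eq_swap] at this
    exact this

lemma gle_rvT {T : Finset (Sym2 (Fin n))} {x y : Fin n} :
    gle (rvT T) x y ↔ gle T (Fin.rev y) (Fin.rev x) := by
  refine ⟨gle_rvT_aux, ?_⟩
  intro h
  have h2 : gle (rvT (rvT T)) (Fin.rev y) (Fin.rev x) := by rw [rvT_rvT]; exact h
  have h3 := gle_rvT_aux h2
  rwa [Fin.rev_rev, Fin.rev_rev] at h3

lemma card_ups_rvT {T : Finset (Sym2 (Fin n))} (x : Fin n) :
    (ups (rvT T) (Fin.rev x)).card = (dns T x).card := by
  have h : ups (rvT T) (Fin.rev x) = (dns T x).image Fin.rev := by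
    ext v
    rw [mem_ups, gle_rvT, Finset.mem_image, Fin.rev_rev]
    constructor
    · intro h
      exact ⟨Fin.rev v, mem_dns.2 h, Fin.rev_rev v⟩
    · rintro ⟨w, hw, rfl⟩
      rw [Fin.rev_rev]
      exact mem_dns.1 hw
  rw [h, Finset.card_image_of_injective _ Fin.rev_injective]

open Classical in
lemma KeyRev.reverse {T : Finset (Sym2 (Fin n))} {F : Finset (Fin n → ℕ)}
    {R : Fin n → Fin n → Prop} (h : KeyRev (rvT T) F R) :
    ∃ F' : Finset (Fin n → ℕ), F'.card ≤ F.card ∧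
      KeyRev T F' (fun x y => R (Fin.rev y) (Fin.rev x)) := by
  set N : (Fin n → ℕ) → ℕ := fun f => Finset.univ.sup f with hN
  have hle : ∀ (f : Fin n → ℕ) (v : Fin n), f v ≤ N f := fun f v =>
    Finset.le_sup (f := f) (Finset.mem_univ v)
  set φ : (Fin n → ℕ) → (Fin n → ℕ) := fun f v => N f - f (Fin.rev v) with hφ
  refine ⟨F.image φ, Finset.card_image_le, ?_, ?_⟩
  · intro g hg x y hxy
    obtain ⟨f, hf, rfl⟩ := Finset.mem_image.1 hg
    have h1 : gle (rvT T) (Fin.rev y) (Fin.rev x) := by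
      rw [gle_rvT, Fin.rev_rev, Fin.rev_rev]; exact hxy
    have h2 := h.1 f hf _ _ h1
    show N f - f (Fin.rev x) ≤ N f - f (Fin.rev y)
    omega
  · intro x y hR hxy
    have h1 : ¬ gle (rvT T) (Fin.rev y) (Fin.rev x) := by
      rw [gle_rvT, Fin.rev_rev, Fin.rev_rev]; exact hxy
    obtain ⟨f, hf, h2⟩ := h.2 _ _ hR h1
    refine ⟨φ f, Finset.mem_image_of_mem _ hf, ?_⟩
    show N f - f (Fin.rev y) < N f - f (Fin.rev x) ∨
      (N f - f (Fin.rev y) = N f - f (Fin.rev x) ∧ y < x)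
    have h3 := hle f (Fin.rev x)
    have h4 := hle f (Fin.rev y)
    rcases h2 with h5 | h5
    · left; omega
    · right
      exact ⟨by omega, Fin.rev_lt_rev.1 h5.2⟩

theorem has_of_good {T : Finset (Sym2 (Fin n))} {M d h s b r t : ℕ} (g : GoodT T M d h s)
    (g' : GoodT (rvT T) M d h s) (hs : 4 * (d + 5 * h + 1) ≤ s) (hM : 1 ≤ M) (hr : 1 ≤ r)
    (hb : 4 * M ^ (r + 3) ≤ 2 ^ (b * r))
    (ht : (1 - 1 / (3 * ((r:ℝ) + 1))) ^ t * (((M * M + 1) * (M * M + 2) ^ r : ℕ) : ℝ) < 1) :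
    Has T ((20 + 2 ^ b * (t * 2) : ℕ) : ℝ) := by
  classical
  obtain ⟨F1, c1, k1⟩ := g.keys hs
  obtain ⟨F2', c2', k2'⟩ := g'.keys hs
  obtain ⟨F2, c2, k2⟩ := k2'.reverse
  obtain ⟨F3, c3, k3⟩ := normal_keys (T := T) hM hr (X := Finset.univ.filter fun x => (ups T x).card ≤ M)
    (Y := Finset.univ.filter fun y => (dns T y).card ≤ M)
    (fun x hx => (Finset.mem_filter.1 hx).2) (fun y hy => (Finset.mem_filter.1 hy).2) hb ht
  have k := (k1.union k2).union k3
  have hcard : (F1 ∪ F2 ∪ F3).card ≤ 20 + 2 ^ b * (t * 2) := by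
    have h1 := Finset.card_union_le (F1 ∪ F2) F3
    have h2 := Finset.card_union_le F1 F2
    omega
  have k' : KeyRev T (F1 ∪ F2 ∪ F3) (fun _ _ => True) := by
    refine ⟨k.1, ?_⟩
    intro x y _ hxy
    apply k.2 x y _ hxy
    by_cases h1 : x ∈ SS T M
    · exact Or.inl (Or.inl h1)
    · by_cases h2 : Fin.rev y ∈ SS (rvT T) M
      · exact Or.inl (Or.inr h2)
      · right
        constructor
        · rw [Finset.mem_filter]
          refine ⟨Finset.mem_univ _, ?_⟩
          by_contra hcon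
          push Not at hcon
          exact h1 (Hv_SS hcon)
        · rw [Finset.mem_filter]
          refine ⟨Finset.mem_univ _, ?_⟩
          by_contra hcon
          push Not at hcon
          apply h2
          apply Hv_SS
          unfold Hv
          rw [card_ups_rvT]
          exact hcon
  apply k'.has
  exact_mod_cast hcard

end Pool.Agent.H1.RO
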