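import Pool.Agent.H1.CC.LowerA

/-!
Tail bounds for random subsets of a finite set, fresh randomness.
-/

set_option autoImplicit false
set_option linter.unusedSectionVars false

namespace Pool.Agent.H1.RO

open Finset Pool.Agent.H1.CC

section gen

variable {E : Type*} [DecidableEq E]

lemma Ex_pow_inter {p z : ℝ} {S F : Finset E} (hF : F ⊆ S) :
    Ex p S (fun T => z ^ (F ∩ T).card) = (1 - p + p * z) ^ F.card := by
  have hd : Dep (fun T => z ^ (F ∩ T).card) F := by
    intro T
    beta_reduce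
    congr 2
    rw [Finset.inter_comm T F, ← Finset.inter_assoc, Finset.inter_self]
  rw [Ex_dep hd hF]
  have h1 : Ex p F (fun T => z ^ (F ∩ T).card) = Ex p F (fun T => z ^ T.card) :=
    Ex_congr fun T hT => by rw [Finset.inter_eq_right.2 hT]
  rw [h1]
  clear hd h1 hF
  induction F using Finset.induction_on with
  | empty => simp
  | insert e F he ih =>
    rw [Ex_insert he, ih, Finset.card_insert_of_notMem he]
    have h2 : Ex p F (fun T => z ^ (insert e T).card) = Ex p F (fun T => z ^ T.card * z) :=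
      Ex_congr fun T hT => by
        rw [Finset.card_insert_of_notMem (fun h => he (hT h)), pow_succ]
    rw [h2, Ex_mul_const, ih]
    ring

/-- fresh randomness -/
lemma Pr_fresh {p : ℝ} (h0 : 0 ≤ p) (h1 : p ≤ 1) {S A B : Finset E} (hA : A ⊆ S) (hB : B ⊆ S)
    (hAB : Disjoint A B) {β : Type*} (X : Finset E → β) (hX : ∀ T, X T = X (T ∩ A))
    (Q : β → Finset E → Prop) (R : β → Prop)
    (hQ : ∀ x, R x → ∀ T, (Q x T ↔ Q x (T ∩ B)))
    {q : ℝ} (hq : 0 ≤ q) (h : ∀ x, R x → Pr p S (Q x) ≤ q) :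
    Pr p S (fun T => R (X T) ∧ Q (X T) T) ≤ q := by
  unfold Pr
  have e0 : ∀ T, (T ∩ (A ∪ B)) ∩ A = T ∩ A := by
    intro T
    rw [Finset.inter_assoc, Finset.inter_eq_right.2 Finset.subset_union_left]
  have e1 : ∀ T, (T ∩ (A ∪ B)) ∩ B = T ∩ B := by
    intro T
    rw [Finset.inter_assoc, Finset.inter_eq_right.2 Finset.subset_union_right]
  have hdep : Dep (fun T => ind (R (X T) ∧ Q (X T) T)) (A ∪ B) := by
    intro T
    apply ind_congr
    have h2 : X (T ∩ (A ∪ B)) = X T := by rw [hX (T ∩ (A ∪ B)), e0, ← hX]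
    rw [h2]
    constructor
    · rintro ⟨hr, hq'⟩
      refine ⟨hr, ?_⟩
      rw [hQ _ hr, e1, ← hQ _ hr]
      exact hq'
    · rintro ⟨hr, hq'⟩
      refine ⟨hr, ?_⟩
      rw [hQ _ hr, e1, ← hQ _ hr] at hq'
      exact hq'
  rw [Ex_dep hdep (Finset.union_subset hA hB), Ex_union hAB]
  have key : ∀ T₁ ⊆ A, Ex p B (fun T₂ => ind (R (X (T₁ ∪ T₂)) ∧ Q (X (T₁ ∪ T₂)) (T₁ ∪ T₂))) ≤ q := by
    intro T₁ hT₁
    have hx : ∀ T₂ ⊆ B, X (T₁ ∪ T₂) = X T₁ := by
      intro T₂ hT₂
      rw [hX (T₁ ∪ T₂), Finset.union_inter_distrib_right]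
      have h3 : T₂ ∩ A = ∅ := by
        rw [← Finset.disjoint_iff_inter_eq_empty]
        exact Finset.disjoint_of_subset_left hT₂ hAB.symm
      rw [h3, Finset.union_empty, ← hX]
    by_cases hR : R (X T₁)
    · have h4 : Ex p B (fun T₂ => ind (R (X (T₁ ∪ T₂)) ∧ Q (X (T₁ ∪ T₂)) (T₁ ∪ T₂))) =
          Ex p B (fun T₂ => ind (Q (X T₁) T₂)) := by
        apply Ex_congr
        intro T₂ hT₂
        rw [hx T₂ hT₂]
        apply ind_congr
        have h5 : (T₁ ∪ T₂) ∩ B = T₂ ∩ B := by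
          rw [Finset.union_inter_distrib_right]
          have h3 : T₁ ∩ B = ∅ := by
            rw [← Finset.disjoint_iff_inter_eq_empty]
            exact Finset.disjoint_of_subset_left hT₁ hAB
          rw [h3, Finset.empty_union]
        rw [hQ _ hR (T₁ ∪ T₂), h5, ← hQ _ hR]
        exact ⟨fun h => h.2, fun h => ⟨hR, h⟩⟩
      rw [h4]
      have h6 : Dep (fun T₂ => ind (Q (X T₁) T₂)) B := fun T => ind_congr (hQ _ hR T)
      rw [← Ex_dep h6 hB]
      exact h _ hR
    · have h4 : Ex p B (fun T₂ => ind (R (X (T₁ ∪ T₂)) ∧ Q (X (T₁ ∪ T₂)) (T₁ ∪ T₂))) =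
          Ex p B (fun _ => 0) := by
        apply Ex_congr
        intro T₂ hT₂
        rw [hx T₂ hT₂]
        exact ind_not_of fun h => hR h.1
      rw [h4, Ex_const]
      exact hq
  calc _ ≤ Ex p A (fun _ => q) := Ex_mono h0 h1 key
    _ = q := Ex_const q

end gen

lemma one_sub_exp_neg {x : ℝ} (hx : 0 ≤ x) : x - x ^ 2 / 2 ≤ 1 - Real.exp (-x) := by
  have h1 := Real.quadratic_le_exp_of_nonneg hx
  have h2 : Real.exp (-x) ≤ 1 - x + x ^ 2 / 2 := by
    rw [Real.exp_neg, inv_le_iff_one_le_mul₀ (Real.exp_pos x)]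
    have h3 : 0 ≤ 1 - x + x ^ 2 / 2 := by nlinarith [sq_nonneg (x - 1)]
    nlinarith [mul_le_mul_of_nonneg_left h1 h3, pow_nonneg hx 4]
  linarith

variable {V : Type*} [DecidableEq V] [Fintype V]

/-- lower tail of the number of edges between two disjoint sets -/
lemma prob_eb_low {p : ℝ} (h0 : 0 ≤ p) (h1 : p ≤ 1) {A B : Finset V} (hAB : Disjoint A B) :
    Pr p (allE V) (fun T => ((eb T A B : ℕ) : ℝ) < p * A.card * B.card / 2) ≤
      Real.exp (-(3 / 20 * (p * A.card * B.card))) := by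
  set μ : ℝ := p * A.card * B.card with hμ
  have hμ0 : 0 ≤ μ := by positivity
  have step1 : Pr p (allE V) (fun T => ((eb T A B : ℕ) : ℝ) < μ / 2) ≤
      Pr p (allE V) (fun T => (1/2 : ℝ) ^ (μ / 2) ≤ (1/2 : ℝ) ^ (btw A B ∩ T).card) := by
    apply Pr_mono h0 h1
    intro T _ h
    have h2 : ((btw A B ∩ T).card : ℝ) < μ / 2 := h
    rw [← Real.rpow_natCast]
    exact Real.rpow_le_rpow_of_exponent_ge (by norm_num) (by norm_num) h2.le
  refine step1.trans ((markov h0 h1 (fun T _ => by positivity) (by positivity)).trans ?_)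
  rw [Ex_pow_inter (btw_subset_allE hAB), card_btw hAB]
  have e1 : 1 - p + p * (1/2) = 1 - p / 2 := by ring
  rw [e1, div_le_iff₀ (by positivity)]
  have e2 : 1 - p / 2 ≤ Real.exp (-(p / 2)) := by
    have := Real.add_one_le_exp (-(p / 2)); linarith
  have e3 : (1 - p / 2) ^ (A.card * B.card) ≤ Real.exp (-(μ / 2)) := by
    calc (1 - p / 2) ^ (A.card * B.card) ≤ (Real.exp (-(p / 2))) ^ (A.card * B.card) :=
          pow_le_pow_left₀ (by linarith) e2 _
      _ = Real.exp (-(μ / 2)) := by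
          rw [← Real.exp_nat_mul]
          congr 1
          rw [hμ]; push_cast; ring
  refine e3.trans ?_
  have e4 : (1/2 : ℝ) ^ (μ / 2) = Real.exp (-(Real.log 2 * (μ / 2))) := by
    rw [Real.rpow_def_of_pos (by norm_num)]
    congr 1
    rw [one_div, Real.log_inv]; ring
  rw [e4, ← Real.exp_add]
  apply Real.exp_le_exp.2
  have := Real.log_two_lt_d9
  nlinarith

/-- vertices of `W` with a neighbour in `G` -/
def nnb (T : Finset (Sym2 V)) (G W : Finset V) : Finset V :=
  W.filter fun v => ∃ u ∈ G, s(v, u) ∈ T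

lemma mem_nnb {T : Finset (Sym2 V)} {G W : Finset V} {v : V} :
    v ∈ nnb T G W ↔ v ∈ W ∧ ∃ u ∈ G, s(v, u) ∈ T := by
  unfold nnb; exact Finset.mem_filter

lemma nnb_subset (T : Finset (Sym2 V)) (G W : Finset V) : nnb T G W ⊆ W :=
  Finset.filter_subset _ _

lemma nnb_mono {T : Finset (Sym2 V)} {G G' W W' : Finset V} (hG : G ⊆ G') (hW : W ⊆ W') :
    nnb T G W ⊆ nnb T G' W' := by
  intro v hv
  rw [mem_nnb] at hv ⊢
  obtain ⟨h1, u, hu, h2⟩ := hv
  exact ⟨hW h1, u, hG hu, h2⟩

lemma prob_nnb_aux {p : ℝ} (h0 : 0 ≤ p) (h1 : p ≤ 1) {G W : Finset V} (hGW : Disjoint G W)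
    {u : ℝ} (hu : 0 ≤ u) (x : ℝ) :
    Pr p (allE V) (fun T => ((nnb T G W).card : ℝ) < x) ≤
      Real.exp (u * x - W.card * ((1 - (1 - p) ^ G.card) * (1 - Real.exp (-u)))) := by
  classical
  set c : ℝ := 1 - Real.exp (-u) with hc
  have hc0 : 0 ≤ c := by
    have : Real.exp (-u) ≤ 1 := Real.exp_le_one_iff.2 (by linarith)
    rw [hc]; linarith
  have hc1 : c ≤ 1 := by rw [hc]; linarith [Real.exp_pos (-u)]
  have step1 : Pr p (allE V) (fun T => ((nnb T G W).card : ℝ) < x) ≤
      Pr p (allE V) (fun T => Real.exp (-(u * x)) ≤ Real.exp (-(u * ((nnb T G W).card : ℝ)))) := by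
    apply Pr_mono h0 h1
    intro T _ h
    apply Real.exp_le_exp.2
    have := mul_le_mul_of_nonneg_left h.le hu
    linarith
  refine step1.trans ((markov h0 h1 (fun T _ => (Real.exp_pos _).le) (Real.exp_pos _)).trans ?_)
  have hexp : ∀ T ⊆ allE V, Real.exp (-(u * ((nnb T G W).card : ℝ))) =
      ∏ v ∈ W, (1 - c * ind (¬ Disjoint T (star v G))) := by
    intro T hT
    have e1 : nnb T G W = W.filter fun v => ¬ Disjoint T (star v G) := by
      ext v
      rw [mem_nnb, Finset.mem_filter, star_disjoint_iff]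
      push Not
      rfl
    rw [← Finset.prod_filter_mul_prod_filter_not W (fun v => ¬ Disjoint T (star v G)), ← e1]
    rw [Finset.prod_congr rfl (g := fun _ => Real.exp (-u)), Finset.prod_const,
      Finset.prod_congr rfl (g := fun _ => (1:ℝ)), Finset.prod_const_one, mul_one,
      ← Real.exp_nat_mul]
    · congr 1; ring
    · intro v hv
      rw [ind_not_of (Finset.mem_filter.1 hv).2]; ring
    · intro v hv
      rw [e1] at hv
      rw [ind_of (Finset.mem_filter.1 hv).2, hc]; ring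
  rw [Ex_congr hexp]
  rw [Ex_prod_indep W (fun v => star v G)]
  · have e2 : ∀ v ∈ W, Ex p (allE V) (fun T => 1 - c * ind (¬ Disjoint T (star v G))) =
        1 - c * (1 - (1 - p) ^ G.card) := by
      intro v hv
      rw [Ex_sub, Ex_const, Ex_const_mul]
      have hvG : v ∉ G := fun h => Finset.disjoint_left.1 hGW h hv
      simp only [ind_not]
      rw [Ex_sub, Ex_const, Ex_disjoint (star_subset_allE hvG), card_star]
    rw [Finset.prod_congr rfl e2, Finset.prod_const]
    set q : ℝ := 1 - (1 - p) ^ G.card with hq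
    have hq0 : 0 ≤ q := by
      have := pow_le_one₀ (n := G.card) (by linarith : 0 ≤ 1 - p) (by linarith)
      rw [hq]; linarith
    have hq1 : q ≤ 1 := by
      have := pow_nonneg (by linarith : 0 ≤ 1 - p) G.card
      rw [hq]; linarith
    have e3 : (1 - c * q) ≤ Real.exp (-(c * q)) := by
      have := Real.add_one_le_exp (-(c * q))
      linarith
    have e4 : (1 - c * q) ^ W.card ≤ Real.exp (-(W.card * (c * q))) := by
      calc (1 - c * q) ^ W.card ≤ (Real.exp (-(c * q))) ^ W.card := by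
            apply pow_le_pow_left₀ _ e3
            have : c * q ≤ 1 := mul_le_one₀ hc1 hq0 hq1
            linarith
        _ = _ := by rw [← Real.exp_nat_mul]; congr 1; ring
    rw [div_le_iff₀ (Real.exp_pos _), ← Real.exp_add]
    refine e4.trans (Real.exp_le_exp.2 ?_)
    have : -(↑W.card * (c * q)) = u * x - W.card * (q * c) + -(u * x) := by ring
    exact this.le
  · intro v _ T
    beta_reduce
    rw [ind_not, ind_not]
    congr 3
    exact dep_star_disjoint (star v G) T
  · intro v hv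
    exact star_subset_allE fun h => Finset.disjoint_left.1 hGW h hv
  · intro v hv w hw hvw
    exact star_disjoint_star hvw (Or.inl fun h => Finset.disjoint_left.1 hGW h hv)

/-- lower tail of the number of new neighbours -/
lemma prob_nnb {p : ℝ} (h0 : 0 ≤ p) (h1 : p ≤ 1) {G W : Finset V} (hGW : Disjoint G W)
    {e t : ℝ} (he0 : 0 < e) (he1 : e ≤ 1) (ht0 : 0 ≤ t) (hte : t ≤ e) (htg : t ≤ p * G.card) :
    Pr p (allE V) (fun T => ((nnb T G W).card : ℝ) < (1 - e) * W.card * t) ≤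
      Real.exp (-(e ^ 2 / 8 * (W.card * t))) := by
  refine (prob_nnb_aux h0 h1 hGW (u := e / 2) (by linarith) _).trans (Real.exp_le_exp.2 ?_)
  have hw : (0:ℝ) ≤ W.card := Nat.cast_nonneg _
  have a1 : t * (1 - e / 2) ≤ 1 - (1 - p) ^ G.card := by
    have b1 : (1 - p) ^ G.card ≤ Real.exp (-t) := by
      calc (1 - p) ^ G.card ≤ (Real.exp (-p)) ^ G.card :=
            pow_le_pow_left₀ (by linarith) (by have := Real.add_one_le_exp (-p); linarith) _
        _ = Real.exp (-(p * G.card)) := by rw [← Real.exp_nat_mul]; congr 1; ring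
        _ ≤ Real.exp (-t) := Real.exp_le_exp.2 (by linarith)
    have b2 := one_sub_exp_neg ht0
    nlinarith
  have a2 : e / 2 * (1 - e / 4) ≤ 1 - Real.exp (-(e / 2)) := by
    have b2 := one_sub_exp_neg (x := e / 2) (by linarith)
    nlinarith
  have a3 : t * (1 - e / 2) * (e / 2 * (1 - e / 4)) ≤
      (1 - (1 - p) ^ G.card) * (1 - Real.exp (-(e / 2))) :=
    mul_le_mul a1 a2 (by nlinarith) (le_trans (by nlinarith) a1)
  have a4 := mul_le_mul_of_nonneg_left a3 hw
  have a5 : 0 ≤ (W.card : ℝ) * t := mul_nonneg hw ht0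
  have a6 : 0 ≤ (W.card : ℝ) * t * e ^ 3 := by positivity
  nlinarith

end Pool.Agent.H1.RO
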