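import Pool.Agent.H1.RO.LowerD

/-!
Upper bounds for the dimension: realisers from keys, greedy choice of random sets,
moments of the size of an up-set.
-/

set_option autoImplicit false
set_option linter.unusedSectionVars false

namespace Pool.Agent.H1.RO

open Finset Pool.Agent.H1.CC Filter

variable {n : ℕ}

lemma gle_antisymm {T : Finset (Sym2 (Fin n))} {a b : Fin n} (h : gle T a b) (h' : gle T b a) :
    a = b := le_antisymm (gle_le h) (gle_le h')

/-- a realiser from monotone keys, ties are broken by the natural order -/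
lemma real_of_keys {T : Finset (Sym2 (Fin n))} {k : ℕ} (f : Fin k → Fin n → ℕ)
    (hmono : ∀ i x y, gle T x y → f i x ≤ f i y)
    (hsep : ∀ x y, ¬ gle T x y → ∃ i, f i y < f i x ∨ (f i y = f i x ∧ y < x)) :
    ∃ L : Fin k → Fin n → Fin n → Prop, IsRealiser (gle T) L := by
  refine ⟨fun i x y => f i x < f i y ∨ (f i x = f i y ∧ x ≤ y), ?_, ?_⟩
  · intro i
    refine ⟨fun x => Or.inr ⟨rfl, le_rfl⟩, ?_, ?_, ?_⟩
    · rintro x y z (h | h) (h' | h')
      · exact Or.inl (h.trans h')
      · exact Or.inl (by rw [← h'.1]; exact h)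
      · exact Or.inl (by rw [h.1]; exact h')
      · exact Or.inr ⟨h.1.trans h'.1, h.2.trans h'.2⟩
    · rintro x y (h | h) (h' | h')
      · omega
      · omega
      · omega
      · exact le_antisymm h.2 h'.2
    · intro x y
      rcases lt_trichotomy (f i x) (f i y) with h | h | h
      · exact Or.inl (Or.inl h)
      · rcases le_total x y with h' | h'
        · exact Or.inl (Or.inr ⟨h, h'⟩)
        · exact Or.inr (Or.inr ⟨h.symm, h'⟩)
      · exact Or.inr (Or.inl h)
  · intro x y
    constructor
    · intro h i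
      rcases (hmono i x y h).lt_or_eq with h1 | h1
      · exact Or.inl h1
      · exact Or.inr ⟨h1, gle_le h⟩
    · intro h
      by_contra hcon
      obtain ⟨i, hi⟩ := hsep x y hcon
      rcases h i with h1 | h1 <;> rcases hi with h2 | h2
      · omega
      · omega
      · omega
      · exact absurd h1.2 (not_le.2 h2.2)

section greedy

variable {E : Type*} [DecidableEq E]

lemma exists_ge_of_Ex {p : ℝ} (h0 : 0 ≤ p) (h1 : p ≤ 1) {S : Finset E} {f : Finset E → ℝ} {c : ℝ}
    (h : c ≤ Ex p S f) : ∃ T ⊆ S, c ≤ f T := by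
  by_contra hcon
  push Not at hcon
  obtain ⟨T, hT, hmax⟩ := Finset.exists_max_image S.powerset f ⟨S, Finset.mem_powerset_self S⟩
  have h2 : Ex p S f ≤ f T := by
    have := Ex_mono (S := S) h0 h1 (f := f) (g := fun _ => f T)
      fun T' hT' => hmax T' (Finset.mem_powerset.2 hT')
    rwa [Ex_const] at this
  have h3 := hcon T (Finset.mem_powerset.1 hT)
  linarith

open Classical in
lemma greedy {ι : Type*} {p : ℝ} (h0 : 0 ≤ p) (h1 : p ≤ 1) {S : Finset E} (Q : Finset ι)
    (good : ι → Finset E → Prop) {δ : ℝ} (h : ∀ i ∈ Q, δ ≤ Pr p S (good i)) (k : ℕ) :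
    ∃ F : Fin k → Finset E, (∀ j, F j ⊆ S) ∧
      (((Q.filter fun i => ∀ j, ¬ good i (F j)).card : ℕ) : ℝ) ≤ (1 - δ) ^ k * Q.card := by
  induction k with
  | zero =>
    refine ⟨fun j => j.elim0, fun j => j.elim0, ?_⟩
    rw [pow_zero, one_mul]
    exact_mod_cast Finset.card_filter_le _ _
  | succ k ih =>
    obtain ⟨F, hF, hc⟩ := ih
    set Q' := Q.filter fun i => ∀ j, ¬ good i (F j) with hQ'
    have h2 : δ * Q'.card ≤ Ex p S (fun R => (((Q'.filter fun i => good i R).card : ℕ) : ℝ)) := by
      have e1 : Ex p S (fun R => (((Q'.filter fun i => good i R).card : ℕ) : ℝ)) =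
          ∑ i ∈ Q', Pr p S (good i) := by
        unfold Pr
        rw [← Ex_sum]
        apply Ex_congr
        intro R _
        rw [Finset.card_filter, Nat.cast_sum]
        apply Finset.sum_congr rfl
        intro i _
        by_cases hg : good i R
        · rw [if_pos hg, ind_of hg, Nat.cast_one]
        · rw [if_neg hg, ind_not_of hg, Nat.cast_zero]
      rw [e1]
      calc δ * Q'.card = ∑ _i ∈ Q', δ := by rw [Finset.sum_const, nsmul_eq_mul]; ring
        _ ≤ _ := Finset.sum_le_sum fun i hi => h i (Finset.mem_filter.1 hi).1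
    obtain ⟨R, hR, hR2⟩ := exists_ge_of_Ex h0 h1 h2
    refine ⟨Fin.cons R F, ?_, ?_⟩
    · intro j
      refine Fin.cases ?_ (fun j => ?_) j
      · exact hR
      · exact hF j
    · have h3 : (Q.filter fun i => ∀ j : Fin (k + 1), ¬ good i (Fin.cons (α := fun _ => Finset E) R F j)) =
          Q'.filter fun i => ¬ good i R := by
        ext i
        rw [hQ', Finset.mem_filter, Finset.mem_filter, Finset.mem_filter]
        constructor
        · rintro ⟨h4, h5⟩
          exact ⟨⟨h4, fun j => h5 j.succ⟩, h5 0⟩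
        · rintro ⟨⟨h4, h5⟩, h6⟩
          refine ⟨h4, fun j => ?_⟩
          refine Fin.cases ?_ (fun j => ?_) j
          · exact h6
          · exact h5 j
      rw [h3]
      have h4 : (Q'.filter fun i => good i R).card + (Q'.filter fun i => ¬ good i R).card =
          Q'.card := Finset.card_filter_add_card_filter_not _
      have h5 : (((Q'.filter fun i => good i R).card : ℕ) : ℝ) +
          (((Q'.filter fun i => ¬ good i R).card : ℕ) : ℝ) = Q'.card := by exact_mod_cast h4
      by_cases hδ : δ ≤ 1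
      · calc (((Q'.filter fun i => ¬ good i R).card : ℕ) : ℝ) ≤ (1 - δ) * Q'.card := by linarith
          _ ≤ (1 - δ) * ((1 - δ) ^ k * Q.card) := mul_le_mul_of_nonneg_left hc (by linarith)
          _ = (1 - δ) ^ (k + 1) * Q.card := by ring
      · -- δ > 1 forces Q empty
        have hQe : Q = ∅ := by
          by_contra hne
          obtain ⟨i, hi⟩ := Finset.nonempty_iff_ne_empty.2 hne
          have := h i hi
          have := Pr_le_one (S := S) h0 h1 (good i)
          linarith
        subst hQe
        simp [hQ']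

end greedy

/-- up-sets -/
noncomputable def ups (T : Finset (Sym2 (Fin n))) (x : Fin n) : Finset (Fin n) := by
  classical exact Finset.univ.filter fun z => gle T x z

lemma mem_ups {T : Finset (Sym2 (Fin n))} {x z : Fin n} : z ∈ ups T x ↔ gle T x z := by
  unfold ups; simp

lemma ups_mono {T : Finset (Sym2 (Fin n))} {x y : Fin n} (h : gle T x y) : ups T y ⊆ ups T x := by
  intro z hz
  rw [mem_ups] at hz ⊢
  exact gle_trans h hz

/-- for fixed `x` and `y` not above `x`, a random set contains `y` and avoids the up-set of `x` -/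
lemma prob_sep {Δ : ℕ} (hΔ : 1 ≤ Δ) {U : Finset (Fin n)} {y : Fin n} (hy : y ∉ U)
    (hU : U.card ≤ Δ) :
    1 / (3 * ((Δ:ℝ) + 1)) ≤ Pr (1 / ((Δ:ℝ) + 1)) (Finset.univ : Finset (Fin n))
      (fun R => y ∈ R ∧ Disjoint R U) := by
  set q : ℝ := 1 / ((Δ:ℝ) + 1) with hq
  have hΔ' : (1:ℝ) ≤ Δ := by exact_mod_cast hΔ
  have hq0 : 0 < q := by positivity
  have hq1 : q ≤ 1 := by rw [hq, div_le_one (by positivity)]; linarith
  have e1 : Pr q (Finset.univ : Finset (Fin n)) (fun R => y ∈ R ∧ Disjoint R U) =
      q * (1 - q) ^ U.card := by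
    unfold Pr
    simp only [ind_and]
    have d1 : Dep (fun R : Finset (Fin n) => ind (y ∈ R)) {y} := by
      intro R; apply ind_congr; simp
    have d2 : Dep (fun R : Finset (Fin n) => ind (Disjoint R U)) U := by
      intro R; apply ind_congr
      rw [Finset.disjoint_iff_inter_eq_empty, Finset.disjoint_iff_inter_eq_empty,
        Finset.inter_assoc, Finset.inter_self]
    rw [Ex_mul_indep d1 d2 (Finset.disjoint_singleton_left.2 hy) (Finset.subset_univ _)
      (Finset.subset_univ _), Ex_disjoint (Finset.subset_univ _)]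
    congr 1
    have := Ex_subset (p := q) (S := (Finset.univ : Finset (Fin n))) (F := {y})
      (Finset.subset_univ _)
    simp only [Finset.singleton_subset_iff, Finset.card_singleton, pow_one] at this
    exact this
  rw [e1]
  have e2 : (1 - q) ^ Δ ≤ (1 - q) ^ U.card := pow_le_pow_of_le_one (by linarith) (by linarith) hU
  have e3 : 1 / 3 ≤ (1 - q) ^ Δ := by
    have h1 : 1 - q = 1 / (1 + 1 / (Δ:ℝ)) := by
      rw [hq]; field_simp; ring
    rw [h1, div_pow, one_pow]
    have h2 : (1 + 1 / (Δ:ℝ)) ^ Δ ≤ Real.exp 1 := by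
      calc (1 + 1 / (Δ:ℝ)) ^ Δ ≤ (Real.exp (1 / (Δ:ℝ))) ^ Δ := by
            apply pow_le_pow_left₀ (by positivity)
            have := Real.add_one_le_exp (1 / (Δ:ℝ)); linarith
        _ = Real.exp 1 := by rw [← Real.exp_nat_mul]; congr 1; field_simp
    apply one_div_le_one_div_of_le (by positivity)
    have := Real.exp_one_lt_d9
    linarith
  calc 1 / (3 * ((Δ:ℝ) + 1)) = q * (1 / 3) := by rw [hq]; field_simp
    _ ≤ q * (1 - q) ^ U.card := mul_le_mul_of_nonneg_left (e3.trans e2) hq0.le

open Classical in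
/-- bounded up-sets give a small realiser -/
lemma real_of_ups {T : Finset (Sym2 (Fin n))} {Δ k : ℕ} (hΔ : 1 ≤ Δ)
    (hU : ∀ x, (ups T x).card ≤ Δ)
    (hk : (1 - 1 / (3 * ((Δ:ℝ) + 1))) ^ k * (n:ℝ) ^ 2 < 1) :
    ∃ L : Fin k → Fin n → Fin n → Prop, IsRealiser (gle T) L := by
  have hq0 : 0 ≤ 1 / ((Δ:ℝ) + 1) := by positivity
  have hq1 : 1 / ((Δ:ℝ) + 1) ≤ 1 := by
    rw [div_le_one (by positivity)]; linarith [Nat.cast_nonneg (α := ℝ) Δ]
  set Q : Finset (Fin n × Fin n) := Finset.univ.filter fun z => ¬ gle T z.1 z.2 with hQ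
  obtain ⟨F, hF, hc⟩ := greedy hq0 hq1 (S := (Finset.univ : Finset (Fin n))) Q
    (fun z R => z.2 ∈ R ∧ Disjoint R (ups T z.1)) (δ := 1 / (3 * ((Δ:ℝ) + 1))) (by
      intro z hz
      apply prob_sep hΔ _ (hU z.1)
      rw [mem_ups]
      exact (Finset.mem_filter.1 hz).2) k
  have hQn : (Q.card : ℝ) ≤ (n:ℝ) ^ 2 := by
    have h1 : Q.card ≤ n * n := by
      refine (Finset.card_filter_le _ _).trans ?_
      rw [Finset.card_univ, Fintype.card_prod, Fintype.card_fin]
    rw [pow_two]; exact_mod_cast h1
  have h0' : 0 ≤ 1 - 1 / (3 * ((Δ:ℝ) + 1)) := by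
    have : 1 / (3 * ((Δ:ℝ) + 1)) ≤ 1 := by
      rw [div_le_one (by positivity)]; linarith [Nat.cast_nonneg (α := ℝ) Δ]
    linarith
  have hlt : (((Q.filter fun z => ∀ j, ¬ (z.2 ∈ F j ∧ Disjoint (F j) (ups T z.1))).card : ℕ) : ℝ) <
      1 := by
    refine lt_of_le_of_lt ?_ hk
    refine le_trans ?_ (mul_le_mul_of_nonneg_left hQn (pow_nonneg h0' _))
    refine le_trans (le_of_eq ?_) hc
    congr!
  have hemp : (Q.filter fun z => ∀ j, ¬ (z.2 ∈ F j ∧ Disjoint (F j) (ups T z.1))) = ∅ := by
    rw [← Finset.card_eq_zero]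
    have : (Q.filter fun z => ∀ j, ¬ (z.2 ∈ F j ∧ Disjoint (F j) (ups T z.1))).card < 1 := by
      exact_mod_cast hlt
    omega
  apply real_of_keys (fun i x => if ∃ z ∈ F i, gle T x z then 0 else 1)
  · intro i x y hxy
    by_cases h : ∃ z ∈ F i, gle T y z
    · obtain ⟨z, hz, hyz⟩ := h
      rw [if_pos ⟨z, hz, gle_trans hxy hyz⟩]
      exact Nat.zero_le _
    · rw [if_neg h]
      split_ifs <;> omega
  · intro x y hxy
    have h1 : (x, y) ∈ Q := Finset.mem_filter.2 ⟨Finset.mem_univ _, hxy⟩
    have h2 : ¬ ∀ j, ¬ (y ∈ F j ∧ Disjoint (F j) (ups T x)) := by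
      intro h3
      have : (x, y) ∈ (Q.filter fun z => ∀ j, ¬ (z.2 ∈ F j ∧ Disjoint (F j) (ups T z.1))) :=
        Finset.mem_filter.2 ⟨h1, h3⟩
      rw [hemp] at this
      exact absurd this (Finset.notMem_empty _)
    push Not at h2
    obtain ⟨i, hi1, hi2⟩ := h2
    refine ⟨i, Or.inl ?_⟩
    rw [if_pos ⟨y, hi1, gle_refl T y⟩, if_neg]
    · norm_num
    · rintro ⟨z, hz, hxz⟩
      exact Finset.disjoint_left.1 hi2 hz (mem_ups.2 hxz)

/-! ### moments -/

/-- the part of the up-set below `b` -/
noncomputable def upb (T : Finset (Sym2 (Fin n))) (x : Fin n) (b : ℕ) : Finset (Fin n) := by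
  classical exact Finset.univ.filter fun z => z.val < b ∧ gle T x z

lemma mem_upb {T : Finset (Sym2 (Fin n))} {x z : Fin n} {b : ℕ} :
    z ∈ upb T x b ↔ z.val < b ∧ gle T x z := by
  unfold upb; simp

lemma upb_inter {T : Finset (Sym2 (Fin n))} {x : Fin n} {b : ℕ} :
    upb (T ∩ ins (Finset.univ.filter fun v : Fin n => v.val < b)) x b = upb T x b := by
  ext z
  rw [mem_upb, mem_upb]
  constructor
  · rintro ⟨h1, h2⟩
    refine ⟨h1, (gle_inter (ins_mono ?_)).1 h2⟩
    intro v hv
    simp only [Finset.mem_filter, Finset.mem_univ, true_and] at hv ⊢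
    have : v.val ≤ z.val := hv
    omega
  · rintro ⟨h1, h2⟩
    refine ⟨h1, (gle_inter (ins_mono ?_)).2 h2⟩
    intro v hv
    simp only [Finset.mem_filter, Finset.mem_univ, true_and] at hv ⊢
    have : v.val ≤ z.val := hv
    omega

/-- generic one step bound: `φ` non-negative and non-decreasing -/
lemma upb_step {p : ℝ} (h0 : 0 ≤ p) (h1 : p ≤ 1) {x : Fin n} {b : ℕ} (hxb : x.val < b)
    {φ : ℕ → ℝ} (hφ : ∀ m, φ m ≤ φ (m + 1)) :
    Ex p (allE (Fin n)) (fun T => φ (upb T x (b + 1)).card) ≤
      Ex p (allE (Fin n)) (fun T => φ (upb T x b).card +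
        p * (((upb T x b).card : ℝ) * (φ ((upb T x b).card + 1) - φ (upb T x b).card))) := by
  classical
  by_cases hbn : b < n
  swap
  · have e1 : ∀ T : Finset (Sym2 (Fin n)), upb T x (b + 1) = upb T x b := by
      intro T
      ext z
      rw [mem_upb, mem_upb]
      have := z.isLt
      constructor
      · rintro ⟨h2, h3⟩; exact ⟨by omega, h3⟩
      · rintro ⟨h2, h3⟩; exact ⟨by omega, h3⟩
    apply Ex_mono h0 h1
    intro T _
    rw [e1]
    have h2 := hφ (upb T x b).card
    have h3 : 0 ≤ p * (((upb T x b).card : ℝ) * (φ ((upb T x b).card + 1) - φ (upb T x b).card)) :=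
      mul_nonneg h0 (mul_nonneg (Nat.cast_nonneg _) (by linarith))
    linarith
  set v : Fin n := ⟨b, hbn⟩ with hv
  set B : Finset (Fin n) := Finset.univ.filter fun u : Fin n => u.val < b with hB
  -- pointwise bound
  have hpt : ∀ T ⊆ allE (Fin n), φ (upb T x (b + 1)).card ≤ φ (upb T x b).card +
      ∑ u ∈ B, (ind (u ∈ upb T x b) * (φ ((upb T x b).card + 1) - φ (upb T x b).card)) *
        ind (s(u, v) ∈ T) := by
    intro T _
    have hnn : ∀ u ∈ B, 0 ≤ (ind (u ∈ upb T x b) *
        (φ ((upb T x b).card + 1) - φ (upb T x b).card)) * ind (s(u, v) ∈ T) := by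
      intro u _
      apply mul_nonneg (mul_nonneg (ind_nonneg _) _) (ind_nonneg _)
      linarith [hφ (upb T x b).card]
    by_cases hgv : gle T x v
    · have e1 : upb T x (b + 1) = insert v (upb T x b) := by
        ext z
        rw [Finset.mem_insert, mem_upb, mem_upb]
        constructor
        · rintro ⟨h2, h3⟩
          by_cases h4 : z.val = b
          · left; exact Fin.ext h4
          · right; exact ⟨by omega, h3⟩
        · rintro (h2 | ⟨h2, h3⟩)
          · rw [h2]; exact ⟨by simp [hv], hgv⟩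
          · exact ⟨by omega, h3⟩
      have hvn : v ∉ upb T x b := by
        rw [mem_upb]; simp [hv]
      rw [e1, Finset.card_insert_of_notMem hvn]
      -- last edge
      have hne : x ≠ v := by
        intro h; rw [h, hv] at hxb; simp at hxb
      rcases Relation.ReflTransGen.cases_tail hgv with h2 | ⟨u, h2, h3⟩
      · exact absurd h2.symm hne
      · have hub : u.val < b := h3.1
        have huB : u ∈ B := by rw [hB, Finset.mem_filter]; exact ⟨Finset.mem_univ _, hub⟩
        have huU : u ∈ upb T x b := mem_upb.2 ⟨hub, h2⟩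
        have h4 := Finset.single_le_sum hnn huB
        rw [ind_of huU, ind_of h3.2, one_mul, mul_one] at h4
        linarith
    · have e1 : upb T x (b + 1) = upb T x b := by
        ext z
        rw [mem_upb, mem_upb]
        constructor
        · rintro ⟨h2, h3⟩
          refine ⟨?_, h3⟩
          by_contra h4
          have : z = v := Fin.ext (by show z.val = b; omega)
          exact hgv (this ▸ h3)
        · rintro ⟨h2, h3⟩; exact ⟨by omega, h3⟩
      rw [e1]
      linarith [Finset.sum_nonneg hnn]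
  refine (Ex_mono h0 h1 hpt).trans ?_
  rw [Ex_add, Ex_add]
  apply add_le_add_right
  rw [Ex_sum]
  have hterm : ∀ u ∈ B, Ex p (allE (Fin n)) (fun T => (ind (u ∈ upb T x b) *
      (φ ((upb T x b).card + 1) - φ (upb T x b).card)) * ind (s(u, v) ∈ T)) =
      Ex p (allE (Fin n)) (fun T => (ind (u ∈ upb T x b) *
      (φ ((upb T x b).card + 1) - φ (upb T x b).card)) * p) := by
    intro u hu
    have hub : u.val < b := (Finset.mem_filter.1 hu).2
    have huv : u ≠ v := by
      intro h; rw [h, hv] at hub; simp at hub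
    have d1 : Dep (fun T => (ind (u ∈ upb T x b) *
      (φ ((upb T x b).card + 1) - φ (upb T x b).card))) (ins B) := by
      intro T
      beta_reduce
      rw [upb_inter]
    have d2 : Dep (fun T : Finset (Sym2 (Fin n)) => ind (s(u, v) ∈ T)) {s(u, v)} := by
      intro T; apply ind_congr; simp
    have hdis : Disjoint (ins B) {s(u, v)} := by
      rw [Finset.disjoint_singleton_right, mem_ins]
      intro h
      have := (Finset.mem_filter.1 h.2.1).2
      simp [hv] at this
    rw [Ex_mul_indep d1 d2 hdis (ins_subset_allE _)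
      (Finset.singleton_subset_iff.2 (mem_allE.2 huv)), Ex_mul_const]
    congr 1
    have := Ex_subset (p := p) (S := allE (Fin n)) (F := {s(u, v)})
      (Finset.singleton_subset_iff.2 (mem_allE.2 huv))
    simp only [Finset.singleton_subset_iff, Finset.card_singleton, pow_one] at this
    exact this
  rw [Finset.sum_congr rfl hterm, ← Ex_sum]
  apply le_of_eq
  apply Ex_congr
  intro T _
  rw [← Finset.sum_mul, ← Finset.sum_mul]
  have e2 : ∑ u ∈ B, ind (u ∈ upb T x b) = ((upb T x b).card : ℝ) := by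
    have e3 : ∀ u ∈ B, ind (u ∈ upb T x b) = if u ∈ upb T x b then (1:ℝ) else 0 := by
      intro u _
      by_cases h : u ∈ upb T x b
      · rw [ind_of h, if_pos h]
      · rw [ind_not_of h, if_neg h]
    rw [Finset.sum_congr rfl e3, Finset.sum_ite_mem, Finset.sum_const, nsmul_eq_mul, mul_one]
    congr 2
    apply Finset.inter_eq_right.2
    intro u hu
    rw [hB, Finset.mem_filter]
    exact ⟨Finset.mem_univ _, (mem_upb.1 hu).1⟩
  rw [e2]
  ring

/-- moment bound for the size of an up-set -/
lemma ups_moment {p : ℝ} (h0 : 0 ≤ p) (h1 : p ≤ 1) (x : Fin n) (j : ℕ) :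
    Ex p (allE (Fin n)) (fun T => (((ups T x).card.ascFactorial j : ℕ) : ℝ)) ≤
      j.factorial * (1 + p * j) ^ n := by
  have key : ∀ d : ℕ, Ex p (allE (Fin n))
      (fun T => (((upb T x (x.val + 1 + d)).card.ascFactorial j : ℕ) : ℝ)) ≤
      j.factorial * (1 + p * j) ^ d := by
    intro d
    induction d with
    | zero =>
      rw [pow_zero, mul_one, add_zero]
      have e1 : ∀ T ⊆ allE (Fin n), (((upb T x (x.val + 1)).card.ascFactorial j : ℕ) : ℝ) =
          j.factorial := by
        intro T _
        have : upb T x (x.val + 1) = {x} := by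
          ext z
          rw [mem_upb, Finset.mem_singleton]
          constructor
          · rintro ⟨h2, h3⟩
            have h4 : x.val ≤ z.val := gle_le h3
            exact Fin.ext (by omega)
          · rintro rfl
            exact ⟨by omega, gle_refl _ _⟩
        rw [this, Finset.card_singleton, Nat.one_ascFactorial]
      rw [Ex_congr e1, Ex_const]
    | succ d ih =>
      have hstep := upb_step h0 h1 (x := x) (b := x.val + 1 + d) (by omega)
        (φ := fun m => ((m.ascFactorial j : ℕ) : ℝ)) (fun m => by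
          have : m.ascFactorial j ≤ (m + 1).ascFactorial j := Nat.ascFactorial_le j (by omega)
          exact_mod_cast this)
      have e1 : x.val + 1 + (d + 1) = x.val + 1 + d + 1 := by ring
      rw [e1]
      refine hstep.trans ?_
      have e2 : ∀ T ⊆ allE (Fin n), (((upb T x (x.val + 1 + d)).card.ascFactorial j : ℕ) : ℝ) +
          p * (((upb T x (x.val + 1 + d)).card : ℝ) *
            (((((upb T x (x.val + 1 + d)).card + 1).ascFactorial j : ℕ) : ℝ) -
              (((upb T x (x.val + 1 + d)).card.ascFactorial j : ℕ) : ℝ))) =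
          (((upb T x (x.val + 1 + d)).card.ascFactorial j : ℕ) : ℝ) * (1 + p * j) := by
        intro T _
        set m := (upb T x (x.val + 1 + d)).card
        -- m ((m+1)^{(j)} - m^{(j)}) = j m^{(j)}
        have e3 : m * (m + 1).ascFactorial j = (m + j) * m.ascFactorial j :=
          Nat.succ_ascFactorial m j
        have e4 : (m:ℝ) * (((m + 1).ascFactorial j : ℕ) : ℝ) =
            (m + j) * ((m.ascFactorial j : ℕ) : ℝ) := by exact_mod_cast e3
        have e5 : (m:ℝ) * ((((m + 1).ascFactorial j : ℕ) : ℝ) - ((m.ascFactorial j : ℕ) : ℝ)) =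
            j * ((m.ascFactorial j : ℕ) : ℝ) := by
          rw [mul_sub, e4]; ring
        rw [e5]; ring
      rw [Ex_congr e2, Ex_mul_const]
      calc _ ≤ (j.factorial * (1 + p * j) ^ d) * (1 + p * j) :=
            mul_le_mul_of_nonneg_right ih (by positivity)
        _ = _ := by ring
  have h2 := key n
  have e1 : ∀ T : Finset (Sym2 (Fin n)), upb T x (x.val + 1 + n) = ups T x := by
    intro T
    ext z
    rw [mem_upb, mem_ups]
    have := z.isLt
    constructor
    · exact fun h => h.2
    · exact fun h => ⟨by omega, h⟩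
  simp only [e1] at h2
  exact h2

end Pool.Agent.H1.RO
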