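import Pool.Agent.H1.RO.UpperA

/-!
Upper bound for `c` much larger than `log log n`.
-/

set_option autoImplicit false
set_option linter.unusedSectionVars false

namespace Pool.Agent.H1.RO

open Finset Pool.Agent.H1.CC Filter

/-- there is a realiser with at most `y` linear orders -/
def Has {n : ℕ} (T : Finset (Sym2 (Fin n))) (y : ℝ) : Prop :=
  ∃ k : ℕ, (k:ℝ) ≤ y ∧ ∃ L : Fin k → Fin n → Fin n → Prop, IsRealiser (gle T) L

/-- tail of the size of an up-set -/
lemma prob_ups {n : ℕ} {p c : ℝ} (h0 : 0 ≤ p) (h1 : p ≤ 1) (hpc : p * n = c) (x : Fin n) (j : ℕ)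
    {y : ℝ} (hy : 0 < y) :
    Pr p (allE (Fin n)) (fun T => y ≤ ((ups T x).card : ℝ)) ≤
      j.factorial * Real.exp (c * j) / y ^ j := by
  have step1 : Pr p (allE (Fin n)) (fun T => y ≤ ((ups T x).card : ℝ)) ≤
      Pr p (allE (Fin n)) (fun T => y ^ j ≤ (((ups T x).card.ascFactorial j : ℕ) : ℝ)) := by
    apply Pr_mono h0 h1
    intro T _ h
    have h2 : y ^ j ≤ ((ups T x).card : ℝ) ^ j := pow_le_pow_left₀ hy.le h j
    have h3 : (ups T x).card ^ j ≤ (ups T x).card.ascFactorial j :=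
      Nat.pow_succ_le_ascFactorial _ _
    refine h2.trans ?_
    exact_mod_cast h3
  refine step1.trans ((markov h0 h1 (fun T _ => Nat.cast_nonneg _) (by positivity)).trans ?_)
  apply div_le_div_of_nonneg_right _ (by positivity)
  refine (ups_moment h0 h1 x j).trans ?_
  apply mul_le_mul_of_nonneg_left _ (Nat.cast_nonneg _)
  calc (1 + p * j) ^ n ≤ (Real.exp (p * j)) ^ n :=
        pow_le_pow_left₀ (by positivity) (by have := Real.add_one_le_exp (p * j); linarith) _
    _ = Real.exp (c * j) := by rw [← Real.exp_nat_mul, ← hpc]; congr 1; ring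

theorem upper_large {E : ℝ} (hE0 : 0 < E) (_hE1 : E ≤ 1 / 2) :
    ∀ᶠ n : ℕ in atTop, ∀ c : ℝ, 12 / E * Real.log (Real.log n) ≤ c → 1 ≤ c → c ≤ Real.log n →
      Pr (c / n) (allE (Fin n)) (fun T => ¬ Has T (Real.exp ((1 + 2 * E) * c))) ≤ 1 / n := by
  have a1 : ∀ᶠ L : ℝ in atTop, 4 * Real.log (L + 1) ≤ L := by
    have := log_small (c := 1) (C := 4) (by norm_num)
    filter_upwards [this] with L h
    linarith
  have a2 : ∀ᶠ n : ℕ in atTop, Real.log n ≤ n := by
    filter_upwards [eventually_ge_atTop 1] with n h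
    have := Real.log_le_sub_one_of_pos (show (0:ℝ) < n by exact_mod_cast h)
    linarith
  filter_upwards [tendsto_log_nat.eventually a1, tendsto_log_nat.eventually
    (eventually_ge_atTop (13:ℝ)), a2, eventually_ge_atTop 1] with n b1 b2 b3 b4
  intro c hc hc1 hcl
  set L := Real.log n with hL
  have hn : (0:ℝ) < n := by exact_mod_cast b4
  have hn0 : 0 < n := by omega
  have hL0 : 0 < L := by linarith
  have hnL : (n:ℝ) = Real.exp L := by rw [hL, Real.exp_log hn]
  set LL := Real.log L with hLL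
  have hLL1 : LL ≤ Real.log (L + 1) := Real.log_le_log hL0 (by linarith)
  have hLL2 : 2 ≤ LL := by
    rw [hLL, Real.le_log_iff_exp_le hL0]
    have h1 := Real.exp_one_lt_d9
    have h2 : Real.exp 2 = Real.exp 1 * Real.exp 1 := by rw [← Real.exp_add]; norm_num
    have h3 := Real.exp_pos 1
    rw [h2]; nlinarith only [h1, h3, b2]
  have hLL4 : 4 * LL ≤ L := by linarith
  have hc0 : 0 < c := by linarith
  set p : ℝ := c / n with hp
  have hp0 : 0 < p := by positivity
  have hp1 : p ≤ 1 := by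
    rw [hp, div_le_one hn]; linarith
  have hpn : p * n = c := by rw [hp]; field_simp
  have hEc : 12 * LL ≤ E * c := by
    have h1 := mul_le_mul_of_nonneg_left hc hE0.le
    have h2 : E * (12 / E * LL) = 12 * LL := by field_simp
    linarith
  have hEc0 : 0 < E * c := by positivity
  set Y : ℝ := Real.exp ((1 + E) * c) with hY
  have hY1 : 1 ≤ Y := Real.one_le_exp (by positivity)
  set Δ : ℕ := ⌊Y⌋₊ with hΔ
  have hΔ1 : 1 ≤ Δ := by rw [hΔ]; exact Nat.le_floor (by exact_mod_cast hY1)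
  have hΔY : (Δ:ℝ) ≤ Y := Nat.floor_le (by linarith)
  set j : ℕ := ⌈3 * L / (E * c)⌉₊ with hj
  have hj1 : 3 * L ≤ E * c * j := by
    have := Nat.le_ceil (3 * L / (E * c))
    rw [div_le_iff₀ hEc0] at this
    rw [hj]; linarith
  have hj2 : (j:ℝ) ≤ L / (4 * LL) + 1 := by
    have h1 := (Nat.ceil_lt_add_one (show 0 ≤ 3 * L / (E * c) by positivity)).le
    have h2 : 3 * L / (E * c) ≤ L / (4 * LL) := by
      rw [div_le_div_iff₀ hEc0 (by linarith)]
      nlinarith only [hEc, hL0]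
    linarith
  have hjL : (j:ℝ) ≤ L := by
    have h1 : L / (4 * LL) ≤ L / 8 := div_le_div_of_nonneg_left hL0.le (by norm_num) (by linarith)
    linarith
  have hjf : ((j.factorial : ℕ) : ℝ) ≤ n := by
    have h1 : ((j.factorial : ℕ) : ℝ) ≤ (j:ℝ) ^ j := by exact_mod_cast Nat.factorial_le_pow j
    have h2 : (j:ℝ) ^ j ≤ L ^ j := pow_le_pow_left₀ (Nat.cast_nonneg _) hjL j
    have h3 : L ^ j = Real.exp (j * LL) := by
      rw [Real.exp_nat_mul, hLL, Real.exp_log hL0]
    refine h1.trans (h2.trans ?_)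
    rw [h3, hnL]
    apply Real.exp_le_exp.2
    have h4 : (j:ℝ) * LL ≤ (L / (4 * LL) + 1) * LL :=
      mul_le_mul_of_nonneg_right hj2 (by linarith)
    have h5 : (L / (4 * LL) + 1) * LL = L / 4 + LL := by
      have : LL ≠ 0 := by linarith
      field_simp
    linarith
  -- few linear extensions when all up-sets are small
  have hdet : ∀ T : Finset (Sym2 (Fin n)), (∀ x, (ups T x).card ≤ Δ) →
      Has T (Real.exp ((1 + 2 * E) * c)) := by
    intro T hT
    set k : ℕ := ⌊6 * ((Δ:ℝ) + 1) * L⌋₊ + 1 with hk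
    refine ⟨k, ?_, real_of_ups hΔ1 hT ?_⟩
    · have h1 : ((⌊6 * ((Δ:ℝ) + 1) * L⌋₊ : ℕ) : ℝ) ≤ 6 * ((Δ:ℝ) + 1) * L :=
        Nat.floor_le (by positivity)
      have h2 : (k:ℝ) ≤ 13 * L * Y := by
        rw [hk]; push_cast
        have h3 : 6 * ((Δ:ℝ) + 1) * L ≤ 6 * (2 * Y) * L := by
          apply mul_le_mul_of_nonneg_right _ hL0.le
          linarith
        have h4 : 1 ≤ L * Y := by nlinarith only [hY1, b2]
        nlinarith only [h1, h3, h4]
      refine h2.trans ?_
      have h5 : Real.exp ((1 + 2 * E) * c) = Real.exp (E * c) * Y := by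
        rw [hY, ← Real.exp_add]; congr 1; ring
      rw [h5]
      apply mul_le_mul_of_nonneg_right _ (by linarith)
      have h6 : Real.exp (2 * LL) ≤ Real.exp (E * c) := Real.exp_le_exp.2 (by linarith)
      have h7 : Real.exp (2 * LL) = L * L := by
        rw [two_mul, Real.exp_add, hLL, Real.exp_log hL0]
      nlinarith only [h6, h7, b2]
    · have h1 : 0 ≤ 1 - 1 / (3 * ((Δ:ℝ) + 1)) := by
        have : 1 / (3 * ((Δ:ℝ) + 1)) ≤ 1 := by
          rw [div_le_one (by positivity)]; linarith [Nat.cast_nonneg (α := ℝ) Δ]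
        linarith
      have h2 : (1 - 1 / (3 * ((Δ:ℝ) + 1))) ^ k ≤ Real.exp (-(k / (3 * ((Δ:ℝ) + 1)))) := by
        calc (1 - 1 / (3 * ((Δ:ℝ) + 1))) ^ k ≤ (Real.exp (-(1 / (3 * ((Δ:ℝ) + 1))))) ^ k := by
              apply pow_le_pow_left₀ h1
              have := Real.add_one_le_exp (-(1 / (3 * ((Δ:ℝ) + 1)))); linarith
          _ = _ := by rw [← Real.exp_nat_mul]; congr 1; ring
      have h3 : 2 * L < k / (3 * ((Δ:ℝ) + 1)) := by
        rw [lt_div_iff₀ (by positivity), hk]
        have := Nat.lt_floor_add_one (6 * ((Δ:ℝ) + 1) * L)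
        push_cast
        linarith
      have h4 : (n:ℝ) ^ 2 = Real.exp (2 * L) := by
        rw [hnL, ← Real.exp_nat_mul]; norm_num
      calc (1 - 1 / (3 * ((Δ:ℝ) + 1))) ^ k * (n:ℝ) ^ 2 ≤
          Real.exp (-(k / (3 * ((Δ:ℝ) + 1)))) * (n:ℝ) ^ 2 :=
            mul_le_mul_of_nonneg_right h2 (by positivity)
        _ = Real.exp (-(k / (3 * ((Δ:ℝ) + 1))) + 2 * L) := by rw [h4, ← Real.exp_add]
        _ < 1 := by rw [Real.exp_lt_one_iff]; linarith
  have hsub : Pr p (allE (Fin n)) (fun T => ¬ Has T (Real.exp ((1 + 2 * E) * c))) ≤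
      Pr p (allE (Fin n)) (fun T => ∃ x ∈ (Finset.univ : Finset (Fin n)),
        Y ≤ ((ups T x).card : ℝ)) := by
    apply Pr_mono hp0.le hp1
    intro T _ h
    by_contra hcon
    push Not at hcon
    apply h
    apply hdet
    intro x
    exact Nat.le_floor (hcon x (Finset.mem_univ x)).le
  refine hsub.trans ((Pr_exists_le hp0.le hp1 _ _).trans ?_)
  have hone : ∀ x ∈ (Finset.univ : Finset (Fin n)),
      Pr p (allE (Fin n)) (fun T => Y ≤ ((ups T x).card : ℝ)) ≤ n * Real.exp (-(3 * L)) := by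
    intro x _
    refine (prob_ups hp0.le hp1 hpn x j (by linarith)).trans ?_
    rw [mul_div_assoc]
    apply mul_le_mul hjf _ (by positivity) hn.le
    have h1 : Y ^ j = Real.exp (j * ((1 + E) * c)) := by rw [hY, ← Real.exp_nat_mul]
    rw [h1, ← Real.exp_sub]
    apply Real.exp_le_exp.2
    nlinarith only [hj1]
  refine (Finset.sum_le_sum hone).trans ?_
  rw [Finset.sum_const, nsmul_eq_mul, Finset.card_univ, Fintype.card_fin]
  apply le_of_eq
  rw [Real.exp_neg, show 3 * L = L + L + L by ring, Real.exp_add, Real.exp_add, ← hnL]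
  field_simp

end Pool.Agent.H1.RO
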